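import Mathlib.Combinatorics.SimpleGraph.Acyclic
import Mathlib.Order.CompletePartialOrder

/-! Minors and tree-width of finite simple graphs. -/

namespace Pool.Agent.MP_7be75d_co

/-- `H` is a minor of `G`: there are pairwise disjoint branch sets, one for every vertex of `H`,
each inducing a connected (in particular nonempty) subgraph of `G`, with an edge of `G` between
the branch sets of any two adjacent vertices of `H`. -/
def IsMinor {W V : Type} (H : SimpleGraph W) (G : SimpleGraph V) : Prop :=
  ∃ φ : W → Set V, (∀ w, (G.induce (φ w)).Connected) ∧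
    (∀ w w', w ≠ w' → Disjoint (φ w) (φ w')) ∧
    ∀ w w', H.Adj w w' → ∃ x ∈ φ w, ∃ y ∈ φ w', G.Adj x y

/-- `G` has a tree-decomposition of width at most `k`: a finite tree `T` with bags `B i` of at
most `k + 1` vertices, such that the nodes whose bag contains a given vertex induce a connected
(in particular nonempty) subgraph of `T`, and both ends of every edge lie in a common bag. -/
def HasTreeDecomp {V : Type} (G : SimpleGraph V) (k : ℕ) : Prop :=
  ∃ (ι : Type) (_ : Fintype ι) (T : SimpleGraph ι) (B : ι → Finset V), T.IsTree ∧
    (∀ v, (T.induce {i | v ∈ B i}).Connected) ∧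
    (∀ u v, G.Adj u v → ∃ i, u ∈ B i ∧ v ∈ B i) ∧ ∀ i, (B i).card ≤ k + 1

/-- The tree-width of a finite graph: the least width of a tree-decomposition. -/
noncomputable def treewidth {V : Type} (G : SimpleGraph V) : ℕ := sInf {k | HasTreeDecomp G k}

/-- Planarity in the form given by the theorem of Wagner: no `K₅` minor and no `K₃,₃` minor. -/
def IsPlanar {W : Type} (H : SimpleGraph W) : Prop :=
  ¬ IsMinor (⊤ : SimpleGraph (Fin 5)) H ∧ ¬ IsMinor (completeBipartiteGraph (Fin 3) (Fin 3)) H

end Pool.Agent.MP_7be75d_co
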