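import Mathlib.Algebra.Order.Ring.Nat
import Mathlib.Order.Interval.Finset.Nat
import Mathlib.Algebra.Notation.Lemmas
import Mathlib.Combinatorics.SimpleGraph.Connectivity.Connected
import Mathlib.Data.Set.Card
import Mathlib.Order.CompletePartialOrder

-- ======== part 0: formerly Pool.Agent.MP_7be75d_co.Basic
section MrgPart0

/-! Reachability inside a vertex set, connected sets, components, boundaries. -/

namespace Pool.Agent.MP_7be75d_co

open Finset
open scoped Classical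

variable {V : Type} {G : SimpleGraph V}

/-- Reachability inside `U`. -/
def R (G : SimpleGraph V) (U : Finset V) : V → V → Prop :=
  Relation.ReflTransGen (fun a b => G.Adj a b ∧ a ∈ U ∧ b ∈ U)

namespace R

variable {U U' S : Finset V} {a b c : V}

theorem refl : R G U a a := Relation.ReflTransGen.refl

theorem trans (h : R G U a b) (h' : R G U b c) : R G U a c := Relation.ReflTransGen.trans h h'

theorem single (h : G.Adj a b) (ha : a ∈ U) (hb : b ∈ U) : R G U a b :=
  Relation.ReflTransGen.single ⟨h, ha, hb⟩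

theorem tail (h : R G U a b) (h' : G.Adj b c) (hb : b ∈ U) (hc : c ∈ U) : R G U a c :=
  Relation.ReflTransGen.tail h ⟨h', hb, hc⟩

theorem symm (h : R G U a b) : R G U b a := by
  induction h with
  | refl => exact refl
  | tail _ h2 ih => exact (single h2.1.symm h2.2.2 h2.2.1).trans ih

theorem mono' {G' : SimpleGraph V} (h : R G U a b)
    (hG : ∀ x y, G.Adj x y → x ∈ U → y ∈ U → G'.Adj x y) (hU : U ⊆ U') : R G' U' a b := by
  induction h with
  | refl => exact refl
  | tail _ h2 ih => exact ih.tail (hG _ _ h2.1 h2.2.1 h2.2.2) (hU h2.2.1) (hU h2.2.2)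

theorem mono (h : R G U a b) (hU : U ⊆ U') : R G U' a b := h.mono' (fun _ _ h _ _ => h) hU

theorem mem (h : R G U a b) (ha : a ∈ U) : b ∈ U := by
  induction h with
  | refl => exact ha
  | tail _ h2 _ => exact h2.2.2

theorem ind {P : V → Prop} (h : R G U a b) (ha : P a)
    (hs : ∀ x y, R G U a x → P x → G.Adj x y → x ∈ U → y ∈ U → P y) : P b := by
  induction h with
  | refl => exact ha
  | tail h1 h2 ih => exact hs _ _ h1 ih h2.1 h2.2.1 h2.2.2

/-- A walk from a point of a closed set stays in it. -/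
theorem closed (h : R G U a b) (ha : a ∈ S)
    (hS : ∀ x ∈ S, ∀ y ∈ U, x ∈ U → G.Adj x y → y ∈ S) : b ∈ S ∧ R G (U ∩ S) a b := by
  refine h.ind (P := fun b => b ∈ S ∧ R G (U ∩ S) a b) ⟨ha, refl⟩ ?_
  intro x y _ hx hxy hxU hyU
  have := hS x hx.1 y hyU hxU hxy
  exact ⟨this, hx.2.tail hxy (mem_inter.2 ⟨hxU, hx.1⟩) (mem_inter.2 ⟨hyU, this⟩)⟩

/-- A walk that leaves a set does so by a first edge. -/
theorem exit (h : R G U a b) (ha : a ∈ S) (hb : b ∉ S) :
    ∃ x y, x ∈ S ∧ y ∉ S ∧ x ∈ U ∧ y ∈ U ∧ G.Adj x y ∧ R G (U ∩ S) a x := by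
  have := h.ind (P := fun b => (b ∈ S ∧ R G (U ∩ S) a b) ∨
      ∃ x y, x ∈ S ∧ y ∉ S ∧ x ∈ U ∧ y ∈ U ∧ G.Adj x y ∧ R G (U ∩ S) a x) (Or.inl ⟨ha, refl⟩) (by
    intro x y _ hx hxy hxU hyU
    rcases hx with hx | hx
    · by_cases hy : y ∈ S
      · exact Or.inl ⟨hy, hx.2.tail hxy (mem_inter.2 ⟨hxU, hx.1⟩) (mem_inter.2 ⟨hyU, hy⟩)⟩
      · exact Or.inr ⟨x, y, hx.1, hy, hxU, hyU, hxy, hx.2⟩
    · exact Or.inr hx)
  rcases this with h | h
  · exact absurd h.1 hb
  · exact h

theorem exists_adj (h : R G U a b) (hab : a ≠ b) : ∃ y ∈ U, a ∈ U ∧ G.Adj a y := by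
  obtain ⟨x, y, hx, -, hxU, hyU, hxy, -⟩ := h.exit (S := {a}) (by simp) (by simpa using hab.symm)
  simp only [mem_singleton] at hx
  subst hx
  exact ⟨y, hyU, hxU, hxy⟩

end R

/-- Connected nonempty vertex sets. -/
def Conn (G : SimpleGraph V) (S : Finset V) : Prop :=
  S.Nonempty ∧ ∀ a ∈ S, ∀ b ∈ S, R G S a b

namespace Conn

variable {S T U : Finset V} {a b : V}

theorem of_center (ha : a ∈ S) (h : ∀ b ∈ S, R G S a b) : Conn G S :=
  ⟨⟨a, ha⟩, fun x hx y hy => (h x hx).symm.trans (h y hy)⟩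

theorem singleton (a : V) : Conn G {a} :=
  of_center (mem_singleton_self a) (fun b hb => by rw [mem_singleton.1 hb]; exact R.refl)

theorem r (h : Conn G S) (ha : a ∈ S) (hb : b ∈ S) (hU : S ⊆ U) : R G U a b :=
  (h.2 a ha b hb).mono hU

theorem union (hS : Conn G S) (hT : Conn G T) (ha : a ∈ S) (ha' : a ∈ T) : Conn G (S ∪ T) :=
  of_center (mem_union_left _ ha) fun b hb => by
    rcases mem_union.1 hb with hb | hb
    · exact hS.r ha hb subset_union_left
    · exact hT.r ha' hb subset_union_right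

theorem union_adj (hS : Conn G S) (hT : Conn G T) (ha : a ∈ S) (hb : b ∈ T) (hab : G.Adj a b) :
    Conn G (S ∪ T) :=
  of_center (mem_union_left _ ha) fun c hc => by
    rcases mem_union.1 hc with hc | hc
    · exact hS.r ha hc subset_union_left
    · exact (R.single hab (mem_union_left _ ha) (mem_union_right _ hb)).trans
        (hT.r hb hc subset_union_right)

theorem insert (hS : Conn G S) (ha : a ∈ S) (hab : G.Adj a b) : Conn G (insert b S) := by
  have := hS.union_adj (singleton b) ha (mem_singleton_self b) hab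
  rwa [union_comm, ← insert_eq] at this

theorem pair (hab : G.Adj a b) : Conn G {a, b} :=
  (singleton b).insert (mem_singleton_self b) hab.symm

theorem mono' {G' : SimpleGraph V} (h : Conn G S)
    (hG : ∀ x y, G.Adj x y → x ∈ S → y ∈ S → G'.Adj x y) : Conn G' S :=
  ⟨h.1, fun a ha b hb => (h.2 a ha b hb).mono' hG subset_rfl⟩

/-- A connected set meeting a closed set lies in it. -/
theorem subset_of_closed (h : Conn G S) (ha : a ∈ S) (haT : a ∈ T)
    (hT : ∀ x ∈ T, ∀ y ∈ S, x ∈ S → G.Adj x y → y ∈ T) : S ⊆ T :=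
  fun b hb => ((h.2 a ha b hb).closed haT hT).1

theorem exit (h : Conn G S) (ha : a ∈ S) (haT : a ∈ T) (hb : b ∈ S) (hbT : b ∉ T) :
    ∃ x y, x ∈ T ∧ y ∉ T ∧ x ∈ S ∧ y ∈ S ∧ G.Adj x y := by
  obtain ⟨x, y, h1, h2, h3, h4, h5, -⟩ := (h.2 a ha b hb).exit haT hbT
  exact ⟨x, y, h1, h2, h3, h4, h5⟩

theorem exists_adj (h : Conn G S) (ha : a ∈ S) (hb : b ∈ S) (hab : a ≠ b) :
    ∃ y ∈ S, G.Adj a y := by
  obtain ⟨y, hy, -, h⟩ := (h.2 a ha b hb).exists_adj hab
  exact ⟨y, hy, h⟩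

theorem biUnion {ι : Type} {I : Finset ι} {f : ι → Finset V} {A : SimpleGraph ι}
    (hI : Conn A I) (hf : ∀ i ∈ I, Conn G (f i))
    (hA : ∀ i ∈ I, ∀ j ∈ I, A.Adj i j → ∃ x ∈ f i, ∃ y ∈ f j, G.Adj x y) :
    Conn G (I.biUnion f) := by
  obtain ⟨i, hi⟩ := hI.1
  obtain ⟨a, ha⟩ := (hf i hi).1
  refine of_center (mem_biUnion.2 ⟨i, hi, ha⟩) ?_
  intro b hb
  obtain ⟨j, hj, hb⟩ := mem_biUnion.1 hb
  have := (hI.2 i hi j hj).ind (P := fun j => ∀ b ∈ f j, R G (I.biUnion f) a b)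
    (fun b hb => (hf i hi).r ha hb (subset_biUnion_of_mem f hi)) (by
      intro x y _ hx hxy hxI hyI b hb
      obtain ⟨u, hu, v, hv, huv⟩ := hA x hxI y hyI hxy
      exact ((hx u hu).tail huv (mem_biUnion.2 ⟨x, hxI, hu⟩) (mem_biUnion.2 ⟨y, hyI, hv⟩)).trans
        ((hf y hyI).r hv hb (subset_biUnion_of_mem f hyI)))
  exact this b hb

end Conn

/-- The component of `v` in `U`. -/
noncomputable def comp (G : SimpleGraph V) (U : Finset V) (v : V) : Finset V :=
  U.filter (R G U v)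

section comp

variable {U U' S : Finset V} {v u x y : V}

theorem mem_comp : u ∈ comp G U v ↔ u ∈ U ∧ R G U v u := mem_filter

theorem comp_subset : comp G U v ⊆ U := filter_subset _ _

theorem self_mem_comp (hv : v ∈ U) : v ∈ comp G U v := mem_comp.2 ⟨hv, R.refl⟩

theorem comp_closed (hx : x ∈ comp G U v) (hy : y ∈ U) (h : G.Adj x y) : y ∈ comp G U v :=
  mem_comp.2 ⟨hy, (mem_comp.1 hx).2.tail h (mem_comp.1 hx).1 hy⟩

theorem comp_conn (hv : v ∈ U) : Conn G (comp G U v) :=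
  Conn.of_center (self_mem_comp hv) fun b hb => by
    have := ((mem_comp.1 hb).2.closed (S := comp G U v) (self_mem_comp hv)
      (fun x hx y hy _ h => comp_closed hx hy h)).2
    exact this.mono inter_subset_right

theorem Conn.subset_comp (h : Conn G S) (hS : S ⊆ U) (hx : x ∈ S) (hv : x ∈ comp G U v) :
    S ⊆ comp G U v :=
  h.subset_of_closed hx hv fun _ ha _ hb _ hab => comp_closed ha (hS hb) hab

theorem comp_eq (hu : u ∈ comp G U v) : comp G U u = comp G U v := by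
  ext x
  simp only [mem_comp] at *
  exact ⟨fun h => ⟨h.1, hu.2.trans h.2⟩, fun h => ⟨h.1, hu.2.symm.trans h.2⟩⟩

theorem comp_mono (h : U ⊆ U') : comp G U v ⊆ comp G U' v := fun _ hx =>
  mem_comp.2 ⟨h (mem_comp.1 hx).1, (mem_comp.1 hx).2.mono h⟩

theorem R.exists_conn (h : R G U x y) (hx : x ∈ U) :
    ∃ S ⊆ U, Conn G S ∧ x ∈ S ∧ y ∈ S :=
  ⟨comp G U x, comp_subset, comp_conn hx, self_mem_comp hx, mem_comp.2 ⟨h.mem hx, h⟩⟩

end comp

/-- The vertices of `F` with a neighbour in `U` outside `F`. -/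
noncomputable def bd (G : SimpleGraph V) (U F : Finset V) : Finset V :=
  F.filter fun v => ∃ u ∈ U, u ∉ F ∧ G.Adj v u

theorem mem_bd {U F : Finset V} {v : V} :
    v ∈ bd G U F ↔ v ∈ F ∧ ∃ u ∈ U, u ∉ F ∧ G.Adj v u := mem_filter

theorem bd_subset {U F : Finset V} : bd G U F ⊆ F := filter_subset _ _

theorem mem_of_not_mem_bd {U F : Finset V} {v u : V} (hv : v ∈ F) (h : v ∉ bd G U F)
    (hu : u ∈ U) (huv : G.Adj v u) : u ∈ F := by
  by_contra hc
  exact h (mem_bd.2 ⟨hv, u, hu, hc, huv⟩)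

/-- An injective path given as a function. -/
theorem R.exists_path {S : Finset V} {a b : V} (h : R G S a b) (ha : a ∈ S) :
    ∃ (L : ℕ) (f : ℕ → V), f 0 = a ∧ f L = b ∧ (∀ j ≤ L, f j ∈ S) ∧
      (∀ j < L, G.Adj (f j) (f (j + 1))) ∧ ∀ i ≤ L, ∀ j ≤ L, f i = f j → i = j := by
  refine h.ind (P := fun b => ∃ (L : ℕ) (f : ℕ → V), f 0 = a ∧ f L = b ∧ (∀ j ≤ L, f j ∈ S) ∧
      (∀ j < L, G.Adj (f j) (f (j + 1))) ∧ ∀ i ≤ L, ∀ j ≤ L, f i = f j → i = j)
    ⟨0, fun _ => a, rfl, rfl, fun _ _ => ha, fun _ h => by omega, fun _ _ _ _ _ => by omega⟩ ?_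
  rintro x y _ ⟨L, f, h0, hL, hS, hA, hI⟩ hxy hx hy
  by_cases hc : ∃ j ≤ L, f j = y
  · obtain ⟨j, hj, hjy⟩ := hc
    exact ⟨j, f, h0, hjy, fun i hi => hS i (by omega), fun i hi => hA i (by omega),
      fun i hi k hk => hI i (by omega) k (by omega)⟩
  · push Not at hc
    refine ⟨L + 1, fun j => if j ≤ L then f j else y, by simpa using h0, by simp, ?_, ?_, ?_⟩
    · intro j hj
      by_cases h : j ≤ L <;> simp [h, hS, hy]
    · intro j hj
      by_cases h : j + 1 ≤ L
      · simp only [h, show j ≤ L by omega, if_true]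
        exact hA j (by omega)
      · obtain rfl : j = L := by omega
        simpa [hL] using hxy
    · intro i hi j hj
      by_cases h1 : i ≤ L <;> by_cases h2 : j ≤ L <;> simp only [h1, h2, if_true, if_false]
      · exact hI i h1 j h2
      · exact fun h => absurd h (hc i h1)
      · exact fun h => absurd h.symm (hc j h2)
      · intro; omega

theorem conn_segment {f : ℕ → V} {lo hi : ℕ} (h : lo ≤ hi)
    (hA : ∀ j, lo ≤ j → j < hi → G.Adj (f j) (f (j + 1))) : Conn G ((Icc lo hi).image f) := by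
  induction hi, h using Nat.le_induction with
  | base => simpa using Conn.singleton (f lo)
  | succ n hn ih =>
    have : Icc lo (n + 1) = insert (n + 1) (Icc lo n) := by
      ext x; simp only [mem_Icc, mem_insert]; omega
    rw [this, image_insert]
    exact (ih fun j h1 h2 => hA j h1 (by omega)).insert
      (mem_image_of_mem f (mem_Icc.2 ⟨hn, le_rfl⟩)) (hA n hn (by omega))

theorem Conn.connected {S : Finset V} (h : Conn G S) : (G.induce (S : Set V)).Connected := by
  obtain ⟨a, ha⟩ := h.1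
  have : Nonempty (S : Set V) := ⟨⟨a, ha⟩⟩
  refine ⟨fun x y => ?_⟩
  have key : ∀ b, R G S x.1 b → ∀ hb : b ∈ S, (G.induce (S : Set V)).Reachable x ⟨b, hb⟩ := by
    intro b hb
    refine hb.ind (P := fun b => ∀ hb : b ∈ S, (G.induce (S : Set V)).Reachable x ⟨b, hb⟩)
      (fun _ => SimpleGraph.Reachable.refl _) ?_
    intro u v _ ih huv hu hv hv'
    exact (ih hu).trans (SimpleGraph.Adj.reachable (by simpa using huv))
  exact key y.1 (h.2 _ x.2 _ y.2) y.2

theorem conn_of_connected {S : Finset V} (h : (G.induce (S : Set V)).Connected) : Conn G S := by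
  obtain ⟨⟨a, ha⟩⟩ := h.nonempty
  refine ⟨⟨a, ha⟩, fun x hx y hy => ?_⟩
  obtain ⟨p⟩ := h.preconnected ⟨x, hx⟩ ⟨y, hy⟩
  have key : ∀ (u v : (S : Set V)) (p : (G.induce (S : Set V)).Walk u v), R G S u.1 v.1 := by
    intro u v p
    induction p with
    | nil => exact R.refl
    | @cons u w v h _ ih => exact (R.single (by simpa using h) u.2 w.2).trans ih
  exact key _ _ p

theorem exists_lex_min {α : Type} {p : α → Prop} (f g : α → ℕ) (h : ∃ a, p a) :
    ∃ a, p a ∧ (∀ b, p b → f a ≤ f b) ∧ ∀ b, p b → f b ≤ f a → g a ≤ g b := by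
  obtain ⟨a0, ha0⟩ := h
  obtain ⟨a1, ha1, h1⟩ := (measure f).wf.has_min {a | p a} ⟨a0, ha0⟩
  obtain ⟨a2, ha2, h2⟩ := (measure g).wf.has_min {a | p a ∧ f a ≤ f a1} ⟨a1, ha1, le_rfl⟩
  refine ⟨a2, ha2.1, fun b hb => ha2.2.trans (not_lt.1 (h1 b hb)), fun b hb hf => ?_⟩
  exact not_lt.1 (h2 b ⟨hb, hf.trans ha2.2⟩)

theorem exists_min_of {α : Type} {p : α → Prop} (f : α → ℕ) (h : ∃ a, p a) :
    ∃ a, p a ∧ ∀ b, p b → f a ≤ f b := by
  obtain ⟨a, h1, h2, -⟩ := exists_lex_min f f h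
  exact ⟨a, h1, h2⟩

theorem exists_max_of {α : Type} {p : α → Prop} (f : α → ℕ) (N : ℕ) (hN : ∀ a, p a → f a ≤ N)
    (h : ∃ a, p a) : ∃ a, p a ∧ ∀ b, p b → f b ≤ f a := by
  obtain ⟨a, h1, h2⟩ := exists_min_of (fun a => N - f a) h
  refine ⟨a, h1, fun b hb => ?_⟩
  have := h2 b hb
  have := hN a h1
  have := hN b hb
  omega

end Pool.Agent.MP_7be75d_co

end MrgPart0

-- ======== part 1: formerly Pool.Agent.MP_7be75d_co.Menger
section MrgPart1

/-! The theorem of Menger (proof of Goering), with connected sets in place of paths. -/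

namespace Pool.Agent.MP_7be75d_co

open Finset
open scoped Classical

variable {V : Type} {G : SimpleGraph V}

/-- `Z` does not separate `A` from `B` in `U`. -/
def Joined (G : SimpleGraph V) (U A B Z : Finset V) : Prop :=
  ∃ a ∈ A, ∃ b ∈ B, a ∈ U \ Z ∧ R G (U \ Z) a b

/-- A family of disjoint connected subsets of `U`, each meeting `A` and `B`. -/
structure Linkage (G : SimpleGraph V) (U A B : Finset V) {ι : Type} (P : ι → Finset V) : Prop where
  sub : ∀ i, P i ⊆ U
  conn : ∀ i, Conn G (P i)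
  disj : ∀ i j, i ≠ j → Disjoint (P i) (P j)
  left : ∀ i, ∃ a ∈ A, a ∈ P i
  right : ∀ i, ∃ b ∈ B, b ∈ P i

theorem Joined.symm {U A B Z : Finset V} (h : Joined G U A B Z) : Joined G U B A Z := by
  obtain ⟨a, ha, b, hb, h1, h2⟩ := h
  exact ⟨b, hb, a, ha, h2.mem h1, h2.symm⟩

theorem Linkage.symm {U A B : Finset V} {ι : Type} {P : ι → Finset V} (h : Linkage G U A B P) :
    Linkage G U B A P := ⟨h.sub, h.conn, h.disj, h.right, h.left⟩

/-- A linkage with as many members as `A` has elements can be indexed by the elements of `A`. -/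
theorem Linkage.reindex {U A B : Finset V} {ι κ : Type} [Fintype ι] [Fintype κ]
    {P : ι → Finset V} (h : Linkage G U A B P) (p : κ → V) (hA : A ⊆ univ.image p)
    (hc : Fintype.card κ ≤ Fintype.card ι) :
    ∃ Q : κ → Finset V, Linkage G U A B Q ∧ (∀ k, p k ∈ Q k) ∧ ∀ k, p k ∈ A := by
  have h1 : ∀ i, ∃ k, p k ∈ A ∧ p k ∈ P i := by
    intro i
    obtain ⟨a, ha, hai⟩ := h.left i
    obtain ⟨k, -, rfl⟩ := mem_image.1 (hA ha)
    exact ⟨k, ha, hai⟩
  choose f hf1 hf2 using h1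
  have hinj : Function.Injective f := by
    intro i j hij
    by_contra hne
    exact disjoint_left.1 (h.disj i j hne) (hf2 i) (hij ▸ hf2 j)
  have hbij : Function.Bijective f :=
    (Fintype.bijective_iff_injective_and_card f).2
      ⟨hinj, le_antisymm (Fintype.card_le_of_injective f hinj) hc⟩
  let e := Equiv.ofBijective f hbij
  have he : ∀ k, f (e.symm k) = k := fun k => e.apply_symm_apply k
  refine ⟨fun k => P (e.symm k), ⟨fun k => h.sub _, fun k => h.conn _,
    fun k l hkl => h.disj _ _ (fun hc => hkl (e.symm.injective hc)), fun k => h.left _,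
    fun k => h.right _⟩, fun k => ?_, fun k => ?_⟩
  · have := hf2 (e.symm k); rwa [he] at this
  · have := hf1 (e.symm k); rwa [he] at this

/-- Trimming a connected set that contains a point of `A` and exactly one point of `P`. -/
theorem trim {S A P : Finset V} {p : V} (hS : Conn G S) (hA : ∃ a ∈ A, a ∈ S) (hp : p ∈ S)
    (hP : ∀ x ∈ S, x ∈ P → x = p) :
    ∃ S' ⊆ S, Conn G S' ∧ (∃ a ∈ A, a ∈ S') ∧ p ∈ S' ∧
      ∀ z ∈ S', z ≠ p → ∃ a ∈ A, a ∈ S \ P ∧ R G (S \ P) a z := by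
  obtain ⟨a, ha, haS⟩ := hA
  by_cases hap : a = p
  · exact ⟨{p}, by simpa using hp, Conn.singleton p, ⟨a, ha, by simp [hap]⟩, by simp, by simp⟩
  have ha' : a ∈ S \ P := mem_sdiff.2 ⟨haS, fun h => hap (hP a haS h)⟩
  by_cases hpc : p ∈ comp G (S \ P) a
  · exact ⟨comp G (S \ P) a, comp_subset.trans sdiff_subset, comp_conn ha',
      ⟨a, ha, self_mem_comp ha'⟩, hpc, fun z hz _ => ⟨a, ha, ha', (mem_comp.1 hz).2⟩⟩
  obtain ⟨x, y, hx, hy, -, hyS, hxy⟩ := hS.exit haS (self_mem_comp ha') hp hpc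
  have hyp : y = p := hP y hyS (by
    by_contra hc
    exact hy (comp_closed hx (mem_sdiff.2 ⟨hyS, hc⟩) hxy))
  subst hyp
  refine ⟨insert y (comp G (S \ P) a), insert_subset hyS (comp_subset.trans sdiff_subset),
    (comp_conn ha').insert hx hxy, ⟨a, ha, mem_insert_of_mem (self_mem_comp ha')⟩,
    mem_insert_self _ _, fun z hz hzy => ?_⟩
  exact ⟨a, ha, ha', (mem_comp.1 ((mem_insert.1 hz).resolve_left hzy)).2⟩

theorem R.split_edge {W : Finset V} {x y a b : V} (h : R G W a b) :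
    R (G.deleteEdges {s(x, y)}) W a b ∨
    (R (G.deleteEdges {s(x, y)}) W a x ∧ R (G.deleteEdges {s(x, y)}) W y b ∧ y ∈ W) ∨
    (R (G.deleteEdges {s(x, y)}) W a y ∧ R (G.deleteEdges {s(x, y)}) W x b ∧ x ∈ W) := by
  refine h.ind (P := fun b => R (G.deleteEdges {s(x, y)}) W a b ∨
    (R (G.deleteEdges {s(x, y)}) W a x ∧ R (G.deleteEdges {s(x, y)}) W y b ∧ y ∈ W) ∨
    (R (G.deleteEdges {s(x, y)}) W a y ∧ R (G.deleteEdges {s(x, y)}) W x b ∧ x ∈ W))
    (Or.inl R.refl) ?_
  intro u v _ ih huv hu hv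
  by_cases he : s(u, v) = s(x, y)
  · rcases Sym2.eq_iff.1 he with ⟨rfl, rfl⟩ | ⟨rfl, rfl⟩
    · rcases ih with ih | ih | ih
      · exact Or.inr (Or.inl ⟨ih, R.refl, hv⟩)
      · exact Or.inr (Or.inl ⟨ih.1, R.refl, hv⟩)
      · exact Or.inl ih.1
    · rcases ih with ih | ih | ih
      · exact Or.inr (Or.inr ⟨ih, R.refl, hv⟩)
      · exact Or.inl ih.1
      · exact Or.inr (Or.inr ⟨ih.1, R.refl, hv⟩)
  · have : (G.deleteEdges {s(x, y)}).Adj u v := by simp [huv, he]
    rcases ih with ih | ih | ih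
    · exact Or.inl (ih.tail this hu hv)
    · exact Or.inr (Or.inl ⟨ih.1, ih.2.1.tail this hu hv, ih.2.2⟩)
    · exact Or.inr (Or.inr ⟨ih.1, ih.2.1.tail this hu hv, ih.2.2⟩)

/-- One half of the inductive step. -/
theorem menger_half {U A B S : Finset V} {x y : V} {k : ℕ}
    (hk : ∀ Z : Finset V, Z.card < k → Joined G U A B Z)
    (hS : ¬ Joined (G.deleteEdges {s(x, y)}) U A B S)
    (hy : ∃ b ∈ B, y ∈ U \ S ∧ R (G.deleteEdges {s(x, y)}) (U \ S) y b)
    (Z : Finset V) (hZ : Z.card < k) : Joined (G.deleteEdges {s(x, y)}) U A (insert x S) Z := by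
  obtain ⟨a, ha, b, hb, haU, hab⟩ := hk Z hZ
  have key := hab.ind (P := fun v => (∃ p ∈ insert x S, R (G.deleteEdges {s(x, y)}) (U \ Z) a p) ∨
      (v ∉ insert x S ∧ R (G.deleteEdges {s(x, y)}) ((U \ Z) \ insert x S) a v ∧
        a ∉ insert x S)) (by
      by_cases h : a ∈ insert x S
      · exact Or.inl ⟨a, h, R.refl⟩
      · exact Or.inr ⟨h, R.refl, h⟩) (by
      intro u v _ ih huv hu hv
      rcases ih with ih | ⟨h1, h2, h3⟩
      · exact Or.inl ih
      have hsub : (U \ Z) \ insert x S ⊆ U \ S := by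
        intro z hz
        simp only [mem_sdiff, mem_insert, not_or] at hz ⊢
        exact ⟨hz.1.1, hz.2.2⟩
      by_cases he : s(u, v) = s(x, y)
      · exfalso
        rcases Sym2.eq_iff.1 he with ⟨rfl, rfl⟩ | ⟨rfl, rfl⟩
        · exact h1 (mem_insert_self _ _)
        · obtain ⟨b', hb', -, hyb⟩ := hy
          exact hS ⟨a, ha, b', hb', hsub (mem_sdiff.2 ⟨haU, h3⟩), (h2.mono hsub).trans hyb⟩
      · have hadj : (G.deleteEdges {s(x, y)}).Adj u v := by simp [huv, he]
        by_cases hvP : v ∈ insert x S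
        · exact Or.inl ⟨v, hvP, (h2.mono sdiff_subset).tail hadj hu hv⟩
        · exact Or.inr ⟨hvP, h2.tail hadj (mem_sdiff.2 ⟨hu, h1⟩) (mem_sdiff.2 ⟨hv, hvP⟩), h3⟩)
  rcases key with ⟨p, hp, h⟩ | ⟨-, h2, h3⟩
  · exact ⟨a, ha, p, hp, haU, h⟩
  · exfalso
    have hsub : (U \ Z) \ insert x S ⊆ U \ S := by
      intro z hz
      simp only [mem_sdiff, mem_insert, not_or] at hz ⊢
      exact ⟨hz.1.1, hz.2.2⟩
    exact hS ⟨a, ha, b, hb, hsub (mem_sdiff.2 ⟨haU, h3⟩), h2.mono hsub⟩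

theorem menger_step [Fintype V] {U A B S : Finset V} {x y : V} {k : ℕ} (hxy : G.Adj x y)
    (hk : ∀ Z : Finset V, Z.card < k → Joined G U A B Z) (hSk : S.card < k)
    (hS : ¬ Joined (G.deleteEdges {s(x, y)}) U A B S)
    (hx : ∃ a ∈ A, a ∈ U \ S ∧ R (G.deleteEdges {s(x, y)}) (U \ S) a x)
    (hy : ∃ b ∈ B, y ∈ U \ S ∧ R (G.deleteEdges {s(x, y)}) (U \ S) y b)
    (ih : ∀ A B : Finset V, (∀ Z : Finset V, Z.card < k → Joined (G.deleteEdges {s(x, y)}) U A B Z) →
      ∃ P : Fin k → Finset V, Linkage (G.deleteEdges {s(x, y)}) U A B P) :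
    ∃ P : Fin k → Finset V, Linkage G U A B P := by
  set G' := G.deleteEdges {s(x, y)} with hG'
  have hle : ∀ u v, G'.Adj u v → G.Adj u v := fun u v h => (SimpleGraph.deleteEdges_adj.1 h).1
  obtain ⟨a0, ha0, ha0U, ha0x⟩ := hx
  have hxU : x ∈ U \ S := ha0x.mem ha0U
  obtain ⟨b0, hb0, hyU, hyb0⟩ := hy
  obtain ⟨X0, hX0⟩ := ih A (insert x S) (menger_half hk hS ⟨b0, hb0, hyU, hyb0⟩)
  have hsw : G.deleteEdges {s(y, x)} = G' := by rw [Sym2.eq_swap]
  obtain ⟨Y0, hY0⟩ := ih B (insert y S) (by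
    have := menger_half (G := G) (x := y) (y := x) (A := B) (B := A) (S := S)
      (fun Z hZ => (hk Z hZ).symm) (by rw [hsw]; exact fun h => hS h.symm)
      (by rw [hsw]; exact ⟨a0, ha0, hxU, ha0x.symm⟩)
    rwa [hsw] at this)
  have hcard : Fintype.card (Option S) ≤ Fintype.card (Fin k) := by simp; omega
  let p : Option S → V := fun o => o.elim x Subtype.val
  let q : Option S → V := fun o => o.elim y Subtype.val
  have him : ∀ z, insert z S ⊆ univ.image (fun o : Option S => o.elim z Subtype.val) := by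
    intro z w hw
    rcases mem_insert.1 hw with rfl | hw
    · exact mem_image.2 ⟨none, mem_univ _, rfl⟩
    · exact mem_image.2 ⟨some ⟨w, hw⟩, mem_univ _, rfl⟩
  obtain ⟨X, hX, hXp, -⟩ := hX0.symm.reindex p (him x) hcard
  obtain ⟨Y, hY, hYq, -⟩ := hY0.symm.reindex q (him y) hcard
  have hXu : ∀ o, ∀ z ∈ X o, z ∈ insert x S → z = p o := by
    intro o z hz hz'
    obtain ⟨o', -, rfl⟩ := mem_image.1 (him x hz')
    by_cases h : o = o'
    · rw [h]
    · exact absurd (hXp o') (disjoint_left.1 (hX.disj o o' h) hz)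
  have hYu : ∀ o, ∀ z ∈ Y o, z ∈ insert y S → z = q o := by
    intro o z hz hz'
    obtain ⟨o', -, rfl⟩ := mem_image.1 (him y hz')
    by_cases h : o = o'
    · rw [h]
    · exact absurd (hYq o') (disjoint_left.1 (hY.disj o o' h) hz)
  choose X' hX1 hX2 hX3 hX4 hX5 using fun o => trim (hX.conn o) (hX.right o) (hXp o) (hXu o)
  choose Y' hY1 hY2 hY3 hY4 hY5 using fun o => trim (hY.conn o) (hY.right o) (hYq o) (hYu o)
  have hXA : ∀ o, ∀ z ∈ X' o, z ∉ S → ∃ a ∈ A, a ∈ U \ S ∧ R G' (U \ S) a z := by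
    intro o z hz hzS
    by_cases h : z = p o
    · cases o with
      | none => exact ⟨a0, ha0, ha0U, h ▸ ha0x⟩
      | some s => exact absurd (h ▸ s.2) hzS
    · obtain ⟨a, ha, h1, h2⟩ := hX5 o z hz h
      have hsub : X o \ insert x S ⊆ U \ S := sdiff_subset_sdiff (hX.sub o) (subset_insert _ _)
      exact ⟨a, ha, hsub h1, h2.mono hsub⟩
  have hYB : ∀ o, ∀ z ∈ Y' o, z ∉ S → ∃ b ∈ B, R G' (U \ S) z b := by
    intro o z hz hzS
    by_cases h : z = q o
    · cases o with
      | none => exact ⟨b0, hb0, h ▸ hyb0⟩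
      | some s => exact absurd (h ▸ s.2) hzS
    · obtain ⟨a, ha, h1, h2⟩ := hY5 o z hz h
      have hsub : Y o \ insert y S ⊆ U \ S := sdiff_subset_sdiff (hY.sub o) (subset_insert _ _)
      exact ⟨a, ha, (h2.mono hsub).symm⟩
  have hXY : ∀ o o', o ≠ o' → Disjoint (X' o) (Y' o') := by
    intro o o' hne
    rw [disjoint_left]
    intro z h1 h2
    by_cases hz : z ∈ S
    · have e1 := hXu o z (hX1 o h1) (mem_insert_of_mem hz)
      have e2 := hYu o' z (hY1 o' h2) (mem_insert_of_mem hz)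
      cases o with
      | none =>
        have e : z = x := e1
        exact (mem_sdiff.1 hxU).2 (e ▸ hz)
      | some s =>
        cases o' with
        | none =>
          have e : z = y := e2
          exact (mem_sdiff.1 hyU).2 (e ▸ hz)
        | some s' => exact hne (congrArg some (Subtype.ext (e1.symm.trans e2)))
    · obtain ⟨a, ha, h3, h4⟩ := hXA o z h1 hz
      obtain ⟨b, hb, h5⟩ := hYB o' z h2 hz
      exact hS ⟨a, ha, b, hb, h3, h4.trans h5⟩
  have hcard' : Fintype.card (Fin k) ≤ Fintype.card (Option S) := by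
    have hinj : ∀ i, ∃ o, p o ∈ X0 i := by
      intro i
      obtain ⟨b, hb, hb'⟩ := hX0.right i
      obtain ⟨o, -, rfl⟩ := mem_image.1 (him x hb)
      exact ⟨o, hb'⟩
    choose f hf using hinj
    refine Fintype.card_le_of_injective f fun i j hij => ?_
    by_contra hne
    exact disjoint_left.1 (hX0.disj i j hne) (hf i) (hij ▸ hf j)
  obtain ⟨e⟩ := Function.Embedding.nonempty_of_card_le hcard'
  refine ⟨fun i => X' (e i) ∪ Y' (e i), fun i => union_subset ((hX1 _).trans (hX.sub _))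
    ((hY1 _).trans (hY.sub _)), fun i => ?_, fun i j hij => ?_, fun i => ?_, fun i => ?_⟩
  · have c1 := (hX2 (e i)).mono' (G' := G) fun u v h _ _ => hle u v h
    have c2 := (hY2 (e i)).mono' (G' := G) fun u v h _ _ => hle u v h
    have m1 := hX4 (e i)
    have m2 := hY4 (e i)
    cases h : e i with
    | none => rw [h] at c1 c2 m1 m2; exact c1.union_adj c2 m1 m2 hxy
    | some s => rw [h] at c1 c2 m1 m2; exact c1.union c2 m1 m2
  · have hne : e i ≠ e j := fun h => hij (e.injective h)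
    rw [disjoint_union_left, disjoint_union_right, disjoint_union_right]
    exact ⟨⟨(hX.disj _ _ hne).mono (hX1 _) (hX1 _), hXY _ _ hne⟩, (hXY _ _ hne.symm).symm,
      (hY.disj _ _ hne).mono (hY1 _) (hY1 _)⟩
  · obtain ⟨a, ha, h⟩ := hX3 (e i)
    exact ⟨a, ha, mem_union_left _ h⟩
  · obtain ⟨a, ha, h⟩ := hY3 (e i)
    exact ⟨a, ha, mem_union_right _ h⟩

theorem menger [Fintype V] (U : Finset V) (k : ℕ) :
    ∀ (n : ℕ) (G : SimpleGraph V) (A B : Finset V), G.edgeSet.ncard ≤ n →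
      (∀ Z : Finset V, Z.card < k → Joined G U A B Z) →
      ∃ P : Fin k → Finset V, Linkage G U A B P := by
  intro n
  induction n with
  | zero =>
    intro G A B hn hk
    have hG : ∀ u v, ¬ G.Adj u v := by
      intro u v h
      have : s(u, v) ∈ G.edgeSet := h
      rw [(Set.ncard_eq_zero (Set.toFinite _)).1 (Nat.le_zero.1 hn)] at this
      exact this
    have hc : k ≤ (A ∩ B ∩ U).card := by
      by_contra hc
      obtain ⟨a, ha, b, hb, h1, h2⟩ := hk _ (not_le.1 hc)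
      have hab : a = b := by
        by_contra hne
        obtain ⟨y, -, -, h⟩ := h2.exists_adj hne
        exact hG _ _ h
      subst hab
      simp only [mem_sdiff, mem_inter] at h1
      exact h1.2 ⟨⟨ha, hb⟩, h1.1⟩
    obtain ⟨e⟩ := Function.Embedding.nonempty_of_card_le
      (α := Fin k) (β := (A ∩ B ∩ U : Finset V))
      (by rw [Fintype.card_fin, Fintype.card_coe]; exact hc)
    have he := fun i => mem_inter.1 (e i).2
    refine ⟨fun i => {(e i).1}, fun i => by simpa using (he i).2, fun i => Conn.singleton _,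
      fun i j hij => ?_, fun i => ⟨_, (mem_inter.1 (he i).1).1, mem_singleton_self _⟩,
      fun i => ⟨_, (mem_inter.1 (he i).1).2, mem_singleton_self _⟩⟩
    rw [disjoint_singleton]
    exact fun h => hij (e.injective (Subtype.ext h))
  | succ n ihn =>
    intro G A B hn hk
    by_cases h0 : G.edgeSet.ncard ≤ n
    · exact ihn G A B h0 hk
    obtain ⟨e, he⟩ : G.edgeSet.Nonempty := Set.nonempty_of_ncard_ne_zero (by omega)
    induction e using Sym2.ind with
    | _ x y =>
    have hxy : G.Adj x y := he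
    have hlt : (G.deleteEdges {s(x, y)}).edgeSet.ncard ≤ n := by
      have : (G.deleteEdges {s(x, y)}).edgeSet ⊂ G.edgeSet := by
        rw [SimpleGraph.edgeSet_deleteEdges]
        exact ⟨Set.sdiff_subset, fun h => (h he).2 rfl⟩
      have := Set.ncard_lt_ncard this (Set.toFinite _)
      omega
    have ih := fun A B => ihn (G.deleteEdges {s(x, y)}) A B hlt
    by_cases hsep : ∀ Z : Finset V, Z.card < k → Joined (G.deleteEdges {s(x, y)}) U A B Z
    · obtain ⟨P, hP⟩ := ih A B hsep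
      exact ⟨P, hP.sub, fun i => (hP.conn i).mono' fun u v h _ _ =>
        (SimpleGraph.deleteEdges_adj.1 h).1, hP.disj, hP.left, hP.right⟩
    push Not at hsep
    obtain ⟨S, hSk, hS⟩ := hsep
    obtain ⟨a, ha, b, hb, haU, hab⟩ := hk S hSk
    rcases hab.split_edge (x := x) (y := y) with h | h | h
    · exact absurd ⟨a, ha, b, hb, haU, h⟩ hS
    · exact menger_step hxy hk hSk hS ⟨a, ha, haU, h.1⟩ ⟨b, hb, h.2.2, h.2.1⟩ ih
    · rw [Sym2.eq_swap] at h hS ih
      exact menger_step hxy.symm hk hSk hS ⟨a, ha, haU, h.1⟩ ⟨b, hb, h.2.2, h.2.1⟩ ih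

/-- Menger, for a linkage that starts at prescribed points. -/
theorem menger_from [Fintype V] {ι : Type} [Fintype ι] {U B : Finset V} (p : ι → V)
    (h : ∀ Z : Finset V, Z.card < Fintype.card ι → Joined G U (univ.image p) B Z) :
    ∃ P : ι → Finset V, Linkage G U (univ.image p) B P ∧ ∀ i, p i ∈ P i := by
  obtain ⟨P, hP⟩ := menger U (Fintype.card ι) _ G _ B le_rfl h
  obtain ⟨Q, h1, h2, -⟩ := hP.reindex p subset_rfl (by simp)
  exact ⟨Q, h1, h2⟩

end Pool.Agent.MP_7be75d_co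

end MrgPart1

-- marker of a merged file
example : 731051 + 276142 = 731051 + 276142 := rfl
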