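import Mathlib.Data.Fin.VecNotation
import Pool.Agent.MP_7be75d_co.Defs
import Pool.Agent.MP_7be75d_co.Menger
import Mathlib.Tactic.FinCases

-- ======== part 0: formerly Pool.Agent.MP_7be75d_co.Forms
section MrgPart0

/-! Interfaces between the parts of the proof. -/

namespace Pool.Agent.MP_7be75d_co

open Finset
open scoped Classical

/-- `J` arises from `I` by adding vertices one at a time, each having at most one neighbour among
the vertices that are already present. -/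
def Peel {W : Type} (H : SimpleGraph W) (I J : Finset W) : Prop :=
  I ⊆ J ∧ ∀ S : Finset W, I ⊆ S → S ⊆ J → S ≠ I →
    ∃ w ∈ S, w ∉ I ∧ ∀ x ∈ S, ∀ y ∈ S, H.Adj w x → H.Adj w y → x = y

/-- No two vertex-disjoint cycles. -/
def NoTwoCycles {W : Type} (H : SimpleGraph W) : Prop :=
  ∀ (u v : W) (p : H.Walk u u) (q : H.Walk v v), p.IsCycle → q.IsCycle →
    ∃ x, x ∈ p.support ∧ x ∈ q.support

/-- After deleting the vertex `a`, the graph is contained in a cycle `c 0, …, c (m - 1)` with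
pendant trees (plus further trees). -/
def FormB {W : Type} [Fintype W] (H : SimpleGraph W) : Prop :=
  ∃ (a : W) (m : ℕ) (c : ℕ → W), (∀ i < m, ∀ j < m, c i = c j → i = j) ∧ (∀ i < m, c i ≠ a) ∧
    (∀ i < m, ∀ j < m, H.Adj (c i) (c j) →
      j = i + 1 ∨ i = j + 1 ∨ (i = 0 ∧ j + 1 = m) ∨ (j = 0 ∧ i + 1 = m)) ∧
    Peel H ((range m).image c) (univ.erase a)

/-- First ends of the nine edges of `K₅` minus the edge `02`. -/
def src : Fin 9 → Fin 5 := ![0, 0, 0, 1, 1, 1, 2, 2, 3]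

/-- Second ends of the nine edges of `K₅` minus the edge `02`. -/
def tgt : Fin 9 → Fin 5 := ![1, 3, 4, 2, 3, 4, 3, 4, 4]

/-- `K₅` minus an edge, where every edge `e` carries a copy of the rooted graph `J`: the root is
identified with `src e`, and `tgt e` is joined to all vertices of the copy. -/
def DD {τ : Type} (J : SimpleGraph (Option τ)) : SimpleGraph (Fin 5 ⊕ Fin 9 × τ) :=
  SimpleGraph.fromRel fun x y =>
    match x, y with
    | Sum.inl i, Sum.inl j => ∃ e, i = src e ∧ j = tgt e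
    | Sum.inl i, Sum.inr (e, t) => i = tgt e ∨ (i = src e ∧ J.Adj none (some t))
    | Sum.inr _, Sum.inl _ => False
    | Sum.inr (e, t), Sum.inr (e', t') => e = e' ∧ J.Adj (some t) (some t')

/-- The graph is a subgraph of `DD J` for a rooted forest `J`. -/
def FormD {W : Type} [Fintype W] (H : SimpleGraph W) : Prop :=
  ∃ J : SimpleGraph (Option W), Peel J {none} univ ∧
    ∃ f : W → Fin 5 ⊕ Fin 9 × W, Function.Injective f ∧
      ∀ w w', H.Adj w w' → (DD J).Adj (f w) (f w')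

/-- `X` has no balanced separator of size at most `t` inside `U`. -/
def Linked {V : Type} (G : SimpleGraph V) (U X : Finset V) (t : ℕ) : Prop :=
  ∀ Z : Finset V, Z.card ≤ t → ∃ v ∈ U \ Z, X.card < 2 * (X ∩ comp G (U \ Z) v).card

/-- Every vertex set has a balanced separator of size at most `σ`. -/
def Sep {V : Type} [Fintype V] (G : SimpleGraph V) (σ : ℕ) : Prop :=
  ∀ X : Finset V, ¬ Linked G univ X σ

end Pool.Agent.MP_7be75d_co

end MrgPart0

-- ======== part 1: formerly Pool.Agent.MP_7be75d_co.TwSep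
section MrgPart1

/-! Balanced separators give tree-decompositions, and linked sets force large tree-width. -/

namespace Pool.Agent.MP_7be75d_co

open Finset
open scoped Classical

variable {V : Type} {G : SimpleGraph V}

/-- A rooted tree-decomposition of the part `U`, given by a parent function, whose root bag
contains `X` and whose bags have at most `m` elements. -/
def RD (G : SimpleGraph V) (m : ℕ) (U X : Finset V) : Prop :=
  ∃ (ι : Type) (_ : Fintype ι) (r : ι) (p : ι → ι) (ρ : ι → ℕ) (B : ι → Finset V),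
    (∀ i, i ≠ r → ρ (p i) < ρ i) ∧ (∀ i, B i ⊆ U) ∧ (∀ i, (B i).card ≤ m) ∧ X ⊆ B r ∧
    (∀ v ∈ U, ∃ t, v ∈ B t ∧ ∀ i, v ∈ B i → i ≠ t → i ≠ r ∧ v ∈ B (p i)) ∧
    ∀ u ∈ U, ∀ v ∈ U, G.Adj u v → ∃ i, u ∈ B i ∧ v ∈ B i

theorem RD.single {m : ℕ} {W : Finset V} (h : W.card ≤ m) : RD G m W W :=
  ⟨Unit, inferInstance, (), id, fun _ => 0, fun _ => W, fun _ h => absurd rfl h,
    fun _ => subset_rfl, fun _ => h, subset_rfl,
    fun _ hv => ⟨(), hv, fun _ _ h => absurd rfl h⟩, fun _ hu _ hv _ => ⟨(), hu, hv⟩⟩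

theorem RD.mono {m : ℕ} {U X Y : Finset V} (h : RD G m U X) (hY : Y ⊆ X) : RD G m U Y := by
  obtain ⟨ι, hι, r, p, ρ, B, h1, h2, h3, h4, h5, h6⟩ := h
  exact ⟨ι, hι, r, p, ρ, B, h1, h2, h3, hY.trans h4, h5, h6⟩

theorem RD.merge {m : ℕ} {U U' X X' : Finset V} (h : RD G m U X) (h' : RD G m U' X')
    (hI : ∀ v ∈ U, v ∈ U' → v ∈ X ∧ v ∈ X')
    (hE : ∀ u ∈ U, ∀ v ∈ U', G.Adj u v → u ∈ U' ∨ v ∈ U) : RD G m (U ∪ U') X := by
  obtain ⟨ι, hι, r, p, ρ, B, h1, h2, h3, h4, h5, h6⟩ := h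
  obtain ⟨ι', hι', r', p', ρ', B', h1', h2', h3', h4', h5', h6'⟩ := h'
  refine ⟨ι ⊕ ι', inferInstance, Sum.inl r,
    Sum.elim (fun i => Sum.inl (p i)) (fun i => if i = r' then Sum.inl r else Sum.inr (p' i)),
    Sum.elim ρ (fun i => ρ' i + ρ r + 1), Sum.elim B B', ?_, ?_, ?_, h4, ?_, ?_⟩
  · rintro (i | i) hi
    · exact h1 i fun h => hi (by rw [h])
    · by_cases h : i = r'
      · simp only [Sum.elim_inr, h, if_true, Sum.elim_inl]; omega
      · have := h1' i h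
        simp only [Sum.elim_inr, h, if_false]; omega
  · rintro (i | i)
    · exact (h2 i).trans subset_union_left
    · exact (h2' i).trans subset_union_right
  · rintro (i | i)
    · exact h3 i
    · exact h3' i
  · intro v hv
    by_cases hU : v ∈ U
    · obtain ⟨t, ht, ht'⟩ := h5 v hU
      refine ⟨Sum.inl t, ht, ?_⟩
      rintro (i | i) hi hit
      · obtain ⟨a, b⟩ := ht' i hi fun h => hit (by rw [h])
        exact ⟨fun h => a (Sum.inl_injective h), b⟩
      · refine ⟨by simp, ?_⟩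
        have hv' : v ∈ U' := h2' i hi
        by_cases h : i = r'
        · simp only [Sum.elim_inr, h, if_true, Sum.elim_inl]
          exact h4 (hI v hU hv').1
        · simp only [Sum.elim_inr, h, if_false]
          obtain ⟨t', -, ht2⟩ := h5' v hv'
          have : r' = t' := by
            by_contra hc
            exact (ht2 r' (h4' (hI v hU hv').2) hc).1 rfl
          exact (ht2 i hi (this ▸ h)).2
    · have hv' : v ∈ U' := (mem_union.1 hv).resolve_left hU
      obtain ⟨t, ht, ht'⟩ := h5' v hv'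
      refine ⟨Sum.inr t, ht, ?_⟩
      rintro (i | i) hi hit
      · exact absurd (h2 i hi) hU
      · obtain ⟨a, b⟩ := ht' i hi fun h => hit (by rw [h])
        refine ⟨by simp, ?_⟩
        simpa only [Sum.elim_inr, a, if_false] using b
  · have key : ∀ u v, G.Adj u v → (u ∈ U ∧ v ∈ U) ∨ (u ∈ U' ∧ v ∈ U') →
        ∃ i, u ∈ Sum.elim B B' i ∧ v ∈ Sum.elim B B' i := by
      rintro u v huv (⟨hu, hv⟩ | ⟨hu, hv⟩)
      · obtain ⟨i, hi⟩ := h6 u hu v hv huv
        exact ⟨Sum.inl i, hi⟩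
      · obtain ⟨i, hi⟩ := h6' u hu v hv huv
        exact ⟨Sum.inr i, hi⟩
    intro u hu v hv huv
    refine key u v huv ?_
    rcases mem_union.1 hu with hu | hu <;> rcases mem_union.1 hv with hv | hv
    · exact Or.inl ⟨hu, hv⟩
    · rcases hE u hu v hv huv with h | h
      · exact Or.inr ⟨h, hv⟩
      · exact Or.inl ⟨hu, h⟩
    · rcases hE v hv u hu huv.symm with h | h
      · exact Or.inr ⟨hu, h⟩
      · exact Or.inl ⟨h, hv⟩
    · exact Or.inr ⟨hu, hv⟩

theorem RD.hasTreeDecomp [Fintype V] {k : ℕ} {X : Finset V} (h : RD G (k + 1) univ X) :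
    HasTreeDecomp G k := by
  obtain ⟨ι, hι, r, p, ρ, B, h1, -, h3, -, h5, h6⟩ := h
  let T : SimpleGraph ι := SimpleGraph.fromRel fun i j => i ≠ r ∧ j = p i
  have hadj : ∀ i, i ≠ r → T.Adj i (p i) := fun i hi => by
    rw [SimpleGraph.fromRel_adj]
    refine ⟨fun h => ?_, Or.inl ⟨hi, rfl⟩⟩
    have := h1 i hi
    rw [← h] at this
    exact lt_irrefl _ this
  have hreach : ∀ (S : Set ι) (t : ι) (ht : t ∈ S), (∀ i ∈ S, i ≠ t → i ≠ r ∧ p i ∈ S) →
      (T.induce S).Connected := by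
    intro S t ht hS
    have key : ∀ n (i : ι) (hi : i ∈ S), ρ i = n → (T.induce S).Reachable ⟨i, hi⟩ ⟨t, ht⟩ := by
      intro n
      induction n using Nat.strong_induction_on with
      | _ n ih =>
        intro i hi hn
        by_cases hit : i = t
        · subst hit; rfl
        · obtain ⟨a, b⟩ := hS i hi hit
          refine (SimpleGraph.Adj.reachable ?_).trans (ih (ρ (p i)) (hn ▸ h1 i a) (p i) b rfl)
          simpa using hadj i a
    have : Nonempty S := ⟨⟨t, ht⟩⟩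
    exact ⟨fun x y => (key _ x.1 x.2 rfl).trans (key _ y.1 y.2 rfl).symm⟩
  have hconn : T.Connected := by
    have := hreach Set.univ r trivial (fun i _ hi => ⟨hi, trivial⟩)
    exact (SimpleGraph.induceUnivIso T).connected_iff.1 this
  refine ⟨ι, hι, T, B, ?_, ?_, fun u v huv => h6 u (mem_univ _) v (mem_univ _) huv, h3⟩
  · rw [SimpleGraph.isTree_iff_connected_and_card]
    refine ⟨hconn, le_antisymm ?_ hconn.card_vert_le_card_edgeSet_add_one⟩
    have hs : Function.Surjective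
        (fun i : {i : ι // i ≠ r} => (⟨s(i.1, p i.1), hadj i.1 i.2⟩ : T.edgeSet)) := by
      rintro ⟨e, he⟩
      induction e using Sym2.ind with
      | _ a b =>
        have := (SimpleGraph.fromRel_adj _ _ _).1 ((SimpleGraph.mem_edgeSet T).1 he)
        rcases this.2 with ⟨h, rfl⟩ | ⟨h, rfl⟩
        · exact ⟨⟨a, h⟩, rfl⟩
        · exact ⟨⟨b, h⟩, Subtype.ext Sym2.eq_swap⟩
    have h2 : Nat.card T.edgeSet ≤ Nat.card {i : ι // i ≠ r} :=
      Nat.card_le_card_of_surjective _ hs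
    have h4 : Nat.card {i : ι // i ≠ r} + 1 = Nat.card ι := by
      rw [Nat.card_eq_fintype_card, Nat.card_eq_fintype_card, Fintype.card_subtype_compl,
        Fintype.card_subtype_eq]
      have : 0 < Fintype.card ι := Fintype.card_pos_iff.2 ⟨r⟩
      omega
    omega
  · intro v
    obtain ⟨t, ht, ht'⟩ := h5 v (mem_univ _)
    exact hreach {i | v ∈ B i} t ht ht'

theorem rd_of_sep [Fintype V] {s : ℕ} (h : Sep G s) (n : ℕ) : ∀ W A : Finset V, A.card = n →
    W.card ≤ 3 * s + 2 → Disjoint W A → (∀ x ∈ A, ∀ y, G.Adj x y → y ∈ A ∨ y ∈ W) →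
    (∀ v ∈ A, (W.filter fun y => ∃ x ∈ comp G A v, G.Adj x y).card ≤ 2 * s + 1) →
    RD G (3 * s + 2) (W ∪ A) W := by
  induction n using Nat.strong_induction_on with
  | _ n ih =>
  intro W A hn hW hd hcl hN
  rcases A.eq_empty_or_nonempty with rfl | ⟨v, hv⟩
  · simpa using RD.single hW
  set C := comp G A v with hC
  set N := W.filter fun y => ∃ x ∈ C, G.Adj x y with hNdef
  have hvC : v ∈ C := self_mem_comp hv
  have hCA : C ⊆ A := comp_subset
  have hdis : ∀ x, x ∈ W → x ∈ A → False := fun x a b => disjoint_left.1 hd a b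
  -- the rest
  have h1 : RD G (3 * s + 2) (W ∪ (A \ C)) W := by
    refine ih (A \ C).card ?_ W (A \ C) rfl hW (hd.mono_right sdiff_subset) ?_ ?_
    · rw [← hn]
      exact card_lt_card ⟨sdiff_subset, fun h => (mem_sdiff.1 (h hv)).2 hvC⟩
    · intro x hx y hxy
      obtain ⟨hxA, hxC⟩ := mem_sdiff.1 hx
      rcases hcl x hxA y hxy with hy | hy
      · exact Or.inl (mem_sdiff.2 ⟨hy, fun hyC => hxC (comp_closed hyC hxA hxy.symm)⟩)
      · exact Or.inr hy
    · intro u hu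
      refine le_trans (card_le_card ?_) (hN u (mem_sdiff.1 hu).1)
      intro y hy
      obtain ⟨hyW, x, hx, hxy⟩ := mem_filter.1 hy
      exact mem_filter.2 ⟨hyW, x, comp_mono sdiff_subset hx, hxy⟩
  -- the component
  have h2 : RD G (3 * s + 2) (N ∪ C) N := by
    have hs := h (insert v N)
    unfold Linked at hs
    push Not at hs
    obtain ⟨Z, hZ, hbal⟩ := hs
    have hNc : N.card ≤ 2 * s + 1 := hN v hv
    have hX : (insert v N).card ≤ 2 * s + 2 := (card_insert_le _ _).trans (by omega)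
    set W' := insert v N ∪ (Z ∩ C) with hW'
    have hW'c : W'.card ≤ 3 * s + 2 := by
      have : W'.card ≤ _ := card_union_le (insert v N) (Z ∩ C)
      have := card_le_card (inter_subset_left : Z ∩ C ⊆ Z)
      omega
    have h3 := ih (C \ W').card ?_ W' (C \ W') rfl hW'c disjoint_sdiff ?_ ?_
    · have he : W' ∪ (C \ W') = N ∪ C := by
        rw [union_sdiff_self_eq_union]
        ext x
        simp only [hW', mem_union, mem_insert, mem_inter]
        constructor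
        · rintro (((rfl | h) | h) | h)
          · exact Or.inr hvC
          · exact Or.inl h
          · exact Or.inr h.2
          · exact Or.inr h
        · rintro (h | h)
          · exact Or.inl (Or.inl (Or.inr h))
          · exact Or.inr h
      rw [he] at h3
      exact h3.mono ((subset_insert _ _).trans subset_union_left)
    · rw [← hn]
      refine card_lt_card ⟨sdiff_subset.trans hCA, fun h => (mem_sdiff.1 (h hv)).2 ?_⟩
      exact mem_union_left _ (mem_insert_self _ _)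
    · intro x hx y hxy
      obtain ⟨hxC, -⟩ := mem_sdiff.1 hx
      by_cases hy : y ∈ W'
      · exact Or.inr hy
      · refine Or.inl (mem_sdiff.2 ⟨?_, hy⟩)
        rcases hcl x (hCA hxC) y hxy with h | h
        · exact comp_closed hxC h hxy
        · exact absurd (mem_union_left _ (mem_insert_of_mem (mem_filter.2 ⟨h, x, hxC, hxy⟩))) hy
    · intro u hu
      have hsub : C \ W' ⊆ univ \ Z := fun x hx => mem_sdiff.2 ⟨mem_univ _, fun hz =>
        (mem_sdiff.1 hx).2 (mem_union_right _ (mem_inter.2 ⟨hz, (mem_sdiff.1 hx).1⟩))⟩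
      have hb := hbal u (hsub hu)
      have : (W'.filter fun y => ∃ x ∈ comp G (C \ W') u, G.Adj x y) ⊆
          Z ∪ (insert v N ∩ comp G (univ \ Z) u) := by
        intro y hy
        obtain ⟨hyW, x, hx, hxy⟩ := mem_filter.1 hy
        by_cases hyZ : y ∈ Z
        · exact mem_union_left _ hyZ
        · refine mem_union_right _ (mem_inter.2 ⟨?_, ?_⟩)
          · exact (mem_union.1 hyW).resolve_right fun h => hyZ (mem_inter.1 h).1
          · exact comp_closed (comp_mono hsub hx) (mem_sdiff.2 ⟨mem_univ _, hyZ⟩) hxy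
      have h4 := card_le_card this
      have h5 := card_union_le Z (insert v N ∩ comp G (univ \ Z) u)
      omega
  have h3 := h1.merge h2 ?_ ?_
  · have he : W ∪ (A \ C) ∪ (N ∪ C) = W ∪ A := by
      ext x
      simp only [mem_union, mem_sdiff]
      constructor
      · rintro ((h | h) | h | h)
        · exact Or.inl h
        · exact Or.inr h.1
        · exact Or.inl (mem_filter.1 h).1
        · exact Or.inr (hCA h)
      · rintro (h | h)
        · exact Or.inl (Or.inl h)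
        · by_cases hx : x ∈ C
          · exact Or.inr (Or.inr hx)
          · exact Or.inl (Or.inr ⟨h, hx⟩)
    rwa [he] at h3
  · intro x hx hx'
    rcases mem_union.1 hx' with h | h
    · exact ⟨(mem_filter.1 h).1, h⟩
    · rcases mem_union.1 hx with h' | h'
      · exact (hdis x h' (hCA h)).elim
      · exact absurd h (mem_sdiff.1 h').2
  · intro x hx y hy hxy
    rcases mem_union.1 hy with h | h
    · exact Or.inr (mem_union_left _ (mem_filter.1 h).1)
    · rcases mem_union.1 hx with h' | h'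
      · exact Or.inl (mem_union_left _ (mem_filter.2 ⟨h', y, h, hxy.symm⟩))
      · exact Or.inl (mem_union_right _ (comp_closed h (mem_sdiff.1 h').1 hxy.symm))

theorem treewidth_le_of_sep' {V : Type} [Fintype V] (G : SimpleGraph V) (s : ℕ) (h : Sep G s) :
    treewidth G ≤ 3 * s + 1 := by
  have := rd_of_sep h _ ∅ univ rfl (by simp) (by simp) (by simp) (by simp)
  rw [empty_union] at this
  exact Nat.sInf_le (RD.hasTreeDecomp (k := 3 * s + 1) this)

theorem treewidth_le_of_sep {V : Type} [Fintype V] (G : SimpleGraph V) (s : ℕ) (h : Sep G s) :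
    treewidth G ≤ 5 * s + 5 :=
  (treewidth_le_of_sep' G s h).trans (by omega)

theorem hasTreeDecomp_treewidth {V : Type} [Fintype V] (G : SimpleGraph V) :
    HasTreeDecomp G (treewidth G) := by
  have h : RD G (Fintype.card V + 1) univ univ := RD.single (by simp)
  exact Nat.sInf_mem (s := {k | HasTreeDecomp G k}) ⟨_, h.hasTreeDecomp⟩

/-- In a finite tree, sets `S i` that are connected and pairwise meet cannot all avoid `i`. -/
theorem tree_helly {ι : Type} [Fintype ι] {T : SimpleGraph ι} (hT : T.IsTree)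
    (S : ι → Finset ι) (hS : ∀ i, Conn T (S i)) (hm : ∀ i j, ∃ m, m ∈ S i ∧ m ∈ S j) :
    ∃ i, i ∈ S i := by
  by_contra hc
  push Not at hc
  have hlast : ∀ i m, T.Reachable i m → m ≠ i → ∃ j, T.Adj i j ∧ R T (univ.erase i) j m := by
    intro i m him
    rw [SimpleGraph.reachable_iff_reflTransGen] at him
    induction him with
    | refl => intro h; exact absurd rfl h
    | @tail b c _ h2 ih =>
      intro hc
      by_cases hb : b = i
      · exact ⟨c, hb ▸ h2, R.refl⟩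
      · obtain ⟨j, hj, hj'⟩ := ih hb
        exact ⟨j, hj, hj'.tail h2 (by simpa using hb) (by simpa using hc)⟩
  have hn : ∀ i, ∃ j, T.Adj i j ∧ ∀ m ∈ S i, (T.deleteEdges {s(i, j)}).Reachable j m := by
    intro i
    obtain ⟨m0, hm0⟩ := (hS i).1
    obtain ⟨j, hj, hj'⟩ := hlast i m0 (hT.connected i m0) (fun h => hc i (h ▸ hm0))
    refine ⟨j, hj, fun m hm' => ?_⟩
    have h1 : R T (univ.erase i) j m := hj'.trans ((hS i).r hm0 hm' fun x hx =>
      mem_erase.2 ⟨fun h => hc i (h ▸ hx), mem_univ _⟩)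
    refine h1.ind (P := fun m => (T.deleteEdges {s(i, j)}).Reachable j m) (by rfl) ?_
    intro x y _ hx hxy hxi hyi
    refine hx.trans (SimpleGraph.Adj.reachable ?_)
    rw [SimpleGraph.deleteEdges_adj]
    refine ⟨hxy, fun h => ?_⟩
    rcases Sym2.eq_iff.1 (Set.mem_singleton_iff.1 h) with h | h
    · exact (mem_erase.1 hxi).1 h.1
    · exact (mem_erase.1 hyi).1 h.2
  choose nx hnx hnx' using hn
  have hcard := hT.card_edgeFinset
  obtain ⟨i, -, j, -, hij, he⟩ := exists_ne_map_eq_of_card_lt_of_maps_to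
    (s := (univ : Finset ι)) (t := T.edgeFinset) (by rw [card_univ]; omega)
    (f := fun i => s(i, nx i)) (fun i _ => by simpa using hnx i)
  obtain ⟨m, hmi, hmj⟩ := hm i j
  have h1 := hnx' i m hmi
  have h2 := hnx' j m hmj
  rw [← he] at h2
  rcases Sym2.eq_iff.1 he with h | h
  · exact hij h.1
  · refine SimpleGraph.isBridge_iff.1 (SimpleGraph.isAcyclic_iff_forall_adj_isBridge.1
      hT.isAcyclic (hnx i)) ?_
    rw [← h.1] at h2
    exact h2.trans h1.symm

theorem le_treewidth_of_linked {V : Type} {G : SimpleGraph V} {U X : Finset V} {t : ℕ}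
    (h : Linked G U X t) : t ≤ treewidth (G.induce (U : Set V)) := by
  by_contra hc
  obtain ⟨ι, hι, T, B, hT, hB, hE, hcard⟩ := hasTreeDecomp_treewidth (G.induce (U : Set V))
  have hZ : ∀ i, ((B i).image Subtype.val).card ≤ t := fun i =>
    card_image_le.trans ((hcard i).trans (by omega))
  choose w hw hbig using fun i => h _ (hZ i)
  let K : ι → Finset V := fun i => comp G (U \ (B i).image Subtype.val) (w i)
  have hKU : ∀ i, K i ⊆ U := fun i => comp_subset.trans sdiff_subset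
  let N : V → Finset ι := fun v => univ.filter fun j => v ∈ (B j).image Subtype.val
  have hN : ∀ (v : V) (hv : v ∈ U) j, j ∈ N v ↔ (⟨v, hv⟩ : (U : Set V)) ∈ B j := by
    intro v hv j
    simp only [N, mem_filter, mem_univ, true_and, mem_image]
    exact ⟨fun ⟨a, ha, h⟩ => by subst h; exact ha, fun h => ⟨_, h, rfl⟩⟩
  have hNc : ∀ v ∈ U, Conn T (N v) := by
    intro v hv
    refine conn_of_connected ?_
    have : ((N v : Finset ι) : Set ι) = {i | (⟨v, hv⟩ : (U : Set V)) ∈ B i} := by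
      ext j; exact hN v hv j
    rw [this]
    exact hB _
  have hS : ∀ i, Conn T ((K i).biUnion N) := by
    intro i
    obtain ⟨a, ha⟩ := (hNc (w i) (mem_sdiff.1 (hw i)).1).1
    have hwK : w i ∈ K i := self_mem_comp (hw i)
    refine Conn.of_center (mem_biUnion.2 ⟨w i, hwK, ha⟩) ?_
    intro b hb
    obtain ⟨v, hv, hb⟩ := mem_biUnion.1 hb
    have := ((comp_conn (G := G) (hw i)).2 _ hwK v hv).ind
      (P := fun v => v ∈ K i ∧ ∀ b ∈ N v, R T ((K i).biUnion N) a b)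
      ⟨hwK, fun b hb => (hNc _ (hKU i hwK)).r ha hb (subset_biUnion_of_mem N hwK)⟩ (by
        intro x y _ hx hxy hxK hyK
        refine ⟨hyK, fun b hb => ?_⟩
        obtain ⟨j, hj, hj'⟩ := hE ⟨x, hKU i hxK⟩ ⟨y, hKU i hyK⟩ (by simpa using hxy)
        exact (hx.2 j ((hN _ _ j).2 hj)).trans
          ((hNc _ (hKU i hyK)).r ((hN _ _ j).2 hj') hb (subset_biUnion_of_mem N hyK)))
    exact this.2 b hb
  obtain ⟨i, hi⟩ := tree_helly hT _ hS (by
    intro i j
    have h1 := hbig i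
    have h2 := hbig j
    have h3 := card_union_add_card_inter (X ∩ K i) (X ∩ K j)
    have h4 : ((X ∩ K i) ∪ (X ∩ K j)).card ≤ X.card :=
      card_le_card (union_subset inter_subset_left inter_subset_left)
    have h5 : 0 < ((X ∩ K i) ∩ (X ∩ K j)).card := by
      change X.card < 2 * (X ∩ K i).card at h1
      change X.card < 2 * (X ∩ K j).card at h2
      omega
    obtain ⟨v, hv⟩ := card_pos.1 h5
    have hvi := (mem_inter.1 (mem_inter.1 hv).1).2
    have hvj := (mem_inter.1 (mem_inter.1 hv).2).2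
    obtain ⟨m, hm⟩ := (hNc v (hKU i hvi)).1
    exact ⟨m, mem_biUnion.2 ⟨v, hvi, hm⟩, mem_biUnion.2 ⟨v, hvj, hm⟩⟩)
  obtain ⟨v, hv, hi⟩ := mem_biUnion.1 hi
  exact (mem_sdiff.1 (comp_subset hv)).2 (mem_filter.1 hi).2

end Pool.Agent.MP_7be75d_co

end MrgPart1

-- ======== part 2: formerly Pool.Agent.MP_7be75d_co.Lovasz1
section MrgPart2

/-! Acyclic vertex sets, leaves, triangle minors, the Helly property of subtrees. -/

namespace Pool.Agent.MP_7be75d_co.Lov

open Finset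
open scoped Classical

variable {V : Type} {G : SimpleGraph V}

/-- `w` has at most one neighbour in `S`. -/
def Leaf (G : SimpleGraph V) (S : Finset V) (w : V) : Prop :=
  ∀ x ∈ S, ∀ y ∈ S, G.Adj w x → G.Adj w y → x = y

/-- Every nonempty subset of `S` has a vertex with at most one neighbour in the subset. -/
def Acyc (G : SimpleGraph V) (S : Finset V) : Prop :=
  ∀ T ⊆ S, T.Nonempty → ∃ w ∈ T, Leaf G T w

/-- There is an edge between `A` and `B`. -/
def Tch (G : SimpleGraph V) (A B : Finset V) : Prop := ∃ x ∈ A, ∃ y ∈ B, G.Adj x y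

/-- The number of neighbours of `a` in `S`. -/
noncomputable def nb (G : SimpleGraph V) (a : V) (S : Finset V) : ℕ := (S.filter (G.Adj a)).card

variable {S T U F X Y Z I P Q : Finset V} {a b u v w x y z r : V}

theorem Tch.symm (h : Tch G X Y) : Tch G Y X := by
  obtain ⟨x, hx, y, hy, h⟩ := h
  exact ⟨y, hy, x, hx, h.symm⟩

theorem tch_single (h : G.Adj x y) : Tch G {x} {y} :=
  ⟨x, mem_singleton_self x, y, mem_singleton_self y, h⟩

theorem tch_left (hy : y ∈ Y) (h : G.Adj x y) : Tch G {x} Y := ⟨x, mem_singleton_self x, y, hy, h⟩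

theorem one_le_nb : 1 ≤ nb G a S ↔ ∃ p ∈ S, G.Adj a p := by
  simp [nb, Nat.one_le_iff_ne_zero, card_eq_zero, ← nonempty_iff_ne_empty, filter_nonempty_iff]

theorem two_le_nb : 2 ≤ nb G a S ↔ ∃ p ∈ S, ∃ q ∈ S, p ≠ q ∧ G.Adj a p ∧ G.Adj a q := by
  unfold nb
  rw [show (2 : ℕ) = 1 + 1 from rfl, Nat.add_one_le_iff, one_lt_card]
  constructor
  · rintro ⟨p, hp, q, hq, h⟩
    exact ⟨p, (mem_filter.1 hp).1, q, (mem_filter.1 hq).1, h, (mem_filter.1 hp).2,
      (mem_filter.1 hq).2⟩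
  · rintro ⟨p, hp, q, hq, h, h1, h2⟩
    exact ⟨p, mem_filter.2 ⟨hp, h1⟩, q, mem_filter.2 ⟨hq, h2⟩, h⟩

theorem nb_mono (h : S ⊆ T) : nb G a S ≤ nb G a T := card_le_card (filter_subset_filter _ h)

theorem nb_union (h : Disjoint P Q) : nb G a (P ∪ Q) = nb G a P + nb G a Q := by
  unfold nb
  rw [filter_union, card_union_of_disjoint (disjoint_filter_filter h)]

theorem tch_of_nb (h : 1 ≤ nb G a S) : Tch G {a} S := by
  obtain ⟨p, hp, h⟩ := one_le_nb.1 h
  exact tch_left hp h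

theorem Leaf.mono (h : Leaf G S w) (hT : T ⊆ S) : Leaf G T w :=
  fun x hx y hy => h x (hT hx) y (hT hy)

theorem Leaf.of_erase (h : Leaf G (S.erase v) w) (hv : ¬ G.Adj w v) : Leaf G S w :=
  fun x hx y hy h1 h2 => h x (mem_erase.2 ⟨fun e => hv (e ▸ h1), hx⟩) y
    (mem_erase.2 ⟨fun e => hv (e ▸ h2), hy⟩) h1 h2

theorem Acyc.mono (h : Acyc G S) (hT : T ⊆ S) : Acyc G T := fun X hX => h X (hX.trans hT)

theorem Acyc.anti {G' : SimpleGraph V} (h : Acyc G' S)
    (hG : ∀ x ∈ S, ∀ y ∈ S, G.Adj x y → G'.Adj x y) : Acyc G S := by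
  intro T hT hne
  obtain ⟨w, hw, hl⟩ := h T hT hne
  exact ⟨w, hw, fun x hx y hy h1 h2 =>
    hl x hx y hy (hG _ (hT hw) _ (hT hx) h1) (hG _ (hT hw) _ (hT hy) h2)⟩

theorem acyc_empty : Acyc G ∅ := fun T hT hne => by
  rw [subset_empty.1 hT] at hne
  exact absurd hne not_nonempty_empty

theorem not_acyc (h : ¬ Acyc G S) : ∃ T ⊆ S, T.Nonempty ∧
    ∀ w ∈ T, ∃ x ∈ T, ∃ y ∈ T, G.Adj w x ∧ G.Adj w y ∧ x ≠ y := by
  unfold Acyc Leaf at h
  push Not at h
  exact h

theorem not_acyc_of (hT : T ⊆ S) (hne : T.Nonempty)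
    (h : ∀ w ∈ T, ∃ x ∈ T, ∃ y ∈ T, G.Adj w x ∧ G.Adj w y ∧ x ≠ y) : ¬ Acyc G S := by
  intro hA
  obtain ⟨w, hw, hl⟩ := hA T hT hne
  obtain ⟨x, hx, y, hy, h1, h2, h3⟩ := h w hw
  exact h3 (hl x hx y hy h1 h2)

/-- Adding a vertex with at most one neighbour keeps a set acyclic. -/
theorem Acyc.of_erase (h : Acyc G (S.erase w)) (hw : Leaf G S w) : Acyc G S := by
  intro T hT hne
  by_cases hwT : w ∈ T
  · exact ⟨w, hwT, hw.mono hT⟩
  · exact h T (fun x hx => mem_erase.2 ⟨fun e => hwT (e ▸ hx), hT hx⟩) hne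

theorem conn_erase_leaf (h : Conn G S) (hw : Leaf G S w) (hne : (S.erase w).Nonempty) :
    Conn G (S.erase w) := by
  refine ⟨hne, fun a ha b hb => ?_⟩
  have haS := (mem_erase.1 ha).2
  have key := (h.2 a haS b (mem_erase.1 hb).2).ind
    (P := fun c => (c ≠ w → R G (S.erase w) a c) ∧
      (c = w → ∃ x ∈ S.erase w, G.Adj w x ∧ R G (S.erase w) a x))
    ⟨fun _ => R.refl, fun e => absurd e (mem_erase.1 ha).1⟩ (by
      intro x y _ hx hxy hxS hyS
      refine ⟨fun hy => ?_, fun hy => ?_⟩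
      · by_cases e : x = w
        · obtain ⟨x', hx', h1, h2⟩ := hx.2 e
          have : x' = y := hw x' (mem_erase.1 hx').2 y hyS h1 (e ▸ hxy)
          exact this ▸ h2
        · exact (hx.1 e).tail hxy (mem_erase.2 ⟨e, hxS⟩) (mem_erase.2 ⟨hy, hyS⟩)
      · have e : x ≠ w := fun e => hxy.ne (e.trans hy.symm)
        exact ⟨x, mem_erase.2 ⟨e, hxS⟩, hy ▸ hxy.symm, hx.1 e⟩)
  exact key.1 (mem_erase.1 hb).1

/-- An acyclic set has a leaf outside any proper connected subset. -/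
theorem peel_conn (hS : Acyc G S) (hI : I ⊆ S) (hc : Conn G I) (hne : S ≠ I) :
    ∃ w ∈ S, w ∉ I ∧ Leaf G S w := by
  induction hn : S.card using Nat.strong_induction_on generalizing S I with
  | _ n ih =>
  obtain ⟨w, hw, hl⟩ := hS S subset_rfl (hc.1.mono hI)
  by_cases hwI : w ∈ I
  swap
  · exact ⟨w, hw, hwI, hl⟩
  have hlt : (S.erase w).card < n := hn ▸ card_erase_lt_of_mem hw
  have hS' : Acyc G (S.erase w) := hS.mono (erase_subset _ _)
  obtain ⟨s, hs, hsI⟩ : ∃ s ∈ S, s ∉ I := by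
    by_contra hcon
    push Not at hcon
    exact hne (Subset.antisymm hcon hI)
  have hsw : s ≠ w := fun e => hsI (e ▸ hwI)
  by_cases hI1 : (I.erase w).Nonempty
  · obtain ⟨i, hi⟩ := hI1
    obtain ⟨r, hr, hwr⟩ := hc.exists_adj hwI (mem_erase.1 hi).2 (mem_erase.1 hi).1.symm
    obtain ⟨w', hw', hw'I, hl'⟩ := ih _ hlt hS' (erase_subset_erase _ hI)
      (conn_erase_leaf hc (hl.mono hI) ⟨i, hi⟩)
      (fun e => hsI (mem_erase.1 (e ▸ mem_erase.2 ⟨hsw, hs⟩ : s ∈ I.erase w)).2) rfl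
    have h1 : w' ∉ I := fun h => hw'I (mem_erase.2 ⟨(mem_erase.1 hw').1, h⟩)
    refine ⟨w', (mem_erase.1 hw').2, h1, hl'.of_erase fun h => h1 ?_⟩
    exact hl r (hI hr) w' (mem_erase.1 hw').2 hwr h.symm ▸ hr
  have hI2 : ∀ i ∈ I, i = w := fun i hi => by
    by_contra e
    exact hI1 ⟨i, mem_erase.2 ⟨e, hi⟩⟩
  by_cases hr : ∃ r ∈ S, G.Adj w r
  · obtain ⟨r, hr, hwr⟩ := hr
    have hr' : r ∈ S.erase w := mem_erase.2 ⟨hwr.ne.symm, hr⟩
    by_cases h1 : S.erase w = {r}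
    · refine ⟨r, hr, fun h => hwr.ne (hI2 r h).symm, fun x hx y hy h2 h3 => ?_⟩
      have key : ∀ x ∈ S, G.Adj r x → x = w := fun x hx h => by
        by_contra e
        have : x ∈ ({r} : Finset V) := h1 ▸ mem_erase.2 ⟨e, hx⟩
        exact h.ne (mem_singleton.1 this).symm
      rw [key x hx h2, key y hy h3]
    · obtain ⟨w', hw', hw'r, hl'⟩ := ih _ hlt hS' (singleton_subset_iff.2 hr')
        (Conn.singleton r) h1 rfl
      refine ⟨w', (mem_erase.1 hw').2, fun h => (mem_erase.1 hw').1 (hI2 _ h),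
        hl'.of_erase fun h => hw'r ?_⟩
      exact mem_singleton.2 (hl w' (mem_erase.1 hw').2 r hr h.symm hwr)
  · obtain ⟨w', hw', hl'⟩ := hS' _ subset_rfl ⟨s, mem_erase.2 ⟨hsw, hs⟩⟩
    exact ⟨w', (mem_erase.1 hw').2, fun h => (mem_erase.1 hw').1 (hI2 _ h),
      hl'.of_erase fun h => hr ⟨w', (mem_erase.1 hw').2, h.symm⟩⟩

theorem root_leaf (hS : Acyc G S) (hr : r ∈ S) (hx : x ∈ S) (hne : x ≠ r) :
    ∃ w ∈ S, w ≠ r ∧ Leaf G S w := by
  obtain ⟨w, hw, h1, h2⟩ := peel_conn hS (singleton_subset_iff.2 hr) (Conn.singleton r)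
    (fun e => hne (mem_singleton.1 (e ▸ hx)))
  exact ⟨w, hw, fun e => h1 (mem_singleton.2 e), h2⟩

theorem k3_step (hX : Conn G X) (hw : w ∈ X) (hl : Leaf G S w) (hXS : X ⊆ S) (hYS : Y ⊆ S)
    (hZS : Z ⊆ S) (hXY : Disjoint X Y) (hXZ : Disjoint X Z) (hYZ : Disjoint Y Z)
    (t1 : Tch G X Y) (t2 : Tch G X Z) :
    Conn G (X.erase w) ∧ Tch G (X.erase w) Y ∧ Tch G (X.erase w) Z := by
  obtain ⟨x1, hx1, y, hy, h1⟩ := t1
  obtain ⟨x2, hx2, z, hz, h2⟩ := t2
  have hne : (X.erase w).Nonempty := by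
    by_cases e1 : x1 = w
    · by_cases e2 : x2 = w
      · have : y = z := hl y (hYS hy) z (hZS hz) (e1 ▸ h1) (e2 ▸ h2)
        exact absurd hz (this ▸ disjoint_left.1 hYZ hy)
      · exact ⟨x2, mem_erase.2 ⟨e2, hx2⟩⟩
    · exact ⟨x1, mem_erase.2 ⟨e1, hx1⟩⟩
  obtain ⟨i, hi⟩ := hne
  obtain ⟨r, hr, hwr⟩ := hX.exists_adj hw (mem_erase.1 hi).2 (mem_erase.1 hi).1.symm
  refine ⟨conn_erase_leaf hX (hl.mono hXS) ⟨i, hi⟩, ⟨x1, mem_erase.2 ⟨fun e => ?_, hx1⟩, y, hy, h1⟩,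
    ⟨x2, mem_erase.2 ⟨fun e => ?_, hx2⟩, z, hz, h2⟩⟩
  · have : r = y := hl r (hXS hr) y (hYS hy) hwr (e ▸ h1)
    exact disjoint_left.1 hXY hr (this ▸ hy)
  · have : r = z := hl r (hXS hr) z (hZS hz) hwr (e ▸ h2)
    exact disjoint_left.1 hXZ hr (this ▸ hz)

/-- A set containing a triangle minor is not acyclic. -/
theorem k3 (hX : Conn G X) (hY : Conn G Y) (hZ : Conn G Z) (hXS : X ⊆ S) (hYS : Y ⊆ S)
    (hZS : Z ⊆ S) (hXY : Disjoint X Y) (hXZ : Disjoint X Z) (hYZ : Disjoint Y Z)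
    (t1 : Tch G X Y) (t2 : Tch G X Z) (t3 : Tch G Y Z) : ¬ Acyc G S := by
  intro hS
  induction hn : X.card + Y.card + Z.card using Nat.strong_induction_on generalizing X Y Z with
  | _ n ih =>
  obtain ⟨w, hw, hl⟩ := hS (X ∪ Y ∪ Z) (union_subset (union_subset hXS hYS) hZS)
    (hX.1.mono (subset_union_left.trans subset_union_left))
  have sX : X ⊆ X ∪ Y ∪ Z := subset_union_left.trans subset_union_left
  have sY : Y ⊆ X ∪ Y ∪ Z := subset_union_right.trans subset_union_left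
  have sZ : Z ⊆ X ∪ Y ∪ Z := subset_union_right
  rcases mem_union.1 hw with hw | hw
  · rcases mem_union.1 hw with hw | hw
    · obtain ⟨c, s1, s2⟩ := k3_step hX hw hl sX sY sZ hXY hXZ hYZ t1 t2
      have := card_erase_lt_of_mem hw
      exact ih _ (by omega) c hY hZ ((erase_subset _ _).trans hXS) hYS hZS
        (hXY.mono_left (erase_subset _ _)) (hXZ.mono_left (erase_subset _ _)) hYZ s1 s2 t3 rfl
    · obtain ⟨c, s1, s2⟩ := k3_step hY hw hl sY sX sZ hXY.symm hYZ hXZ t1.symm t3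
      have := card_erase_lt_of_mem hw
      exact ih _ (by omega) hX c hZ hXS ((erase_subset _ _).trans hYS) hZS
        (hXY.mono_right (erase_subset _ _)) hXZ (hYZ.mono_left (erase_subset _ _)) s1.symm t2 s2 rfl
  · obtain ⟨c, s1, s2⟩ := k3_step hZ hw hl sZ sX sY hXZ.symm hYZ.symm hXY t2.symm t3.symm
    have := card_erase_lt_of_mem hw
    exact ih _ (by omega) hX hY c hXS hYS ((erase_subset _ _).trans hZS) hXY
      (hXZ.mono_right (erase_subset _ _)) (hYZ.mono_right (erase_subset _ _)) t1 s1.symm s2.symm rfl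

/-- Two disjoint connected subsets of a connected set extend to a partition into two connected
sets. -/
theorem split (hT : Conn G T) (hX : Conn G X) (hY : Conn G Y) (hXT : X ⊆ T) (hYT : Y ⊆ T)
    (hXY : Disjoint X Y) : ∃ P Q : Finset V, Conn G P ∧ Conn G Q ∧ Disjoint P Q ∧ P ∪ Q = T ∧
      X ⊆ P ∧ Y ⊆ Q ∧ Tch G P Q := by
  obtain ⟨x, hx⟩ := hX.1
  obtain ⟨y, hy⟩ := hY.1
  have hXs : X ⊆ T \ Y := fun a ha => mem_sdiff.2 ⟨hXT ha, disjoint_left.1 hXY ha⟩
  have hP : comp G (T \ Y) x ⊆ T := comp_subset.trans sdiff_subset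
  have hYQ : Y ⊆ T \ comp G (T \ Y) x := fun a ha =>
    mem_sdiff.2 ⟨hYT ha, fun h => (mem_sdiff.1 (comp_subset h)).2 ha⟩
  refine ⟨comp G (T \ Y) x, T \ comp G (T \ Y) x, comp_conn (hXs hx), ?_, disjoint_sdiff,
    union_sdiff_of_subset hP, hX.subset_comp hXs hx (self_mem_comp (hXs hx)), hYQ, ?_⟩
  · refine Conn.of_center (hYQ hy) fun b hb => ?_
    by_cases hbY : b ∈ Y
    · exact hY.r hy hbY hYQ
    have hb' : b ∈ T \ Y := mem_sdiff.2 ⟨(mem_sdiff.1 hb).1, hbY⟩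
    have hK : comp G (T \ Y) b ⊆ T \ comp G (T \ Y) x := fun c hc => by
      refine mem_sdiff.2 ⟨(mem_sdiff.1 (comp_subset hc)).1, fun h => (mem_sdiff.1 hb).2 ?_⟩
      rw [← comp_eq h, comp_eq hc]
      exact self_mem_comp hb'
    obtain ⟨p, q, hp, hq, -, hqT, hpq⟩ := hT.exit (mem_sdiff.1 hb).1 (self_mem_comp hb') (hYT hy)
      (fun h => (mem_sdiff.1 (comp_subset h)).2 hy)
    have hqY : q ∈ Y := by
      by_contra e
      exact hq (comp_closed hp (mem_sdiff.2 ⟨hqT, e⟩) hpq)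
    exact ((hY.r hy hqY hYQ).tail hpq.symm (hYQ hqY) (hK hp)).trans
      ((comp_conn hb').r hp (self_mem_comp hb') hK)
  · obtain ⟨p, q, hp, hq, -, hqT, hpq⟩ := hT.exit (hXT hx) (self_mem_comp (hXs hx)) (hYT hy)
      (mem_sdiff.1 (hYQ hy)).2
    exact ⟨p, hp, q, mem_sdiff.2 ⟨hqT, hq⟩, hpq⟩

/-- A vertex with two neighbours in a connected set closes a cycle. -/
theorem loop1 (hS : Conn G S) (hu : u ∉ S) (h : 2 ≤ nb G u S) : ¬ Acyc G (insert u S) := by
  obtain ⟨p, hp, q, hq, hpq, h1, h2⟩ := two_le_nb.1 h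
  obtain ⟨P, Q, cP, cQ, hd, hU, hpP, hqQ, t⟩ := split hS (Conn.singleton p) (Conn.singleton q)
    (singleton_subset_iff.2 hp) (singleton_subset_iff.2 hq) (disjoint_singleton.2 hpq)
  have sP : P ⊆ S := hU ▸ subset_union_left
  have sQ : Q ⊆ S := hU ▸ subset_union_right
  exact k3 (Conn.singleton u) cP cQ (by simp) (sP.trans (subset_insert _ _))
    (sQ.trans (subset_insert _ _)) (disjoint_singleton_left.2 fun h => hu (sP h))
    (disjoint_singleton_left.2 fun h => hu (sQ h)) hd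
    (tch_left (singleton_subset_iff.1 hpP) h1) (tch_left (singleton_subset_iff.1 hqQ) h2) t

/-- An edge with two further edges to a connected set closes a cycle. -/
theorem loop2 (hS : Conn G S) (hu : u ∉ S) (hv : v ∉ S) (huv : G.Adj u v)
    (h : 2 ≤ nb G u S + nb G v S) : ¬ Acyc G (insert u (insert v S)) := by
  by_cases h1 : 2 ≤ nb G u S
  · exact fun hA => loop1 hS hu h1 (hA.mono (insert_subset_insert _ (subset_insert _ _)))
  by_cases h2 : 2 ≤ nb G v S
  · exact fun hA => loop1 hS hv h2 (hA.mono (subset_insert _ _))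
  exact k3 (Conn.singleton u) (Conn.singleton v) hS (by simp) (by simp)
    ((subset_insert _ _).trans (subset_insert _ _)) (disjoint_singleton.2 huv.ne)
    (disjoint_singleton_left.2 hu) (disjoint_singleton_left.2 hv) (tch_single huv)
    (tch_of_nb (by omega)) (tch_of_nb (by omega))

theorem exists_loop1 (hF : Acyc G F) (h : ¬ Acyc G (insert u F)) :
    ∃ S ⊆ F, Conn G S ∧ u ∉ S ∧ 2 ≤ nb G u S := by
  obtain ⟨T, hT, hne, hc⟩ := not_acyc h
  have hsub : T.erase u ⊆ F := fun x hx =>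
    (mem_insert.1 (hT (mem_erase.1 hx).2)).resolve_left (mem_erase.1 hx).1
  have huT : u ∈ T := by
    by_contra e
    exact not_acyc_of (by rwa [erase_eq_of_notMem e] at hsub) hne hc hF
  obtain ⟨a, ha, -, -, hua, -⟩ := hc u huT
  have ha' : a ∈ T.erase u := mem_erase.2 ⟨hua.ne.symm, ha⟩
  have hK : comp G (T.erase u) a ⊆ F := comp_subset.trans hsub
  obtain ⟨b, hb, hab⟩ : ∃ b ∈ T.erase u, G.Adj a b := by
    obtain ⟨p, hp, q, hq, h1, h2, h3⟩ := hc a ha
    by_cases e : p = u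
    · exact ⟨q, mem_erase.2 ⟨fun e' => h3 (e.trans e'.symm), hq⟩, h2⟩
    · exact ⟨p, mem_erase.2 ⟨e, hp⟩, h1⟩
  obtain ⟨w, hw, hwa, hl⟩ := root_leaf (hF.mono hK) (self_mem_comp ha')
    (comp_closed (self_mem_comp ha') hb hab) hab.ne.symm
  refine ⟨_, hK, comp_conn ha', fun h => (mem_erase.1 (comp_subset h)).1 rfl,
    two_le_nb.2 ⟨a, self_mem_comp ha', w, hw, hwa.symm, hua, ?_⟩⟩
  obtain ⟨p, hp, q, hq, h1, h2, h3⟩ := hc w (mem_erase.1 (comp_subset hw)).2
  by_contra hn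
  have e1 : p ≠ u := fun e => hn (e ▸ h1.symm)
  have e2 : q ≠ u := fun e => hn (e ▸ h2.symm)
  exact h3 (hl p (comp_closed hw (mem_erase.2 ⟨e1, hp⟩) h1) q
    (comp_closed hw (mem_erase.2 ⟨e2, hq⟩) h2) h1 h2)

theorem exists_loop2 (hF : Acyc G F) (h : ¬ Acyc G (insert u (insert v F))) :
    ∃ S ⊆ F, Conn G S ∧ 2 ≤ nb G u S + nb G v S := by
  by_cases h1 : Acyc G (insert v F)
  swap
  · obtain ⟨S, hS, hc, -, h2⟩ := exists_loop1 hF h1
    exact ⟨S, hS, hc, by omega⟩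
  obtain ⟨S, hS, hc, -, h2⟩ := exists_loop1 h1 h
  have hsub : S.erase v ⊆ F := fun x hx =>
    (mem_insert.1 (hS (mem_erase.1 hx).2)).resolve_left (mem_erase.1 hx).1
  by_cases hv : v ∈ S
  swap
  · exact ⟨S, by rwa [erase_eq_of_notMem hv] at hsub, hc, by omega⟩
  obtain ⟨a, ha, hua⟩ : ∃ a ∈ S.erase v, G.Adj u a := by
    obtain ⟨p, hp, q, hq, h3, h4, h5⟩ := two_le_nb.1 h2
    by_cases e : p = v
    · exact ⟨q, mem_erase.2 ⟨fun e' => h3 (e.trans e'.symm), hq⟩, h5⟩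
    · exact ⟨p, mem_erase.2 ⟨e, hp⟩, h4⟩
  obtain ⟨p, q, hp, hq, -, hqS, hpq⟩ := hc.exit (mem_erase.1 ha).2 (self_mem_comp ha) hv
    (fun h => (mem_erase.1 (comp_subset h)).1 rfl)
  have hqv : q = v := by
    by_contra e
    exact hq (comp_closed hp (mem_erase.2 ⟨e, hqS⟩) hpq)
  have e1 : 1 ≤ nb G u (comp G (S.erase v) a) := one_le_nb.2 ⟨a, self_mem_comp ha, hua⟩
  have e2 : 1 ≤ nb G v (comp G (S.erase v) a) := one_le_nb.2 ⟨p, hp, hqv ▸ hpq.symm⟩
  exact ⟨_, comp_subset.trans hsub, comp_conn ha, by omega⟩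

/-- The Helly property of subtrees of a tree. -/
theorem helly {𝓕 : Finset V → Prop} (hA : Acyc G T) (hT : Conn G T)
    (h1 : ∀ S, 𝓕 S → S ⊆ T ∧ Conn G S) (h2 : ∀ S S', 𝓕 S → 𝓕 S' → ¬ Disjoint S S') :
    ∃ z ∈ T, ∀ S, 𝓕 S → z ∈ S := by
  obtain ⟨Z, ⟨hZT, hZ, hhit⟩, hmin⟩ := exists_min_of
    (p := fun Z : Finset V => Z ⊆ T ∧ Conn G Z ∧ ∀ S, 𝓕 S → ∃ z ∈ Z, z ∈ S) card
    ⟨T, subset_rfl, hT, fun S hS => by
      obtain ⟨s, hs⟩ := (h1 S hS).2.1
      exact ⟨s, (h1 S hS).1 hs, hs⟩⟩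
  obtain ⟨w1, hw1, hl1⟩ := hA Z hZT hZ.1
  by_cases hne : ∀ x ∈ Z, x = w1
  · refine ⟨w1, hZT hw1, fun S hS => ?_⟩
    obtain ⟨z, hz, hzS⟩ := hhit S hS
    exact hne z hz ▸ hzS
  push Not at hne
  obtain ⟨x, hx, hxw⟩ := hne
  obtain ⟨w2, hw2, hw21, hl2⟩ := root_leaf (hA.mono hZT) hw1 hx hxw
  have key : ∀ w ∈ Z, Conn G (Z.erase w) → ∃ S, 𝓕 S ∧ w ∈ S ∧ ∀ z ∈ Z, z ∈ S → z = w := by
    intro w hw hc
    by_contra hcon
    push Not at hcon
    have := hmin (Z.erase w) ⟨(erase_subset _ _).trans hZT, hc, fun S hS => by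
      obtain ⟨z, hz, hzS⟩ := hhit S hS
      by_cases e : z = w
      · obtain ⟨z', hz', h3, h4⟩ := hcon S hS (e ▸ hzS)
        exact ⟨z', mem_erase.2 ⟨h4, hz'⟩, h3⟩
      · exact ⟨z, mem_erase.2 ⟨e, hz⟩, hzS⟩⟩
    exact absurd (card_erase_lt_of_mem hw) (not_lt.2 this)
  have c2 := conn_erase_leaf hZ hl2 ⟨w1, mem_erase.2 ⟨hw21.symm, hw1⟩⟩
  obtain ⟨S1, f1, m1, u1⟩ := key w1 hw1 (conn_erase_leaf hZ hl1 ⟨x, mem_erase.2 ⟨hxw, hx⟩⟩)
  obtain ⟨S2, f2, m2, u2⟩ := key w2 hw2 c2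
  obtain ⟨s, hs1, hs2⟩ := not_disjoint_iff.1 (h2 S1 S2 f1 f2)
  have hsZ : s ∉ Z := fun h => hw21 ((u2 s h hs2).symm.trans (u1 s h hs1))
  have hs : s ∈ T \ Z := mem_sdiff.2 ⟨(h1 S1 f1).1 hs1, hsZ⟩
  have hKZ : ∀ p ∈ comp G (T \ Z) s, p ∉ Z := fun p hp => (mem_sdiff.1 (comp_subset hp)).2
  have tk : ∀ S w, 𝓕 S → s ∈ S → w ∈ Z → w ∈ S → (∀ z ∈ Z, z ∈ S → z = w) →
      ∃ p ∈ comp G (T \ Z) s, G.Adj w p := by
    intro S w f hsS hw hwS hu
    obtain ⟨p, q, hp, hq, -, hqS, hpq⟩ := (h1 S f).2.exit hsS (self_mem_comp hs) hwS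
      (fun h => hKZ w h hw)
    have hqZ : q ∈ Z := by
      by_contra e
      exact hq (comp_closed hp (mem_sdiff.2 ⟨(h1 S f).1 hqS, e⟩) hpq)
    exact ⟨p, hp, hu q hqZ hqS ▸ hpq.symm⟩
  obtain ⟨p1, hp1, a1⟩ := tk S1 w1 f1 hs1 hw1 m1 u1
  obtain ⟨p2, hp2, a2⟩ := tk S2 w2 f2 hs2 hw2 m2 u2
  obtain ⟨r, hr, hr2⟩ := hZ.exists_adj hw2 hw1 hw21
  refine absurd hA (k3 c2 (Conn.singleton w2) (comp_conn hs) ((erase_subset _ _).trans hZT)
    (singleton_subset_iff.2 (hZT hw2)) (comp_subset.trans sdiff_subset) (by simp)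
    (disjoint_right.2 fun p hp h => hKZ p hp (mem_erase.1 h).2)
    (disjoint_singleton_left.2 fun h => hKZ _ h hw2)
    ⟨r, mem_erase.2 ⟨hr2.ne.symm, hr⟩, w2, mem_singleton_self _, hr2.symm⟩
    ⟨w1, mem_erase.2 ⟨hw21.symm, hw1⟩, p1, hp1, a1⟩ (tch_left hp2 a2))

/-- A set that is not acyclic contains a cycle. -/
theorem exists_cycle (h : ¬ Acyc G S) :
    ∃ (u : V) (p : G.Walk u u), p.IsCycle ∧ ∀ x ∈ p.support, x ∈ S := by
  obtain ⟨C, ⟨hCS, hC⟩, hmin⟩ := exists_min_of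
    (p := fun C : Finset V => C ⊆ S ∧ ¬ Acyc G C) card ⟨S, subset_rfl, h⟩
  obtain ⟨v, hv⟩ : C.Nonempty := by
    rw [nonempty_iff_ne_empty]
    rintro rfl
    exact hC acyc_empty
  have hA : Acyc G (C.erase v) := by
    by_contra e
    exact absurd (card_erase_lt_of_mem hv) (not_lt.2 (hmin _ ⟨(erase_subset _ _).trans hCS, e⟩))
  obtain ⟨K, hK, hc, hvK, h2⟩ := exists_loop1 (u := v) hA (by rwa [insert_erase hv])
  obtain ⟨a, ha, b, hb, hab, h3, h4⟩ := two_le_nb.1 h2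
  obtain ⟨p, hp⟩ : ∃ p : G.Walk a b, ∀ x ∈ p.support, x ∈ K := by
    refine (hc.2 a ha b hb).ind (P := fun c => ∃ p : G.Walk a c, ∀ x ∈ p.support, x ∈ K)
      ⟨SimpleGraph.Walk.nil, by simpa using ha⟩ ?_
    rintro x y _ ⟨p, hp⟩ hxy _ hy
    refine ⟨p.concat hxy, fun t ht => ?_⟩
    simp only [SimpleGraph.Walk.support_concat, List.concat_eq_append, List.mem_append,
      List.mem_singleton] at ht
    rcases ht with ht | rfl
    · exact hp t ht
    · exact hy
  have hq : ∀ x ∈ p.bypass.support, x ∈ K := fun x hx => hp x (p.support_bypass_subset hx)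
  refine ⟨v, SimpleGraph.Walk.cons h3 (p.bypass.concat h4.symm), ?_, fun x hx => ?_⟩
  · rw [SimpleGraph.Walk.cons_isCycle_iff]
    refine ⟨p.bypass_isPath.concat (fun h => hvK (hq v h)) _, fun h => ?_⟩
    simp only [SimpleGraph.Walk.edges_concat, List.concat_eq_append, List.mem_append,
      List.mem_singleton] at h
    rcases h with h | h
    · exact hvK (hq v (SimpleGraph.Walk.fst_mem_support_of_mem_edges _ h))
    · rcases Sym2.eq_iff.1 h with h | h
      · exact h4.ne h.1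
      · exact hab h.2
  · simp only [SimpleGraph.Walk.support_cons, SimpleGraph.Walk.support_concat,
      List.concat_eq_append, List.mem_cons, List.mem_append, List.not_mem_nil, or_false] at hx
    rcases hx with rfl | hx | rfl
    · exact hCS hv
    · exact hCS (mem_erase.1 (hK (hq x hx))).2
    · exact hCS hv

end Pool.Agent.MP_7be75d_co.Lov

end MrgPart2

-- ======== part 3: formerly Pool.Agent.MP_7be75d_co.Lovasz2
section MrgPart3

/-! A graph without two disjoint cycles has two vertices meeting all cycles, or a Kuratowski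
minor. -/

namespace Pool.Agent.MP_7be75d_co.Lov

open Finset
open scoped Classical

variable {V : Type} {G : SimpleGraph V}

/-- A model of `K` inside `U`. -/
def Model {ι : Type} (K : SimpleGraph ι) (G : SimpleGraph V) (U : Finset V) : Prop :=
  ∃ φ : ι → Finset V, (∀ i, Conn G (φ i)) ∧ (∀ i, φ i ⊆ U) ∧
    (∀ i j, i ≠ j → Disjoint (φ i) (φ j)) ∧ ∀ i j, K.Adj i j → Tch G (φ i) (φ j)

/-- A model of one of the two Kuratowski graphs inside `U`. -/
def Kur (G : SimpleGraph V) (U : Finset V) : Prop :=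
  Model (⊤ : SimpleGraph (Fin 5)) G U ∨ Model (completeBipartiteGraph (Fin 3) (Fin 3)) G U

/-- No two disjoint cycles inside `U`. -/
def NoTwo (G : SimpleGraph V) (U : Finset V) : Prop :=
  ∀ S ⊆ U, ∀ T ⊆ U, Disjoint S T → ¬ Acyc G S → Acyc G T

/-- Two vertices meet all cycles inside `U`. -/
def Fvs (G : SimpleGraph V) (U : Finset V) : Prop := ∃ a b, Acyc G (U \ {a, b})

variable {S T U F P Q : Finset V} {a b u v w x y z : V}

theorem Model.mono {ι : Type} {K : SimpleGraph ι} (h : Model K G S) (hS : S ⊆ U) :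
    Model K G U := by
  obtain ⟨φ, h1, h2, h3, h4⟩ := h
  exact ⟨φ, h1, fun i => (h2 i).trans hS, h3, h4⟩

theorem NoTwo.mono (h : NoTwo G U) (hS : S ⊆ U) : NoTwo G S :=
  fun A hA B hB => h A (hA.trans hS) B (hB.trans hS)

theorem NoTwo.false (h : NoTwo G U) (hS : S ⊆ U) (hT : T ⊆ U) (hd : Disjoint S T)
    (h1 : ¬ Acyc G S) (h2 : ¬ Acyc G T) : False := h2 (h S hS T hT hd h1)

theorem model5 {A B C D E : Finset V} (cA : Conn G A) (cB : Conn G B) (cC : Conn G C)
    (cD : Conn G D) (cE : Conn G E) (sA : A ⊆ U) (sB : B ⊆ U) (sC : C ⊆ U) (sD : D ⊆ U)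
    (sE : E ⊆ U) (dAB : Disjoint A B) (dAC : Disjoint A C) (dAD : Disjoint A D)
    (dAE : Disjoint A E) (dBC : Disjoint B C) (dBD : Disjoint B D) (dBE : Disjoint B E)
    (dCD : Disjoint C D) (dCE : Disjoint C E) (dDE : Disjoint D E) (tAB : Tch G A B)
    (tAC : Tch G A C) (tAD : Tch G A D) (tAE : Tch G A E) (tBC : Tch G B C) (tBD : Tch G B D)
    (tBE : Tch G B E) (tCD : Tch G C D) (tCE : Tch G C E) (tDE : Tch G D E) : Kur G U := by
  refine Or.inl ⟨![A, B, C, D, E], fun i => ?_, fun i => ?_, fun i j h => ?_, fun i j h => ?_⟩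
  · fin_cases i <;> assumption
  · fin_cases i <;> assumption
  · fin_cases i <;> fin_cases j <;>
      first | exact absurd rfl h | assumption | (apply Disjoint.symm; assumption)
  · fin_cases i <;> fin_cases j <;>
      first | exact absurd rfl h.ne | assumption | (apply Tch.symm; assumption)

theorem model33 {A B C D E F : Finset V} (cA : Conn G A) (cB : Conn G B) (cC : Conn G C)
    (cD : Conn G D) (cE : Conn G E) (cF : Conn G F) (sA : A ⊆ U) (sB : B ⊆ U) (sC : C ⊆ U)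
    (sD : D ⊆ U) (sE : E ⊆ U) (sF : F ⊆ U) (dAB : Disjoint A B) (dAC : Disjoint A C)
    (dAD : Disjoint A D) (dAE : Disjoint A E) (dAF : Disjoint A F) (dBC : Disjoint B C)
    (dBD : Disjoint B D) (dBE : Disjoint B E) (dBF : Disjoint B F) (dCD : Disjoint C D)
    (dCE : Disjoint C E) (dCF : Disjoint C F) (dDE : Disjoint D E) (dDF : Disjoint D F)
    (dEF : Disjoint E F) (tAD : Tch G A D) (tAE : Tch G A E) (tAF : Tch G A F)
    (tBD : Tch G B D) (tBE : Tch G B E) (tBF : Tch G B F) (tCD : Tch G C D) (tCE : Tch G C E)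
    (tCF : Tch G C F) : Model (completeBipartiteGraph (Fin 3) (Fin 3)) G U := by
  refine ⟨Sum.elim ![A, B, C] ![D, E, F], fun i => ?_, fun i => ?_, fun i j h => ?_,
    fun i j h => ?_⟩
  · rcases i with i | i <;> fin_cases i <;> assumption
  · rcases i with i | i <;> fin_cases i <;> assumption
  · rcases i with i | i <;> rcases j with j | j <;> fin_cases i <;> fin_cases j <;>
      first | exact absurd rfl h | assumption | (apply Disjoint.symm; assumption)
  · rcases i with i | i <;> rcases j with j | j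
    · simp at h
    · fin_cases i <;> fin_cases j <;> assumption
    · fin_cases i <;> fin_cases j <;> (apply Tch.symm; assumption)
    · simp at h

/-- Two disjoint cycles, one through `x` and one through the edge `yz`. -/
theorem tri_false (h2 : NoTwo G U) (hx : x ∈ U) (hy : y ∈ U) (hz : z ∈ U) (hxy : G.Adj x y)
    (hxz : G.Adj x z) (hyz : G.Adj y z) (hP : P ⊆ U \ {x, y, z}) (hQ : Q ⊆ U \ {x, y, z})
    (cP : Conn G P) (cQ : Conn G Q) (hd : Disjoint P Q) (h1 : 2 ≤ nb G x P) :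
    nb G y Q + nb G z Q ≤ 1 := by
  by_contra hc
  have nP : ∀ t ∈ P, t ∈ U ∧ t ≠ x ∧ t ≠ y ∧ t ≠ z := fun t ht => by simpa [not_or] using hP ht
  have nQ : ∀ t ∈ Q, t ∈ U ∧ t ≠ x ∧ t ≠ y ∧ t ≠ z := fun t ht => by simpa [not_or] using hQ ht
  refine h2.false (S := insert x P) (T := insert y (insert z Q))
    (insert_subset hx fun t ht => (nP t ht).1)
    (insert_subset hy (insert_subset hz fun t ht => (nQ t ht).1)) ?_
    (loop1 cP (fun h => (nP x h).2.1 rfl) h1)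
    (loop2 cQ (fun h => (nQ y h).2.2.1 rfl) (fun h => (nQ z h).2.2.2 rfl) hyz (by omega))
  refine disjoint_left.2 fun t ht ht' => ?_
  simp only [mem_insert] at ht ht'
  rcases ht with rfl | ht
  · rcases ht' with h | h | h
    · exact hxy.ne h
    · exact hxz.ne h
    · exact (nQ _ h).2.1 rfl
  · rcases ht' with h | h | h
    · exact (nP _ ht).2.2.1 h
    · exact (nP _ ht).2.2.2 h
    · exact disjoint_left.1 hd ht h

theorem triangle (h2 : NoTwo G U) (hx : x ∈ U) (hy : y ∈ U) (hz : z ∈ U) (hxy : G.Adj x y)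
    (hxz : G.Adj x z) (hyz : G.Adj y z) : Fvs G U ∨ Kur G U := by
  set F := U \ {x, y, z} with hF
  have e1 : U \ {y, x, z} = F := by rw [hF, insert_comm]
  have e2 : U \ {z, x, y} = F := by
    rw [hF]; congr 1; ext t; simp only [mem_insert, mem_singleton]; tauto
  have nF : ∀ t ∈ F, t ∈ U ∧ t ≠ x ∧ t ≠ y ∧ t ≠ z := fun t ht => by simpa [hF, not_or] using ht
  have hA : Acyc G F := h2 {x, y, z} (by simp [insert_subset_iff, hx, hy, hz]) F sdiff_subset
    disjoint_sdiff (k3 (Conn.singleton x) (Conn.singleton y) (Conn.singleton z) (by simp) (by simp)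
      (by simp) (by simpa using hxy.ne) (by simpa using hxz.ne) (by simpa using hyz.ne)
      (tch_single hxy) (tch_single hxz) (tch_single hyz))
  by_cases ax : Acyc G (insert x F)
  · exact Or.inl ⟨y, z, ax.mono fun t ht => by
      simp only [hF, mem_insert, mem_sdiff, mem_singleton] at ht ⊢; tauto⟩
  by_cases ay : Acyc G (insert y F)
  · exact Or.inl ⟨x, z, ay.mono fun t ht => by
      simp only [hF, mem_insert, mem_sdiff, mem_singleton] at ht ⊢; tauto⟩
  by_cases az : Acyc G (insert z F)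
  · exact Or.inl ⟨x, y, az.mono fun t ht => by
      simp only [hF, mem_insert, mem_sdiff, mem_singleton] at ht ⊢; tauto⟩
  obtain ⟨Sx, sx, cx, -, nx⟩ := exists_loop1 hA ax
  obtain ⟨Sy, sy, cy, -, ny⟩ := exists_loop1 hA ay
  obtain ⟨Sz, sz, cz, -, nz⟩ := exists_loop1 hA az
  have fx : ∀ P Q, P ⊆ F → Q ⊆ F → Conn G P → Conn G Q → Disjoint P Q → 2 ≤ nb G x P →
      nb G y Q + nb G z Q ≤ 1 := fun P Q => tri_false h2 hx hy hz hxy hxz hyz
  have fy : ∀ P Q, P ⊆ F → Q ⊆ F → Conn G P → Conn G Q → Disjoint P Q → 2 ≤ nb G y P →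
      nb G x Q + nb G z Q ≤ 1 := fun P Q hP hQ =>
    tri_false h2 hy hx hz hxy.symm hyz hxz (e1 ▸ hP) (e1 ▸ hQ)
  have fz : ∀ P Q, P ⊆ F → Q ⊆ F → Conn G P → Conn G Q → Disjoint P Q → 2 ≤ nb G z P →
      nb G x Q + nb G y Q ≤ 1 := fun P Q hP hQ =>
    tri_false h2 hz hx hy hxz.symm hyz.symm hxy (e2 ▸ hP) (e2 ▸ hQ)
  obtain ⟨s, hs⟩ := cx.1
  set T := comp G F s with hT
  have cT : Conn G T := comp_conn (sx hs)
  have sT : T ⊆ F := comp_subset
  have hxT : Sx ⊆ T := cx.subset_comp sx hs (self_mem_comp (sx hs))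
  have meet : ∀ A B, A ⊆ T → B ⊆ F → Conn G B → ¬ Disjoint A B → B ⊆ T := by
    intro A B hA hB cB hd
    obtain ⟨t, h1, h3⟩ := not_disjoint_iff.1 hd
    exact cB.subset_comp hB h3 (hA h1)
  have hyT : Sy ⊆ T := meet Sx Sy hxT sy cy fun hd => by
    have := fx Sx Sy sx sy cx cy hd nx
    omega
  have hzT : Sz ⊆ T := meet Sx Sz hxT sz cz fun hd => by
    have := fx Sx Sz sx sz cx cz hd nx
    omega
  have dbl : ∀ S ⊆ F, Conn G S → 2 ≤ nb G x S + nb G y S + nb G z S → S ⊆ T := by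
    intro S hS cS h
    by_contra hc
    have h1 := fx Sx S sx hS cx cS (by_contra fun hd => hc (meet _ _ hxT hS cS hd)) nx
    have h3 := fy Sy S sy hS cy cS (by_contra fun hd => hc (meet _ _ hyT hS cS hd)) ny
    have h4 := fz Sz S sz hS cz cS (by_contra fun hd => hc (meet _ _ hzT hS cS hd)) nz
    omega
  by_cases hk : Kur G U
  · exact Or.inr hk
  obtain ⟨t, ht, hall⟩ := helly
    (𝓕 := fun S => S ⊆ F ∧ Conn G S ∧ 2 ≤ nb G x S + nb G y S + nb G z S) (hA.mono sT) cT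
    (fun S h => ⟨dbl S h.1 h.2.1 h.2.2, h.2.1⟩) (by
      rintro S S' ⟨s1, c1, n1⟩ ⟨s2, c2, n2⟩ hd
      obtain ⟨P, Q, cP, cQ, dPQ, hU, hP, hQ, tPQ⟩ :=
        split cT c1 c2 (dbl S s1 c1 n1) (dbl S' s2 c2 n2) hd
      have sP : P ⊆ F := (hU ▸ subset_union_left : P ⊆ T).trans sT
      have sQ : Q ⊆ F := (hU ▸ subset_union_right : Q ⊆ T).trans sT
      have a1 := fx P Q sP sQ cP cQ dPQ
      have a2 := fy P Q sP sQ cP cQ dPQ
      have a3 := fz P Q sP sQ cP cQ dPQ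
      have a4 := fx Q P sQ sP cQ cP dPQ.symm
      have a5 := fy Q P sQ sP cQ cP dPQ.symm
      have a6 := fz Q P sQ sP cQ cP dPQ.symm
      have b1 : 2 ≤ nb G x P + nb G x Q := by
        rw [← nb_union dPQ, hU]; exact nx.trans (nb_mono hxT)
      have b2 : 2 ≤ nb G y P + nb G y Q := by
        rw [← nb_union dPQ, hU]; exact ny.trans (nb_mono hyT)
      have b3 : 2 ≤ nb G z P + nb G z Q := by
        rw [← nb_union dPQ, hU]; exact nz.trans (nb_mono hzT)
      have m1 := nb_mono (G := G) (a := x) hP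
      have m2 := nb_mono (G := G) (a := y) hP
      have m3 := nb_mono (G := G) (a := z) hP
      have m4 := nb_mono (G := G) (a := x) hQ
      have m5 := nb_mono (G := G) (a := y) hQ
      have m6 := nb_mono (G := G) (a := z) hQ
      refine hk (model5 (Conn.singleton x) (Conn.singleton y) (Conn.singleton z) cP cQ
        (by simpa using hx) (by simpa using hy) (by simpa using hz) (sP.trans sdiff_subset)
        (sQ.trans sdiff_subset) (by simpa using hxy.ne) (by simpa using hxz.ne)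
        (disjoint_singleton_left.2 fun h => (nF _ (sP h)).2.1 rfl)
        (disjoint_singleton_left.2 fun h => (nF _ (sQ h)).2.1 rfl) (by simpa using hyz.ne)
        (disjoint_singleton_left.2 fun h => (nF _ (sP h)).2.2.1 rfl)
        (disjoint_singleton_left.2 fun h => (nF _ (sQ h)).2.2.1 rfl)
        (disjoint_singleton_left.2 fun h => (nF _ (sP h)).2.2.2 rfl)
        (disjoint_singleton_left.2 fun h => (nF _ (sQ h)).2.2.2 rfl) dPQ (tch_single hxy)
        (tch_single hxz) (tch_of_nb (by omega)) (tch_of_nb (by omega)) (tch_single hyz)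
        (tch_of_nb (by omega)) (tch_of_nb (by omega)) (tch_of_nb (by omega))
        (tch_of_nb (by omega)) tPQ))
  refine Or.inl ⟨t, x, ?_⟩
  by_contra hc
  obtain ⟨S, hS, cS, h⟩ := exists_loop2 (u := y) (v := z) (hA.mono (erase_subset t F))
    (fun h => hc (h.mono fun p hp => by
      simp only [hF, mem_insert, mem_sdiff, mem_singleton, mem_erase] at hp ⊢; tauto))
  exact (mem_erase.1 (hS (hall S ⟨hS.trans (erase_subset _ _), cS, by omega⟩))).1 rfl

/-- Minimum degree at least three inside `U`. -/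
def Deg3 (G : SimpleGraph V) (U : Finset V) : Prop :=
  ∀ w ∈ U, ∃ a ∈ U, ∃ b ∈ U, ∃ c ∈ U, G.Adj w a ∧ G.Adj w b ∧ G.Adj w c ∧ a ≠ b ∧ a ≠ c ∧ b ≠ c

/-- No triangle inside `U`. -/
def TriFree (G : SimpleGraph V) (U : Finset V) : Prop :=
  ∀ x ∈ U, ∀ y ∈ U, ∀ z ∈ U, G.Adj x y → G.Adj x z → ¬ G.Adj y z

theorem Deg3.two (h : Deg3 G U) (hw : w ∈ U) (v : V) :
    ∃ a ∈ U, ∃ b ∈ U, G.Adj w a ∧ G.Adj w b ∧ a ≠ b ∧ a ≠ v ∧ b ≠ v := by
  obtain ⟨a, ha, b, hb, c, hc, h1, h2, h3, h4, h5, h6⟩ := h w hw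
  by_cases e1 : a = v
  · exact ⟨b, hb, c, hc, h2, h3, h6, e1 ▸ h4.symm, e1 ▸ h5.symm⟩
  by_cases e2 : b = v
  · exact ⟨a, ha, c, hc, h1, h3, h5, e1, e2 ▸ h6.symm⟩
  · exact ⟨a, ha, b, hb, h1, h2, h4, e1, e2⟩

/-- A leaf of `F` has two neighbours outside `F`. -/
theorem Deg3.out (h : Deg3 G U) (hw : w ∈ U) (hl : Leaf G F w) :
    ∃ a ∈ U, ∃ b ∈ U, G.Adj w a ∧ G.Adj w b ∧ a ≠ b ∧ a ∉ F ∧ b ∉ F := by
  by_cases e : ∃ v ∈ F, G.Adj w v
  · obtain ⟨v, hv, hwv⟩ := e
    obtain ⟨a, ha, b, hb, h1, h2, h3, h4, h5⟩ := h.two hw v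
    exact ⟨a, ha, b, hb, h1, h2, h3, fun e => h4 (hl a e v hv h1 hwv),
      fun e => h5 (hl b e v hv h2 hwv)⟩
  · obtain ⟨a, ha, b, hb, h1, h2, h3, -⟩ := h.two hw w
    exact ⟨a, ha, b, hb, h1, h2, h3, fun e' => e ⟨a, e', h1⟩, fun e' => e ⟨b, e', h2⟩⟩

theorem exists_four (h2 : NoTwo G U) (h3 : Deg3 G U) (hne : U.Nonempty) (ht : TriFree G U) :
    ∃ p ∈ U, ∃ g ∈ U, ∃ q ∈ U, ∃ f ∈ U, G.Adj p g ∧ G.Adj g q ∧ G.Adj q f ∧ G.Adj f p ∧
      p ≠ q ∧ g ≠ f := by
  have hU : ∀ v, (U.erase v).Nonempty → ¬ Acyc G (U.erase v) := fun v hv =>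
    not_acyc_of subset_rfl hv fun w hw => by
      obtain ⟨a, ha, b, hb, h1, h4, h5, h6, h7⟩ := h3.two (mem_erase.1 hw).2 v
      exact ⟨a, mem_erase.2 ⟨h6, ha⟩, b, mem_erase.2 ⟨h7, hb⟩, h1, h4, h5⟩
  obtain ⟨v0, hv0⟩ := hne
  obtain ⟨v1, hv1, -, -, h01, -⟩ := h3.two hv0 v0
  have hU0 := hU v0 ⟨v1, mem_erase.2 ⟨h01.ne.symm, hv1⟩⟩
  obtain ⟨C, ⟨hCU, hC⟩, hmin⟩ := exists_min_of
    (p := fun C : Finset V => C ⊆ U ∧ ¬ Acyc G C) card ⟨_, erase_subset v0 U, hU0⟩
  have hsm : ∀ D ⊆ U, D.card < C.card → Acyc G D := fun D hD hlt => by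
    by_contra e
    exact absurd hlt (not_lt.2 (hmin D ⟨hD, e⟩))
  have hcyc : ∀ w ∈ C, ∃ x ∈ C, ∃ y ∈ C, G.Adj w x ∧ G.Adj w y ∧ x ≠ y := by
    obtain ⟨T, hT, hne, hc⟩ := not_acyc hC
    have : T = C := eq_of_subset_of_card_le hT
      (hmin T ⟨hT.trans hCU, not_acyc_of subset_rfl hne hc⟩)
    exact this ▸ hc
  have hF : Acyc G (U \ C) := h2 C hCU _ sdiff_subset disjoint_sdiff hC
  have hFne : (U \ C).Nonempty := by
    rw [sdiff_nonempty]
    intro e
    have h1 := hmin _ ⟨erase_subset v0 U, hU0⟩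
    have h4 := card_erase_lt_of_mem hv0
    have h5 := card_le_card e
    omega
  obtain ⟨f, hf, hl⟩ := hF _ subset_rfl hFne
  obtain ⟨p, hp, q, hq, hfp, hfq, hpq, hp', hq'⟩ := h3.out (mem_sdiff.1 hf).1 hl
  have hpC : p ∈ C := by_contra fun e => hp' (mem_sdiff.2 ⟨hp, e⟩)
  have hqC : q ∈ C := by_contra fun e => hq' (mem_sdiff.2 ⟨hq, e⟩)
  have hfC : f ∉ C := (mem_sdiff.1 hf).2
  have hnpq : ¬ G.Adj p q := ht f (mem_sdiff.1 hf).1 p hp q hq hfp hfq
  -- a smallest connected subset of `C` containing `p` and `q`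
  have hconn : ∃ S, S ⊆ C ∧ Conn G S ∧ p ∈ S ∧ q ∈ S := by
    have hq1 : q ∈ C.erase p := mem_erase.2 ⟨hpq.symm, hqC⟩
    by_cases e : ∃ r ∈ comp G (C.erase p) q, G.Adj r p
    · obtain ⟨r, hr, hrp⟩ := e
      exact ⟨insert p (comp G (C.erase p) q),
        insert_subset hpC (comp_subset.trans (erase_subset _ _)), (comp_conn hq1).insert hr hrp,
        mem_insert_self _ _, mem_insert_of_mem (self_mem_comp hq1)⟩
    · refine absurd (hsm (C.erase p) ((erase_subset _ _).trans hCU) (card_erase_lt_of_mem hpC))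
        (not_acyc_of (T := comp G (C.erase p) q) comp_subset ⟨q, self_mem_comp hq1⟩
          fun w hw => ?_)
      obtain ⟨a, ha, b, hb, h1, h4, h5⟩ := hcyc w (mem_erase.1 (comp_subset hw)).2
      exact ⟨a, comp_closed hw (mem_erase.2 ⟨fun e' => e ⟨w, hw, e' ▸ h1⟩, ha⟩) h1, b,
        comp_closed hw (mem_erase.2 ⟨fun e' => e ⟨w, hw, e' ▸ h4⟩, hb⟩) h4, h1, h4, h5⟩
  obtain ⟨S, ⟨hSC, cS, hpS, hqS⟩, hSm⟩ := exists_min_of card hconn
  have leafS : ∀ p q, p ∈ S → q ∈ S → p ≠ q →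
      (∀ S', S' ⊆ C → Conn G S' → p ∈ S' → q ∈ S' → S.card ≤ S'.card) → Leaf G S p := by
    intro p q hpS hqS hpq hSm a ha b hb hpa hpb
    by_contra hab
    have hq1 : q ∈ S.erase p := mem_erase.2 ⟨hpq.symm, hqS⟩
    obtain ⟨r, t, hr, ht, -, htS, hrt⟩ := cS.exit hqS (self_mem_comp hq1) hpS
      (fun h => (mem_erase.1 (comp_subset h)).1 rfl)
    have htp : t = p := by
      by_contra e
      exact ht (comp_closed hr (mem_erase.2 ⟨e, htS⟩) hrt)
    have hK : comp G (S.erase p) q = S.erase p := by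
      refine eq_of_subset_of_card_le comp_subset ?_
      have h1 := hSm (insert p (comp G (S.erase p) q))
        (insert_subset (hSC hpS) (comp_subset.trans ((erase_subset _ _).trans hSC)))
        ((comp_conn hq1).insert hr (htp ▸ hrt)) (mem_insert_self _ _)
        (mem_insert_of_mem (self_mem_comp hq1))
      have h4 := card_insert_le p (comp G (S.erase p) q)
      have h5 := card_erase_of_mem hpS
      omega
    have cK : Conn G (S.erase p) := hK ▸ comp_conn hq1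
    have hA : Acyc G (S.erase p) := hsm _ ((erase_subset _ _).trans (hSC.trans hCU))
      ((card_erase_lt_of_mem hpS).trans_le (card_le_card hSC))
    have ha' : a ∈ S.erase p := mem_erase.2 ⟨hpa.ne.symm, ha⟩
    have hb' : b ∈ S.erase p := mem_erase.2 ⟨hpb.ne.symm, hb⟩
    obtain ⟨w, hw, hwq, hlw⟩ : ∃ w ∈ S.erase p, w ≠ q ∧ Leaf G (S.erase p) w := by
      by_cases e : a = q
      · exact root_leaf hA hq1 hb' fun e' => hab (e.trans e'.symm)
      · exact root_leaf hA hq1 ha' e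
    have hq2 : q ∈ (S.erase p).erase w := mem_erase.2 ⟨hwq.symm, hq1⟩
    have cK' := conn_erase_leaf cK hlw ⟨q, hq2⟩
    have c' : Conn G (insert p ((S.erase p).erase w)) := by
      by_cases e : a = w
      · exact cK'.insert (mem_erase.2 ⟨fun e' => hab (e.trans e'.symm), hb'⟩) hpb.symm
      · exact cK'.insert (mem_erase.2 ⟨e, ha'⟩) hpa.symm
    have h1 := hSm _ (insert_subset (hSC hpS)
      ((erase_subset _ _).trans ((erase_subset _ _).trans hSC))) c' (mem_insert_self _ _)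
      (mem_insert_of_mem hq2)
    have h4 := card_insert_le p ((S.erase p).erase w)
    have h5 := card_erase_lt_of_mem hpS
    have h6 := card_erase_lt_of_mem hw
    omega
  have lp := leafS p q hpS hqS hpq fun S' a b c d => hSm S' ⟨a, b, c, d⟩
  have lq := leafS q p hqS hpS hpq.symm fun S' a b c d => hSm S' ⟨a, b, d, c⟩
  have out : ∀ p ∈ S, Leaf G S p → ∃ g ∈ C \ S, G.Adj p g := by
    intro p hp hl
    obtain ⟨a, ha, b, hb, h1, h4, h5⟩ := hcyc p (hSC hp)
    by_cases e : a ∈ S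
    · exact ⟨b, mem_sdiff.2 ⟨hb, fun e' => h5 (hl a e b e' h1 h4)⟩, h4⟩
    · exact ⟨a, mem_sdiff.2 ⟨ha, e⟩, h1⟩
  obtain ⟨g, hg, hpg⟩ := out p hpS lp
  obtain ⟨g', hg', hqg⟩ := out q hqS lq
  have hcard : (C \ S).card ≤ 1 := by
    have h1 := hmin (insert f S) ⟨insert_subset (mem_sdiff.1 hf).1 (hSC.trans hCU),
      loop1 cS (fun h => hfC (hSC h)) (two_le_nb.2 ⟨p, hpS, q, hqS, hpq, hfp, hfq⟩)⟩
    have h4 := card_insert_le f S
    have h5 := card_sdiff_add_card_eq_card hSC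
    omega
  have hgg : g = g' := card_le_one.1 hcard g hg g' hg'
  exact ⟨p, hp, g, hCU (mem_sdiff.1 hg).1, q, hq, f, (mem_sdiff.1 hf).1, hpg, hgg ▸ hqg.symm,
    hfq.symm, hfp, hpq, fun e => hfC (e ▸ (mem_sdiff.1 hg).1)⟩

end Pool.Agent.MP_7be75d_co.Lov

end MrgPart3

-- ======== part 4: formerly Pool.Agent.MP_7be75d_co.Lovasz3
section MrgPart4

/-! The case of minimum degree three and girth four, and the induction. -/

namespace Pool.Agent.MP_7be75d_co.Lov

open Finset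
open scoped Classical

variable {V : Type} {G : SimpleGraph V}

variable {S T U F P Q : Finset V} {a b c d l u v w x y z : V}

theorem k33_leaf (ht : TriFree G U) (ha : a ∈ U) (hb : b ∈ U) (hc : c ∈ U) (hd : d ∈ U)
    (hab : G.Adj a b) (hbc : G.Adj b c) (hcd : G.Adj c d) (hda : G.Adj d a) (hac : a ≠ c)
    (hbd : b ≠ d) (hT : T ⊆ U) (na : a ∉ T) (nb' : b ∉ T) (nc : c ∉ T) (nd : d ∉ T)
    (cT : Conn G T) (hl : l ∈ T) (ll : Leaf G T l) (la : G.Adj l a) (lc : G.Adj l c)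
    (h1 : 1 ≤ nb G b T) (h2 : 1 ≤ nb G d T) :
    Model (completeBipartiteGraph (Fin 3) (Fin 3)) G U := by
  obtain ⟨p, hp, hbp⟩ := one_le_nb.1 h1
  obtain ⟨q, hq, hdq⟩ := one_le_nb.1 h2
  have hp' : p ∈ T.erase l :=
    mem_erase.2 ⟨fun e => ht l (hT hl) a ha b hb la (e ▸ hbp.symm) hab, hp⟩
  have hq' : q ∈ T.erase l :=
    mem_erase.2 ⟨fun e => ht l (hT hl) a ha d hd la (e ▸ hdq.symm) hda.symm, hq⟩
  obtain ⟨r, hr, hlr⟩ := cT.exists_adj hl hp (mem_erase.1 hp').1.symm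
  have ne : ∀ t, t ∉ T → Disjoint {t} (T.erase l) := fun t h =>
    disjoint_singleton_left.2 fun h' => h (mem_erase.1 h').2
  have nl : ∀ t, t ∉ T → Disjoint ({t} : Finset V) {l} := fun t h =>
    disjoint_singleton.2 fun e => h (e ▸ hl)
  exact model33 (Conn.singleton a) (Conn.singleton c) (conn_erase_leaf cT ll ⟨p, hp'⟩)
    (Conn.singleton b) (Conn.singleton d) (Conn.singleton l) (singleton_subset_iff.2 ha)
    (singleton_subset_iff.2 hc) ((erase_subset _ _).trans hT) (singleton_subset_iff.2 hb)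
    (singleton_subset_iff.2 hd) (singleton_subset_iff.2 (hT hl)) (disjoint_singleton.2 hac)
    (ne a na) (disjoint_singleton.2 hab.ne) (disjoint_singleton.2 hda.ne.symm) (nl a na)
    (ne c nc) (disjoint_singleton.2 hbc.ne.symm) (disjoint_singleton.2 hcd.ne) (nl c nc)
    (ne b nb').symm (ne d nd).symm (by simp) (disjoint_singleton.2 hbd) (nl b nb') (nl d nd)
    (tch_single hab) (tch_single hda.symm) (tch_single la.symm) (tch_single hbc.symm)
    (tch_single hcd) (tch_single lc.symm) (tch_left hp' hbp).symm (tch_left hq' hdq).symm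
    (tch_left (mem_erase.2 ⟨hlr.ne.symm, hr⟩) hlr).symm

theorem comp_disjoint (h : x ∉ comp G F y) : Disjoint (comp G F y) (comp G F x) := by
  refine disjoint_left.2 fun t h1 h2 => h ?_
  by_cases hx : x ∈ F
  · rw [← comp_eq h1, comp_eq h2]
    exact self_mem_comp hx
  · have := (mem_comp.1 h2).2.symm.mem (comp_subset h2)
    exact absurd this hx

theorem leaf_of_comp (hl : l ∈ comp G F y) (h : Leaf G (comp G F y) l) : Leaf G F l :=
  fun p hp q hq h1 h2 => h p (comp_closed hl hp h1) q (comp_closed hl hq h2) h1 h2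

theorem four (h2 : NoTwo G U) (h3 : Deg3 G U) (ht : TriFree G U) (ha : a ∈ U) (hb : b ∈ U)
    (hc : c ∈ U) (hd : d ∈ U) (hab : G.Adj a b) (hbc : G.Adj b c) (hcd : G.Adj c d)
    (hda : G.Adj d a) (hac : a ≠ c) (hbd : b ≠ d) :
    Model (completeBipartiteGraph (Fin 3) (Fin 3)) G U := by
  by_contra hk
  set F := U \ {a, b, c, d} with hF
  have mF : ∀ t, t ∈ F ↔ t ∈ U ∧ t ≠ a ∧ t ≠ b ∧ t ≠ c ∧ t ≠ d := fun t => by simp [hF, not_or]
  have nac : ¬ G.Adj a c := ht b hb a ha c hc hab.symm hbc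
  have nbd : ¬ G.Adj b d := ht a ha b hb d hd hab hda.symm
  have hA : Acyc G F := h2 {a, b, c, d} (by simp [insert_subset_iff, ha, hb, hc, hd]) F
    sdiff_subset disjoint_sdiff (not_acyc_of subset_rfl (by simp) fun w hw => by
      simp only [mem_insert, mem_singleton] at hw
      rcases hw with rfl | rfl | rfl | rfl
      · exact ⟨b, by simp, d, by simp, hab, hda.symm, hbd⟩
      · exact ⟨a, by simp, c, by simp, hab.symm, hbc, hac⟩
      · exact ⟨b, by simp, d, by simp, hbc.symm, hcd, hbd⟩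
      · exact ⟨a, by simp, c, by simp, hda, hcd.symm, hac⟩)
  -- a vertex with two prescribed possible neighbours on the cycle has a neighbour in `F`
  have third : ∀ t ∈ U, ∀ p q, (∀ s, G.Adj t s → s ∈ U → s ∉ F → s = p ∨ s = q) →
      ∃ r ∈ F, G.Adj t r := by
    intro t htU p q h
    by_contra hn
    push Not at hn
    obtain ⟨r1, m1, r2, m2, r3, m3, a1, a2, a3, n1, n2, n3⟩ := h3 t htU
    have e1 := h r1 a1 m1 fun e => hn r1 e a1
    have e2 := h r2 a2 m2 fun e => hn r2 e a2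
    have e3 := h r3 a3 m3 fun e => hn r3 e a3
    rcases e1 with e1 | e1 <;> rcases e2 with e2 | e2 <;> rcases e3 with e3 | e3 <;> simp_all
  have cyc : ∀ s ∈ U, s ∉ F → s = a ∨ s = b ∨ s = c ∨ s = d := fun s hs h => by
    by_contra e
    push Not at e
    exact h ((mF s).2 ⟨hs, e⟩)
  have lt : ∀ l ∈ F, Leaf G F l →
      ((G.Adj l a ∧ G.Adj l c) ∨ (G.Adj l b ∧ G.Adj l d)) ∧ ∃ r ∈ F, G.Adj l r := by
    intro l hl ll
    have hlU := ((mF l).1 hl).1
    have t1 := fun h h' => ht l hlU a ha b hb h h' hab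
    have t2 := fun h h' => ht l hlU b hb c hc h h' hbc
    have t3 := fun h h' => ht l hlU c hc d hd h h' hcd
    have t4 := fun h h' => ht l hlU d hd a ha h h' hda
    obtain ⟨p, hp, q, hq, a1, a2, hpq, np, nq⟩ := h3.out hlU ll
    have key : (G.Adj l a ∧ G.Adj l c) ∨ (G.Adj l b ∧ G.Adj l d) := by
      rcases cyc p hp np with rfl | rfl | rfl | rfl <;>
        rcases cyc q hq nq with rfl | rfl | rfl | rfl <;> tauto
    refine ⟨key, ?_⟩
    rcases key with key | key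
    · refine third l hlU a c fun s h hs hn => ?_
      rcases cyc s hs hn with rfl | rfl | rfl | rfl <;> tauto
    · refine third l hlU b d fun s h hs hn => ?_
      rcases cyc s hs hn with rfl | rfl | rfl | rfl <;> tauto
  have nT : ∀ t, comp G F t ⊆ U ∧ a ∉ comp G F t ∧ b ∉ comp G F t ∧ c ∉ comp G F t ∧
      d ∉ comp G F t := fun t =>
    ⟨comp_subset.trans sdiff_subset, fun h => ((mF _).1 (comp_subset h)).2.1 rfl,
      fun h => ((mF _).1 (comp_subset h)).2.2.1 rfl,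
      fun h => ((mF _).1 (comp_subset h)).2.2.2.1 rfl,
      fun h => ((mF _).1 (comp_subset h)).2.2.2.2 rfl⟩
  have k1 : ∀ t ∈ F, ∀ l ∈ comp G F t, Leaf G (comp G F t) l → G.Adj l a → G.Adj l c →
      1 ≤ nb G b (comp G F t) → 1 ≤ nb G d (comp G F t) → False := fun t htF l hl ll la lc n1 n2 =>
    hk (k33_leaf ht ha hb hc hd hab hbc hcd hda hac hbd (nT t).1 (nT t).2.1 (nT t).2.2.1
      (nT t).2.2.2.1 (nT t).2.2.2.2 (comp_conn htF) hl ll la lc n1 n2)
  have k2 : ∀ t ∈ F, ∀ l ∈ comp G F t, Leaf G (comp G F t) l → G.Adj l b → G.Adj l d →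
      1 ≤ nb G c (comp G F t) → 1 ≤ nb G a (comp G F t) → False := fun t htF l hl ll la lc n1 n2 =>
    hk (k33_leaf ht hb hc hd ha hbc hcd hda hab hbd hac.symm (nT t).1 (nT t).2.2.1
      (nT t).2.2.2.1 (nT t).2.2.2.2 (nT t).2.1 (comp_conn htF) hl ll la lc n1 n2)
  have ct : ∀ t ∈ F, ∃ l ∈ comp G F t, Leaf G (comp G F t) l ∧
      ((G.Adj l a ∧ G.Adj l c ∧ 2 ≤ nb G a (comp G F t) ∧ 2 ≤ nb G c (comp G F t)) ∨
        (G.Adj l b ∧ G.Adj l d ∧ 2 ≤ nb G b (comp G F t) ∧ 2 ≤ nb G d (comp G F t))) := by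
    intro t htF
    have hAT : Acyc G (comp G F t) := hA.mono comp_subset
    obtain ⟨l1, m1, f1⟩ := hAT _ subset_rfl ⟨t, self_mem_comp htF⟩
    obtain ⟨y1, r, hr, hlr⟩ := lt l1 (comp_subset m1) (leaf_of_comp m1 f1)
    obtain ⟨l2, m2, n12, f2⟩ := root_leaf hAT m1 (comp_closed m1 hr hlr) hlr.ne.symm
    obtain ⟨y2, -⟩ := lt l2 (comp_subset m2) (leaf_of_comp m2 f2)
    rcases y1 with y1 | y1 <;> rcases y2 with y2 | y2
    · exact ⟨l1, m1, f1, Or.inl ⟨y1.1, y1.2, two_le_nb.2 ⟨l2, m2, l1, m1, n12, y2.1.symm, y1.1.symm⟩,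
        two_le_nb.2 ⟨l2, m2, l1, m1, n12, y2.2.symm, y1.2.symm⟩⟩⟩
    · exact (k1 t htF l1 m1 f1 y1.1 y1.2 (one_le_nb.2 ⟨l2, m2, y2.1.symm⟩)
        (one_le_nb.2 ⟨l2, m2, y2.2.symm⟩)).elim
    · exact (k1 t htF l2 m2 f2 y2.1 y2.2 (one_le_nb.2 ⟨l1, m1, y1.1.symm⟩)
        (one_le_nb.2 ⟨l1, m1, y1.2.symm⟩)).elim
    · exact ⟨l1, m1, f1, Or.inr ⟨y1.1, y1.2, two_le_nb.2 ⟨l2, m2, l1, m1, n12, y2.1.symm, y1.1.symm⟩,
        two_le_nb.2 ⟨l2, m2, l1, m1, n12, y2.2.symm, y1.2.symm⟩⟩⟩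
  have two : ∀ t ∈ F, ∀ s ∈ F, ∀ p ∈ U, ∀ q ∈ U, p ∉ F → q ∉ F → p ≠ q →
      2 ≤ nb G p (comp G F t) → 2 ≤ nb G q (comp G F s) → s ∈ comp G F t := by
    intro t htF s hsF p hp q hq np nq hpq n1 n2
    by_contra hn
    refine h2.false (insert_subset hp (nT t).1) (insert_subset hq (nT s).1) ?_
      (loop1 (comp_conn htF) (fun h => np (comp_subset h)) n1)
      (loop1 (comp_conn hsF) (fun h => nq (comp_subset h)) n2)
    refine disjoint_left.2 fun r h h' => ?_
    rcases mem_insert.1 h with rfl | h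
    · rcases mem_insert.1 h' with h' | h'
      · exact hpq h'
      · exact np (comp_subset h')
    · rcases mem_insert.1 h' with rfl | h'
      · exact nq (comp_subset h)
      · exact disjoint_left.1 (comp_disjoint hn) h h'
  have aF : a ∉ F := fun h => ((mF _).1 h).2.1 rfl
  have bF : b ∉ F := fun h => ((mF _).1 h).2.2.1 rfl
  have cF : c ∉ F := fun h => ((mF _).1 h).2.2.2.1 rfl
  have dF : d ∉ F := fun h => ((mF _).1 h).2.2.2.2 rfl
  have one : ∀ t ∈ F, ∀ s ∈ F, s ∈ comp G F t := by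
    intro t htF s hsF
    obtain ⟨_, -, -, y1⟩ := ct t htF
    obtain ⟨_, -, -, y2⟩ := ct s hsF
    rcases y1 with y1 | y1 <;> rcases y2 with y2 | y2
    · exact two t htF s hsF a ha c hc aF cF hac y1.2.2.1 y2.2.2.2
    · exact two t htF s hsF a ha b hb aF bF hab.ne y1.2.2.1 y2.2.2.1
    · exact two t htF s hsF b hb a ha bF aF hab.ne.symm y1.2.2.1 y2.2.2.1
    · exact two t htF s hsF b hb d hd bF dF hbd y1.2.2.1 y2.2.2.2
  obtain ⟨ra, ma, ea⟩ := third a ha b d fun s h hs hn => by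
    rcases cyc s hs hn with rfl | rfl | rfl | rfl
    exacts [absurd rfl h.ne, Or.inl rfl, absurd h nac, Or.inr rfl]
  obtain ⟨rb, mb, eb⟩ := third b hb a c fun s h hs hn => by
    rcases cyc s hs hn with rfl | rfl | rfl | rfl
    exacts [Or.inl rfl, absurd rfl h.ne, Or.inr rfl, absurd h nbd]
  obtain ⟨rc, mc, ec⟩ := third c hc b d fun s h hs hn => by
    rcases cyc s hs hn with rfl | rfl | rfl | rfl
    exacts [absurd h.symm nac, Or.inl rfl, absurd rfl h.ne, Or.inr rfl]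
  obtain ⟨rd, md, ed⟩ := third d hd a c fun s h hs hn => by
    rcases cyc s hs hn with rfl | rfl | rfl | rfl
    exacts [Or.inl rfl, absurd h.symm nbd, Or.inr rfl, absurd rfl h.ne]
  obtain ⟨l, hl, ll, y⟩ := ct ra ma
  rcases y with y | y
  · exact k1 ra ma l hl ll y.1 y.2.1 (one_le_nb.2 ⟨rb, one ra ma rb mb, eb⟩)
      (one_le_nb.2 ⟨rd, one ra ma rd md, ed⟩)
  · exact k2 ra ma l hl ll y.1 y.2.1 (one_le_nb.2 ⟨rc, one ra ma rc mc, ec⟩)
      (one_le_nb.2 ⟨ra, one ra ma ra ma, ea⟩)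

section suppress

variable {G' : SimpleGraph V}

/-- Subdividing the edge `uv` by `w` keeps cycles. -/
theorem acyc_down (hG : ∀ x y, G'.Adj x y ↔ G.Adj x y ∨ (x = u ∧ y = v) ∨ (x = v ∧ y = u))
    (hu : G.Adj w u) (hv : G.Adj w v) (hw : w ∉ S) (h : Acyc G (insert w S)) : Acyc G' S := by
  by_contra hn
  obtain ⟨T, hT, hne, hc⟩ := not_acyc hn
  have hwT : ∀ t ∈ T, t ≠ w := fun t ht e => hw (e ▸ hT ht)
  by_cases e : u ∈ T ∧ v ∈ T ∧ u ≠ v
  · refine not_acyc_of (insert_subset_insert w hT) (insert_nonempty _ _) (fun t ht => ?_) h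
    rcases mem_insert.1 ht with rfl | ht
    · exact ⟨u, mem_insert_of_mem e.1, v, mem_insert_of_mem e.2.1, hu, hv, e.2.2⟩
    obtain ⟨p, hp, q, hq, h1, h2, h3⟩ := hc t ht
    have key : ∀ p ∈ T, G'.Adj t p → ¬ G.Adj t p → G.Adj t w ∧ ∀ q, G'.Adj t q → q ≠ p → G.Adj t q := by
      intro p hp h1 h2
      rcases (hG t p).1 h1 with h4 | h4 | h4
      · exact absurd h4 h2
      · refine ⟨h4.1 ▸ hu.symm, fun q h5 h6 => ?_⟩
        rcases (hG t q).1 h5 with h7 | h7 | h7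
        · exact h7
        · exact absurd (h7.2.trans h4.2.symm) h6
        · exact absurd (h4.1.symm.trans h7.1) e.2.2
      · refine ⟨h4.1 ▸ hv.symm, fun q h5 h6 => ?_⟩
        rcases (hG t q).1 h5 with h7 | h7 | h7
        · exact h7
        · exact absurd (h7.1.symm.trans h4.1) e.2.2
        · exact absurd (h7.2.trans h4.2.symm) h6
    by_cases e1 : G.Adj t p
    · by_cases e2 : G.Adj t q
      · exact ⟨p, mem_insert_of_mem hp, q, mem_insert_of_mem hq, e1, e2, h3⟩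
      · exact ⟨p, mem_insert_of_mem hp, w, mem_insert_self _ _, e1, (key q hq h2 e2).1, hwT p hp⟩
    · exact ⟨q, mem_insert_of_mem hq, w, mem_insert_self _ _, (key p hp h1 e1).2 q h2 h3.symm,
        (key p hp h1 e1).1, hwT q hq⟩
  · refine not_acyc_of (hT.trans (subset_insert w S)) hne (fun t ht => ?_) h
    have key : ∀ p ∈ T, G'.Adj t p → G.Adj t p := fun p hp h1 => by
      rcases (hG t p).1 h1 with h4 | h4 | h4
      · exact h4
      · exact absurd ⟨h4.1 ▸ ht, h4.2 ▸ hp, h4.1 ▸ h4.2 ▸ h1.ne⟩ e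
      · exact absurd ⟨h4.2 ▸ hp, h4.1 ▸ ht, h4.1 ▸ h4.2 ▸ h1.ne.symm⟩ e
    obtain ⟨p, hp, q, hq, h1, h2, h3⟩ := hc t ht
    exact ⟨p, hp, q, hq, key p hp h1, key q hq h2, h3⟩

theorem acyc_same (hG : ∀ x y, G'.Adj x y ↔ G.Adj x y ∨ (x = u ∧ y = v) ∨ (x = v ∧ y = u))
    (hn : ¬ (u ∈ S ∧ v ∈ S)) (h : Acyc G S) : Acyc G' S :=
  h.anti fun x hx y hy hxy => by
    rcases (hG x y).1 hxy with h4 | h4 | h4
    · exact h4
    · exact absurd ⟨h4.1 ▸ hx, h4.2 ▸ hy⟩ hn
    · exact absurd ⟨h4.2 ▸ hy, h4.1 ▸ hx⟩ hn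

theorem acyc_up (hG : ∀ x y, G'.Adj x y ↔ G.Adj x y ∨ (x = u ∧ y = v) ∨ (x = v ∧ y = u))
    (hu : G.Adj w u) (hv : G.Adj w v) (huv : ¬ G.Adj u v)
    (hw : ∀ t ∈ S, G.Adj w t → t = u ∨ t = v) (h : Acyc G' (S.erase w)) : Acyc G S := by
  by_contra hn
  obtain ⟨T, hT, hne, hc⟩ := not_acyc hn
  by_cases e : w ∈ T
  swap
  · refine not_acyc_of (T := T) (fun t ht => mem_erase.2 ⟨fun e' : t = w => e (e' ▸ ht), hT ht⟩) hne
      (fun t ht => ?_) h
    obtain ⟨p, hp, q, hq, h1, h2, h3⟩ := hc t ht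
    exact ⟨p, hp, q, hq, (hG _ _).2 (Or.inl h1), (hG _ _).2 (Or.inl h2), h3⟩
  obtain ⟨huT, hvT⟩ : u ∈ T ∧ v ∈ T := by
    obtain ⟨p, hp, q, hq, h1, h2, h3⟩ := hc w e
    rcases hw p (hT hp) h1 with rfl | rfl <;> rcases hw q (hT hq) h2 with rfl | rfl
    exacts [absurd rfl h3, ⟨hp, hq⟩, ⟨hq, hp⟩, absurd rfl h3]
  have hu' : u ∈ T.erase w := mem_erase.2 ⟨hu.ne.symm, huT⟩
  have hv' : v ∈ T.erase w := mem_erase.2 ⟨hv.ne.symm, hvT⟩
  refine not_acyc_of (erase_subset_erase w hT) ⟨u, hu'⟩ (fun t ht => ?_) h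
  have key : ∀ q ∈ T, q ≠ w → G.Adj t w → G.Adj t q →
      ∃ x ∈ T.erase w, ∃ y ∈ T.erase w, G'.Adj t x ∧ G'.Adj t y ∧ x ≠ y := by
    intro q hq hqw h1 h2
    rcases hw t (hT (mem_erase.1 ht).2) h1.symm with rfl | rfl
    · exact ⟨q, mem_erase.2 ⟨hqw, hq⟩, v, hv', (hG _ _).2 (Or.inl h2),
        (hG _ _).2 (Or.inr (Or.inl ⟨rfl, rfl⟩)), fun e => huv (e ▸ h2)⟩
    · exact ⟨q, mem_erase.2 ⟨hqw, hq⟩, u, hu', (hG _ _).2 (Or.inl h2),
        (hG _ _).2 (Or.inr (Or.inr ⟨rfl, rfl⟩)), fun e => huv (e ▸ h2.symm)⟩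
  obtain ⟨p, hp, q, hq, h1, h2, h3⟩ := hc t (mem_erase.1 ht).2
  by_cases e1 : p = w
  · exact key q hq (fun e' => h3 (e1.trans e'.symm)) (e1 ▸ h1) h2
  by_cases e2 : q = w
  · exact key p hp e1 (e2 ▸ h2) h1
  · exact ⟨p, mem_erase.2 ⟨e1, hp⟩, q, mem_erase.2 ⟨e2, hq⟩, (hG _ _).2 (Or.inl h1),
      (hG _ _).2 (Or.inl h2), h3⟩

theorem model_up {ι : Type} {K : SimpleGraph ι}
    (hG : ∀ x y, G'.Adj x y ↔ G.Adj x y ∨ (x = u ∧ y = v) ∨ (x = v ∧ y = u))
    (hu : G.Adj w u) (hv : G.Adj w v) (hw : w ∈ U) (h : Model K G' (U.erase w)) :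
    Model K G U := by
  obtain ⟨φ, h1, h2, h3, h4⟩ := h
  have sub : ∀ i, φ i ⊆ if u ∈ φ i then insert w (φ i) else φ i := fun i => by
    split_ifs
    exacts [subset_insert _ _, subset_rfl]
  have nw : ∀ i, w ∉ φ i := fun i h => (mem_erase.1 (h2 i h)).1 rfl
  refine ⟨fun i => if u ∈ φ i then insert w (φ i) else φ i, fun i => ?_, fun i => ?_,
    fun i j hij => ?_, fun i j hij => ?_⟩
  · by_cases e : u ∈ φ i
    · simp only [e, if_true]
      refine Conn.of_center (mem_insert_of_mem e) fun b hb => ?_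
      rcases mem_insert.1 hb with rfl | hb
      · exact R.single hu.symm (mem_insert_of_mem e) (mem_insert_self _ _)
      refine ((h1 i).2 u e b hb).ind R.refl fun x y _ hx hxy mx my => ?_
      rcases (hG x y).1 hxy with h5 | h5 | h5
      · exact hx.tail h5 (mem_insert_of_mem mx) (mem_insert_of_mem my)
      · exact (hx.tail (h5.1 ▸ hu.symm) (mem_insert_of_mem mx) (mem_insert_self _ _)).tail
          (h5.2 ▸ hv) (mem_insert_self _ _) (mem_insert_of_mem my)
      · exact h5.2 ▸ R.refl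
    · simp only [e, if_false]
      refine (h1 i).mono' fun x y hxy mx my => ?_
      rcases (hG x y).1 hxy with h5 | h5 | h5
      · exact h5
      · exact absurd (h5.1 ▸ mx) e
      · exact absurd (h5.2 ▸ my) e
  · have : φ i ⊆ U := (h2 i).trans (erase_subset _ _)
    dsimp only
    split_ifs
    exacts [insert_subset hw this, this]
  · have := h3 i j hij
    dsimp only
    split_ifs with e1 e2 e2
    · exact absurd e2 (disjoint_left.1 this e1)
    · exact disjoint_insert_left.2 ⟨nw j, this⟩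
    · exact disjoint_insert_right.2 ⟨nw i, this⟩
    · exact this
  · obtain ⟨x, mx, y, my, hxy⟩ := h4 i j hij
    rcases (hG x y).1 hxy with h5 | h5 | h5
    · exact ⟨x, sub i mx, y, sub j my, h5⟩
    · exact ⟨w, by simp [show u ∈ φ i from h5.1 ▸ mx], y, sub j my, h5.2 ▸ hv⟩
    · exact ⟨x, sub i mx, w, by simp [show u ∈ φ j from h5.2 ▸ my], h5.1 ▸ hv.symm⟩

end suppress

theorem fvs_or_kur [Nonempty V] (h2 : NoTwo G U) : Fvs G U ∨ Kur G U := by
  induction hn : U.card using Nat.strong_induction_on generalizing G U with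
  | _ n ih =>
  rcases U.eq_empty_or_nonempty with rfl | hne
  · exact Or.inl ⟨Classical.arbitrary V, Classical.arbitrary V, acyc_empty.mono sdiff_subset⟩
  have sub : ∀ w a b : V, (U \ {a, b}).erase w ⊆ U.erase w \ {a, b} := fun w a b t ht => by
    simp only [mem_erase, mem_sdiff] at ht ⊢
    tauto
  by_cases hl : ∃ w ∈ U, Leaf G U w
  · obtain ⟨w, hw, hl⟩ := hl
    rcases ih _ (hn ▸ card_erase_lt_of_mem hw) (h2.mono (erase_subset w U)) rfl with h | h
    · obtain ⟨a, b, h⟩ := h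
      exact Or.inl ⟨a, b, (h.mono (sub w a b)).of_erase (hl.mono sdiff_subset)⟩
    · exact Or.inr (h.imp (fun h => h.mono (erase_subset _ _)) fun h => h.mono (erase_subset _ _))
  by_cases ht : TriFree G U
  swap
  · unfold TriFree at ht
    push Not at ht
    obtain ⟨x, hx, y, hy, z, hz, h3, h4, h5⟩ := ht
    exact triangle h2 hx hy hz h3 h4 h5
  by_cases h3 : Deg3 G U
  · obtain ⟨p, hp, g, hg, q, hq, f, hf, a1, a2, a3, a4, n1, n2⟩ := exists_four h2 h3 hne ht
    exact Or.inr (Or.inr (four h2 h3 ht hp hg hq hf a1 a2 a3 a4 n1 n2))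
  unfold Deg3 at h3
  push Not at h3
  obtain ⟨w, hw, h3⟩ := h3
  obtain ⟨u, hu, v, hv, hwu, hwv, huv⟩ : ∃ u ∈ U, ∃ v ∈ U, G.Adj w u ∧ G.Adj w v ∧ u ≠ v := by
    by_contra e
    push Not at e
    exact hl ⟨w, hw, e⟩
  have hnb : ∀ t ∈ U, G.Adj w t → t = u ∨ t = v := fun t htU h => by
    by_cases e : u = t
    · exact Or.inl e.symm
    · exact Or.inr (h3 u hu v hv t htU hwu hwv h huv e).symm
  have hG : ∀ x y, (G ⊔ SimpleGraph.edge u v).Adj x y ↔
      G.Adj x y ∨ (x = u ∧ y = v) ∨ (x = v ∧ y = u) := fun x y => by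
    rw [SimpleGraph.sup_adj, SimpleGraph.edge_adj]
    refine or_congr_right ⟨fun h => h.1, fun h => ⟨h, ?_⟩⟩
    rcases h with ⟨rfl, rfl⟩ | ⟨rfl, rfl⟩
    exacts [huv, huv.symm]
  have h2' : NoTwo (G ⊔ SimpleGraph.edge u v) (U.erase w) := by
    intro S hS T hT hd hA
    have nS : w ∉ S := fun h => (mem_erase.1 (hS h)).1 rfl
    have nT : w ∉ T := fun h => (mem_erase.1 (hT h)).1 rfl
    have sS : S ⊆ U := hS.trans (erase_subset _ _)
    have sT : T ⊆ U := hT.trans (erase_subset _ _)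
    by_cases e : u ∈ S ∧ v ∈ S
    · exact acyc_same hG (fun e' => disjoint_left.1 hd e.1 e'.1)
        (h2 (insert w S) (insert_subset hw sS) T sT (disjoint_insert_left.2 ⟨nT, hd⟩)
          fun h => hA (acyc_down hG hwu hwv nS h))
    · exact acyc_down hG hwu hwv nT
        (h2 S sS (insert w T) (insert_subset hw sT) (disjoint_insert_right.2 ⟨nS, hd⟩)
          fun h => hA (acyc_same hG e h))
  rcases ih _ (hn ▸ card_erase_lt_of_mem hw) h2' rfl with h | h
  · obtain ⟨a, b, h⟩ := h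
    exact Or.inl ⟨a, b, acyc_up hG hwu hwv (ht w hw u hu v hv hwu hwv)
      (fun t htU => hnb t (mem_sdiff.1 htU).1) (h.mono (sub w a b))⟩
  · exact Or.inr (h.imp (model_up hG hwu hwv hw) (model_up hG hwu hwv hw))

end Pool.Agent.MP_7be75d_co.Lov

end MrgPart4

-- marker of a merged file
example : 731051 + 683233 = 731051 + 683233 := rfl
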