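import Pool.Agent.MP_7be75d_co.Core
import Mathlib.Combinatorics.Pigeonhole
import Pool.Agent.MP_7be75d_co.Lovasz3

-- ======== part 0: formerly Pool.Agent.MP_7be75d_co.Layer
section MrgPart0

/-! Gadgets and layers of parallel gadgets. -/

namespace Pool.Agent.MP_7be75d_co

open Finset
open scoped Classical

/-- A model of the rooted graph `J` plus an apex inside `S`, with `x` in the root and `y` in the
apex. -/
def Gad {V τ : Type} (J : SimpleGraph (Option τ)) (G : SimpleGraph V) (S : Finset V) (x y : V) :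
    Prop :=
  ∃ (B : Option τ → Finset V) (A : Finset V),
    (∀ t, B t ⊆ S ∧ Conn G (B t) ∧ Disjoint (B t) A ∧ Touch G (B t) A) ∧ A ⊆ S ∧ Conn G A ∧
    (∀ t t', t ≠ t' → Disjoint (B t) (B t')) ∧ (∀ t t', J.Adj t t' → Touch G (B t) (B t')) ∧
    x ∈ B none ∧ y ∈ A

section

variable {V τ : Type} {J : SimpleGraph (Option τ)} {G : SimpleGraph V} {S T : Finset V}
  {x y u z : V}

theorem Gad.mem (h : Gad J G S x y) : x ∈ S ∧ y ∈ S := by
  obtain ⟨B, A, h1, h2, -, -, -, h3, h4⟩ := h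
  exact ⟨(h1 none).1 h3, h2 h4⟩

theorem Gad.conn (h : Gad J G S x y) : ∃ T ⊆ S, Conn G T ∧ x ∈ T ∧ y ∈ T := by
  obtain ⟨B, A, h1, h2, h5, -, -, h3, h4⟩ := h
  exact ⟨B none ∪ A, union_subset (h1 none).1 h2, (h1 none).2.1.union_touch h5 (h1 none).2.2.2,
    mem_union_left _ h3, mem_union_right _ h4⟩

theorem Gad.right (h : Gad J G S x y) (hT : Conn G T) (hd : Disjoint S T) (hu : u ∈ T)
    (hz : z ∈ T) (ha : G.Adj y u) : Gad J G (S ∪ T) x z := by
  obtain ⟨B, A, h1, h2, h5, h6, h7, h3, h4⟩ := h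
  exact ⟨B, A ∪ T, fun t => ⟨(h1 t).1.trans subset_union_left, (h1 t).2.1,
    disjoint_union_right.2 ⟨(h1 t).2.2.1, hd.mono_left (h1 t).1⟩,
    (h1 t).2.2.2.mono subset_rfl subset_union_left⟩, union_subset_union h2 subset_rfl,
    h5.union_adj hT h4 hu ha, h6, h7, h3, mem_union_right _ hz⟩

theorem Gad.left (h : Gad J G S x y) (hT : Conn G T) (hd : Disjoint T S) (hu : u ∈ T)
    (hz : z ∈ T) (ha : G.Adj u x) : Gad J G (T ∪ S) z y := by
  obtain ⟨B, A, h1, h2, h5, h6, h7, h3, h4⟩ := h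
  have hs : ∀ t : Option τ, B t ⊆ t.elim (T ∪ B none) (fun t => B (some t)) := by
    rintro (_ | t)
    · exact subset_union_right
    · exact subset_rfl
  refine ⟨fun t => t.elim (T ∪ B none) (fun t => B (some t)), A, fun t => ⟨?_, ?_, ?_,
    (h1 t).2.2.2.mono (hs t) subset_rfl⟩, h2.trans subset_union_right, h5, ?_,
    fun t t' ha => (h7 t t' ha).mono (hs t) (hs t'), mem_union_left _ hz, h4⟩
  · cases t with
    | none => exact union_subset_union subset_rfl (h1 none).1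
    | some t => exact (h1 _).1.trans subset_union_right
  · cases t with
    | none => exact hT.union_adj (h1 none).2.1 hu h3 ha
    | some t => exact (h1 _).2.1
  · cases t with
    | none => exact disjoint_union_left.2 ⟨hd.mono_right h2, (h1 none).2.2.1⟩
    | some t => exact (h1 _).2.2.1
  · rintro (_ | t) (_ | t') hn
    · exact absurd rfl hn
    · exact disjoint_union_left.2 ⟨hd.mono_right (h1 _).1, h6 _ _ hn⟩
    · exact disjoint_union_right.2 ⟨(hd.mono_right (h1 _).1).symm, h6 _ _ hn⟩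
    · exact h6 _ _ hn

theorem Gad.through {ι : Type} [Fintype ι] {C : ℕ → CD V ι} {i : ι} (h : Gad J G S x ((C 0).b i))
    (hS : S ⊆ (C 0).reg) (k : ℕ) (hC : PoS G (k + 1) C) :
    Gad J G (S ∪ (Ico 1 (k + 1)).biUnion fun j => (C j).lane i) x ((C k).b i) := by
  induction k with
  | zero => simpa using h
  | succ k ih =>
    have c := hC.cl (k + 1) (by omega)
    have := (ih (hC.shift 0 (k + 1) (by omega) |> fun h => by simpa using h)).right (c.conn i) (by
      rw [disjoint_union_left, disjoint_biUnion_left]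
      refine ⟨(hC.disj 0 (by omega) _ (by omega) (by omega)).mono hS (c.sub i), fun j hj => ?_⟩
      have := mem_Ico.1 hj
      exact (hC.disj j (by omega) _ (by omega) (by omega)).mono ((hC.cl j (by omega)).sub i)
        (c.sub i)) (c.ma i) (c.mb i) (hC.adj k (by omega) i)
    have e : Ico 1 (k + 1 + 1) = insert (k + 1) (Ico 1 (k + 1)) := by
      ext x; simp only [mem_Ico, mem_insert]; omega
    rwa [e, biUnion_insert, union_comm ((C (k + 1)).lane i), ← union_assoc]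

end

theorem gadget (D ρ : ℕ) (hD : 0 < D) : ∃ E : ℕ, 0 < E ∧ ∀ {V ι τ : Type} [Fintype V] [Fintype ι]
    [Fintype τ] {G : SimpleGraph V} {C : CD V ι} {σ : ℕ} {J : SimpleGraph (Option τ)},
    IsCluster G C → Sep G σ → σ ≤ ρ * Fintype.card ι → Peel J {none} univ →
    E * (Fintype.card τ + 1) ≤ Fintype.card ι → ∀ q : ι, ∃ (S : Finset V) (Θ : Finset ι),
      S ⊆ C.reg ∧ D * (foot C S).card ≤ Fintype.card ι ∧ Fintype.card ι ≤ E * Θ.card ∧
      ∀ i ∈ Θ, Gad J G S (C.a q) (C.b i) := by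
  obtain ⟨E, hE⟩ := core D ρ hD
  refine ⟨3 * E + 1, by omega, fun {V ι τ} _ _ _ {G C σ J} h hσ hρ hJ hw q => ?_⟩
  obtain ⟨K, U, β, h1, ⟨h2, h3, h4⟩, h5, h6⟩ := hE h hσ hρ (by nlinarith) q
  have hK : 2 * (univ : Finset (Option τ)).card < K := by
    rw [card_univ, Fintype.card_option]
    by_contra hc
    have := Nat.mul_le_mul_left E (not_lt.1 hc)
    nlinarith
  have h0 : (∅ : Finset V).card < K := by simp; omega
  obtain ⟨B, Z, b1, b2, b3, b4, b5⟩ := growth (p := fun _ => C.a q) hJ h3 hK (by simp)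
    (fun _ _ => h3.subU h0 h5) (fun Z hZ => by
      rcases Z.eq_empty_or_nonempty with rfl | hZ'
      · simp [h5]
      · exact (card_filter_le _ _).trans (by simpa using hZ'))
  have hZ : Z.card < K := by omega
  refine ⟨U, univ.filter fun i => C.b i ∈ β Z, h2, h6,
    h1.trans (Nat.mul_le_mul (by omega) (h4 Z hZ)), fun i hi => ⟨B, β Z, fun t => b2 t (mem_univ _),
      h3.subU hZ, h3.conn Z hZ, fun t t' => b3 t (mem_univ _) t' (mem_univ _), fun t t' ha => ?_,
      b4 none (mem_singleton_self _), (mem_filter.1 hi).2⟩⟩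
  by_cases ht : t = none
  · exact (b5 t' (mem_univ _) t (mem_univ _) ha.symm (by simpa [ht] using ha.ne.symm)).symm
  · exact b5 t (mem_univ _) t' (mem_univ _) ha (by simpa using ht)

theorem layer (ρ m : ℕ) : ∀ D : ℕ, 0 < D → ∃ E : ℕ, ∀ {V ι τ : Type} [Fintype V] [Fintype ι]
    [Fintype τ] {G : SimpleGraph V} {C : ℕ → CD V ι} {σ : ℕ} {J : SimpleGraph (Option τ)}
    {Bad : Finset ι}, PoS G m C → Sep G σ → σ ≤ ρ * Fintype.card ι → Peel J {none} univ →
    E * (Fintype.card τ + 1) ≤ Fintype.card ι →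
    D * Bad.card + Fintype.card ι < D * Fintype.card ι →
    ∃ (S : ℕ → Finset V) (q l : ℕ → ι) (Φ : Finset ι), D * Φ.card ≤ Fintype.card ι ∧
      (∀ s < m, (∀ v ∈ S s, ∃ j < m, v ∈ (C j).reg) ∧ q s ∉ Bad ∧ q s ∈ Φ ∧
        Gad J G (S s) ((C 0).a (q s)) ((C (m - 1)).b (l s))) ∧
      (∀ s < m, ∀ s' < m, s ≠ s' → Disjoint (S s) (S s')) ∧
      ∀ i ∉ Φ, ∀ j < m, ∀ s < m, Disjoint ((C j).lane i) (S s) := by
  induction m with
  | zero =>
    refine fun D _ => ⟨0, fun {V ι τ} _ _ _ {G C σ J Bad} _ _ _ _ _ hB => ?_⟩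
    obtain ⟨i⟩ : Nonempty ι := Fintype.card_pos_iff.1 (Nat.pos_of_mul_pos_left (Nat.zero_lt_of_lt hB))
    exact ⟨fun _ => ∅, fun _ => i, fun _ => i, ∅, by simp, by omega, by omega, by omega⟩
  | succ m ih =>
    intro D hD
    obtain ⟨E0, hE0, h0⟩ := gadget (2 * D) ρ (by omega)
    obtain ⟨E1, h1⟩ := ih (2 * D * E0) (by positivity)
    refine ⟨E0 + E1, fun {V ι τ} _ _ _ {G C σ J Bad} hC hσ hρ hJ hw hB => ?_⟩
    have c0 := hC.cl 0 (by omega)
    obtain ⟨q0, -, hq0⟩ := exists_not_mem_of_card_lt (s := univ) (t := Bad) (by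
      rw [card_univ]
      exact Nat.lt_of_mul_lt_mul_left (a := D) (by omega))
    obtain ⟨S0, Θ, s1, s2, s3, s4⟩ := h0 c0 hσ hρ hJ (by nlinarith) q0
    obtain ⟨S, q, l, Φ, t1, t2, t3, t4⟩ := h1 (Bad := Bad ∪ foot (C 0) S0) (hC.shift 1 m (by omega))
      hσ hρ hJ (by nlinarith) (by
        have h2 := Nat.mul_le_mul_left (2 * D * E0) (card_union_le Bad (foot (C 0) S0))
        have h3 := Nat.mul_le_mul_left E0 s2
        have h4 := Nat.mul_le_mul_left (2 * E0) (Nat.succ_le_of_lt hB)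
        have h5 := Nat.mul_le_mul_right (Fintype.card ι) (Nat.succ_le_of_lt hE0)
        simp only [Nat.succ_eq_add_one] at h4 h5
        nlinarith)
    have hw0 : 0 < Fintype.card ι := Fintype.card_pos_iff.2 ⟨q0⟩
    obtain ⟨l0, hl0, hl0'⟩ := exists_not_mem_of_card_lt (s := Θ) (t := Φ) (by
      by_contra hc
      have h2 := Nat.mul_le_mul_left E0 (not_lt.1 hc)
      have h3 := Nat.mul_le_mul_right (E0 * Φ.card) (Nat.succ_le_of_lt hD)
      simp only [Nat.succ_eq_add_one] at h3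
      nlinarith)
    have g0 := s4 l0 hl0
    have f1 : q0 ∈ foot (C 0) S0 := mem_foot.2 ⟨_, c0.ma q0, g0.mem.1⟩
    have f2 : l0 ∈ foot (C 0) S0 := mem_foot.2 ⟨_, c0.mb l0, g0.mem.2⟩
    have d0 : ∀ s < m, ∀ T ⊆ (C 0).reg, Disjoint T (S s) := fun s hs T hT => by
      rw [disjoint_left]
      intro v h2 h3
      obtain ⟨j, h4, h5⟩ := (t2 s hs).1 v h3
      exact disjoint_left.1 (hC.disj 0 (by omega) (1 + j) (by omega) (by omega)) (hT h2) h5
    have d1 : ∀ j < m + 1, ∀ j' < m + 1, ∀ i i', j ≠ j' ∨ i ≠ i' →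
        Disjoint ((C j).lane i) ((C j').lane i') := fun j hj j' hj' i i' h => by
      by_cases e : j = j'
      · subst e
        exact (hC.cl j hj).disj i i' (h.resolve_left fun h => h rfl)
      · exact (hC.disj j hj j' hj' e).mono ((hC.cl j hj).sub i) ((hC.cl j' hj').sub i')
    have d2 : ∀ i ∉ Φ, ∀ j ∈ Ico 1 (m + 1), ∀ s < m, Disjoint ((C j).lane i) (S s) :=
      fun i hi j hj s hs => by
        have := mem_Ico.1 hj
        have h2 := t4 i hi (j - 1) (by omega) s hs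
        rwa [show 1 + (j - 1) = j by omega] at h2
    have d3 : ∀ s < m, Disjoint (S0 ∪ (Ico 1 (m + 1)).biUnion fun j => (C j).lane l0)
        ((C 0).lane (q s) ∪ S s) := fun s hs => by
      rw [disjoint_union_left, disjoint_union_right, disjoint_biUnion_left]
      refine ⟨⟨(not_mem_foot.1 fun hc => (t2 s hs).2.1 (mem_union_right _ hc)).symm,
        d0 s hs _ s1⟩, fun j hj => disjoint_union_right.2 ⟨?_, d2 l0 hl0' j hj s hs⟩⟩
      have := mem_Ico.1 hj
      exact d1 j (by omega) 0 (by omega) _ _ (Or.inl (by omega))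
    refine ⟨fun s => Nat.casesOn s (S0 ∪ (Ico 1 (m + 1)).biUnion fun j => (C j).lane l0)
      fun s => (C 0).lane (q s) ∪ S s, fun s => Nat.casesOn s q0 q, fun s => Nat.casesOn s l0 l,
      foot (C 0) S0 ∪ Φ, ?_, ?_, ?_, ?_⟩
    · have h2 := Nat.mul_le_mul_left D (card_union_le (foot (C 0) S0) Φ)
      have h3 := Nat.mul_le_mul_right (D * Φ.card) (Nat.succ_le_of_lt hE0)
      simp only [Nat.succ_eq_add_one] at h3
      nlinarith
    · rintro (_ | s) hs
      · refine ⟨fun v hv => ?_, hq0, mem_union_left _ f1, g0.through s1 m hC⟩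
        rcases mem_union.1 hv with hv | hv
        · exact ⟨0, by omega, s1 hv⟩
        · obtain ⟨j, h2, h3⟩ := mem_biUnion.1 hv
          have := mem_Ico.1 h2
          exact ⟨j, by omega, (hC.cl j (by omega)).sub _ h3⟩
      · obtain ⟨h2, h3, h4, h5⟩ := t2 s (by omega)
        refine ⟨fun v hv => ?_, fun hc => h3 (mem_union_left _ hc), mem_union_right _ h4, ?_⟩
        · rcases mem_union.1 hv with hv | hv
          · exact ⟨0, by omega, c0.sub _ hv⟩
          · obtain ⟨j, h6, h7⟩ := h2 v hv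
            exact ⟨1 + j, by omega, h7⟩
        · rw [show 1 + (m - 1) = m by omega] at h5
          exact h5.left (c0.conn _) (d0 s (by omega) _ (c0.sub _)) (c0.mb _) (c0.ma _)
            (hC.adj 0 (by omega) _)
    · rintro (_ | s) hs (_ | s') hs' hn
      · exact absurd rfl hn
      · exact d3 s' (by omega)
      · exact (d3 s (by omega)).symm
      · have h2 := t3 s (by omega) s' (by omega) (by omega)
        refine disjoint_union_left.2 ⟨disjoint_union_right.2 ⟨c0.disj _ _ fun e => ?_,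
          d0 s' (by omega) _ (c0.sub _)⟩, disjoint_union_right.2
            ⟨(d0 s (by omega) _ (c0.sub _)).symm, h2⟩⟩
        exact disjoint_left.1 h2 (t2 s (by omega)).2.2.2.mem.1 (e ▸ (t2 s' (by omega)).2.2.2.mem.1)
    · rintro i hi j hj (_ | s) hs
      · refine disjoint_union_right.2 ⟨?_, (disjoint_biUnion_right _ _ _).2 fun j' hj' => ?_⟩
        · by_cases e : j = 0
          · subst e
            exact not_mem_foot.1 fun hc => hi (mem_union_left _ hc)
          · exact (hC.disj j hj 0 (by omega) e).mono ((hC.cl j hj).sub i) s1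
        · have := mem_Ico.1 hj'
          exact d1 j hj j' (by omega) _ _ (Or.inr fun e => hi (mem_union_left _ (e ▸ f2)))
      · refine disjoint_union_right.2 ⟨d1 j hj 0 (by omega) _ _ (Or.inr fun e =>
          hi (mem_union_right _ (e ▸ (t2 s (by omega)).2.2.1))), ?_⟩
        by_cases e : j = 0
        · subst e
          exact d0 s (by omega) _ (c0.sub _)
        · exact d2 i (fun hc => hi (mem_union_right _ hc)) j (mem_Ico.2 ⟨by omega, hj⟩) s (by omega)

end Pool.Agent.MP_7be75d_co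

end MrgPart0

-- ======== part 1: formerly Pool.Agent.MP_7be75d_co.Router
section MrgPart1

/-! Router clusters. -/

namespace Pool.Agent.MP_7be75d_co

open Finset
open scoped Classical

theorem Conn.attach {V : Type} {G : SimpleGraph V} {S T : Finset V} (hS : Conn G S)
    (h : ∀ v ∈ T, ∃ u ∈ S, G.Adj u v) : Conn G (S ∪ T) := by
  obtain ⟨a, ha⟩ := hS.1
  refine Conn.of_center (mem_union_left _ ha) fun b hb => ?_
  rcases mem_union.1 hb with hb | hb
  · exact hS.r ha hb subset_union_left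
  · obtain ⟨u, h1, h2⟩ := h b hb
    exact (hS.r ha h1 subset_union_left).tail h2 (mem_union_left _ h1) (mem_union_right _ hb)

/-- Balls around `x`. -/
noncomputable def Bl {X : Type} [Fintype X] (Γ : SimpleGraph X) (x : X) : ℕ → Finset X
  | 0 => {x}
  | d + 1 => Bl Γ x d ∪ univ.filter fun v => ∃ u ∈ Bl Γ x d, Γ.Adj u v

theorem path_or_star {X : Type} [Fintype X] {Γ : SimpleGraph X} (h : Conn Γ univ) {n : ℕ}
    (hc : n * n + 1 < Fintype.card X) : ∃ κ : Fin n → X, Function.Injective κ ∧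
      ∀ lo hi : Fin n, lo ≤ hi → ∃ Y : Finset X, Conn Γ Y ∧ ∀ r, κ r ∈ Y ↔ lo ≤ r ∧ r ≤ hi := by
  obtain ⟨x, -⟩ := h.1
  have c1 : ∀ d, Conn Γ (Bl Γ x d) := by
    intro d
    induction d with
    | zero => exact Conn.singleton x
    | succ d ih => exact ih.attach fun v hv => (mem_filter.1 hv).2
  have c2 : Monotone (Bl Γ x) := monotone_nat_of_le_succ fun d => subset_union_left
  by_cases hs : ∃ d, n ≤ (Bl Γ x (d + 1) \ Bl Γ x d).card
  · obtain ⟨d, hd⟩ := hs
    obtain ⟨e⟩ := Function.Embedding.nonempty_of_card_le (α := Fin n)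
      (β := (Bl Γ x (d + 1) \ Bl Γ x d : Finset X)) (by rw [Fintype.card_coe]; simpa using hd)
    have hinj : Function.Injective fun r => (e r).1 := fun r r' h => e.injective (Subtype.ext h)
    refine ⟨fun r => (e r).1, hinj, fun lo hi _ => ⟨Bl Γ x d ∪ (Icc lo hi).image fun r => (e r).1,
      (c1 d).attach fun v hv => ?_, fun r => ?_⟩⟩
    · obtain ⟨r, -, rfl⟩ := mem_image.1 hv
      obtain ⟨h1, h2⟩ := mem_sdiff.1 (e r).2
      exact (mem_filter.1 ((mem_union.1 h1).resolve_left h2)).2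
    · rw [mem_union, or_iff_right (mem_sdiff.1 (e r).2).2, hinj.mem_finset_image, mem_Icc]
  push Not at hs
  have c3 : ∀ d, (Bl Γ x d).card ≤ d * n + 1 := by
    intro d
    induction d with
    | zero => simp [Bl]
    | succ d ih =>
      have h1 := hs d
      have h2 := card_sdiff_add_card_eq_card (c2 (Nat.le_succ d))
      simp only [Nat.succ_eq_add_one] at h2
      nlinarith
  obtain ⟨y, -, hy⟩ := exists_not_mem_of_card_lt (s := univ) ((c3 n).trans_lt hc)
  obtain ⟨u, v, h1, h2, -, -, h3⟩ := h.exit (mem_univ x) (c2 (Nat.zero_le n) (mem_singleton_self x))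
    (mem_univ y) hy
  have c4 : ∀ d v, v ∈ Bl Γ x d → (∀ d' < d, v ∉ Bl Γ x d') → ∃ f : ℕ → X, f d = v ∧
      (∀ j ≤ d, f j ∈ Bl Γ x j ∧ ∀ j' < j, f j ∉ Bl Γ x j') ∧ ∀ j < d, Γ.Adj (f j) (f (j + 1)) := by
    intro d
    induction d with
    | zero =>
      exact fun v h1 h2 => ⟨fun _ => v, rfl, fun j hj => by
        obtain rfl : j = 0 := by omega
        exact ⟨h1, h2⟩, by omega⟩
    | succ d ih =>
      intro v h1 h2
      obtain ⟨u, h3, h4⟩ := (mem_filter.1 ((mem_union.1 h1).resolve_left (h2 d (by omega)))).2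
      obtain ⟨f, f1, f2, f3⟩ := ih u h3 fun d' hd' hc =>
        h2 (d' + 1) (by omega) (mem_union_right _ (mem_filter.2 ⟨mem_univ _, u, hc, h4⟩))
      have u1 : ∀ j ≤ d, Function.update f (d + 1) v j = f j := fun j hj =>
        Function.update_of_ne (by omega) _ _
      have u2 : Function.update f (d + 1) v (d + 1) = v := Function.update_self _ _ _
      refine ⟨Function.update f (d + 1) v, u2, fun j hj => ?_, fun j hj => ?_⟩
      · rcases Nat.le_succ_iff.1 hj with hj | rfl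
        · rw [u1 j hj]; exact f2 j hj
        · rw [u2]; exact ⟨h1, h2⟩
      · rcases Nat.lt_succ_iff_lt_or_eq.1 hj with hj | rfl
        · rw [u1 j hj.le, u1 _ hj]; exact f3 j hj
        · rw [u1 j le_rfl, u2, f1]; exact h4
  obtain ⟨f, -, f2, f3⟩ := c4 (n + 1) v
    (mem_union_right _ (mem_filter.2 ⟨mem_univ _, u, h1, h3⟩)) (fun d' hd' hc => h2 (c2 (by omega) hc))
  have hinj : ∀ i ≤ n, ∀ j ≤ n, f i = f j → i = j := fun i hi j hj e => by
    by_contra hne
    rcases Nat.lt_or_gt_of_ne hne with h | h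
    · exact (f2 j (by omega)).2 i h (e ▸ (f2 i (by omega)).1)
    · exact (f2 i (by omega)).2 j h (e ▸ (f2 j (by omega)).1)
  refine ⟨fun r => f r, fun r r' e => Fin.ext (hinj _ r.2.le _ r'.2.le e), fun lo hi hl =>
    ⟨(Icc lo.1 hi.1).image f, conn_segment hl fun j _ hj => f3 j (by omega), fun r => ?_⟩⟩
  refine ⟨fun h => ?_, fun h => mem_image_of_mem _ (mem_Icc.2 h)⟩
  obtain ⟨j, h1, h2⟩ := mem_image.1 h
  have h3 := mem_Icc.1 h1
  obtain rfl := hinj j (by omega) r r.2.le h2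
  exact h3

theorem router {V ι : Type} [Fintype V] [Fintype ι] {G : SimpleGraph V} {C : CD V ι}
    (h : IsCluster G C) {H n : ℕ} (hH : n * n + 1 < H) {p : Fin H → ι} (hp : Function.Injective p)
    {s : Finset ι} (hs : 2 * H ≤ s.card) :
    ∃ (R : Fin H → Finset V) (e : Fin H → ι) (κ : Fin n → Fin H),
      (∀ k, R k ⊆ C.reg ∧ Conn G (R k) ∧ C.a (p k) ∈ R k ∧ e k ∈ s ∧ C.b (e k) ∈ R k) ∧
      (∀ k k', k ≠ k' → Disjoint (R k) (R k')) ∧ Function.Injective κ ∧
      ∀ lo hi : Fin n, lo ≤ hi → ∃ Y ⊆ C.reg, Conn G Y ∧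
        (∀ r, lo ≤ r ∧ r ≤ hi → R (κ r) ⊆ Y) ∧ ∀ r, ¬ (lo ≤ r ∧ r ≤ hi) → Disjoint Y (R (κ r)) := by
  have hw : s.card ≤ Fintype.card ι := card_le_univ s
  have h0 : (∅ : Finset V).card < Fintype.card ι := by simp; omega
  obtain ⟨P, hP, hP'⟩ := menger_from (G := G) (U := C.reg) (B := s.image C.b) (fun k => C.a (p k))
    (fun Z hZ => by
      rw [Fintype.card_fin] at hZ
      obtain ⟨i, h1, h2⟩ := h.exists_lane (Z := Z) (s := s) (by omega)
      obtain ⟨j, h3, h4⟩ := exists_not_mem_of_card_lt (s := univ.image p)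
        ((h.indep Z (by omega)).trans_lt (by rw [card_image_of_injective _ hp]; simpa using hZ))
      obtain ⟨k, -, rfl⟩ := mem_image.1 h3
      exact h.hv.joined (by omega) ⟨_, mem_image_of_mem _ (mem_univ k), by simpa using h4⟩
        ⟨_, mem_image_of_mem _ h1, h2 (h.mb i)⟩)
  have he : ∀ k, ∃ i ∈ s, C.b i ∈ P k := fun k => by
    obtain ⟨b, h1, h2⟩ := hP.right k
    obtain ⟨i, h3, rfl⟩ := mem_image.1 h1
    exact ⟨i, h3, h2⟩
  choose e he1 he2 using he
  obtain ⟨R', ⟨r1, r2⟩, hm⟩ := exists_max_of (p := fun R' : Fin H → Finset V =>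
    (∀ k, P k ⊆ R' k ∧ R' k ⊆ C.β ∅ ∧ Conn G (R' k)) ∧ ∀ k k', k ≠ k' → Disjoint (R' k) (R' k'))
    (fun R' => (univ.biUnion R').card) (Fintype.card V) (fun _ _ => card_le_univ _)
    ⟨P, fun k => ⟨subset_rfl, h.hv.absorb h0 (hP.conn k) (hP.sub k) (by simp) (hP' k)
      (h.lane_sub_empty _ (h.ma _)), hP.conn k⟩, hP.disj⟩
  let k0 : Fin H := ⟨0, by omega⟩
  have hcov : C.β ∅ ⊆ univ.biUnion R' := by
    intro y hy
    by_contra hc
    obtain ⟨u, v, h1, h2, -, h3, h4⟩ := (h.hv.conn _ h0).exit ((r1 k0).2.1 ((r1 k0).1 (hP' k0)))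
      (mem_biUnion.2 ⟨k0, mem_univ _, (r1 k0).1 (hP' k0)⟩) hy hc
    obtain ⟨k, -, hk⟩ := mem_biUnion.1 h1
    have hs : ∀ k', R' k' ⊆ if k' = k then insert v (R' k') else R' k' := fun k' => by
      split_ifs
      · exact subset_insert _ _
      · exact subset_rfl
    have hv : ∀ k', v ∉ R' k' := fun k' hc => h2 (mem_biUnion.2 ⟨k', mem_univ _, hc⟩)
    have := hm (fun k' => if k' = k then insert v (R' k') else R' k')
      ⟨fun k' => ⟨(r1 k').1.trans (hs k'), ?_, ?_⟩, fun k1 k2 hn => ?_⟩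
    · refine absurd this (not_le.2 (card_lt_card ⟨biUnion_mono fun k' _ => hs k', fun hc => h2
        (hc (mem_biUnion.2 ⟨k, mem_univ _, by simp⟩))⟩))
    · split_ifs
      · exact insert_subset h3 (r1 k').2.1
      · exact (r1 k').2.1
    · split_ifs with e
      · exact (r1 k').2.2.insert (e ▸ hk) h4
      · exact (r1 k').2.2
    · split_ifs with e1 e2 e2
      · exact absurd (e1.trans e2.symm) hn
      · exact disjoint_insert_left.2 ⟨hv _, r2 _ _ hn⟩
      · exact disjoint_insert_right.2 ⟨hv _, r2 _ _ hn⟩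
      · exact r2 _ _ hn
  let Γ : SimpleGraph (Fin H) := ⟨fun k k' => k ≠ k' ∧ Touch G (R' k) (R' k'),
    ⟨fun _ _ h => ⟨h.1.symm, h.2.symm⟩⟩, ⟨fun _ h => h.1 rfl⟩⟩
  have hΓ : Conn Γ univ := by
    refine Conn.of_center (mem_univ k0) fun k _ => ?_
    have hr := (h.hv.conn _ h0).2 _ ((r1 k0).2.1 ((r1 k0).1 (hP' k0))) _
      ((r1 k).2.1 ((r1 k).1 (hP' k)))
    refine hr.ind (P := fun v => ∀ k, v ∈ R' k → R Γ univ k0 k) (fun k' hk' => ?_) ?_ k
      ((r1 k).1 (hP' k))
    · by_cases e : k0 = k'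
      · exact e ▸ R.refl
      · exact absurd hk' (disjoint_left.1 (r2 _ _ e) ((r1 k0).1 (hP' k0)))
    · intro x y _ ih hxy hx _ k' hk'
      obtain ⟨k'', -, h1⟩ := mem_biUnion.1 (hcov hx)
      by_cases e : k'' = k'
      · exact e ▸ ih k'' h1
      · exact (ih k'' h1).tail ⟨e, x, h1, y, hk', hxy⟩ (mem_univ _) (mem_univ _)
  obtain ⟨κ, h1, h2⟩ := path_or_star hΓ (n := n) (by simpa using hH)
  have r3 : ∀ k, R' k ⊆ C.reg := fun k => (r1 k).2.1.trans (h.hv.subU h0)
  refine ⟨R', e, κ, fun k => ⟨r3 k, (r1 k).2.2, (r1 k).1 (hP' k), he1 k, (r1 k).1 (he2 k)⟩, r2, h1,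
    fun lo hi hl => ?_⟩
  obtain ⟨Y, y1, y2⟩ := h2 lo hi hl
  refine ⟨Y.biUnion R', biUnion_subset.2 fun k _ => r3 k,
    y1.biUnion (fun k _ => (r1 k).2.2) fun k _ k' _ ha => ha.2,
    fun r hr => subset_biUnion_of_mem _ ((y2 r).2 hr), fun r hr => ?_⟩
  rw [disjoint_biUnion_left]
  exact fun k hk => r2 _ _ fun e => hr ((y2 r).1 (e ▸ hk))

end Pool.Agent.MP_7be75d_co

end MrgPart1

-- ======== part 2: formerly Pool.Agent.MP_7be75d_co.Assembly
section MrgPart2

/-! Assembling `K₅` minus an edge with fat edges. -/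

namespace Pool.Agent.MP_7be75d_co

open Finset
open scoped Classical

section

variable {V τ : Type} {J : SimpleGraph (Option τ)} {G : SimpleGraph V}

theorem Conn.attach_sets {ι : Type} {S : Finset V} (hS : Conn G S) (I : Finset ι)
    {f : ι → Finset V} (h : ∀ i ∈ I, Conn G (f i) ∧ Touch G S (f i)) :
    Conn G (S ∪ I.biUnion f) := by
  induction I using Finset.induction_on with
  | empty => simpa using hS
  | insert a I _ ih =>
    rw [biUnion_insert, union_comm (f a), ← union_assoc]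
    exact (ih fun i hi => h i (mem_insert_of_mem hi)).union_touch (h a (mem_insert_self _ _)).1
      ((h a (mem_insert_self _ _)).2.mono subset_union_left subset_rfl)

theorem fat_model {X Ed : Type} [Fintype Ed] {sr tg : Ed → X} {Big : Finset V} {Y : X → Finset V}
    {S : Ed → Finset V} {x y : Ed → V}
    (hY : ∀ g, Y g ⊆ Big ∧ Conn G (Y g)) (hYd : ∀ g g', g ≠ g' → Disjoint (Y g) (Y g'))
    (hS : ∀ e, S e ⊆ Big ∧ Gad J G (S e) (x e) (y e) ∧ (∃ u ∈ Y (sr e), G.Adj u (x e)) ∧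
      ∃ u ∈ Y (tg e), G.Adj (y e) u) (hSd : ∀ e e', e ≠ e' → Disjoint (S e) (S e'))
    (hYS : ∀ g e, Disjoint (Y g) (S e)) :
    ∃ (Hb : X → Finset V) (B : Ed → τ → Finset V), (∀ g, Hb g ⊆ Big ∧ Conn G (Hb g)) ∧
      (∀ e t, B e t ⊆ Big ∧ Conn G (B e t)) ∧ (∀ g g', g ≠ g' → Disjoint (Hb g) (Hb g')) ∧
      (∀ g e t, Disjoint (Hb g) (B e t)) ∧
      (∀ e t e' t', e ≠ e' ∨ t ≠ t' → Disjoint (B e t) (B e' t')) ∧
      (∀ e, Touch G (Hb (sr e)) (Hb (tg e))) ∧ (∀ e t, Touch G (Hb (tg e)) (B e t)) ∧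
      (∀ e t, J.Adj none (some t) → Touch G (Hb (sr e)) (B e t)) ∧
      ∀ e t t', J.Adj (some t) (some t') → Touch G (B e t) (B e t') := by
  choose B A h1 h2 h3 h4 h5 h6 h7 using fun e => (hS e).2.1
  obtain ⟨Pc, q1, q2⟩ : ∃ Pc : Ed ⊕ Ed → Finset V, (∀ e, Pc (Sum.inl e) = B e none) ∧
    ∀ e, Pc (Sum.inr e) = A e := ⟨Sum.elim (fun e => B e none) A, fun _ => rfl, fun _ => rfl⟩
  have p1 : ∀ z, Pc z ⊆ S (z.elim id id) := by
    rintro (e | e)
    · rw [q1]; exact (h1 e none).1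
    · rw [q2]; exact h2 e
  have p2 : ∀ z, Conn G (Pc z) ∧ Touch G (Y (z.elim sr tg)) (Pc z) := by
    rintro (e | e)
    · obtain ⟨u, h8, h9⟩ := (hS e).2.2.1
      rw [q1]
      exact ⟨(h1 e none).2.1, u, h8, _, h6 e, h9⟩
    · obtain ⟨u, h8, h9⟩ := (hS e).2.2.2
      rw [q2]
      exact ⟨h3 e, u, h8, _, h7 e, h9.symm⟩
  have p3 : ∀ z z', z ≠ z' → Disjoint (Pc z) (Pc z') := by
    intro z z' hn
    by_cases he : z.elim id id = z'.elim id id
    · rcases z with e | e <;> rcases z' with e' | e' <;> obtain rfl : e = e' := he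
      · exact absurd rfl hn
      · rw [q1, q2]; exact (h1 e none).2.2.1
      · rw [q1, q2]; exact (h1 e none).2.2.1.symm
      · exact absurd rfl hn
    · exact (hSd _ _ he).mono (p1 _) (p1 _)
  have p4 : ∀ z e t, Disjoint (Pc z) (B e (some t)) := by
    intro z e t
    by_cases he : z.elim id id = e
    · rcases z with e' | e' <;> obtain rfl : e' = e := he
      · rw [q1]; exact h4 e' _ _ (by simp)
      · rw [q2]; exact (h1 e' _).2.2.1.symm
    · exact (hSd _ e he).mono (p1 _) (h1 e _).1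
  obtain ⟨Hb, hHb⟩ : ∃ Hb : X → Finset V, ∀ g, Hb g =
    Y g ∪ (univ.filter fun z : Ed ⊕ Ed => z.elim sr tg = g).biUnion Pc := ⟨_, fun _ => rfl⟩
  have p5 : ∀ z, Pc z ⊆ Hb (z.elim sr tg) := fun z => by
    rw [hHb]
    exact fun v hv => mem_union_right _ (mem_biUnion.2
      ⟨z, by rw [mem_filter]; exact ⟨mem_univ z, rfl⟩, hv⟩)
  have p6 : ∀ e, B e none ⊆ Hb (sr e) := fun e => q1 e ▸ p5 (Sum.inl e)
  have p7 : ∀ e, A e ⊆ Hb (tg e) := fun e => q2 e ▸ p5 (Sum.inr e)
  refine ⟨Hb, fun e t => B e (some t), fun g => ?_,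
    fun e t => ⟨(h1 e _).1.trans (hS e).1, (h1 e _).2.1⟩, fun g g' hg => ?_, fun g e t => ?_,
    fun e t e' t' hn => ?_, fun e => (h1 e none).2.2.2.mono (p6 e) (p7 e),
    fun e t => (h1 e _).2.2.2.symm.mono (p7 e) subset_rfl,
    fun e t h => (h5 e _ _ h).mono (p6 e) subset_rfl, fun e t t' h => h5 e _ _ h⟩
  · rw [hHb]
    refine ⟨union_subset (hY g).1 (biUnion_subset.2 fun z _ => (p1 z).trans (hS _).1),
      (hY g).2.attach_sets _ fun z hz => ?_⟩
    rw [← (mem_filter.1 hz).2]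
    exact p2 z
  · rw [hHb, hHb]
    refine disjoint_union_left.2 ⟨disjoint_union_right.2 ⟨hYd g g' hg,
      (disjoint_biUnion_right _ _ _).2 fun z _ => (hYS g _).mono_right (p1 z)⟩,
      (disjoint_biUnion_left _ _ _).2 fun z hz => disjoint_union_right.2
        ⟨((hYS g' _).mono_right (p1 z)).symm, (disjoint_biUnion_right _ _ _).2 fun z' hz' =>
          p3 z z' fun e => hg ?_⟩⟩
    rw [← (mem_filter.1 hz).2, e, (mem_filter.1 hz').2]
  · rw [hHb]
    exact disjoint_union_left.2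
      ⟨(hYS g e).mono_right (h1 e _).1, (disjoint_biUnion_left _ _ _).2 fun z _ => p4 z e t⟩
  · by_cases he : e = e'
    · subst he
      exact h4 e _ _ fun h => hn.resolve_left (fun h => h rfl) (Option.some.inj h)
    · exact (hSd e e' he).mono (h1 e _).1 (h1 e' _).1

theorem dd_model {Big : Finset V} {Y : Fin 5 → Finset V} {S : Fin 9 → Finset V} {x y : Fin 9 → V}
    (hY : ∀ g, Y g ⊆ Big ∧ Conn G (Y g)) (hYd : ∀ g g', g ≠ g' → Disjoint (Y g) (Y g'))
    (hS : ∀ e, S e ⊆ Big ∧ Gad J G (S e) (x e) (y e) ∧ (∃ u ∈ Y (src e), G.Adj u (x e)) ∧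
      ∃ u ∈ Y (tgt e), G.Adj (y e) u) (hSd : ∀ e e', e ≠ e' → Disjoint (S e) (S e'))
    (hYS : ∀ g e, Disjoint (Y g) (S e)) : ModelIn (DD J) G Big := by
  obtain ⟨Hb, B, h1, h2, h3, h4, h5, h6, h7, h8, h9⟩ := fat_model hY hYd hS hSd hYS
  refine ⟨fun w => w.elim Hb fun z => B z.1 z.2, ?_, ?_, ?_, ?_⟩
  · rintro (g | ⟨e, t⟩)
    · exact (h1 g).1
    · exact (h2 e t).1
  · rintro (g | ⟨e, t⟩)
    · exact (h1 g).2
    · exact (h2 e t).2
  · rintro (g | ⟨e, t⟩) (g' | ⟨e', t'⟩) hn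
    · exact h3 g g' fun e => hn (by rw [e])
    · exact h4 g e' t'
    · exact (h4 g' e t).symm
    · exact h5 e t e' t' (by
        by_contra hc
        push Not at hc
        exact hn (by rw [hc.1, hc.2]))
  · rintro (g | ⟨e, t⟩) (g' | ⟨e', t'⟩) h0 <;>
      rcases ((SimpleGraph.fromRel_adj _ _ _).1 h0).2 with h | h
    · obtain ⟨e, rfl, rfl⟩ := h
      exact h6 e
    · obtain ⟨e, rfl, rfl⟩ := h
      exact (h6 e).symm
    · rcases h with rfl | ⟨rfl, h'⟩
      · exact h7 e' t'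
      · exact h8 e' t' h'
    · exact h.elim
    · exact h.elim
    · rcases h with rfl | ⟨rfl, h'⟩
      · exact (h7 e t).symm
      · exact (h8 e t h').symm
    · obtain ⟨rfl, h'⟩ := h
      exact h9 e _ _ h'
    · obtain ⟨rfl, h'⟩ := h
      exact (h9 _ _ _ h').symm

theorem chain {M : ℕ} {T R : ℕ → Finset V} {x y : ℕ → V}
    (h1 : ∀ j ≤ M, Gad J G (T j) (x j) (y j))
    (h2 : ∀ j < M, Conn G (R j) ∧ (∃ u ∈ R j, G.Adj (y j) u) ∧ ∃ u ∈ R j, G.Adj u (x (j + 1)))
    (h3 : ∀ i ≤ M, ∀ j ≤ M, i ≠ j → Disjoint (T i) (T j))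
    (h4 : ∀ i < M, ∀ j < M, i ≠ j → Disjoint (R i) (R j))
    (h5 : ∀ i ≤ M, ∀ j < M, Disjoint (T i) (R j)) {j j' : ℕ} (hj : j + 1 ≤ j') (hj' : j' ≤ M) :
    ∃ S, Gad J G S (x (j + 1)) (y j') ∧
      ∀ v ∈ S, ∃ i, j < i ∧ ((i ≤ j' ∧ v ∈ T i) ∨ (i < j' ∧ v ∈ R i)) := by
  induction j', hj using Nat.le_induction with
  | base => exact ⟨_, h1 _ hj', fun v hv => ⟨j + 1, by omega, Or.inl ⟨le_rfl, hv⟩⟩⟩
  | succ n hn ih =>
    obtain ⟨S, s1, s2⟩ := ih (by omega)
    obtain ⟨T', t1, t2, t3, t4⟩ := (h1 _ hj').conn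
    obtain ⟨r1, ⟨u, r2, r3⟩, u', r4, r5⟩ := h2 n hj'
    refine ⟨_, s1.right (r1.union_adj t2 r4 t3 r5) ?_ (mem_union_left _ r2) (mem_union_right _ t4) r3,
      fun v hv => ?_⟩
    · rw [disjoint_left]
      intro v hv hv'
      obtain ⟨i, -, ⟨h6, h7⟩ | ⟨h6, h7⟩⟩ := s2 v hv <;> rcases mem_union.1 hv' with h8 | h8
      · exact disjoint_left.1 (h5 i (by omega) n hj') h7 h8
      · exact disjoint_left.1 (h3 i (by omega) _ hj' (by omega)) h7 (t1 h8)
      · exact disjoint_left.1 (h4 i (by omega) n hj' (by omega)) h7 h8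
      · exact disjoint_left.1 (h5 _ hj' i (by omega)) (t1 h8) h7
    · rcases mem_union.1 hv with hv | hv
      · obtain ⟨i, h6, h7⟩ := s2 v hv
        exact ⟨i, h6, h7.imp (fun h => ⟨by omega, h.2⟩) fun h => ⟨by omega, h.2⟩⟩
      · rcases mem_union.1 hv with hv | hv
        · exact ⟨n, by omega, Or.inr ⟨by omega, hv⟩⟩
        · exact ⟨n + 1, by omega, Or.inl ⟨le_rfl, t1 hv⟩⟩

/-- The row of an edge. -/
def row : Fin 9 → Fin 6 := ![2, 0, 5, 2, 1, 4, 2, 3, 0]

/-- The first row of a hub. -/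
def rlo : Fin 5 → Fin 6 := ![0, 1, 2, 0, 0]

/-- The last row of a hub. -/
def rhi : Fin 5 → Fin 6 := ![5, 4, 3, 2, 5]

theorem layout : (∀ g, rlo g ≤ rhi g) ∧ (∀ e, src e < tgt e ∧ (rlo (src e) ≤ row e ∧
    row e ≤ rhi (src e)) ∧ (rlo (tgt e) ≤ row e ∧ row e ≤ rhi (tgt e)) ∧
    ∀ g, src e < g → g < tgt e → ¬ (rlo g ≤ row e ∧ row e ≤ rhi g)) ∧
    ∀ e e', e ≠ e' → row e = row e' → tgt e ≤ src e' ∨ tgt e' ≤ src e := by decide

theorem wires {H M : ℕ} (hM : Fintype.card (Fin 6 → Fin H) * 4 < M) {Big : Finset V}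
    {T R : ℕ → Fin H → Finset V} {x y : ℕ → Fin H → V} {O : ℕ → Finset V} {κ : ℕ → Fin 6 → Fin H}
    (h1 : ∀ j ≤ M, ∀ k, T j k ⊆ Big ∧ Gad J G (T j k) (x j k) (y j k))
    (h2 : ∀ j < M, ∀ k, R j k ⊆ O j ∧ Conn G (R j k) ∧ (∃ u ∈ R j k, G.Adj (y j k) u) ∧
      ∃ u ∈ R j k, G.Adj u (x (j + 1) k))
    (h3 : ∀ i ≤ M, ∀ j ≤ M, ∀ k k', i ≠ j ∨ k ≠ k' → Disjoint (T i k) (T j k'))
    (h4 : ∀ i < M, ∀ j < M, i ≠ j → Disjoint (O i) (O j))
    (h5 : ∀ i ≤ M, ∀ j < M, ∀ k, Disjoint (T i k) (O j))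
    (h6 : ∀ j < M, ∀ k k', k ≠ k' → Disjoint (R j k) (R j k'))
    (h7 : ∀ j < M, O j ⊆ Big ∧ Function.Injective (κ j) ∧ ∀ lo hi : Fin 6, lo ≤ hi →
      ∃ Y ⊆ O j, Conn G Y ∧ (∀ r, lo ≤ r ∧ r ≤ hi → R j (κ j r) ⊆ Y) ∧
        ∀ r, ¬ (lo ≤ r ∧ r ≤ hi) → Disjoint Y (R j (κ j r))) : ModelIn (DD J) G Big := by
  obtain ⟨κ0, -, hκ⟩ := exists_lt_card_fiber_of_mul_lt_card_of_maps_to (s := range M) (t := univ)
    (f := κ) (n := 4) (fun _ _ => mem_univ _) (by rw [card_univ, card_range]; exact hM)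
  obtain ⟨s, hs, hs'⟩ := exists_subset_card_eq (n := 5) hκ
  let js := s.orderEmbOfFin hs'
  have j1 : ∀ g, js g < M ∧ κ (js g) = κ0 := fun g => by
    simpa using hs (orderEmbOfFin_mem s hs' g)
  obtain ⟨l1, l2, l3⟩ := layout
  choose Y y1 y2 y3 y4 using fun g => (h7 _ (j1 g).1).2.2 _ _ (l1 g)
  simp only [(j1 _).2] at y3 y4
  have hinj : Function.Injective κ0 := (j1 0).2 ▸ (h7 _ (j1 0).1).2.1
  have hR : ∀ i < M, ∀ j < M, ∀ k k', i ≠ j ∨ k ≠ k' → Disjoint (R i k) (R j k') := by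
    intro i hi j hj k k' h
    by_cases e : i = j
    · subst e
      exact h6 i hi k k' (h.resolve_left fun h => h rfl)
    · exact (h4 i hi j hj e).mono (h2 i hi k).1 (h2 j hj k').1
  choose S s1 s2 using fun e : Fin 9 => chain (J := J) (G := G) (M := M)
    (T := fun j => T j (κ0 (row e))) (R := fun j => R j (κ0 (row e)))
    (x := fun j => x j (κ0 (row e))) (y := fun j => y j (κ0 (row e)))
    (fun j hj => (h1 j hj _).2) (fun j hj => (h2 j hj _).2)
    (fun i hi j hj h => h3 i hi j hj _ _ (Or.inl h)) (fun i hi j hj h => hR i hi j hj _ _ (Or.inl h))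
    (fun i hi j hj => (h5 i hi j hj _).mono_right (h2 j hj _).1)
    (j := js (src e)) (j' := js (tgt e)) (js.strictMono (l2 e).1) (j1 _).1.le
  refine dd_model (Y := Y) (S := S) (fun g => ⟨(y1 g).trans (h7 _ (j1 g).1).1, y2 g⟩)
    (fun g g' hn => (h4 _ (j1 g).1 _ (j1 g').1 fun e => hn (js.injective e)).mono (y1 g) (y1 g'))
    (fun e => ⟨fun v hv => ?_, s1 e, ?_, ?_⟩) (fun e e' hn => ?_) (fun g e => ?_)
  · have := (j1 (tgt e)).1
    obtain ⟨i, -, ⟨h8, h9⟩ | ⟨h8, h9⟩⟩ := s2 e v hv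
    · exact (h1 i (by omega) _).1 h9
    · exact (h7 i (by omega)).1 ((h2 i (by omega) _).1 h9)
  · obtain ⟨u, h8, h9⟩ := (h2 _ (j1 (src e)).1 (κ0 (row e))).2.2.2
    exact ⟨u, y3 _ _ (l2 e).2.1 h8, h9⟩
  · obtain ⟨u, h8, h9⟩ := (h2 _ (j1 (tgt e)).1 (κ0 (row e))).2.2.1
    exact ⟨u, y3 _ _ (l2 e).2.2.1 h8, h9⟩
  · rw [disjoint_left]
    intro v hv hv'
    have := (j1 (tgt e)).1
    have := (j1 (tgt e')).1
    obtain ⟨i, h8, h9⟩ := s2 e v hv
    obtain ⟨i', h10, h11⟩ := s2 e' v hv'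
    have hne : i ≤ js (tgt e) → i' ≤ js (tgt e') → i ≠ i' ∨ κ0 (row e) ≠ κ0 (row e') := by
      intro h12 h13
      by_cases hr : row e = row e'
      · rcases l3 e e' hn hr with h | h <;> have := js.monotone h <;> omega
      · exact Or.inr fun h => hr (hinj h)
    rcases h9 with ⟨h9, h12⟩ | ⟨h9, h12⟩ <;> rcases h11 with ⟨h11, h13⟩ | ⟨h11, h13⟩
    · exact disjoint_left.1 (h3 i (by omega) i' (by omega) _ _ (hne h9 h11)) h12 h13
    · exact disjoint_left.1 (h5 i (by omega) i' (by omega) _) h12 ((h2 i' (by omega) _).1 h13)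
    · exact disjoint_left.1 (h5 i' (by omega) i (by omega) _) h13 ((h2 i (by omega) _).1 h12)
    · exact disjoint_left.1 (hR i (by omega) i' (by omega) _ _ (hne h9.le h11.le)) h12 h13
  · rw [disjoint_right]
    intro v hv hv'
    have := (j1 (tgt e)).1
    obtain ⟨i, h8, ⟨h9, h10⟩ | ⟨h9, h10⟩⟩ := s2 e v hv
    · exact disjoint_left.1 (h5 i (by omega) _ (j1 g).1 _) h10 (y1 g hv')
    · by_cases hi : i = js g
      · subst hi
        exact disjoint_left.1 (y4 g _ ((l2 e).2.2.2 g (js.lt_iff_lt.1 h8) (js.lt_iff_lt.1 h9)))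
          hv' h10
      · exact disjoint_left.1 (h4 i (by omega) _ (j1 g).1 hi) ((h2 i (by omega) _).1 h10) (y1 g hv')

end

theorem fat_k5 : ∃ l : ℕ, ∀ ρ : ℕ, ∃ E : ℕ, ∀ {V ι τ : Type} [Fintype V] [Fintype ι]
    [Fintype τ] {G : SimpleGraph V} {C : ℕ → CD V ι} {σ : ℕ} {J : SimpleGraph (Option τ)},
    PoS G l C → Sep G σ → σ ≤ ρ * Fintype.card ι → Peel J {none} univ →
    E * (Fintype.card τ + 1) ≤ Fintype.card ι →
    ModelIn (DD J) G ((range l).biUnion fun j => (C j).reg) := by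
  obtain ⟨H, hH⟩ : ∃ H, 6 * 6 + 1 < H := ⟨38, by omega⟩
  obtain ⟨M, hM⟩ : ∃ M, Fintype.card (Fin 6 → Fin H) * 4 < M := ⟨_, Nat.lt_succ_self _⟩
  obtain ⟨m, hm⟩ : ∃ m, m = 2 * H := ⟨_, rfl⟩
  refine ⟨(M + 1) * (m + 1), fun ρ => ?_⟩
  obtain ⟨E, hE⟩ := layer ρ m 2 (by omega)
  refine ⟨E + 1, fun {V ι τ} _ _ _ {G C σ J} hC hσ hρ hJ hw => ?_⟩
  have hb : ∀ j ≤ M, j * (m + 1) + m < (M + 1) * (m + 1) := fun j hj => by
    have := Nat.mul_le_mul_right (m + 1) hj
    nlinarith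
  have hL : ∀ j, ∃ (S : ℕ → Finset V) (q l : ℕ → ι), j ≤ M →
      (∀ s < m, (∀ v ∈ S s, ∃ i < m, v ∈ (C (j * (m + 1) + i)).reg) ∧
        Gad J G (S s) ((C (j * (m + 1))).a (q s)) ((C (j * (m + 1) + (m - 1))).b (l s))) ∧
      ∀ s < m, ∀ s' < m, s ≠ s' → Disjoint (S s) (S s') := by
    intro j
    obtain ⟨S, q, l, Φ, -, h1, h2, -⟩ := hE (Bad := ∅)
      (hC.shift (min j M * (m + 1)) m (hb _ (min_le_right _ _)).le) hσ hρ hJ (by nlinarith)
      (by simp; nlinarith)
    refine ⟨S, q, l, fun hj => ?_⟩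
    rw [min_eq_left hj] at h1
    exact ⟨fun s hs => ⟨(h1 s hs).1, (h1 s hs).2.2.2⟩, h2⟩
  choose S q l hS using hL
  have hinj : ∀ j ≤ M, ∀ s < m, ∀ s' < m, q j s = q j s' ∨ l j s = l j s' → s = s' := by
    intro j hj s hs s' hs' h
    by_contra hn
    have h1 := ((hS j hj).1 s hs).2.mem
    have h2 := ((hS j hj).1 s' hs').2.mem
    rcases h with h | h
    · exact disjoint_left.1 ((hS j hj).2 s hs s' hs' hn) h1.1 (h ▸ h2.1)
    · exact disjoint_left.1 ((hS j hj).2 s hs s' hs' hn) h1.2 (h ▸ h2.2)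
  have step : ∀ (j : ℕ) (π : {π : Fin H → ℕ // Function.Injective π ∧ ∀ k, π k < m}),
      ∃ (π' : {π : Fin H → ℕ // Function.Injective π ∧ ∀ k, π k < m}) (R : Fin H → Finset V)
        (κ : Fin 6 → Fin H), j < M →
      (∀ k, R k ⊆ (C (j * (m + 1) + m)).reg ∧ Conn G (R k) ∧
        (C (j * (m + 1) + m)).a (l j (π.1 k)) ∈ R k ∧
        (C (j * (m + 1) + m)).b (q (j + 1) (π'.1 k)) ∈ R k) ∧
      (∀ k k', k ≠ k' → Disjoint (R k) (R k')) ∧ Function.Injective κ ∧
      ∀ lo hi : Fin 6, lo ≤ hi → ∃ Y ⊆ (C (j * (m + 1) + m)).reg, Conn G Y ∧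
        (∀ r, lo ≤ r ∧ r ≤ hi → R (κ r) ⊆ Y) ∧ ∀ r, ¬ (lo ≤ r ∧ r ≤ hi) → Disjoint Y (R (κ r)) := by
    intro j π
    by_cases hj : j < M
    · obtain ⟨R, e, κ, r1, r2, r3, r4⟩ := router (n := 6) (hC.cl _ (hb j hj.le)) hH
        (p := fun k => l j (π.1 k))
        (fun k k' h => π.2.1 (hinj j hj.le _ (π.2.2 k) _ (π.2.2 k') (Or.inr h)))
        (s := (range m).image (q (j + 1))) (by
          rw [card_image_of_injOn fun s hs s' hs' h => hinj (j + 1) hj s (by simpa using hs) s'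
            (by simpa using hs') (Or.inl h), card_range, hm])
      choose π' p1 p2 using fun k => mem_image.1 (r1 k).2.2.2.1
      refine ⟨⟨π', fun k k' h => ?_, fun k => mem_range.1 (p1 k)⟩, R, κ, fun _ =>
        ⟨fun k => ⟨(r1 k).1, (r1 k).2.1, (r1 k).2.2.1, p2 k ▸ (r1 k).2.2.2.2⟩, r2, r3, r4⟩⟩
      by_contra hn
      refine disjoint_left.1 (r2 k k' hn) (r1 k).2.2.2.2 ?_
      rw [← p2 k, h, p2 k']
      exact (r1 k').2.2.2.2
    · exact ⟨π, fun _ => ∅, fun _ => ⟨0, by omega⟩, fun h => absurd h hj⟩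
  choose nx R κ hst using step
  let π : ℕ → {π : Fin H → ℕ // Function.Injective π ∧ ∀ k, π k < m} := fun j =>
    Nat.rec ⟨fun k => k.1, Fin.val_injective, fun k => k.2.trans_le (by omega)⟩ nx j
  have hs : ∀ i < (M + 1) * (m + 1), (C i).reg ⊆ (range ((M + 1) * (m + 1))).biUnion
      fun j => (C j).reg := fun i hi => subset_biUnion_of_mem (fun j => (C j).reg) (mem_range.2 hi)
  have hne : ∀ i j a b, a ≤ m → b ≤ m → i * (m + 1) + a = j * (m + 1) + b → i = j ∧ a = b := by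
    intro i j a b ha hb h
    have : i = j := by
      rcases lt_trichotomy i j with h1 | h1 | h1
      · have := Nat.mul_le_mul_right (m + 1) (Nat.succ_le_of_lt h1)
        simp only [Nat.succ_eq_add_one] at this
        nlinarith
      · exact h1
      · have := Nat.mul_le_mul_right (m + 1) (Nat.succ_le_of_lt h1)
        simp only [Nat.succ_eq_add_one] at this
        nlinarith
    subst this
    omega
  refine wires hM (T := fun j k => S j ((π j).1 k)) (R := fun j => R j (π j))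
    (O := fun j => (C (j * (m + 1) + m)).reg) (κ := fun j => κ j (π j))
    (fun j hj k => ⟨fun v hv => ?_, ((hS j hj).1 _ ((π j).2.2 k)).2⟩) (fun j hj k => ?_)
    (fun i hi j hj k k' h => ?_) (fun i hi j hj h => ?_) (fun i hi j hj k => ?_)
    (fun j hj => (hst j (π j) hj).2.1) (fun j hj => ⟨hs _ (hb j hj.le), (hst j (π j) hj).2.2⟩)
  · obtain ⟨i, h1, h2⟩ := ((hS j hj).1 _ ((π j).2.2 k)).1 v hv
    exact hs _ (by have := hb j hj; omega) h2
  · obtain ⟨h1, h2, h3, h4⟩ := (hst j (π j) hj).1 k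
    have h5 := hb (j + 1) hj
    have e1 : j * (m + 1) + (m - 1) + 1 = j * (m + 1) + m := by omega
    have e2 : j * (m + 1) + m + 1 = (j + 1) * (m + 1) := by ring
    refine ⟨h1, h2, ⟨_, h3, ?_⟩, _, h4, ?_⟩
    · have := hC.adj (j * (m + 1) + (m - 1)) (by omega) (l j ((π j).1 k))
      rwa [e1] at this
    · have := hC.adj (j * (m + 1) + m) (by omega) (q (j + 1) ((π (j + 1)).1 k))
      rwa [e2] at this
  · by_cases e : i = j
    · subst e
      exact (hS i hi).2 _ ((π i).2.2 k) _ ((π i).2.2 k')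
        fun e => h.resolve_left (fun h => h rfl) ((π i).2.1 e)
    · rw [disjoint_left]
      intro v h1 h2
      obtain ⟨a, h3, h4⟩ := ((hS i hi).1 _ ((π i).2.2 k)).1 v h1
      obtain ⟨b, h5, h6⟩ := ((hS j hj).1 _ ((π j).2.2 k')).1 v h2
      exact disjoint_left.1 (hC.disj _ (by have := hb i hi; omega) _ (by have := hb j hj; omega)
        fun h => e (hne _ _ _ _ h3.le h5.le h).1) h4 h6
  · exact hC.disj _ (hb i hi.le) _ (hb j hj.le) fun e => h (hne _ _ _ _ le_rfl le_rfl e).1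
  · rw [disjoint_left]
    intro v h1 h2
    obtain ⟨a, h3, h4⟩ := ((hS i hi).1 _ ((π i).2.2 k)).1 v h1
    exact disjoint_left.1 (hC.disj _ (by have := hb i hi; omega) _ (hb j hj.le)
      fun h => h3.ne (hne _ _ _ _ h3.le le_rfl h).2) h4 h2

end Pool.Agent.MP_7be75d_co

end MrgPart2

-- ======== part 3: formerly Pool.Agent.MP_7be75d_co.Lovasz4
section MrgPart3

/-! From two vertices meeting all cycles to the two normal forms. -/

namespace Pool.Agent.MP_7be75d_co.Lov

open Finset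
open scoped Classical

variable {V : Type} [Fintype V] {G : SimpleGraph V}

/-- A vertex and an edge meet all cycles. -/
def TypeB (G : SimpleGraph V) : Prop :=
  ∃ (a x y : V) (G' : SimpleGraph V),
    (∀ p q, G.Adj p q → G'.Adj p q ∨ (p = x ∧ q = y) ∨ (p = y ∧ q = x)) ∧ Acyc G' (univ.erase a)

/-- Any two of three vertices meet all cycles. -/
def TypeD (G : SimpleGraph V) : Prop :=
  ∃ (x y z : V) (F : Finset V), x ≠ y ∧ x ≠ z ∧ y ≠ z ∧ (∀ t, t ∈ F ↔ t ≠ x ∧ t ≠ y ∧ t ≠ z) ∧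
    Acyc G (insert x F) ∧ Acyc G (insert y F) ∧ Acyc G (insert z F)

variable {S T U F P Q : Finset V} {a b c d l u v w x y z : V}

theorem typeB_of_acyc (h : Acyc G (univ.erase a)) : TypeB G :=
  ⟨a, a, a, G, fun _ _ h => Or.inl h, h⟩

theorem typeB_of_two (hF : ∀ t, t ∈ F ↔ t ≠ u ∧ t ≠ v) (hA : Acyc G F)
    (hT : ∀ S ⊆ F, Conn G S → 2 ≤ nb G u S → S ⊆ T) (h1 : 1 ≤ nb G u T) (h2 : nb G u T ≤ 2) :
    TypeB G := by
  obtain ⟨a, ha, hua⟩ := one_le_nb.1 h1
  have hG : ∀ p q, (G \ SimpleGraph.edge u a).Adj p q ↔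
      G.Adj p q ∧ ¬ ((p = u ∧ q = a) ∨ (p = a ∧ q = u)) := fun p q => by
    rw [SimpleGraph.sdiff_adj, SimpleGraph.edge_adj]
    exact and_congr_right fun h => not_congr ⟨fun h => h.1, fun h' => ⟨h', h.ne⟩⟩
  refine ⟨v, u, a, G \ SimpleGraph.edge u a, fun p q h => ?_, ?_⟩
  · rw [hG]
    tauto
  by_contra hn
  obtain ⟨S, hS, cS, -, h3⟩ := exists_loop1 (G := G \ SimpleGraph.edge u a) (u := u) (F := F)
    (hA.anti fun p _ q _ h => ((hG p q).1 h).1) fun h => hn (h.mono fun t ht => by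
      rw [mem_insert, hF]
      have := (mem_erase.1 ht).1
      tauto)
  obtain ⟨p, hp, q, hq, hpq, h4, h5⟩ := two_le_nb.1 h3
  rw [hG] at h4 h5
  have sT := hT S hS (cS.mono' fun p q h _ _ => ((hG p q).1 h).1)
    (two_le_nb.2 ⟨p, hp, q, hq, hpq, h4.1, h5.1⟩)
  have : 2 < (T.filter (G.Adj u)).card := two_lt_card_iff.2 ⟨a, p, q, mem_filter.2 ⟨ha, hua⟩,
    mem_filter.2 ⟨sT hp, h4.1⟩, mem_filter.2 ⟨sT hq, h5.1⟩,
    fun e => h4.2 (Or.inl ⟨rfl, e.symm⟩), fun e => h5.2 (Or.inl ⟨rfl, e.symm⟩), hpq⟩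
  exact absurd h2 (not_le.2 this)

theorem types (h2 : NoTwo G univ) (h : Fvs G univ) : TypeB G ∨ TypeD G := by
  obtain ⟨u, v, hA⟩ := h
  set F := univ \ {u, v} with hF
  have mF : ∀ t, t ∈ F ↔ t ≠ u ∧ t ≠ v := fun t => by simp [hF, not_or]
  have mF' : ∀ t, t ∈ F ↔ t ≠ v ∧ t ≠ u := fun t => (mF t).trans and_comm
  by_cases huv : u = v
  · exact Or.inl (typeB_of_acyc (a := u)
      (hA.mono fun t ht => (mF t).2 ⟨(mem_erase.1 ht).1, huv ▸ (mem_erase.1 ht).1⟩))
  by_cases au : Acyc G (insert u F)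
  · refine Or.inl (typeB_of_acyc (a := v) (au.mono fun t ht => ?_))
    rw [mem_insert, mF]
    have := (mem_erase.1 ht).1
    tauto
  by_cases av : Acyc G (insert v F)
  · refine Or.inl (typeB_of_acyc (a := u) (av.mono fun t ht => ?_))
    rw [mem_insert, mF]
    have := (mem_erase.1 ht).1
    tauto
  obtain ⟨Su, su, cu, -, nu⟩ := exists_loop1 hA au
  obtain ⟨Sv, sv, cv, -, nv⟩ := exists_loop1 hA av
  have uF : u ∉ F := fun h => ((mF u).1 h).1 rfl
  have vF : v ∉ F := fun h => ((mF v).1 h).2 rfl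
  have mt : ∀ P ⊆ F, ∀ Q ⊆ F, Conn G P → Conn G Q → 2 ≤ nb G u P → 2 ≤ nb G v Q →
      ¬ Disjoint P Q := by
    intro P hP Q hQ cP cQ n1 n2 hd
    refine h2.false (subset_univ _) (subset_univ _) ?_ (loop1 cP (fun h => uF (hP h)) n1)
      (loop1 cQ (fun h => vF (hQ h)) n2)
    refine disjoint_left.2 fun r h h' => ?_
    rcases mem_insert.1 h with rfl | h
    · rcases mem_insert.1 h' with h' | h'
      · exact huv h'
      · exact uF (hQ h')
    · rcases mem_insert.1 h' with rfl | h'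
      · exact vF (hP h)
      · exact disjoint_left.1 hd h h'
  obtain ⟨s, hs, hs'⟩ := not_disjoint_iff.1 (mt Su su Sv sv cu cv nu nv)
  set T := comp G F s with hT
  have cT : Conn G T := comp_conn (su hs)
  have sT : T ⊆ F := comp_subset
  have uT : Su ⊆ T := cu.subset_comp su hs (self_mem_comp (su hs))
  have vT : Sv ⊆ T := cv.subset_comp sv hs' (self_mem_comp (su hs))
  have hu : ∀ S ⊆ F, Conn G S → 2 ≤ nb G u S → S ⊆ T := fun S hS cS h => by
    obtain ⟨t, h1, h3⟩ := not_disjoint_iff.1 (mt S hS Sv sv cS cv h nv)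
    exact cS.subset_comp hS h1 (vT h3)
  have hv : ∀ S ⊆ F, Conn G S → 2 ≤ nb G v S → S ⊆ T := fun S hS cS h => by
    obtain ⟨t, h1, h3⟩ := not_disjoint_iff.1 (mt Su su S hS cu cS nu h)
    exact cS.subset_comp hS h3 (uT h1)
  have nu' := nb_mono (G := G) (a := u) uT
  have nv' := nb_mono (G := G) (a := v) vT
  by_cases n1 : nb G u T ≤ 2
  · exact Or.inl (typeB_of_two mF hA hu (by omega) n1)
  by_cases n2 : nb G v T ≤ 2
  · exact Or.inl (typeB_of_two mF' hA hv (by omega) n2)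
  have hin : ∀ S, S ⊆ F ∧ Conn G S ∧ (2 ≤ nb G u S ∨ 2 ≤ nb G v S) → S ⊆ T := fun S h =>
    h.2.2.elim (hu S h.1 h.2.1) (hv S h.1 h.2.1)
  obtain ⟨z, hz, hall⟩ := helly
    (𝓕 := fun S => S ⊆ F ∧ Conn G S ∧ (2 ≤ nb G u S ∨ 2 ≤ nb G v S)) (hA.mono sT) cT
    (fun S h => ⟨hin S h, h.2.1⟩) (by
      intro S S' h h' hd
      obtain ⟨P, Q, cP, cQ, dPQ, hU, hP, hQ, -⟩ := split cT h.2.1 h'.2.1 (hin S h) (hin S' h') hd
      have sP : P ⊆ F := (hU ▸ subset_union_left : P ⊆ T).trans sT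
      have sQ : Q ⊆ F := (hU ▸ subset_union_right : Q ⊆ T).trans sT
      have a1 := fun p q => mt P sP Q sQ cP cQ p q dPQ
      have a2 := fun p q => mt Q sQ P sP cQ cP p q dPQ.symm
      have b1 : nb G u T = nb G u P + nb G u Q := by rw [← nb_union dPQ, hU]
      have b2 : nb G v T = nb G v P + nb G v Q := by rw [← nb_union dPQ, hU]
      have m1 := nb_mono (G := G) (a := u) hP
      have m2 := nb_mono (G := G) (a := v) hP
      have m3 := nb_mono (G := G) (a := u) hQ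
      have m4 := nb_mono (G := G) (a := v) hQ
      have e1 := h.2.2
      have e2 := h'.2.2
      by_cases c1 : 2 ≤ nb G u P <;> by_cases c2 : 2 ≤ nb G v Q <;>
        by_cases c3 : 2 ≤ nb G u Q <;> by_cases c4 : 2 ≤ nb G v P <;>
        first | exact a1 c1 c2 | exact a2 c3 c4 | omega)
  have zF := (mF z).1 (sT hz)
  refine Or.inr ⟨u, v, z, F.erase z, huv, zF.1.symm, zF.2.symm, fun t => ?_, ?_, ?_, ?_⟩
  · rw [mem_erase, mF]
    tauto
  · by_contra hn
    obtain ⟨S, hS, cS, -, h⟩ := exists_loop1 (hA.mono (erase_subset z F)) hn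
    exact (mem_erase.1 (hS (hall S ⟨hS.trans (erase_subset _ _), cS, Or.inl h⟩))).1 rfl
  · by_contra hn
    obtain ⟨S, hS, cS, -, h⟩ := exists_loop1 (hA.mono (erase_subset z F)) hn
    exact (mem_erase.1 (hS (hall S ⟨hS.trans (erase_subset _ _), cS, Or.inr h⟩))).1 rfl
  · rwa [insert_erase (sT hz)]

theorem formB_of (h : TypeB G) : FormB G := by
  obtain ⟨a, x, y, G', hG, hA⟩ := h
  set S := univ.erase a with hS
  by_cases hr : x ∈ S ∧ R G' S x y
  · obtain ⟨L, f, h0, hL, hf, hadj, hinj⟩ := hr.2.exists_path hr.1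
    have chord : ∀ i j, i + 1 < j → j ≤ L → ¬ G'.Adj (f i) (f j) := by
      intro i j hij hj h
      have nm : ∀ k ≤ L, k ∉ Icc (i + 1) (j - 1) → f k ∉ (Icc (i + 1) (j - 1)).image f := by
        intro k hk hk' hm
        obtain ⟨k', h1, h2⟩ := mem_image.1 hm
        have := hinj k' (by have := mem_Icc.1 h1; omega) k hk h2
        exact hk' (this ▸ h1)
      refine k3 (Conn.singleton (f i)) (Conn.singleton (f j))
        (conn_segment (f := f) (lo := i + 1) (hi := j - 1) (by omega)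
          fun k _ hk => hadj k (by omega))
        (singleton_subset_iff.2 (hf i (by omega))) (singleton_subset_iff.2 (hf j hj))
        (fun t ht => ?_) (disjoint_singleton.2 h.ne)
        (disjoint_singleton_left.2 (nm i (by omega) (by simp)))
        (disjoint_singleton_left.2 (nm j hj (by rw [mem_Icc]; omega))) (tch_single h)
        (tch_left (mem_image_of_mem f (mem_Icc.2 ⟨le_rfl, by omega⟩)) (hadj i (by omega)))
        (tch_left (mem_image_of_mem f (mem_Icc.2 ⟨by omega, le_rfl⟩)) ?_) hA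
      · obtain ⟨k, h1, rfl⟩ := mem_image.1 ht
        exact hf k (by have := mem_Icc.1 h1; omega)
      · have := (hadj (j - 1) (by omega)).symm
        rwa [show j - 1 + 1 = j by omega] at this
    have eI : range (L + 1) = Icc 0 L := by
      ext k
      simp only [mem_range, mem_Icc]
      omega
    refine ⟨a, L + 1, f, fun i hi j hj => hinj i (by omega) j (by omega),
      fun i hi => (mem_erase.1 (hf i (by omega))).1, fun i hi j hj h => ?_, fun t ht => ?_,
      fun T h1 h2 h3 => ?_⟩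
    · rcases hG _ _ h with h4 | h4 | h4
      · have e1 := fun e => chord i j e (by omega) h4
        have e2 := fun e => chord j i e (by omega) h4.symm
        have e3 : i ≠ j := fun e => h.ne (e ▸ rfl)
        by_contra hc
        rcases lt_or_gt_of_ne e3 with e | e
        · exact e1 (by omega)
        · exact e2 (by omega)
      · have e1 := hinj i (by omega) 0 (by omega) (h4.1.trans h0.symm)
        have e2 := hinj j (by omega) L le_rfl (h4.2.trans hL.symm)
        omega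
      · have e1 := hinj i (by omega) L le_rfl (h4.1.trans hL.symm)
        have e2 := hinj j (by omega) 0 (by omega) (h4.2.trans h0.symm)
        omega
    · obtain ⟨k, h1, rfl⟩ := mem_image.1 ht
      exact hf k (by have := mem_range.1 h1; omega)
    · obtain ⟨w, hw, hwI, hl⟩ := peel_conn (hA.mono h2) h1
        (eI ▸ conn_segment (Nat.zero_le L) fun k _ hk => hadj k hk) h3
      have wx : w ≠ x := fun e => hwI (e ▸ h0 ▸ mem_image_of_mem f (mem_range.2 (by omega)))
      have wy : w ≠ y := fun e => hwI (e ▸ hL ▸ mem_image_of_mem f (mem_range.2 (by omega)))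
      have key : ∀ p, G.Adj w p → G'.Adj w p := fun p h => by
        rcases hG _ _ h with h4 | h4 | h4
        exacts [h4, absurd h4.1 wx, absurd h4.1 wy]
      exact ⟨w, hw, hwI, fun p hp q hq h4 h5 => hl p hp q hq (key p h4) (key q h5)⟩
  · have key : ∀ p ∈ S.erase x, ∀ q ∈ S.erase x, G.Adj p q → G'.Adj p q := fun p hp q hq h => by
      rcases hG _ _ h with h4 | h4 | h4
      exacts [h4, absurd h4.1 (mem_erase.1 hp).1, absurd h4.2 (mem_erase.1 hq).1]
    have hA1 : Acyc G (S.erase x) := (hA.mono (erase_subset _ _)).anti key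
    have hA2 : Acyc G S := by
      by_cases hx : x ∈ S
      swap
      · rwa [erase_eq_of_notMem hx] at hA1
      by_contra hn
      obtain ⟨K, hK, cK, hxK, h⟩ := exists_loop1 (u := x) hA1 (by rwa [insert_erase hx])
      have cK' : Conn G' K := cK.mono' fun p q h hp hq => key p (hK hp) q (hK hq) h
      have sK : K ⊆ S := hK.trans (erase_subset _ _)
      obtain ⟨p, hp, q, hq, hpq, h4, h5⟩ := two_le_nb.1 h
      have alt : ∀ p ∈ K, G.Adj x p → G'.Adj x p ∨ p = y := fun p hp h => by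
        rcases hG _ _ h with h6 | h6 | h6
        exacts [Or.inl h6, Or.inr h6.2, absurd h6.2 h.ne.symm]
      have fin : ∀ p ∈ K, y ∈ K → ¬ G'.Adj x p := fun p hp hy h =>
        hr ⟨hx, (R.single h hx (sK hp)).trans (cK'.r hp hy sK)⟩
      rcases alt p hp h4 with e1 | e1 <;> rcases alt q hq h5 with e2 | e2
      · exact loop1 cK' hxK (two_le_nb.2 ⟨p, hp, q, hq, hpq, e1, e2⟩)
          (hA.mono (insert_subset hx sK))
      · exact fin p hp (e2 ▸ hq) e1
      · exact fin q hq (e1 ▸ hp) e2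
      · exact hpq (e1.trans e2.symm)
    refine ⟨a, 0, fun _ => a, by simp, by simp, by simp, by simp, fun T _ h2 h3 => ?_⟩
    obtain ⟨w, hw, hl⟩ := hA2 T h2 (nonempty_iff_ne_empty.2 (by simpa using h3))
    exact ⟨w, hw, by simp, hl⟩

end Pool.Agent.MP_7be75d_co.Lov

end MrgPart3

-- ======== part 4: formerly Pool.Agent.MP_7be75d_co.Lovasz
section MrgPart4

/-! Planar graphs without two disjoint cycles have one of two normal forms. -/

namespace Pool.Agent.MP_7be75d_co.Lov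

open Finset
open scoped Classical

variable {V : Type} [Fintype V] {G : SimpleGraph V}

theorem edge_cover : ∀ i j : Fin 5, ¬ (i = 0 ∧ j = 2) → ¬ (i = 2 ∧ j = 0) →
    ∃ e, (i = src e ∨ i = tgt e) ∧ (j = src e ∨ j = tgt e) := by decide

theorem edge_hub : ∀ i j : Fin 5, i ≠ j → ¬ (i = 0 ∧ j = 2) → ¬ (j = 0 ∧ i = 2) →
    (∃ e, i = src e ∧ j = tgt e) ∨ ∃ e, j = src e ∧ i = tgt e := by decide

theorem formD_of (B : Finset V) (lab : V → Fin 5)
    (h1 : ∀ a ∈ B, ∀ b ∈ B, lab a = lab b → a = b)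
    (h2 : ∀ a ∈ B, ∀ b ∈ B, G.Adj a b → ¬ (lab a = 0 ∧ lab b = 2))
    (h3 : ∀ K ⊆ univ \ B, Conn G K → ∃ i j : Fin 5, ¬ (i = 0 ∧ j = 2) ∧ ¬ (i = 2 ∧ j = 0) ∧
      ∀ w ∈ K, ∀ a ∈ B, G.Adj w a → lab a = i ∨ lab a = j)
    (h4 : ∀ a ∈ B, Acyc G (insert a (univ \ B))) (h5 : Acyc G (univ \ B)) : FormD G := by
  have mem : ∀ w, w ∉ B → w ∈ univ \ B := fun w h => mem_sdiff.2 ⟨mem_univ _, h⟩
  have h6 : ∀ K : Finset V, ∃ e : Fin 9, K ⊆ univ \ B → Conn G K →
      ∀ w ∈ K, ∀ a ∈ B, G.Adj w a → lab a = src e ∨ lab a = tgt e := by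
    intro K
    by_cases h : K ⊆ univ \ B ∧ Conn G K
    · obtain ⟨i, j, n1, n2, h⟩ := h3 K h.1 h.2
      obtain ⟨e, e1, e2⟩ := edge_cover i j n1 n2
      refine ⟨e, fun _ _ w hw a ha hwa => ?_⟩
      rcases h w hw a ha hwa with h | h
      exacts [h ▸ e1, h ▸ e2]
    · exact ⟨0, fun a b => absurd ⟨a, b⟩ h⟩
  choose E hE using h6
  set e : V → Fin 9 := fun w => E (comp G (univ \ B) w) with he
  have see : ∀ w, w ∉ B → ∀ a ∈ B, G.Adj w a → lab a = src (e w) ∨ lab a = tgt (e w) :=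
    fun w hw => hE _ comp_subset (comp_conn (mem w hw)) w (self_mem_comp (mem w hw))
  have same : ∀ w w', w' ∈ comp G (univ \ B) w → e w' = e w := fun w w' h => by
    simp only [he, comp_eq h]
  let J : SimpleGraph (Option V) := SimpleGraph.fromRel fun p q =>
    match p, q with
    | none, some w => w ∉ B ∧ ∃ a ∈ B, G.Adj w a ∧ lab a = src (e w)
    | some w, some w' => w ∉ B ∧ w' ∉ B ∧ G.Adj w w'
    | _, none => False
  have J1 : ∀ w, J.Adj (some w) none ↔ w ∉ B ∧ ∃ a ∈ B, G.Adj w a ∧ lab a = src (e w) :=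
    fun w => by simp [J]
  have J2 : ∀ w w', J.Adj (some w) (some w') ↔ w ∉ B ∧ w' ∉ B ∧ G.Adj w w' := fun w w' => by
    simp only [J, SimpleGraph.fromRel_adj]
    constructor
    · rintro ⟨-, h | h⟩
      exacts [h, ⟨h.2.1, h.1, h.2.2.symm⟩]
    · exact fun h => ⟨by simpa using h.2.2.ne, Or.inl h⟩
  refine ⟨J, ⟨subset_univ _, fun S hS _ hne => ?_⟩,
    fun w => if w ∈ B then Sum.inl (lab w) else Sum.inr (e w, w), fun w w' h => ?_,
    fun w w' h => ?_⟩
  · obtain ⟨w0, hw0⟩ : ∃ w0, some w0 ∈ S := by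
      by_contra hc
      push Not at hc
      refine hne (Subset.antisymm (fun p hp => ?_) hS)
      cases p with
      | none => simp
      | some p => exact absurd hp (hc p)
    by_cases hB : w0 ∈ B
    · refine ⟨some w0, hw0, by simp, fun p _ q _ h _ => ?_⟩
      cases p with
      | none => exact absurd hB ((J1 _).1 h).1
      | some p => exact absurd hB ((J2 _ _).1 h).1
    set D := (comp G (univ \ B) w0).filter fun w => some w ∈ S with hD
    have sD : D ⊆ univ \ B := (filter_subset _ _).trans comp_subset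
    have m0 : w0 ∈ D := mem_filter.2 ⟨self_mem_comp (mem _ hB), hw0⟩
    have cl : ∀ w ∈ D, ∀ p, some p ∈ S → J.Adj (some w) (some p) → p ∈ D ∧ G.Adj w p :=
      fun w hw p hp h => by
        rw [J2] at h
        exact ⟨mem_filter.2 ⟨comp_closed (mem_filter.1 hw).1 (mem _ h.2.1) h.2.2, hp⟩, h.2.2⟩
    by_cases ha : ∃ a ∈ B, lab a = src (e w0)
    · obtain ⟨a, ha, hl⟩ := ha
      obtain ⟨w, hw, hwa, ll⟩ := root_leaf ((h4 a ha).mono (insert_subset_insert a sD))
        (mem_insert_self a D) (mem_insert_of_mem m0) (fun e' => hB (e' ▸ ha))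
      have hwD : w ∈ D := (mem_insert.1 hw).resolve_left hwa
      have rt : J.Adj (some w) none → G.Adj w a := fun h => by
        obtain ⟨-, b, hb, h7, h8⟩ := (J1 w).1 h
        rw [same w0 w (mem_filter.1 hwD).1, ← hl] at h8
        exact h1 b hb a ha h8 ▸ h7
      have mix : ∀ p, some p ∈ S → J.Adj (some w) (some p) → ¬ J.Adj (some w) none :=
        fun p hp h h' => by
          obtain ⟨h7, h8⟩ := cl w hwD p hp h
          have := ll p (mem_insert_of_mem h7) a (mem_insert_self _ _) h8 (rt h')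
          exact (mem_sdiff.1 (sD h7)).2 (this ▸ ha)
      refine ⟨some w, (mem_filter.1 hwD).2, by simp, fun p hp q hq h7 h8 => ?_⟩
      cases p with
      | none =>
        cases q with
        | none => rfl
        | some q => exact absurd h7 (mix q hq h8)
      | some p =>
        cases q with
        | none => exact absurd h8 (mix p hp h7)
        | some q =>
          rw [ll p (mem_insert_of_mem (cl w hwD p hp h7).1) q
            (mem_insert_of_mem (cl w hwD q hq h8).1) (cl w hwD p hp h7).2 (cl w hwD q hq h8).2]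
    · obtain ⟨w, hwD, ll⟩ := h5 D sD ⟨w0, m0⟩
      have rt : ¬ J.Adj (some w) none := fun h => by
        obtain ⟨-, b, hb, -, h8⟩ := (J1 w).1 h
        rw [same w0 w (mem_filter.1 hwD).1] at h8
        exact ha ⟨b, hb, h8⟩
      refine ⟨some w, (mem_filter.1 hwD).2, by simp, fun p hp q hq h7 h8 => ?_⟩
      cases p with
      | none => exact absurd h7 rt
      | some p =>
        cases q with
        | none => exact absurd h8 rt
        | some q =>
          rw [ll p (cl w hwD p hp h7).1 q (cl w hwD q hq h8).1 (cl w hwD p hp h7).2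
            (cl w hwD q hq h8).2]
  · by_cases b1 : w ∈ B <;> by_cases b2 : w' ∈ B <;> simp only [b1, b2, if_true, if_false] at h
    · exact h1 w b1 w' b2 (Sum.inl.inj h)
    · exact absurd h Sum.inl_ne_inr
    · exact absurd h Sum.inr_ne_inl
    · exact (Prod.ext_iff.1 (Sum.inr.inj h)).2
  · have hub : ∀ a ∈ B, ∀ w, w ∉ B → G.Adj w a →
        (DD J).Adj (Sum.inl (lab a)) (Sum.inr (e w, w)) := fun a ha w hw h => by
      refine (SimpleGraph.fromRel_adj _ _ _).2 ⟨Sum.inl_ne_inr, Or.inl ?_⟩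
      rcases see w hw a ha h with h7 | h7
      · exact Or.inr ⟨h7, ((J1 w).2 ⟨hw, a, ha, h, h7⟩).symm⟩
      · exact Or.inl h7
    by_cases b1 : w ∈ B <;> by_cases b2 : w' ∈ B <;> simp only [b1, b2, if_true, if_false]
    · have n : lab w ≠ lab w' := fun e' => h.ne (h1 w b1 w' b2 e')
      exact (SimpleGraph.fromRel_adj _ _ _).2 ⟨fun e' => n (Sum.inl.inj e'),
        edge_hub _ _ n (h2 w b1 w' b2 h) (h2 w' b2 w b1 h.symm)⟩
    · exact hub w b1 w' b2 h.symm
    · exact (hub w' b2 w b1 h).symm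
    · refine (SimpleGraph.fromRel_adj _ _ _).2
        ⟨fun e' => h.ne (Prod.ext_iff.1 (Sum.inr.inj e')).2, Or.inl ⟨?_, (J2 _ _).2 ⟨b1, b2, h⟩⟩⟩
      exact (same w w' (comp_closed (self_mem_comp (mem _ b1)) (mem _ b2) h)).symm

theorem formD_of_typeD (hk : ¬ Model (completeBipartiteGraph (Fin 3) (Fin 3)) G univ)
    (h : TypeD G) : FormD G := by
  obtain ⟨x, y, z, F, hxy, hxz, hyz, mF, ax, ay, az⟩ := h
  have hA : Acyc G F := ax.mono (subset_insert _ _)
  have xF : x ∉ F := fun h => ((mF _).1 h).1 rfl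
  have yF : y ∉ F := fun h => ((mF _).1 h).2.1 rfl
  have zF : z ∉ F := fun h => ((mF _).1 h).2.2 rfl
  have le1 : ∀ t, t ∉ F → Acyc G (insert t F) → ∀ S ⊆ F, Conn G S → nb G t S ≤ 1 :=
    fun t ht h S hS cS => by
      by_contra hn
      exact loop1 cS (fun h => ht (hS h)) (by omega) (h.mono (insert_subset_insert _ hS))
  let Full : V → Prop := fun t =>
    t ∈ F ∧ 1 ≤ nb G x (comp G F t) ∧ 1 ≤ nb G y (comp G F t) ∧ 1 ≤ nb G z (comp G F t)
  let Med : V → Prop := fun m => Full m ∧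
    ∀ S ⊆ comp G F m, Conn G S → 2 ≤ nb G x S + nb G y S + nb G z S → m ∈ S
  have med : ∀ t, Full t → ∃ m ∈ comp G F t, Med m := by
    intro t ht
    have cT := comp_conn (G := G) ht.1
    obtain ⟨m, hm, hall⟩ := helly
      (𝓕 := fun S => S ⊆ comp G F t ∧ Conn G S ∧ 2 ≤ nb G x S + nb G y S + nb G z S)
      (hA.mono comp_subset) cT (fun S h => ⟨h.1, h.2.1⟩) (by
        intro S S' h h' hd
        have s := union_subset h.1 h'.1
        have a1 := (nb_mono s).trans (le1 x xF ax _ comp_subset cT)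
        have a2 := (nb_mono s).trans (le1 y yF ay _ comp_subset cT)
        have a3 := (nb_mono s).trans (le1 z zF az _ comp_subset cT)
        rw [nb_union hd] at a1 a2 a3
        have := h.2.2
        have := h'.2.2
        omega)
    refine ⟨m, hm, ⟨comp_subset hm, ?_⟩, fun S hS cS h => hall S ⟨comp_eq hm ▸ hS, cS, h⟩⟩
    rw [comp_eq hm]
    exact ht.2
  obtain ⟨M, ⟨hM, hM'⟩, hmax⟩ := exists_max_of
    (p := fun M : Finset V => (∀ m ∈ M, Med m) ∧ ∀ m ∈ M, ∀ m' ∈ M, m' ∈ comp G F m → m' = m)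
    card (Fintype.card V) (fun a _ => card_le_univ a) ⟨∅, by simp, by simp⟩
  have MF : ∀ m ∈ M, m ∈ F := fun m h => (hM m h).1.1
  have cover : ∀ t, Full t → ∃ m ∈ M, m ∈ comp G F t := by
    intro t ht
    by_contra hn
    push Not at hn
    obtain ⟨m, hm, hmed⟩ := med t ht
    have := hmax (insert m M) ⟨fun m' h => (mem_insert.1 h).elim (fun e => e ▸ hmed) (hM m'),
      fun p hp q hq h => by
        rcases mem_insert.1 hp with rfl | hp' <;> rcases mem_insert.1 hq with rfl | hq'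
        · rfl
        · exact absurd (comp_eq hm ▸ h) (hn q hq')
        · refine absurd ?_ (hn p hp')
          rw [← comp_eq hm, comp_eq h]
          exact self_mem_comp (MF p hp')
        · exact hM' p hp' q hq' h⟩
    rw [card_insert_of_notMem fun h => hn m h hm] at this
    omega
  have three : ∀ p ∈ M, ∀ q ∈ M, ∀ r ∈ M, p ≠ q → p ≠ r → q = r := by
    intro p hp q hq r hr n1 n2
    by_contra n3
    have dj : ∀ p ∈ M, ∀ q ∈ M, p ≠ q → Disjoint (comp G F p) (comp G F q) :=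
      fun p hp q hq n => comp_disjoint fun h => n (hM' p hp q hq h).symm
    have ds : ∀ t, t ∉ F → ∀ p, Disjoint {t} (comp G F p) := fun t ht p =>
      disjoint_singleton_left.2 fun h => ht (comp_subset h)
    have fp := (hM p hp).1
    have fq := (hM q hq).1
    have fr := (hM r hr).1
    exact hk (model33 (Conn.singleton x) (Conn.singleton y) (Conn.singleton z) (comp_conn fp.1)
      (comp_conn fq.1) (comp_conn fr.1) (subset_univ _) (subset_univ _) (subset_univ _)
      (subset_univ _) (subset_univ _) (subset_univ _) (disjoint_singleton.2 hxy)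
      (disjoint_singleton.2 hxz) (ds x xF p) (ds x xF q) (ds x xF r) (disjoint_singleton.2 hyz)
      (ds y yF p) (ds y yF q) (ds y yF r) (ds z zF p) (ds z zF q) (ds z zF r) (dj p hp q hq n1)
      (dj p hp r hr n2) (dj q hq r hr n3) (tch_of_nb fp.2.1) (tch_of_nb fq.2.1) (tch_of_nb fr.2.1)
      (tch_of_nb fp.2.2.1) (tch_of_nb fq.2.2.1) (tch_of_nb fr.2.2.1) (tch_of_nb fp.2.2.2)
      (tch_of_nb fq.2.2.2) (tch_of_nb fr.2.2.2))
  obtain ⟨m1, hm1⟩ : ∃ m1, M.Nonempty → m1 ∈ M := by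
    by_cases h : M.Nonempty
    · exact ⟨h.choose, fun _ => h.choose_spec⟩
    · exact ⟨x, fun h' => absurd h' h⟩
  let lab : V → Fin 5 := fun w =>
    if w = x then 1 else if w = y then 3 else if w = z then 4 else if w = m1 then 0 else 2
  have lx : lab x = 1 := by simp [lab]
  have ly : lab y = 3 := by simp [lab, hxy.symm]
  have lz : lab z = 4 := by simp [lab, hxz.symm, hyz.symm]
  have lm : ∀ m ∈ M, (m = m1 ∧ lab m = 0) ∨ (m ≠ m1 ∧ lab m = 2) := fun m hm => by
    obtain ⟨n1, n2, n3⟩ := (mF m).1 (MF m hm)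
    by_cases e : m = m1
    · exact Or.inl ⟨e, by simp only [lab, if_neg n1, if_neg n2, if_neg n3, if_pos e]⟩
    · exact Or.inr ⟨e, by simp only [lab, if_neg n1, if_neg n2, if_neg n3, if_neg e]⟩
  have mB : ∀ a, a ∈ insert x (insert y (insert z M)) ↔ a = x ∨ a = y ∨ a = z ∨ a ∈ M :=
    fun a => by simp only [mem_insert]
  have sub : univ \ insert x (insert y (insert z M)) ⊆ F := fun t ht => by
    have := (mem_sdiff.1 ht).2
    rw [mB] at this
    rw [mF]
    tauto
  have big : ∀ a, a = x ∨ a = y ∨ a = z ∨ a ∈ M → lab a = 0 ∨ lab a = 2 → a ∈ M := by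
    intro a ha h
    rcases ha with rfl | rfl | rfl | ha
    · rw [lx] at h
      exact absurd h (by decide)
    · rw [ly] at h
      exact absurd h (by decide)
    · rw [lz] at h
      exact absurd h (by decide)
    · exact ha
  refine formD_of (insert x (insert y (insert z M))) lab (fun a ha b hb h => ?_)
    (fun a ha b hb h h' => ?_) (fun K hK cK => ?_) (fun a ha => ?_) (hA.mono sub)
  · rw [mB] at ha hb
    by_cases aM : a ∈ M
    · have bM := big b hb (h ▸ (lm a aM).imp And.right And.right)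
      rcases lm a aM with e1 | e1 <;> rcases lm b bM with e2 | e2
      · exact e1.1.trans e2.1.symm
      · exact absurd (e1.2.symm.trans (h.trans e2.2)) (by decide)
      · exact absurd (e1.2.symm.trans (h.trans e2.2)) (by decide)
      · exact three m1 (hm1 ⟨a, aM⟩) a aM b bM e1.1.symm e2.1.symm
    by_cases bM : b ∈ M
    · exact absurd (big a ha (h ▸ (lm b bM).imp And.right And.right)) aM
    rcases ha with rfl | rfl | rfl | ha <;> rcases hb with rfl | rfl | rfl | hb <;>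
      first
        | rfl
        | contradiction
        | (exfalso; simp only [lx, ly, lz] at h; exact absurd h (by decide))
  · have aM := big a ((mB a).1 ha) (Or.inl h'.1)
    have bM := big b ((mB b).1 hb) (Or.inr h'.2)
    exact h.ne (hM' a aM b bM (comp_closed (self_mem_comp (MF a aM)) (MF b bM) h)).symm
  · have sK : K ⊆ F := hK.trans sub
    have nM : ∀ m ∈ M, m ∉ K := fun m hm h => (mem_sdiff.1 (hK h)).2 ((mB m).2 (by tauto))
    have small : ∀ m ∈ M, K ⊆ comp G F m → nb G x K + nb G y K + nb G z K ≤ 1 := fun m hm h => by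
      by_contra hn
      exact nM m hm ((hM m hm).2 K h cK (by omega))
    have miss : ∀ t, nb G t K = 0 → ∀ w ∈ K, ¬ G.Adj w t := fun t h w hw h' => by
      have : 1 ≤ nb G t K := one_le_nb.2 ⟨w, hw, h'.symm⟩
      omega
    by_cases hm : ∃ m ∈ M, ∃ w ∈ K, G.Adj w m
    · obtain ⟨m, hm, w, hw, hwm⟩ := hm
      have Km : K ⊆ comp G F m :=
        cK.subset_comp sK hw (comp_closed (self_mem_comp (MF m hm)) (sK hw) hwm.symm)
      have uniq : ∀ w ∈ K, ∀ a ∈ M, G.Adj w a → lab a = lab m := fun w hw a ha h => by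
        rw [hM' m hm a ha (comp_closed (Km hw) (MF a ha) h)]
      have := small m hm Km
      by_cases c1 : nb G y K = 0 ∧ nb G z K = 0
      · refine ⟨lab m, 1, fun h => absurd h.2 (by decide), fun h => absurd h.2 (by decide),
          fun w hw a ha h => ?_⟩
        rcases (mB a).1 ha with rfl | rfl | rfl | ha
        exacts [Or.inr lx, absurd h (miss _ c1.1 w hw), absurd h (miss _ c1.2 w hw),
          Or.inl (uniq w hw a ha h)]
      by_cases c2 : nb G x K = 0 ∧ nb G z K = 0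
      · refine ⟨lab m, 3, fun h => absurd h.2 (by decide), fun h => absurd h.2 (by decide),
          fun w hw a ha h => ?_⟩
        rcases (mB a).1 ha with rfl | rfl | rfl | ha
        exacts [absurd h (miss _ c2.1 w hw), Or.inr ly, absurd h (miss _ c2.2 w hw),
          Or.inl (uniq w hw a ha h)]
      · have c3 : nb G x K = 0 ∧ nb G y K = 0 := by omega
        refine ⟨lab m, 4, fun h => absurd h.2 (by decide), fun h => absurd h.2 (by decide),
          fun w hw a ha h => ?_⟩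
        rcases (mB a).1 ha with rfl | rfl | rfl | ha
        exacts [absurd h (miss _ c3.1 w hw), absurd h (miss _ c3.2 w hw), Or.inr lz,
          Or.inl (uniq w hw a ha h)]
    · have nm : ∀ w ∈ K, ∀ a ∈ M, ¬ G.Adj w a := fun w hw a ha h => hm ⟨a, ha, w, hw, h⟩
      by_cases c1 : nb G x K = 0
      · refine ⟨3, 4, by decide, by decide, fun w hw a ha h => ?_⟩
        rcases (mB a).1 ha with rfl | rfl | rfl | ha
        exacts [absurd h (miss _ c1 w hw), Or.inl ly, Or.inr lz, absurd h (nm w hw a ha)]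
      by_cases c2 : nb G y K = 0
      · refine ⟨1, 4, by decide, by decide, fun w hw a ha h => ?_⟩
        rcases (mB a).1 ha with rfl | rfl | rfl | ha
        exacts [Or.inl lx, absurd h (miss _ c2 w hw), Or.inr lz, absurd h (nm w hw a ha)]
      by_cases c3 : nb G z K = 0
      · refine ⟨1, 3, by decide, by decide, fun w hw a ha h => ?_⟩
        rcases (mB a).1 ha with rfl | rfl | rfl | ha
        exacts [Or.inl lx, Or.inr ly, absurd h (miss _ c3 w hw), absurd h (nm w hw a ha)]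
      exfalso
      obtain ⟨t, ht⟩ := cK.1
      have Kt : K ⊆ comp G F t := cK.subset_comp sK ht (self_mem_comp (sK ht))
      have m1 := nb_mono (G := G) (a := x) Kt
      have m2 := nb_mono (G := G) (a := y) Kt
      have m3 := nb_mono (G := G) (a := z) Kt
      obtain ⟨m, hm, hmt⟩ := cover t ⟨sK ht, by omega, by omega, by omega⟩
      have := small m hm (comp_eq hmt ▸ Kt)
      omega
  · rcases (mB a).1 ha with rfl | rfl | rfl | ha
    exacts [ax.mono (insert_subset_insert _ sub), ay.mono (insert_subset_insert _ sub),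
      az.mono (insert_subset_insert _ sub), hA.mono (insert_subset (MF a ha) sub)]

theorem Model.isMinor {ι : Type} {K : SimpleGraph ι} (h : Model K G univ) : IsMinor K G := by
  obtain ⟨φ, h1, -, h3, h4⟩ := h
  exact ⟨fun i => φ i, fun i => (h1 i).connected, fun i j h => disjoint_coe.2 (h3 i j h),
    fun i j h => h4 i j h⟩

theorem noTwo_of (h : NoTwoCycles G) : NoTwo G univ := by
  intro S _ T _ hd hS
  by_contra hT
  obtain ⟨u, p, hp, h1⟩ := exists_cycle hS
  obtain ⟨v, q, hq, h2⟩ := exists_cycle hT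
  obtain ⟨x, h3, h4⟩ := h u v p q hp hq
  exact disjoint_left.1 hd (h1 x h3) (h2 x h4)

end Pool.Agent.MP_7be75d_co.Lov

namespace Pool.Agent.MP_7be75d_co

/-- The classification of planar graphs without two disjoint cycles. -/
theorem forms {W : Type} [Fintype W] [Nonempty W] (H : SimpleGraph W) (hp : IsPlanar H)
    (h2 : NoTwoCycles H) : FormB H ∨ FormD H := by
  have h := Lov.noTwo_of h2
  rcases Lov.fvs_or_kur h with h3 | h3 | h3
  · exact (Lov.types h h3).imp Lov.formB_of (Lov.formD_of_typeD fun h => hp.2 h.isMinor)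
  · exact absurd h3.isMinor hp.1
  · exact absurd h3.isMinor hp.2

end Pool.Agent.MP_7be75d_co

end MrgPart4

-- ======== part 5: formerly Pool.Agent.MP_7be75d_co.Main
section MrgPart5

/-! From tree-width to path-of-sets systems, and the main theorems. -/

namespace Pool.Agent.MP_7be75d_co

open Finset
open scoped Classical

theorem ModelIn.mono {V W : Type} {H : SimpleGraph W} {G : SimpleGraph V} {S S' : Finset V}
    (h : ModelIn H G S) (hS : S ⊆ S') : ModelIn H G S' := by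
  obtain ⟨φ, h1, h2⟩ := h
  exact ⟨φ, fun w => (h1 w).trans hS, h2⟩

theorem ModelIn.comap {V W W' : Type} {H : SimpleGraph W} {H' : SimpleGraph W'}
    {G : SimpleGraph V} {S : Finset V} (h : ModelIn H' G S) {f : W → W'}
    (hf : Function.Injective f) (ha : ∀ w w', H.Adj w w' → H'.Adj (f w) (f w')) : ModelIn H G S := by
  obtain ⟨φ, h1, h2, h3, h4⟩ := h
  exact ⟨fun w => φ (f w), fun w => h1 _, fun w => h2 _, fun w w' hn => h3 _ _ (hf.ne hn),
    fun w w' h => h4 _ _ (ha w w' h)⟩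

theorem ModelIn.isMinor {V W : Type} {H : SimpleGraph W} {G : SimpleGraph V} {S : Finset V}
    (h : ModelIn H G S) : IsMinor H G := by
  obtain ⟨φ, -, h2, h3, h4⟩ := h
  exact ⟨fun w => φ w, fun w => (h2 w).connected, fun w w' hn => disjoint_coe.2 (h3 w w' hn), h4⟩

theorem IsMinor.mono_right {V W : Type} {H : SimpleGraph W} {G G' : SimpleGraph V}
    (h : IsMinor H G) (hG : G ≤ G') : IsMinor H G' := by
  obtain ⟨φ, h1, h2, h3⟩ := h
  refine ⟨φ, fun w => (h1 w).mono fun _ _ h => hG h, h2, fun w w' h => ?_⟩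
  obtain ⟨x, hx, y, hy, h⟩ := h3 w w' h
  exact ⟨x, hx, y, hy, hG h⟩

theorem pos_of_treewidth (l : ℕ) : ∃ ρ lam : ℕ, ∀ {V : Type} [Fintype V] (G : SimpleGraph V)
    (n : ℕ), 0 < n → lam * n ≤ treewidth G → ∃ (w σ : ℕ) (C : ℕ → CD V (Fin w)), n ≤ w ∧
      PoS G l C ∧ Sep G σ ∧ σ ≤ ρ * w := by
  obtain ⟨lam, h⟩ := exists_pos l 1
  refine ⟨3 * (lam + 1), 5 * (2 * (lam + 1)) + 5, fun {V} _ G n hn htw => ?_⟩
  obtain ⟨σ, hσ, hmin⟩ := exists_min_of (p := Sep G) id ⟨Fintype.card V, fun X hX => by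
    obtain ⟨v, hv, -⟩ := hX univ le_rfl
    simp at hv⟩
  have h1 := treewidth_le_of_sep G σ hσ
  have h2 : (lam + 1) * (2 * n) ≤ σ := by nlinarith
  have h0 : 0 < σ := lt_of_lt_of_le (by positivity) h2
  obtain ⟨X, hX⟩ : ∃ X, Linked G univ X (σ - 1) := by
    by_contra hc
    push Not at hc
    have := hmin (σ - 1) hc
    simp only [id] at this
    omega
  obtain ⟨β, hβ, -⟩ := hX.haven
  rw [Nat.sub_add_cancel h0] at hβ
  obtain ⟨u, u1, u2⟩ : ∃ u, (lam + 1) * u ≤ σ ∧ σ < (lam + 1) * (u + 1) :=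
    ⟨σ / (lam + 1), Nat.mul_div_le _ _, Nat.lt_mul_div_succ _ (by omega)⟩
  have u3 : 2 * n < u + 1 := Nat.lt_of_mul_lt_mul_left (h2.trans_lt u2)
  obtain ⟨w, rfl⟩ : ∃ w, u = w + 1 := ⟨u - 1, by omega⟩
  obtain ⟨C, -, hC, -⟩ := h (ι := Fin w) (X := univ) hβ hσ (by omega)
    (fun Z hZ => (hβ.conn Z hZ).1.imp fun x hx => ⟨mem_univ _, hx⟩)
    (by rw [Fintype.card_fin]; nlinarith)
  refine ⟨w, σ, C, by omega, hC, hσ, u2.le.trans ?_⟩
  have := Nat.mul_le_mul_left (lam + 1) (show w + 1 + 1 ≤ 3 * w by omega)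
  nlinarith

theorem one_part : ∃ l : ℕ, ∀ ρ : ℕ, ∃ E : ℕ, ∀ {V ι W : Type} [Fintype V] [Fintype ι]
    [Fintype W] {G : SimpleGraph V} {C : ℕ → CD V ι} {σ : ℕ} {H : SimpleGraph W},
    PoS G l C → Sep G σ → σ ≤ ρ * Fintype.card ι → FormB H ∨ FormD H →
    E * (Fintype.card W + 1) ≤ Fintype.card ι →
    ModelIn H G ((range l).biUnion fun j => (C j).reg) := by
  obtain ⟨l, hl⟩ := fat_k5
  refine ⟨l + 3, fun ρ => ?_⟩
  obtain ⟨E, hE⟩ := hl ρ
  refine ⟨E + 2, fun {V ι W} _ _ _ {G C σ H} hC hσ hρ hH hw => ?_⟩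
  have hs : ∀ l' ≤ l + 3, PoS G l' C := fun l' h => by simpa using hC.shift 0 l' (by omega)
  rcases hH with hH | ⟨J, hJ, f, hf, ha⟩
  · exact (wheel (hs 3 (by omega)) hH (by nlinarith)).mono
      (biUnion_subset_biUnion_of_subset_left _ (range_subset_range.2 (by omega)))
  · exact ((hE (hs l (by omega)) hσ hρ hJ (by nlinarith)).comap hf ha).mono
      (biUnion_subset_biUnion_of_subset_left _ (range_subset_range.2 (by omega)))

theorem parts (r : ℕ) : ∃ g : ℕ, ∀ {W V : Type} [Fintype W] [Fintype V] (H : SimpleGraph W)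
    (G : SimpleGraph V) (p : W → Fin r), IsPlanar H → (∀ u v, H.Adj u v → p u = p v) →
    (∀ (u v : W) (c : H.Walk u u) (d : H.Walk v v), c.IsCycle → d.IsCycle →
      c.support.Disjoint d.support → p u ≠ p v) →
    g * Fintype.card W ≤ treewidth G → IsMinor H G := by
  obtain ⟨l, hl⟩ := one_part
  obtain ⟨ρ, lam, h⟩ := pos_of_treewidth (r * l)
  obtain ⟨E, hE⟩ := hl ρ
  refine ⟨lam * ((E + 1) * 2), fun {W V} _ _ H G p hp h1 h2 htw => ?_⟩
  rcases isEmpty_or_nonempty W with hW | hW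
  · exact ⟨fun _ => ∅, fun w => hW.elim w, fun w => hW.elim w, fun w => hW.elim w⟩
  have hn : 0 < Fintype.card W := Fintype.card_pos
  obtain ⟨w, σ, C, c1, c2, c3, c4⟩ := h G ((E + 1) * (2 * Fintype.card W)) (by positivity)
    (le_trans (le_of_eq (by ring)) htw)
  let Hi : Fin r → SimpleGraph W := fun i => ⟨fun u v => H.Adj u v ∧ p u = i,
    ⟨fun u v h => ⟨h.1.symm, (h1 u v h.1).symm.trans h.2⟩⟩, ⟨fun u h => h.1.ne rfl⟩⟩
  have hle : ∀ i, Hi i ≤ H := fun i _ _ h => h.1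
  have hcol : ∀ i u (c : (Hi i).Walk u u), c.IsCycle → p u = i := fun i u c hc => by
    cases c with
    | nil => exact absurd rfl hc.ne_nil
    | cons h _ => exact h.2
  have hb : ∀ i : Fin r, ∀ j < l, i * l + j < r * l := fun i j hj => by
    have := Nat.mul_le_mul_right l (Nat.succ_le_of_lt i.2)
    simp only [Nat.succ_eq_add_one] at this
    nlinarith
  have hm : ∀ i : Fin r, ModelIn (Hi i) G ((range l).biUnion fun j => (C (i * l + j)).reg) := by
    intro i
    refine hE (c2.shift (i * l) l ?_) c3 (by simpa using c4) (forms _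
      ⟨fun h => hp.1 (h.mono_right (hle i)), fun h => hp.2 (h.mono_right (hle i))⟩ ?_)
      (by rw [Fintype.card_fin]; nlinarith)
    · have := Nat.mul_le_mul_right l (Nat.succ_le_of_lt i.2)
      simp only [Nat.succ_eq_add_one] at this
      nlinarith
    · intro u v c d hc hd
      by_contra hn
      refine h2 u v (c.mapLe (hle i)) (d.mapLe (hle i)) (hc.mapLe _) (hd.mapLe _) ?_
        ((hcol i u c hc).trans (hcol i v d hd).symm)
      rw [SimpleGraph.Walk.support_mapLe_eq_support, SimpleGraph.Walk.support_mapLe_eq_support]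
      exact fun x h3 h4 => hn ⟨x, h3, h4⟩
  choose φ f1 f2 f3 f4 using hm
  refine ModelIn.isMinor (S := univ) ⟨fun u => φ (p u) u, fun _ => subset_univ _, fun u => f2 _ u,
    fun u v hn => ?_, fun u v ha => ?_⟩
  · by_cases e : p u = p v
    · simp only [e]; exact f3 _ u v hn
    · rw [disjoint_left]
      intro x h3 h4
      obtain ⟨i, h5, h6⟩ := mem_biUnion.1 (f1 _ _ h3)
      obtain ⟨j, h7, h8⟩ := mem_biUnion.1 (f1 _ _ h4)
      rw [mem_range] at h5 h7
      refine disjoint_left.1 (c2.disj _ (hb _ i h5) _ (hb _ j h7) fun h => e (Fin.ext ?_)) h6 h8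
      rcases lt_trichotomy (p u).1 (p v).1 with h9 | h9 | h9
      · have := Nat.mul_le_mul_right l (Nat.succ_le_of_lt h9)
        simp only [Nat.succ_eq_add_one] at this
        nlinarith
      · exact h9
      · have := Nat.mul_le_mul_right l (Nat.succ_le_of_lt h9)
        simp only [Nat.succ_eq_add_one] at this
        nlinarith
  · simp only [← h1 u v ha]
    exact f4 _ u v ⟨ha, rfl⟩

theorem components (c : ℕ) : ∃ g : ℕ, ∀ (W V : Type) [Fintype W] [Fintype V] (H : SimpleGraph W)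
    (G : SimpleGraph V), IsPlanar H →
    (¬ ∃ (v : Fin (c + 1) → W) (p : ∀ i, H.Walk (v i) (v i)), (∀ i, (p i).IsCycle) ∧
      ∀ i j, i ≠ j → (p i).support.Disjoint (p j).support) →
    (∀ (u v : W) (p : H.Walk u u) (q : H.Walk v v), p.IsCycle → q.IsCycle →
      p.support.Disjoint q.support → ¬ H.Reachable u v) →
    g * Fintype.card W ≤ treewidth G → IsMinor H G := by
  obtain ⟨g, hg⟩ := parts (c + 1)
  refine ⟨g, fun W V _ _ H G hp h1 h2 htw => ?_⟩
  let Cy := {K : H.ConnectedComponent //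
    ∃ u, ∃ p : H.Walk u u, p.IsCycle ∧ H.connectedComponentMk u = K}
  obtain ⟨e⟩ : Nonempty (Cy ↪ Fin (c + 1)) := by
    rcases Function.Embedding.total Cy (Fin (c + 1)) with h | ⟨⟨e⟩⟩
    · exact h
    choose v p h3 h4 using fun i => (e i).2
    refine absurd ⟨v, p, h3, fun i j hij x h5 h6 => hij (e.injective (Subtype.ext ?_))⟩ h1
    rw [← h4, ← h4, SimpleGraph.ConnectedComponent.eq]
    exact ((p i).takeUntil x h5).reachable.trans ((p j).takeUntil x h6).reachable.symm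
  refine hg H G (fun u => if h : ∃ u', ∃ p : H.Walk u' u', p.IsCycle ∧
    H.connectedComponentMk u' = H.connectedComponentMk u then e ⟨_, h⟩ else 0) hp
    (fun u v ha => ?_) (fun u v p q h3 h4 h5 h6 => ?_) htw
  · simp only [SimpleGraph.ConnectedComponent.connectedComponentMk_eq_of_adj ha]
  · rw [dif_pos ⟨u, p, h3, rfl⟩, dif_pos ⟨v, q, h4, rfl⟩] at h6
    exact h2 u v p q h3 h4 h5
      (SimpleGraph.ConnectedComponent.eq.1 (congrArg Subtype.val (e.injective h6)))

theorem IsCluster.linked {V ι : Type} [Fintype ι] {G : SimpleGraph V} {C : CD V ι}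
    (h : IsCluster G C) {t : ℕ} (ht : 2 * t < Fintype.card ι) :
    Linked G C.reg (univ.image C.a) t := by
  intro Z hZ
  have hZ' : Z.card < Fintype.card ι := by omega
  obtain ⟨v, hv⟩ := (h.hv.conn Z hZ').1
  refine ⟨v, h.hv.sub Z hZ' hv, ?_⟩
  have h1 : (univ.filter fun i => ¬ C.a i ∉ C.β Z).image C.a ⊆
      univ.image C.a ∩ comp G (C.reg \ Z) v := by
    intro x hx
    obtain ⟨i, hi, rfl⟩ := mem_image.1 hx
    have := not_not.1 (mem_filter.1 hi).2
    exact mem_inter.2 ⟨mem_image_of_mem _ (mem_univ _),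
      mem_comp.2 ⟨h.hv.sub Z hZ' this, h.hv.r hZ' hv this⟩⟩
  have h2 := card_le_card h1
  have h3 := card_filter_add_card_filter_not (s := univ) (fun i => C.a i ∉ C.β Z)
  have h4 := h.indep Z hZ'
  rw [card_image_of_injective _ h.a_inj] at h2 ⊢
  rw [card_univ] at h3 ⊢
  omega

theorem split (r : ℕ) : ∃ g : ℕ, ∀ (V : Type) [Fintype V] (G : SimpleGraph V) (k : ℕ), 0 < k →
    g * k ≤ treewidth G → ∃ U : Fin r → Set V, (∀ i j, i ≠ j → Disjoint (U i) (U j)) ∧
      ∀ i, k ≤ treewidth (G.induce (U i)) := by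
  obtain ⟨ρ, lam, h⟩ := pos_of_treewidth r
  refine ⟨lam * 3, fun V _ G k hk htw => ?_⟩
  obtain ⟨w, σ, C, c1, c2, -, -⟩ := h G (3 * k) (by omega) (le_trans (le_of_eq (by ring)) htw)
  exact ⟨fun i => (C i).reg, fun i j hij => disjoint_coe.2 (c2.disj _ i.2 _ j.2
    fun e => hij (Fin.ext e)), fun i => le_treewidth_of_linked ((c2.cl _ i.2).linked
      (by rw [Fintype.card_fin]; omega))⟩

end Pool.Agent.MP_7be75d_co

end MrgPart5

-- marker of a merged file
example : 731051 + 119419 = 731051 + 119419 := rfl
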