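import Pool.Agent.MP_7be75d_co.PoS

-- ======== part 0: formerly Pool.Agent.MP_7be75d_co.Wheel
section MrgPart0

/-! An apex over a cycle with pendant trees. -/

namespace Pool.Agent.MP_7be75d_co

open Finset
open scoped Classical

variable {V : Type} {G : SimpleGraph V}

/-- A model of `H` inside the vertex set `S`. -/
def ModelIn {W : Type} (H : SimpleGraph W) (G : SimpleGraph V) (S : Finset V) : Prop :=
  ∃ φ : W → Finset V, (∀ w, φ w ⊆ S) ∧ (∀ w, Conn G (φ w)) ∧
    (∀ w w', w ≠ w' → Disjoint (φ w) (φ w')) ∧ ∀ w w', H.Adj w w' → Touch G (φ w) (φ w')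

/-- A path given as a function. -/
structure IsP (G : SimpleGraph V) (U : Finset V) (L : ℕ) (f : ℕ → V) : Prop where
  mem : ∀ j ≤ L, f j ∈ U
  adj : ∀ j < L, G.Adj (f j) (f (j + 1))
  inj : ∀ i ≤ L, ∀ j ≤ L, f i = f j → i = j

theorem IsP.le {U : Finset V} {L : ℕ} {f : ℕ → V} (h : IsP G U L f) : L ≤ U.card := by
  have := card_le_card_of_injOn (s := range (L + 1)) (t := U) f
    (fun j hj => h.mem j (by simpa [Nat.lt_succ_iff] using hj))
    (fun i hi j hj => h.inj i (by simpa [Nat.lt_succ_iff] using hi) j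
      (by simpa [Nat.lt_succ_iff] using hj))
  rw [card_range] at this
  omega

theorem IsP.step {U D E : Finset V} {L : ℕ} {f : ℕ → V} (h : IsP G U L f) (hD : Conn G D)
    (hDU : D ⊆ U) (h1 : f L ∈ D) (h2 : ∀ j < L, f j ∉ D) (hE : Conn G E) (hEU : E ⊆ U)
    (h3 : ∀ j ≤ L, f j ∉ E) {y : V} (hy : y ∈ D) (hy' : y ∈ E) :
    ∃ f' D', IsP G U (L + 1) f' ∧ (∀ j ≤ L, f' j = f j) ∧ Conn G D' ∧ D' ⊆ U ∧ f' (L + 1) ∈ D' ∧
      (∀ j < L + 1, f' j ∉ D') ∧ E ⊆ D' := by
  have hs : E ⊆ (D ∪ E).erase (f L) := fun x hx =>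
    mem_erase.2 ⟨fun e => h3 L le_rfl (e ▸ hx), mem_union_right _ hx⟩
  obtain ⟨u, v, hu, hv, -, hvS, huv⟩ := (hD.union hE hy hy').exit (mem_union_left _ hy)
    (self_mem_comp (G := G) (hs hy')) (mem_union_left _ h1)
    (fun hc => by simpa using comp_subset hc)
  have e : v = f L := by
    by_contra hc
    exact hv (comp_closed hu (mem_erase.2 ⟨hc, hvS⟩) huv)
  have hn : ∀ j ≤ L, f j ∉ comp G ((D ∪ E).erase (f L)) y := by
    intro j hj hc
    obtain ⟨h4, h5⟩ := mem_erase.1 (comp_subset hc)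
    rcases mem_union.1 h5 with h5 | h5
    · exact h2 j (lt_of_le_of_ne hj fun e => h4 (by rw [e])) h5
    · exact h3 j hj h5
  have hU : comp G ((D ∪ E).erase (f L)) y ⊆ U :=
    comp_subset.trans ((erase_subset _ _).trans (union_subset hDU hEU))
  have u1 : ∀ j ≤ L, Function.update f (L + 1) u j = f j := fun j hj =>
    Function.update_of_ne (by omega) _ _
  have u2 : Function.update f (L + 1) u (L + 1) = u := Function.update_self _ _ _
  refine ⟨Function.update f (L + 1) u, _, ⟨fun j hj => ?_, fun j hj => ?_, fun i hi j hj => ?_⟩,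
    u1, comp_conn (hs hy'), hU, by rwa [u2], fun j hj => by rw [u1 j (by omega)]; exact hn j (by omega),
    hE.subset_comp hs hy' (self_mem_comp (hs hy'))⟩
  · rcases Nat.le_succ_iff.1 hj with hj | rfl
    · rw [u1 j hj]; exact h.mem j hj
    · rw [u2]; exact hU hu
  · rcases Nat.lt_succ_iff_lt_or_eq.1 hj with hj | rfl
    · rw [u1 j hj.le, u1 _ hj]; exact h.adj j hj
    · rw [u1 j le_rfl, u2, ← e]; exact huv.symm
  · rcases Nat.le_succ_iff.1 hi with hi | rfl <;> rcases Nat.le_succ_iff.1 hj with hj | rfl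
    · rw [u1 i hi, u1 j hj]; exact h.inj i hi j hj
    · rw [u1 i hi, u2]; exact fun e => absurd (e ▸ hu) (hn i hi)
    · rw [u1 j hj, u2]; exact fun e => absurd (e ▸ hu) (hn j hj)
    · exact fun _ => rfl

theorem hitting_path {U X : Finset V} {K m : ℕ} {β : Finset V → Finset V} (h : Haven G U K β)
    (hK : 2 * m < K) {x : V} (hx : x ∈ β ∅)
    (hX : ∀ Z : Finset V, Z.card ≤ m → ∃ y ∈ X, y ∈ β Z) :
    ∃ L f, IsP G U L f ∧ f 0 = x ∧ f L ∈ X ∧ ∀ Z : Finset V, Z.card ≤ m → ∃ j ≤ L, f j ∈ β Z := by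
  have h0 : (∅ : Finset V).card < K := by simp; omega
  obtain ⟨⟨L, f, D⟩, ⟨p1, p2, p3, p4, p5, p6, Z, p7, p8⟩, hm⟩ := exists_max_of
    (p := fun s : ℕ × (ℕ → V) × Finset V => IsP G U s.1 s.2.1 ∧ s.2.1 0 = x ∧ Conn G s.2.2 ∧
      s.2.2 ⊆ U ∧ s.2.1 s.1 ∈ s.2.2 ∧ (∀ j < s.1, s.2.1 j ∉ s.2.2) ∧
      ∃ Z : Finset V, Z.card ≤ m ∧ β Z ⊆ s.2.2) (fun s => s.1) U.card (fun s hs => hs.1.le)
    ⟨⟨0, fun _ => x, β ∅⟩, ⟨fun _ _ => h.subU h0 hx, by simp, by simp⟩, rfl, h.conn _ h0,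
      h.subU h0, hx, by simp, ∅, by simp, subset_rfl⟩
  simp only at p1 p2 p3 p4 p5 p6 p8 hm
  have hit : ∀ Z : Finset V, Z.card ≤ m → ∃ j ≤ L, f j ∈ β Z := by
    intro Z' hZ'
    by_contra hc
    push Not at hc
    have hc2 : (Z ∪ Z').card < K := by have := card_union_le Z Z'; omega
    obtain ⟨y, hy⟩ := (h.conn _ hc2).1
    obtain ⟨f', D', q1, q2, q3, q4, q5, q6, q7⟩ := p1.step p3 p4 p5 p6 (h.conn Z' (by omega))
      (h.subU (by omega)) hc (p8 (h.mono _ _ subset_union_left hc2 hy))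
      (h.mono _ _ subset_union_right hc2 hy)
    have := hm ⟨L + 1, f', D'⟩ ⟨q1, (q2 0 (by omega)).trans p2, q3, q4, q5, q6, Z', hZ', q7⟩
    simp at this
  obtain ⟨y, hyX, hy⟩ := hX Z p7
  obtain ⟨⟨L, f, D⟩, ⟨p1, p2, p3, p4, p5, p6, p8, hit⟩, hm⟩ := exists_max_of
    (p := fun s : ℕ × (ℕ → V) × Finset V => IsP G U s.1 s.2.1 ∧ s.2.1 0 = x ∧ Conn G s.2.2 ∧
      s.2.2 ⊆ U ∧ s.2.1 s.1 ∈ s.2.2 ∧ (∀ j < s.1, s.2.1 j ∉ s.2.2) ∧ y ∈ s.2.2 ∧
      ∀ Z : Finset V, Z.card ≤ m → ∃ j ≤ s.1, s.2.1 j ∈ β Z) (fun s => s.1) U.card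
    (fun s hs => hs.1.le) ⟨⟨L, f, D⟩, p1, p2, p3, p4, p5, p6, p8 hy, hit⟩
  simp only at p1 p2 p3 p4 p5 p6 p8 hm hit
  refine ⟨L, f, p1, p2, ?_, hit⟩
  by_contra hc
  obtain ⟨f', D', q1, q2, q3, q4, q5, q6, q7⟩ := p1.step p3 p4 p5 p6 (Conn.singleton y)
    (singleton_subset_iff.2 (p4 p8)) (fun j hj e => by
      rw [mem_singleton] at e
      rcases Nat.lt_or_eq_of_le hj with hj | rfl
      · exact p6 j hj (e ▸ p8)
      · exact hc (e ▸ hyX)) p8 (mem_singleton_self y)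
  have := hm ⟨L + 1, f', D'⟩ ⟨q1, (q2 0 (by omega)).trans p2, q3, q4, q5, q6,
    q7 (mem_singleton_self y), fun Z hZ => by
      obtain ⟨j, h1, h2⟩ := hit Z hZ
      exact ⟨j, by simp only; omega, by simp only; rwa [q2 j h1]⟩⟩
  simp at this

theorem first_hit {S A : Finset V} {b : V} (hS : Conn G S) (hb : b ∈ S) (hA : ∃ a ∈ A, a ∈ S) :
    ∃ x ∈ A, ∃ T ⊆ S, Conn G T ∧ x ∈ T ∧ b ∈ T ∧ ∀ y ∈ T, y ∈ A → y = x := by
  by_cases hbA : b ∈ A
  · exact ⟨b, hbA, {b}, by simpa using hb, Conn.singleton b, by simp, by simp, by simp⟩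
  obtain ⟨a, ha, haS⟩ := hA
  have hb' : b ∈ S \ A := mem_sdiff.2 ⟨hb, hbA⟩
  obtain ⟨u, v, hu, hv, -, hvS, huv⟩ := hS.exit hb (self_mem_comp (G := G) hb') haS
    (fun hc => (mem_sdiff.1 (comp_subset hc)).2 ha)
  have hvA : v ∈ A := by
    by_contra hc
    exact hv (comp_closed hu (mem_sdiff.2 ⟨hvS, hc⟩) huv)
  refine ⟨v, hvA, insert v (comp G (S \ A) b), insert_subset hvS (comp_subset.trans sdiff_subset),
    (comp_conn hb').insert hu huv, mem_insert_self _ _, mem_insert_of_mem (self_mem_comp hb'),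
    fun y hy hyA => (mem_insert.1 hy).resolve_right fun hc => (mem_sdiff.1 (comp_subset hc)).2 hyA⟩

theorem IsCluster.lane_sub_empty {ι : Type} [Fintype ι] {C : CD V ι} (h : IsCluster G C) (i : ι) :
    C.lane i ⊆ C.β ∅ := by
  have := h.two (Z := ∅) (Fintype.card_pos_iff.2 ⟨i⟩)
  simp only [card_empty, mul_zero, nonpos_iff_eq_zero, card_eq_zero, filter_eq_empty_iff] at this
  simpa using this (mem_univ i)

theorem IsCluster.exists_lane {ι : Type} [Fintype ι] {C : CD V ι} (h : IsCluster G C)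
    {Z : Finset V} {s : Finset ι} (hs : 2 * Z.card < s.card) : ∃ i ∈ s, C.lane i ⊆ C.β Z := by
  have h1 : s.card ≤ Fintype.card ι := card_le_univ s
  obtain ⟨i, h2, h3⟩ := exists_not_mem_of_card_lt ((h.two (Z := Z) (by omega)).trans_lt hs)
  exact ⟨i, h2, by simpa using h3⟩

theorem IsCluster.b_inj {ι : Type} [Fintype ι] {C : CD V ι} (h : IsCluster G C) :
    Function.Injective C.b := fun i j hij => by
  by_contra hne
  exact disjoint_left.1 (h.disj i j hne) (h.mb i) (hij ▸ h.mb j)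

theorem IsCluster.a_inj {ι : Type} [Fintype ι] {C : CD V ι} (h : IsCluster G C) :
    Function.Injective C.a := fun i j hij => by
  by_contra hne
  exact disjoint_left.1 (h.disj i j hne) (h.ma i) (hij ▸ h.ma j)

theorem cycle_links [Fintype V] {ι : Type} [Fintype ι] {C : ℕ → CD V ι} (h : PoS G 2 C) {m : ℕ}
    (hm : 2 * m + 2 ≤ Fintype.card ι) :
    ∃ (Cy : ℕ → Finset V) (e : ℕ → ι), (∀ i < m, Cy i ⊆ (C 0).reg ∪ (C 1).reg ∧ Conn G (Cy i) ∧
      (C 1).b (e i) ∈ Cy i) ∧ (∀ i < m, ∀ j < m, i ≠ j → Disjoint (Cy i) (Cy j)) ∧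
      (∀ i, i + 1 < m → Touch G (Cy i) (Cy (i + 1))) ∧
      ∀ j, j + 1 = m → Touch G (Cy 0) (Cy j) := by
  have c0 := h.cl 0 (by omega)
  have c1 := h.cl 1 (by omega)
  obtain ⟨i0⟩ : Nonempty ι := Fintype.card_pos_iff.1 (by omega)
  have hl : ∀ Z : Finset V, Z.card ≤ m → ∃ i, (C 1).lane i ⊆ (C 1).β Z := fun Z hZ => by
    obtain ⟨i, -, hi⟩ := c1.exists_lane (Z := Z) (s := univ) (by rw [card_univ]; omega)
    exact ⟨i, hi⟩
  obtain ⟨L, f, p1, p2, p3, p4⟩ := hitting_path (X := univ.image (C 1).a) (m := m) c1.hv (by omega)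
    (c1.lane_sub_empty i0 (c1.ma i0)) (fun Z hZ => by
      obtain ⟨i, hi⟩ := hl Z hZ
      exact ⟨_, mem_image_of_mem _ (mem_univ i), hi (c1.ma i)⟩)
  obtain ⟨i1, -, p3⟩ := mem_image.1 p3
  obtain ⟨P, hP⟩ := menger (C 1).reg m _ G ((range (L + 1)).image f) (univ.image (C 1).b) le_rfl (by
    intro Z hZ
    obtain ⟨j, h1, h2⟩ := p4 Z hZ.le
    obtain ⟨i, hi⟩ := hl Z hZ.le
    exact c1.hv.joined (by omega) ⟨_, mem_image_of_mem _ (mem_range.2 (by omega)), h2⟩
      ⟨_, mem_image_of_mem _ (mem_univ i), hi (c1.mb i)⟩)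
  have hk : ∀ k, ∃ (i : ι) (j : ℕ) (T : Finset V), j ≤ L ∧ T ⊆ P k ∧ Conn G T ∧ f j ∈ T ∧
      (C 1).b i ∈ T ∧ ∀ j' ≤ L, f j' ∈ T → j' = j := by
    intro k
    obtain ⟨b, hb, hb'⟩ := hP.right k
    obtain ⟨i, -, rfl⟩ := mem_image.1 hb
    obtain ⟨x, hx, T, t1, t2, t3, t4, t5⟩ := first_hit (hP.conn k) hb' (hP.left k)
    obtain ⟨j, hj, rfl⟩ := mem_image.1 hx
    have hj' : j ≤ L := by simpa [Nat.lt_succ_iff] using hj
    exact ⟨i, j, T, hj', t1, t2, t3, t4, fun j' h1 h2 => p1.inj _ h1 _ hj'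
      (t5 _ h2 (mem_image_of_mem _ (mem_range.2 (by omega))))⟩
  choose e pos T t0 t1 t2 t3 t4 t5 using hk
  have hinj : Function.Injective pos := by
    intro k k' hk
    by_contra hne
    exact disjoint_left.1 (hP.disj k k' hne) (t1 k (t3 k)) (hk ▸ t1 k' (t3 k'))
  have hc : (univ.image pos).card = m := by rw [card_image_of_injective _ hinj]; simp
  choose k hk0 hk using fun i : Fin m => mem_image.1 (orderEmbOfFin_mem (univ.image pos) hc i)
  let g : ℕ → ℕ := fun i => if hi : i < m then pos (k ⟨i, hi⟩) else L + 1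
  have g1 : ∀ i j, i < j → j ≤ m → g i < g j := by
    intro i j hij hj
    have hi : i < m := by omega
    simp only [g, dif_pos hi]
    split_ifs with hj'
    · rw [hk, hk]
      exact (orderEmbOfFin _ hc).strictMono (show (⟨i, hi⟩ : Fin m) < ⟨j, hj'⟩ from hij)
    · exact Nat.lt_succ_of_le (t0 _)
  have g2 : g m = L + 1 := by simp [g]
  have g3 : ∀ i j, i ≤ j → j ≤ m → g i ≤ g j := fun i j hij hj => by
    rcases Nat.lt_or_eq_of_le hij with h | rfl
    · exact (g1 i j h hj).le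
    · exact le_rfl
  let lo : ℕ → ℕ := fun i => if i = 0 then 0 else g i
  have l1 : ∀ i, lo i ≤ g i := fun i => by simp only [lo]; split_ifs <;> omega
  have l2 : ∀ i, lo (i + 1) = g (i + 1) := fun i => by simp [lo]
  have l3 : ∀ i j, i < j → j ≤ m → g (i + 1) ≤ lo j := fun i j hij hj => by
    obtain ⟨j, rfl⟩ : ∃ j', j = j' + 1 := ⟨j - 1, by omega⟩
    rw [l2]; exact g3 _ _ hij hj
  let T' : ℕ → Finset V := fun i => if hi : i < m then T (k ⟨i, hi⟩) else ∅
  let sg : ℕ → Finset V := fun i => (Icc (lo i) (g (i + 1) - 1)).image f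
  let O : ℕ → Finset V := fun i => if i = 0 then (C 0).β ∅ else ∅
  have h0 : (∅ : Finset V).card < Fintype.card ι := by simp; omega
  have hgL : ∀ i < m, g (i + 1) ≤ L + 1 := fun i hi => g2 ▸ g3 _ _ hi le_rfl
  have s1 : ∀ i < m, ∀ v ∈ sg i, ∃ j, lo i ≤ j ∧ j < g (i + 1) ∧ j ≤ L ∧ f j = v := by
    intro i hi v hv
    obtain ⟨j, hj, rfl⟩ := mem_image.1 hv
    have := mem_Icc.1 hj
    have := g1 i (i + 1) (by omega) hi
    have := hgL i hi
    exact ⟨j, by omega, by omega, by omega, rfl⟩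
  have s2 : ∀ i j, lo i ≤ j → j < g (i + 1) → f j ∈ sg i := fun i j h1 h2 =>
    mem_image_of_mem _ (mem_Icc.2 ⟨h1, by omega⟩)
  have s3 : ∀ i < m, sg i ∪ T' i ⊆ (C 1).reg := by
    intro i hi
    refine union_subset (fun v hv => ?_) ?_
    · obtain ⟨j, -, -, h3, rfl⟩ := s1 i hi v hv
      exact p1.mem j h3
    · simp only [T', dif_pos hi]; exact (t1 _).trans (hP.sub _)
  have s4 : ∀ i, O i ⊆ (C 0).reg := fun i => by
    simp only [O]; split_ifs
    · exact c0.hv.subU h0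
    · exact empty_subset _
  have s5 : ∀ i < m, ∀ j < m, i ≠ j → Disjoint (sg i) (T' j) := by
    intro i hi j hj hij
    rw [disjoint_left]
    intro v h1 h2
    obtain ⟨x, h3, h4, h5, rfl⟩ := s1 i hi v h1
    simp only [T', dif_pos hj] at h2
    have h6 : x = g j := by simp only [g, dif_pos hj]; exact t5 _ x h5 h2
    rcases Nat.lt_or_gt_of_ne hij with h | h
    · have := g3 (i + 1) j h hj.le; omega
    · have := l3 j i h hi.le; have := g1 j (j + 1) (by omega) hj; omega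
  have s6 : ∀ i < m, ∀ j < m, i < j → Disjoint (sg i) (sg j) := by
    intro i hi j hj hij
    rw [disjoint_left]
    intro v h1 h2
    obtain ⟨x, h3, h4, h5, rfl⟩ := s1 i hi v h1
    obtain ⟨y, h6, h7, h8, h9⟩ := s1 j hj _ h2
    have := p1.inj _ h8 _ h5 h9
    have := l3 i j hij hj.le
    omega
  have hd := h.disj 0 (by omega) 1 (by omega) (by omega)
  have hb0 : ∀ i, (C 0).b i ∈ O 0 := fun i => c0.lane_sub_empty i (c0.mb i)
  refine ⟨fun i => O i ∪ (sg i ∪ T' i), fun i => if hi : i < m then e (k ⟨i, hi⟩) else i0,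
    fun i hi => ⟨union_subset_union (s4 i) (s3 i hi), ?_, ?_⟩, fun i hi j hj hij => ?_,
    fun i hi => ?_, fun j hj => ?_⟩
  · have hg := g1 i (i + 1) (by omega) hi
    have c2 : Conn G (sg i ∪ T' i) := by
      refine (conn_segment (by have := l1 i; omega) fun j _ h2 => p1.adj j
        (by have := hgL i hi; omega)).union (a := f (g i)) ?_ (s2 i _ (l1 i) hg) ?_
      · simp only [T', dif_pos hi]; exact t2 _
      · simp only [T', g, dif_pos hi]; exact t3 _
    by_cases hi0 : i = 0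
    · subst hi0
      refine (c0.hv.conn _ h0).union_adj c2 (hb0 i0) (mem_union_left _ ?_) (h.adj 0 (by omega) i0)
      rw [← p2]
      exact s2 0 0 (by simp [lo]) (by omega)
    · simpa [O, hi0] using c2
  · simp only [T', dif_pos hi]
    exact mem_union_right _ (mem_union_right _ (t4 _))
  · simp only [disjoint_union_left, disjoint_union_right]
    refine ⟨⟨?_, (hd.mono (s4 j) (subset_union_left.trans (s3 i hi))).symm,
      (hd.mono (s4 j) (subset_union_right.trans (s3 i hi))).symm⟩,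
      ⟨hd.mono (s4 i) (subset_union_left.trans (s3 j hj)), ?_, (s5 j hj i hi hij.symm).symm⟩,
      hd.mono (s4 i) (subset_union_right.trans (s3 j hj)), s5 i hi j hj hij, ?_⟩
    · by_cases hi0 : i = 0
      · simp [O, show j ≠ 0 by omega]
      · simp [O, hi0]
    · rcases Nat.lt_or_gt_of_ne hij with h | h
      · exact s6 i hi j hj h
      · exact (s6 j hj i hi h).symm
    · simp only [T', dif_pos hi, dif_pos hj]
      refine (hP.disj _ _ fun e => ?_).mono (t1 _) (t1 _)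
      have h1 := congrArg pos e
      rw [hk, hk] at h1
      exact hij (congrArg Fin.val ((orderEmbOfFin _ hc).injective h1))
  · have h1 := g1 i (i + 1) (by omega) (by omega)
    have h2 := g1 (i + 1) (i + 1 + 1) (by omega) (by omega)
    have h3 := hgL (i + 1) hi
    have h4 := l1 i
    refine ⟨f (g (i + 1) - 1), mem_union_right _ (mem_union_left _ (s2 _ _ (by omega) (by omega))),
      f (g (i + 1)), mem_union_right _ (mem_union_left _ (s2 _ _ (l1 _) h2)), ?_⟩
    have := p1.adj (g (i + 1) - 1) (by omega)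
    rwa [Nat.sub_add_cancel (by omega)] at this
  · refine ⟨_, mem_union_left _ (hb0 i1), _, mem_union_right _ (mem_union_left _ ?_),
      h.adj 0 (by omega) i1⟩
    rw [p3]
    have := g1 j m (by omega) le_rfl
    have := l1 j
    exact s2 _ _ (by omega) (by rw [hj]; omega)

theorem wheel [Fintype V] {ι W : Type} [Fintype ι] [Fintype W] {C : ℕ → CD V ι} (h : PoS G 3 C)
    {H : SimpleGraph W} (hH : FormB H) (hw : 2 * Fintype.card W + 2 ≤ Fintype.card ι) :
    ModelIn H G ((range 3).biUnion fun j => (C j).reg) := by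
  obtain ⟨a, m, c, hc, hca, hadj, hP⟩ := hH
  have hm : m ≤ Fintype.card W := by
    have := card_le_card_of_injOn (s := range m) (t := univ) c (fun _ _ => by simp)
      (fun i hi j hj => hc i (by simpa using hi) j (by simpa using hj))
    simpa using this
  obtain ⟨Cy, e, y1, y2, y3, y4⟩ := cycle_links (m := m) (h.shift 0 2 (by omega)) (by omega)
  simp only [zero_add] at y1
  have c1 := h.cl 1 (by omega)
  have c2 := h.cl 2 (by omega)
  set I := (range m).image c with hI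
  have hix : ∀ w, ∃ i, w ∈ I → i < m ∧ c i = w := by
    intro w
    by_cases hw : w ∈ I
    · obtain ⟨i, h1, h2⟩ := mem_image.1 hw
      exact ⟨i, fun _ => ⟨mem_range.1 h1, h2⟩⟩
    · exact ⟨0, fun h => absurd h hw⟩
  choose ix hix using hix
  have hne : ∀ w ∈ I, ∀ w' ∈ I, w ≠ w' → ix w ≠ ix w' := fun w hw w' hw' hne e =>
    hne (by rw [← (hix w hw).2, e, (hix w' hw').2])
  have hinj : Set.InjOn (fun w => e (ix w)) I := by
    intro w hw w' hw' he
    by_contra hn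
    simp only at he
    exact disjoint_left.1 (y2 _ (hix w hw).1 _ (hix w' hw').1 (hne w hw w' hw' hn))
      (y1 _ (hix w hw).1).2.2 (he ▸ (y1 _ (hix w' hw').1).2.2)
  have hJ : (univ.erase a).card ≤ Fintype.card W := card_le_univ _
  obtain ⟨B, Z, b1, b2, b3, b4, b5⟩ := growth (p := fun w => (C 2).a (e (ix w))) hP c2.hv (by omega)
    (fun w hw w' hw' he => hinj hw hw' (c2.a_inj he)) (fun w _ => c2.sub _ (c2.ma _))
    (fun Z hZ => le_trans (card_le_card_of_injOn (fun w => e (ix w))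
      (fun w hw => by simpa using (mem_filter.1 hw).2)
      (hinj.mono (coe_subset.2 (filter_subset _ _)))) (c2.indep Z hZ))
  have hZ : Z.card < Fintype.card ι := by omega
  let E : W → Finset V := fun w => if w ∈ I then Cy (ix w) else ∅
  have e1 : ∀ w, E w ⊆ (C 0).reg ∪ (C 1).reg := fun w => by
    simp only [E]; split_ifs with hw
    · exact (y1 _ (hix w hw).1).1
    · exact empty_subset _
  have hd : Disjoint ((C 0).reg ∪ (C 1).reg) (C 2).reg := disjoint_union_left.2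
    ⟨h.disj 0 (by omega) 2 (by omega) (by omega), h.disj 1 (by omega) 2 (by omega) (by omega)⟩
  have hm' : ∀ {w}, w ≠ a → w ∈ univ.erase a := fun h => mem_erase.2 ⟨h, mem_univ _⟩
  have hs : ∀ j < 3, (C j).reg ⊆ (range 3).biUnion fun j => (C j).reg := fun j hj =>
    subset_biUnion_of_mem (fun j => (C j).reg) (mem_range.2 hj)
  have ha : ∀ w, w ≠ a → Disjoint ((C 2).β Z) (E w ∪ B w) := fun w hw => disjoint_union_right.2
    ⟨(hd.mono (e1 w) (c2.hv.subU hZ)).symm, (b2 w (hm' hw)).2.2.1.symm⟩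
  have ht : ∀ w, w ≠ a → Touch G ((C 2).β Z) (E w ∪ B w) := fun w hw =>
    (b2 w (hm' hw)).2.2.2.symm.mono subset_rfl subset_union_right
  refine ⟨fun w => if w = a then (C 2).β Z else E w ∪ B w, fun w => ?_, fun w => ?_,
    fun w w' hn => ?_, fun w w' hA => ?_⟩
  · simp only; split_ifs with hw
    · exact (c2.hv.subU hZ).trans (hs 2 (by omega))
    · exact union_subset ((e1 w).trans (union_subset (hs 0 (by omega)) (hs 1 (by omega))))
        ((b2 w (hm' hw)).1.trans (hs 2 (by omega)))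
  · simp only; split_ifs with hw
    · exact c2.hv.conn Z hZ
    · by_cases hwI : w ∈ I
      · simp only [E, if_pos hwI]
        exact (y1 _ (hix w hwI).1).2.1.union_adj (b2 w (hm' hw)).2.1 (y1 _ (hix w hwI).1).2.2
          (b4 w hwI) (h.adj 1 (by omega) _)
      · simpa [E, hwI] using (b2 w (hm' hw)).2.1
  · simp only; split_ifs with hw hw' hw'
    · exact absurd (hw.trans hw'.symm) hn
    · exact ha w' hw'
    · exact (ha w hw).symm
    · simp only [disjoint_union_left, disjoint_union_right]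
      refine ⟨⟨?_, (hd.mono (e1 w') (b2 w (hm' hw)).1).symm⟩, hd.mono (e1 w) (b2 w' (hm' hw')).1,
        b3 w (hm' hw) w' (hm' hw') hn⟩
      simp only [E]; split_ifs with h1 h2
      · exact y2 _ (hix w h1).1 _ (hix w' h2).1 (hne w h1 w' h2 hn)
      all_goals simp
  · simp only; split_ifs with hw hw' hw'
    · exact absurd (hw.trans hw'.symm) hA.ne
    · exact ht w' hw'
    · exact (ht w hw).symm
    · by_cases h1 : w ∈ I
      · by_cases h2 : w' ∈ I
        · refine Touch.mono ?_ subset_union_left subset_union_left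
          simp only [E, if_pos h1, if_pos h2]
          have i1 := (hix w h1).1
          have i2 := (hix w' h2).1
          rcases hadj _ i1 _ i2 (by rw [(hix w h1).2, (hix w' h2).2]; exact hA) with h | h | h | h
          · rw [h]; exact y3 _ (h ▸ i2)
          · rw [h]; exact (y3 _ (h ▸ i1)).symm
          · rw [h.1]; exact y4 _ h.2
          · rw [h.1]; exact (y4 _ h.2).symm
        · exact (b5 w' (hm' hw') w (hm' hw) hA.symm h2).symm.mono subset_union_right
            subset_union_right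
      · exact (b5 w (hm' hw) w' (hm' hw') hA h1).mono subset_union_right subset_union_right

end Pool.Agent.MP_7be75d_co

end MrgPart0

-- ======== part 1: formerly Pool.Agent.MP_7be75d_co.Reroute
section MrgPart1

/-! Rerouting a linkage along lanes. -/

namespace Pool.Agent.MP_7be75d_co

open Finset
open scoped Classical

variable {V : Type} {G : SimpleGraph V}

/-- Walks with a vertex set and a cost; steps inside the relation `s` are free. -/
inductive CW (G : SimpleGraph V) (s : V → V → Prop) (x : V) : V → Finset V → ℕ → Prop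
  | nil : CW G s x x {x} 0
  | free {y z : V} {S : Finset V} {c : ℕ} : CW G s x y S c → G.Adj y z → s y z →
      CW G s x z (insert z S) c
  | paid {y z : V} {S : Finset V} {c : ℕ} : CW G s x y S c → G.Adj y z →
      CW G s x z (insert z S) (c + 1)

section

variable {s : V → V → Prop} {x y : V} {S : Finset V} {c : ℕ}

theorem CW.conn (h : CW G s x y S c) : Conn G S ∧ x ∈ S ∧ y ∈ S := by
  induction h with
  | nil => exact ⟨Conn.singleton x, mem_singleton_self _, mem_singleton_self _⟩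
  | free _ ha _ ih => exact ⟨ih.1.insert ih.2.2 ha, mem_insert_of_mem ih.2.1, mem_insert_self _ _⟩
  | paid _ ha ih => exact ⟨ih.1.insert ih.2.2 ha, mem_insert_of_mem ih.2.1, mem_insert_self _ _⟩

theorem CW.init (h : CW G s x y S c) (ht : ∀ a b c, s a b → s b c → s a c) {v : V} (hv : v ∈ S) :
    ∃ S' ⊆ S, ∃ c' ≤ c, CW G s x v S' c' ∧ (c' < c ∨ v = y ∨ s v y) := by
  induction h with
  | nil =>
    rw [mem_singleton.1 hv]
    exact ⟨_, subset_rfl, 0, le_rfl, CW.nil, Or.inr (Or.inl rfl)⟩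
  | free h ha hs ih =>
    rcases mem_insert.1 hv with rfl | hv
    · exact ⟨_, subset_rfl, _, le_rfl, h.free ha hs, Or.inr (Or.inl rfl)⟩
    · obtain ⟨S', h1, c', h2, h3, h4⟩ := ih hv
      refine ⟨S', h1.trans (subset_insert _ _), c', h2, h3, ?_⟩
      rcases h4 with h4 | rfl | h4
      · exact Or.inl h4
      · exact Or.inr (Or.inr hs)
      · exact Or.inr (Or.inr (ht _ _ _ h4 hs))
  | paid h ha ih =>
    rcases mem_insert.1 hv with rfl | hv
    · exact ⟨_, subset_rfl, _, le_rfl, h.paid ha, Or.inr (Or.inl rfl)⟩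
    · obtain ⟨S', h1, c', h2, h3, -⟩ := ih hv
      exact ⟨S', h1.trans (subset_insert _ _), c', by omega, h3, Or.inl (by omega)⟩

theorem CW.extend (h : CW G s x y S c) {T : Finset V} {z : V} (hr : R G T y z)
    (hT : ∀ a ∈ T, ∀ b ∈ T, s a b) : ∃ S' ⊆ S ∪ T, CW G s x z S' c := by
  refine hr.ind (P := fun z => ∃ S' ⊆ S ∪ T, CW G s x z S' c) ⟨S, subset_union_left, h⟩ ?_
  rintro a b - ⟨S', h1, h2⟩ hab ha hb
  exact ⟨_, insert_subset (mem_union_right _ hb) h1, h2.free hab (hT a ha b hb)⟩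

theorem CW.of_r {T : Finset V} (hr : R G T x y) (hx : x ∈ T) : ∃ S ⊆ T, ∃ c, CW G s x y S c := by
  refine hr.ind (P := fun y => ∃ S ⊆ T, ∃ c, CW G s x y S c)
    ⟨_, singleton_subset_iff.2 hx, _, CW.nil⟩ ?_
  rintro a b - ⟨S', h1, c, h2⟩ hab ha hb
  exact ⟨_, insert_subset hb h1, _, h2.paid hab⟩

end

theorem reroute {ι κ : Type} [Fintype κ] {U : Finset V} {L : ι → Finset V} {b : ι → V}
    {I : Finset ι} (hL : ∀ i ∈ I, L i ⊆ U ∧ Conn G (L i) ∧ b i ∈ L i)
    (hd : ∀ i ∈ I, ∀ j ∈ I, i ≠ j → Disjoint (L i) (L j)) {p : κ → V} {P : κ → Finset V}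
    (hP : ∀ k, P k ⊆ U ∧ Conn G (P k) ∧ p k ∈ P k ∧ ∃ i ∈ I, b i ∈ P k)
    (hPd : ∀ k k', k ≠ k' → Disjoint (P k) (P k')) :
    ∃ (Q : κ → Finset V) (e : κ → ι),
      (∀ k, Q k ⊆ U ∧ Conn G (Q k) ∧ p k ∈ Q k ∧ e k ∈ I ∧ b (e k) ∈ Q k) ∧
      (∀ k k', k ≠ k' → Disjoint (Q k) (Q k')) ∧
      ∀ i ∈ I, ∀ k, ¬ Disjoint (L i) (Q k) → ∃ k', e k' = i := by
  let s : V → V → Prop := fun x y => ∃ j ∈ I, x ∈ L j ∧ y ∈ L j
  have uniq : ∀ i ∈ I, ∀ j ∈ I, ∀ x ∈ L i, x ∈ L j → i = j := fun i hi j hj x h1 h2 => by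
    by_contra hne
    exact disjoint_left.1 (hd i hi j hj hne) h1 h2
  have ht : ∀ a b c, s a b → s b c → s a c := by
    rintro a b c ⟨i, hi, h1, h2⟩ ⟨j, hj, h3, h4⟩
    exact ⟨i, hi, h1, uniq i hi j hj b h2 h3 ▸ h4⟩
  have h0 : ∀ k, ∃ t : ι × Finset V × ℕ, t.1 ∈ I ∧ t.2.1 ⊆ P k ∧
      CW G s (p k) (b t.1) t.2.1 t.2.2 := by
    intro k
    obtain ⟨-, h1, h2, i, h3, h4⟩ := hP k
    obtain ⟨S, h5, c, h6⟩ := CW.of_r (s := s) (h1.2 _ h2 _ h4) h2
    exact ⟨⟨i, S, c⟩, h3, h5, h6⟩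
  choose t0 t1 t2 t3 using h0
  obtain ⟨t, ⟨h1, h2⟩, hm⟩ := exists_min_of (p := fun t : κ → ι × Finset V × ℕ =>
    (∀ k, (t k).1 ∈ I ∧ (t k).2.1 ⊆ U ∧ CW G s (p k) (b (t k).1) (t k).2.1 (t k).2.2) ∧
      ∀ k k', k ≠ k' → Disjoint (t k).2.1 (t k').2.1) (fun t => ∑ k, (t k).2.2)
    ⟨t0, fun k => ⟨t1 k, (t2 k).trans (hP k).1, t3 k⟩,
      fun k k' h => (hPd k k' h).mono (t2 k) (t2 k')⟩
  refine ⟨fun k => (t k).2.1, fun k => (t k).1, fun k => ⟨(h1 k).2.1, (h1 k).2.2.conn.1,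
    (h1 k).2.2.conn.2.1, (h1 k).1, (h1 k).2.2.conn.2.2⟩, h2, fun i hi k0 hk0 => ?_⟩
  by_contra hne
  push Not at hne
  obtain ⟨v, hv1, hv2⟩ := not_disjoint_iff.1 hk0
  obtain ⟨x, hx, T, r1, r2, r3, r4, r5⟩ := first_hit (A := univ.biUnion fun k => (t k).2.1)
    (hL i hi).2.1 (hL i hi).2.2 ⟨v, mem_biUnion.2 ⟨k0, mem_univ _, hv2⟩, hv1⟩
  obtain ⟨k, -, hk⟩ := mem_biUnion.1 hx
  obtain ⟨S', s1, c', -, s3, s4⟩ := (h1 k).2.2.init ht hk
  have hb := (hL _ (h1 k).1).2.2
  have s5 : c' < (t k).2.2 := by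
    rcases s4 with s4 | s4 | ⟨j, hj, s4, s5⟩
    · exact s4
    · exact absurd (uniq _ (h1 k).1 i hi _ hb (s4 ▸ r1 r3)) (hne k)
    · exact absurd ((uniq _ (h1 k).1 j hj _ hb s5).trans (uniq j hj i hi x s4 (r1 r3))) (hne k)
  obtain ⟨S'', s6, s7⟩ := s3.extend (r2.2 _ r3 _ r4) (fun a ha b hb => ⟨i, hi, r1 ha, r1 hb⟩)
  have u1 : ∀ k', k' ≠ k → Function.update t k (i, S'', c') k' = t k' := fun k' h =>
    Function.update_of_ne h _ _
  have u2 : Function.update t k (i, S'', c') k = (i, S'', c') := Function.update_self _ _ _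
  have key : ∀ k', k' ≠ k → Disjoint S'' (t k').2.1 := by
    intro k' hk'
    rw [disjoint_left]
    intro y h3 h4
    rcases mem_union.1 (s6 h3) with h5 | h5
    · exact disjoint_left.1 (h2 k k' hk'.symm) (s1 h5) h4
    · exact disjoint_left.1 (h2 k k' hk'.symm) hk
        (r5 y h5 (mem_biUnion.2 ⟨k', mem_univ _, h4⟩) ▸ h4)
  have := hm (Function.update t k (i, S'', c')) ⟨fun k' => ?_, fun k1 k2 h => ?_⟩
  · refine absurd this (not_le.2 (sum_lt_sum (fun k' _ => ?_) ⟨k, mem_univ _, ?_⟩))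
    · by_cases e : k' = k
      · rw [e, u2]; exact s5.le
      · rw [u1 k' e]
    · rw [u2]; exact s5
  · by_cases e : k' = k
    · rw [e, u2]
      exact ⟨hi, s6.trans (union_subset (s1.trans (h1 k).2.1) (r1.trans (hL i hi).1)), s7⟩
    · rw [u1 k' e]; exact h1 k'
  · by_cases e1 : k1 = k
    · subst e1
      rw [u2, u1 k2 h.symm]; exact key k2 h.symm
    · rw [u1 k1 e1]
      by_cases e2 : k2 = k
      · rw [e2, u2]; exact (key k1 e1).symm
      · rw [u1 k2 e2]; exact h2 k1 k2 h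

end Pool.Agent.MP_7be75d_co

end MrgPart1

-- ======== part 2: formerly Pool.Agent.MP_7be75d_co.Core
section MrgPart2

/-! A region with a small footprint near a given lane. -/

namespace Pool.Agent.MP_7be75d_co

open Finset
open scoped Classical

variable {V ι : Type} [Fintype ι] {G : SimpleGraph V} {C : CD V ι}

/-- The lanes that meet `S`. -/
noncomputable def foot (C : CD V ι) (S : Finset V) : Finset ι :=
  univ.filter fun i => ¬ Disjoint (C.lane i) S

theorem mem_foot {S : Finset V} {i : ι} : i ∈ foot C S ↔ ∃ v ∈ C.lane i, v ∈ S := by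
  simp [foot, not_disjoint_iff]

theorem not_mem_foot {S : Finset V} {i : ι} : i ∉ foot C S ↔ Disjoint (C.lane i) S := by
  simp [foot]

theorem foot_union (S T : Finset V) : foot C (S ∪ T) = foot C S ∪ foot C T := by
  ext i
  simp only [foot, mem_filter, mem_univ, true_and, mem_union, disjoint_union_right]
  tauto

/-- A region with a haven that always contains many second ends of lanes. -/
def Pre (G : SimpleGraph V) (C : CD V ι) (U : Finset V) (K : ℕ) (β : Finset V → Finset V) : Prop :=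
  U ⊆ C.reg ∧ Haven G U K β ∧
    ∀ Z : Finset V, Z.card < K → K ≤ (univ.filter fun i => C.b i ∈ β Z).card

theorem near_case [Fintype V] (h : IsCluster G C) {σ ρ b t K : ℕ} (hσ : Sep G σ) (hρ : σ ≤ ρ * b)
    (hb : 2 ≤ b) (ht : (12 * ρ + 13) ^ 2 * (3 * t) ≤ b) (hw : 12 * b ≤ Fintype.card ι)
    (hK : 2 * K ≤ t) : ∃ U β, Pre G C U K β ∧ (foot C U).card ≤ 6 * b := by
  have h4 := h.hv.le (K' := 4 * b) (by omega)
  obtain ⟨F, hF, hb', hL⟩ := exists_linked_tight h4 hσ hρ hb ht (by omega)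
  obtain ⟨β1, h1, h2⟩ := hL.haven
  have h3 := hL.lt_card
  have f1 : (foot C F).card ≤ 4 * b := by
    refine le_trans (card_le_card fun i hi => ?_)
      ((h.two (Z := bd G C.reg F) (by omega)).trans (by omega))
    obtain ⟨v, h5, h6⟩ := mem_foot.1 hi
    simp only [mem_filter, mem_univ, true_and]
    exact fun hc => disjoint_left.1 hF.1.2.2 (hc h5) h6
  have f2 : 8 * b ≤ (foot C F)ᶜ.card := by rw [card_compl]; omega
  obtain ⟨-, P, e, -, -, p1, p2, p3, p4, p5⟩ := annulus (X := (foot C F)ᶜ.image C.b)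
    (p := fun k : bd G C.reg F => k.1) h4 hF (by omega) (fun Z hZ => by
      obtain ⟨i, h5, h6⟩ := h.exists_lane (Z := Z) (s := (foot C F)ᶜ) (by omega)
      exact ⟨_, mem_image_of_mem _ h5, h6 (h.mb i)⟩) Subtype.val_injective (fun k => k.2)
  obtain ⟨Q, e, q1, q2, q3⟩ := reroute (L := C.lane) (b := C.b) (I := (foot C F)ᶜ)
    (fun i hi => ⟨fun v hv => mem_union_left _ (mem_sdiff.2 ⟨h.sub i hv,
      disjoint_left.1 (not_mem_foot.1 (mem_compl.1 hi)) hv⟩), h.conn i, h.mb i⟩)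
    (fun i _ j _ => h.disj i j) (fun k => ⟨p1 k, p2 k, p4 k, by
      obtain ⟨i, h5, h6⟩ := mem_image.1 (p5 k).2.1
      exact ⟨i, h5, h6 ▸ (p5 k).1⟩⟩) p3
  obtain ⟨β2, h5, h6⟩ := h1.enlarge (U' := F ∪ univ.biUnion Q) subset_union_left
  refine ⟨F ∪ univ.biUnion Q, β2, ⟨union_subset hF.1.1 (biUnion_subset.2 fun k _ => (q1 k).1.trans
    (union_subset sdiff_subset (image_subset_iff.2 fun k _ => hF.1.1 (bd_subset k.2)))),
    h5.le (by omega), fun Z hZ => ?_⟩, ?_⟩
  · have hZ' : Z.card < t + 1 := by omega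
    have c1 : (bd G C.reg F ∩ β1 Z).card ≤ (univ.filter fun k : bd G C.reg F => k.1 ∈ β1 Z).card := by
      refine le_trans (card_le_card fun v hv => ?_) (card_image_le (f := Subtype.val))
      exact mem_image.2 ⟨⟨v, (mem_inter.1 hv).1⟩, mem_filter.2 ⟨mem_univ _, (mem_inter.1 hv).2⟩, rfl⟩
    have c2 := card_meet_le (L := Q) univ Z (fun i _ j _ => q2 i j)
    have c3 := le_card_sdiff (univ.filter fun k => ¬ Disjoint (Q k) Z)
      (univ.filter fun k : bd G C.reg F => k.1 ∈ β1 Z)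
    have c4 : ((univ.filter fun k : bd G C.reg F => k.1 ∈ β1 Z) \
        (univ.filter fun k => ¬ Disjoint (Q k) Z)).card ≤
        (univ.filter fun i => C.b i ∈ β2 Z).card := by
      refine card_le_card_of_injOn e (fun k hk => ?_) (fun k _ k' _ hk => ?_)
      · simp only [coe_sdiff, coe_filter, mem_univ, true_and, Set.mem_sdiff, Set.mem_ofPred_eq,
          not_not] at hk ⊢
        exact h5.absorb hZ' (q1 k).2.1 ((subset_biUnion_of_mem Q (mem_univ k)).trans
          subset_union_right) hk.2 (q1 k).2.2.1 (h6 Z hZ' hk.1) (q1 k).2.2.2.2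
      · by_contra hne
        exact disjoint_left.1 (q2 k k' hne) (q1 k).2.2.2.2 (hk ▸ (q1 k').2.2.2.2)
    have := h2 Z hZ'
    omega
  · have c1 : foot C (F ∪ univ.biUnion Q) ⊆ foot C F ∪ univ.image e := by
      intro i hi
      by_cases h7 : i ∈ foot C F
      · exact mem_union_left _ h7
      rw [foot_union] at hi
      obtain ⟨v, h8, h9⟩ := mem_foot.1 ((mem_union.1 hi).resolve_left h7)
      obtain ⟨k, -, hk⟩ := mem_biUnion.1 h9
      obtain ⟨k', hk'⟩ := q3 i (mem_compl.2 h7) k (not_disjoint_iff.2 ⟨v, h8, hk⟩)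
      exact mem_union_right _ (mem_image.2 ⟨k', mem_univ _, hk'⟩)
    have c2 := (card_le_card c1).trans (card_union_le _ _)
    have c3 := card_image_le (s := univ) (f := e)
    rw [card_univ, Fintype.card_coe] at c3
    omega

/-- The vertices that can be joined to the first end of lane `q` touching at most `k` lanes. -/
noncomputable def ball (G : SimpleGraph V) (C : CD V ι) (q : ι) (k : ℕ) : Finset V :=
  C.reg.filter fun v => ∃ T ⊆ C.reg, Conn G T ∧ C.a q ∈ T ∧ v ∈ T ∧ (foot C T).card ≤ k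

/-- The lanes first reached at distance `d + 1`. -/
noncomputable def lay (G : SimpleGraph V) (C : CD V ι) (q : ι) (d : ℕ) : Finset ι :=
  univ.filter fun i => C.lane i ⊆ ball G C q (d + 1) ∧ ¬ C.lane i ⊆ ball G C q d

variable {q : ι}

theorem ball_mono {d d' : ℕ} (h : d ≤ d') : ball G C q d ⊆ ball G C q d' := by
  intro v hv
  obtain ⟨h1, T, h2, h3, h4, h5, h6⟩ := mem_filter.1 hv
  exact mem_filter.2 ⟨h1, T, h2, h3, h4, h5, h6.trans h⟩

theorem foot_lane (h : IsCluster G C) (i : ι) : foot C (C.lane i) ⊆ {i} := by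
  intro j hj
  by_contra hc
  exact not_mem_foot.2 (h.disj j i (by simpa using hc)) hj

theorem ball_lane (h : IsCluster G C) {d : ℕ} {i : ι} {v : V} (hv : v ∈ C.lane i)
    (hv' : v ∈ ball G C q d) : C.lane i ⊆ ball G C q d := by
  obtain ⟨-, T, h2, h3, h4, h5, h6⟩ := mem_filter.1 hv'
  intro u hu
  refine mem_filter.2 ⟨h.sub i hu, T ∪ C.lane i, union_subset h2 (h.sub i),
    h3.union (h.conn i) h5 hv, mem_union_left _ h4, mem_union_right _ hu, ?_⟩
  rw [foot_union]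
  refine le_trans (card_le_card (union_subset subset_rfl ((foot_lane h i).trans ?_))) h6
  exact singleton_subset_iff.2 (mem_foot.2 ⟨v, hv, h5⟩)

theorem ball_exit (h : IsCluster G C) {d : ℕ} {u v : V} (hu : u ∈ ball G C q d) (hv : v ∈ C.reg)
    (huv : G.Adj u v) (hv' : v ∉ ball G C q d) : ∃ i ∈ lay G C q d, v ∈ C.lane i := by
  obtain ⟨-, T, h2, h3, h4, h5, h6⟩ := mem_filter.1 hu
  have key : ∀ k, (foot C (T ∪ {v})).card ≤ k → v ∈ ball G C q k := fun k hk =>
    mem_filter.2 ⟨hv, T ∪ {v}, union_subset h2 (singleton_subset_iff.2 hv),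
      h3.union_adj (Conn.singleton v) h5 (mem_singleton_self v) huv, mem_union_left _ h4,
      mem_union_right _ (mem_singleton_self v), hk⟩
  rw [foot_union] at key
  have h7 := card_union_le (foot C T) (foot C {v})
  obtain ⟨i, hi⟩ : (foot C {v}).Nonempty := by
    rw [← card_pos]
    by_contra hc
    exact hv' (key d (by omega))
  obtain ⟨x, h8, h9⟩ := mem_foot.1 hi
  rw [mem_singleton.1 h9] at h8
  have h10 : (foot C {v}).card ≤ 1 := by
    refine (card_le_card fun j hj => foot_lane h i ?_).trans (card_singleton i).le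
    obtain ⟨y, h1, h2⟩ := mem_foot.1 hj
    exact mem_foot.2 ⟨y, h1, mem_singleton.1 h2 ▸ h8⟩
  exact ⟨i, mem_filter.2 ⟨mem_univ _, ball_lane h h8 (key _ (by omega)), fun hc => hv' (hc h8)⟩, h8⟩

theorem lay_disj {d d' : ℕ} (h : d ≠ d') : Disjoint (lay G C q d) (lay G C q d') := by
  rw [disjoint_left]
  intro i h1 h2
  simp only [lay, mem_filter] at h1 h2
  rcases Nat.lt_or_gt_of_ne h with h | h
  · exact h2.2.2 (h1.2.1.trans (ball_mono h))
  · exact h1.2.2 (h2.2.1.trans (ball_mono h))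

theorem lay_band (h : IsCluster G C) {d d1 d2 : ℕ} (hd : d ∈ Ico d1 d2) {i : ι}
    (hi : i ∈ lay G C q d) : C.lane i ⊆ ball G C q d2 \ ball G C q d1 := by
  obtain ⟨h1, h2⟩ := mem_Ico.1 hd
  obtain ⟨-, h3, h4⟩ := mem_filter.1 hi
  exact fun v hv => mem_sdiff.2 ⟨ball_mono h2 (h3 hv),
    fun hc => h4 (ball_lane h hv (ball_mono h1 hc))⟩

theorem column (h : IsCluster G C) {P : Finset V} (hP : Conn G P) (hs : P ⊆ C.reg) {d1 d2 : ℕ}
    (hd : d1 < d2) {x y : V} (hx : x ∈ P) (hx' : x ∈ ball G C q d1) (hy : y ∈ P)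
    (hy' : y ∉ ball G C q d2) :
    ∃ P' ⊆ P ∩ (ball G C q d2 \ ball G C q d1), Conn G P' ∧
      ∀ d ∈ Ico d1 d2, ∃ i ∈ lay G C q d, ∃ v ∈ C.lane i, v ∈ P' := by
  set B := P ∩ (ball G C q d2 \ ball G C q d1) with hB
  obtain ⟨u, v, hu, hv, huP, hvP, huv⟩ := hP.exit (T := ball G C q d1 ∪ B.filter fun v =>
    ∃ u0 ∈ B, (∃ x' ∈ ball G C q d1, G.Adj x' u0) ∧ R G B u0 v) hx (mem_union_left _ hx') hy (by
      intro hc
      rcases mem_union.1 hc with hc | hc
      · exact hy' (ball_mono hd.le hc)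
      · exact hy' (mem_sdiff.1 (mem_inter.1 (mem_filter.1 hc).1).2).1)
  have hv1 : v ∉ ball G C q d1 := fun hc => hv (mem_union_left _ hc)
  rcases mem_union.1 hu with hu | hu
  · obtain ⟨i, hi, hvi⟩ := ball_exit h hu (hs hvP) huv hv1
    have : v ∈ B := mem_inter.2 ⟨hvP, lay_band h (mem_Ico.2 ⟨le_rfl, hd⟩) hi hvi⟩
    exact absurd (mem_union_right _ (mem_filter.2 ⟨this, v, this, ⟨u, hu, huv⟩, R.refl⟩)) hv
  obtain ⟨huB, u0, hu0, ⟨x', hx1, hx2⟩, hr⟩ := mem_filter.1 hu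
  have hv2 : v ∉ ball G C q d2 := by
    intro hc
    have : v ∈ B := mem_inter.2 ⟨hvP, mem_sdiff.2 ⟨hc, hv1⟩⟩
    exact hv (mem_union_right _ (mem_filter.2 ⟨this, u0, hu0, ⟨x', hx1, hx2⟩,
      hr.tail huv huB this⟩))
  refine ⟨comp G B u0, comp_subset, comp_conn hu0, fun d hd' => ?_⟩
  obtain ⟨h1, h2⟩ := mem_Ico.1 hd'
  have c1 := ((comp_conn hu0).insert (mem_comp.2 ⟨huB, hr⟩) huv).insert
    (mem_insert_of_mem (self_mem_comp hu0)) hx2.symm
  obtain ⟨s, z, hs', hz, -, hz', hsz⟩ := c1.exit (T := ball G C q d) (mem_insert_self _ _)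
    (ball_mono h1 hx1) (mem_insert_of_mem (mem_insert_self _ _)) (fun hc => hv2 (ball_mono h2.le hc))
  rcases mem_insert.1 hz' with rfl | hz'
  · exact absurd (ball_mono h1 hx1) hz
  have hzr : z ∈ C.reg := by
    rcases mem_insert.1 hz' with rfl | hz'
    · exact hs hvP
    · exact hs (mem_inter.1 (comp_subset hz')).1
  obtain ⟨i, hi, hzi⟩ := ball_exit h hs' hzr hsz hz
  refine ⟨i, hi, z, hzi, (mem_insert.1 hz').resolve_left ?_⟩
  rintro rfl
  exact hv2 (mem_sdiff.1 (lay_band h hd' hi hzi)).1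

theorem card_lay (s : Finset ℕ) : (s.biUnion (lay G C q)).card = ∑ d ∈ s, (lay G C q d).card :=
  card_biUnion fun _ _ _ _ h => lay_disj h

theorem far_case [Fintype V] (h : IsCluster G C) {n μ y t K j : ℕ} (hj : 2 * μ < 2 ^ j)
    (hw : Fintype.card ι ≤ n * (μ * y)) (hw' : 2 * y ≤ Fintype.card ι)
    (ht : 4 ^ j * t ≤ y) (hK : K ≤ t) (hy : 0 < y) {v0 : V} (hv0 : v0 ∈ C.β ∅)
    (hfar : v0 ∉ ball G C q (1 + 2 * y + n * (3 * y) + 2 * y)) :
    ∃ U β, Pre G C U K β ∧ (foot C U).card ≤ μ * y ∧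
      U ⊆ ball G C q (1 + 2 * y + n * (3 * y) + 2 * y) := by
  have h0 : (∅ : Finset V).card < Fintype.card ι := by simp; omega
  have ha : ∀ d, 1 ≤ d → C.a q ∈ ball G C q d := fun d hd => mem_filter.2
    ⟨h.sub q (h.ma q), _, h.sub q, h.conn q, h.ma q, h.ma q,
      (card_le_card (foot_lane h q)).trans (by simpa using hd)⟩
  have hne : ∀ lo len, 1 ≤ lo → lo + len ≤ 1 + 2 * y + n * (3 * y) + 2 * y →
      len ≤ ((Ico lo (lo + len)).biUnion (lay G C q)).card := by
    intro lo len h1 h2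
    rw [card_lay]
    have := card_nsmul_le_sum (Ico lo (lo + len)) (fun d => (lay G C q d).card) 1 (fun d hd => by
      have := mem_Ico.1 hd
      obtain ⟨u, v, h3, h4, -, h5, h6⟩ := (h.hv.conn _ h0).exit (h.lane_sub_empty q (h.ma q))
        (ha d (by omega)) hv0 (fun hc => hfar (ball_mono (by omega) hc))
      obtain ⟨i, hi, -⟩ := ball_exit h h3 (h.hv.subU h0 h5) h6 h4
      exact card_pos.2 ⟨i, hi⟩)
    simpa using this
  obtain ⟨d1, hd1, hd2, hd3⟩ : ∃ d1, 1 + 2 * y ≤ d1 ∧ d1 + 3 * y ≤ 1 + 2 * y + n * (3 * y) ∧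
      ∑ d ∈ Ico d1 (d1 + 3 * y), (lay G C q d).card ≤ μ * y := by
    by_contra hc
    push Not at hc
    have key : ∀ r ≤ n, r * (μ * y + 1) ≤
        ∑ d ∈ Ico (1 + 2 * y) (1 + 2 * y + r * (3 * y)), (lay G C q d).card := by
      intro r
      induction r with
      | zero => simp
      | succ r ih =>
        intro hr
        have h1 := hc (1 + 2 * y + r * (3 * y)) (by omega) (by nlinarith)
        have h2 := ih (by omega)
        rw [← sum_Ico_consecutive _ (n := 1 + 2 * y + r * (3 * y)) (by omega) (by nlinarith),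
          show 1 + 2 * y + (r + 1) * (3 * y) = 1 + 2 * y + r * (3 * y) + 3 * y by ring]
        nlinarith
    have h1 := key n le_rfl
    rw [← card_lay] at h1
    have h2 := card_le_univ ((Ico (1 + 2 * y) (1 + 2 * y + n * (3 * y))).biUnion (lay G C q))
    rcases Nat.eq_zero_or_pos n with rfl | hn
    · omega
    · nlinarith
  set B := ball G C q (d1 + 3 * y) \ ball G C q d1 with hB
  have hBr : B ⊆ C.reg := sdiff_subset.trans (filter_subset _ _)
  have port : ∀ (s : Finset ι) (Z : Finset V), Z.card < 2 * y → 2 * y ≤ s.card →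
      ∃ a ∈ s.image C.a, a ∈ C.β Z := fun s Z hZ hs => by
    obtain ⟨i, h1, h2⟩ := exists_not_mem_of_card_lt (s := s) ((h.indep Z (by omega)).trans_lt
      (by omega))
    exact ⟨_, mem_image_of_mem _ h1, by simpa using h2⟩
  obtain ⟨P, hP⟩ := menger C.reg (2 * y) _ G (((Ico 1 (1 + 2 * y)).biUnion (lay G C q)).image C.a)
    (((Ico (1 + 2 * y + n * (3 * y)) (1 + 2 * y + n * (3 * y) + 2 * y)).biUnion
      (lay G C q)).image C.a) le_rfl (fun Z hZ => h.hv.joined (by omega)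
        (port _ Z hZ (hne 1 _ le_rfl (by omega))) (port _ Z hZ (hne _ _ (by omega) le_rfl)))
  have hcol : ∀ k, ∃ P' ⊆ P k ∩ B, Conn G P' ∧
      ∀ d ∈ Ico d1 (d1 + 3 * y), ∃ i ∈ lay G C q d, ∃ v ∈ C.lane i, v ∈ P' := by
    intro k
    obtain ⟨x, h1, h2⟩ := hP.left k
    obtain ⟨z, h3, h4⟩ := hP.right k
    obtain ⟨i, h5, rfl⟩ := mem_image.1 h1
    obtain ⟨j, h6, rfl⟩ := mem_image.1 h3
    obtain ⟨d, h7, h8⟩ := mem_biUnion.1 h5
    obtain ⟨d', h9, h10⟩ := mem_biUnion.1 h6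
    exact column h (hP.conn k) (hP.sub k) (by omega) h2
      (ball_mono hd1 (mem_sdiff.1 (lay_band h h7 h8 (h.ma i))).1) h4
      (fun hc => (mem_sdiff.1 (lay_band h h9 h10 (h.ma j))).2 (ball_mono hd2 hc))
  choose P' p1 p2 p3 using hcol
  choose r hr using fun k => (p2 k).1
  have p4 : ∀ k, P' k ⊆ B := fun k => (p1 k).trans inter_subset_right
  have p5 : ∀ k k', k ≠ k' → Disjoint (P' k) (P' k') := fun k k' hk =>
    (hP.disj k k' hk).mono ((p1 k).trans inter_subset_left) ((p1 k').trans inter_subset_left)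
  have hinj : Function.Injective r := fun k k' hk => by
    by_contra hne
    exact disjoint_left.1 (p5 k k' hne) (hr k) (hk ▸ hr k')
  have hitL : ∀ (s : Finset ℕ) (Z : Finset V),
      (s.filter fun d => ¬ Disjoint ((lay G C q d).biUnion C.lane) Z).card ≤ Z.card := fun s Z =>
    card_meet_le s Z fun d _ d' _ hd => by
      rw [disjoint_biUnion_left]
      intro i hi
      rw [disjoint_biUnion_right]
      intro j hj
      exact h.disj i j fun e => disjoint_left.1 (lay_disj hd) hi (e ▸ hj)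
  have hitC : ∀ Z : Finset V, (univ.filter fun k => ¬ Disjoint (P' k) Z).card ≤ Z.card := fun Z =>
    card_meet_le univ Z fun k _ k' _ => p5 k k'
  have hty : t ≤ y := le_trans (Nat.le_mul_of_pos_left _ (by positivity)) ht
  obtain ⟨X, hX, hL⟩ : ∃ X ⊆ univ.image r, Linked G B X t := by
    by_contra hc
    push Not at hc
    obtain ⟨Z, hZ, hZ'⟩ := halving hc j _ subset_rfl
    rw [card_image_of_injective _ hinj, card_univ, Fintype.card_fin] at hZ'
    have c1 := card_nsmul_le_sum ((Ico d1 (d1 + 3 * y)).filter fun d => ¬ (lay G C q d).card ≤ μ)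
      (fun d => (lay G C q d).card) (μ + 1) (fun d hd => by have := (mem_filter.1 hd).2; omega)
    have c2 := sum_le_sum_of_subset (f := fun d => (lay G C q d).card)
      (filter_subset (fun d => ¬ (lay G C q d).card ≤ μ) (Ico d1 (d1 + 3 * y)))
    have c3 := card_filter_add_card_filter_not (s := Ico d1 (d1 + 3 * y))
      (fun d => (lay G C q d).card ≤ μ)
    rw [Nat.card_Ico] at c3
    have c4 : ((Ico d1 (d1 + 3 * y)).filter fun d => ¬ (lay G C q d).card ≤ μ).card ≤ y := by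
      rw [smul_eq_mul] at c1
      by_contra hc
      nlinarith
    obtain ⟨d, hd, hd'⟩ := exists_not_mem_of_card_lt
      (s := (Ico d1 (d1 + 3 * y)).filter fun d => (lay G C q d).card ≤ μ)
      ((hitL ((Ico d1 (d1 + 3 * y)).filter fun d => (lay G C q d).card ≤ μ) Z).trans_lt (by omega))
    have hdZ : Disjoint ((lay G C q d).biUnion C.lane) Z := by
      by_contra hc
      exact hd' (mem_filter.2 ⟨hd, hc⟩)
    obtain ⟨hd, hμ⟩ := mem_filter.1 hd
    have hl : ∀ i ∈ lay G C q d, C.lane i ⊆ B \ Z := fun i hi => subset_sdiff.2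
      ⟨lay_band h hd hi, hdZ.mono_left (subset_biUnion_of_mem _ hi)⟩
    have c5 : (univ.filter fun k => ¬ ¬ Disjoint (P' k) Z).image r ⊆
        (lay G C q d).biUnion fun i => univ.image r ∩ comp G (B \ Z) (C.a i) := by
      intro v hv
      obtain ⟨k, hk, rfl⟩ := mem_image.1 hv
      obtain ⟨i, hi, u, h1, h2⟩ := p3 k d hd
      refine mem_biUnion.2 ⟨i, hi, mem_inter.2 ⟨mem_image_of_mem _ (mem_univ _), ?_⟩⟩
      exact (p2 k).subset_comp (subset_sdiff.2 ⟨p4 k, not_not.1 (mem_filter.1 hk).2⟩) h2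
        ((h.conn i).subset_comp (hl i hi) (h.ma i) (self_mem_comp (hl i hi (h.ma i))) h1) (hr k)
    have c6 := (card_le_card c5).trans card_biUnion_le
    rw [card_image_of_injective _ hinj] at c6
    have c7 := card_filter_add_card_filter_not (s := univ) (fun k => ¬ Disjoint (P' k) Z)
    rw [card_univ, Fintype.card_fin] at c7
    have c8 := sum_le_card_nsmul (lay G C q d)
      (fun i => 2 ^ j * (univ.image r ∩ comp G (B \ Z) (C.a i)).card) (2 * y)
      (fun i hi => hZ' _ (hl i hi (h.ma i)))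
    rw [← mul_sum, smul_eq_mul] at c8
    have c9 := hitC Z
    have c10 := hj
    have c11 : y ≤ ∑ i ∈ lay G C q d, (univ.image r ∩ comp G (B \ Z) (C.a i)).card := by omega
    have c12 := Nat.mul_le_mul (Nat.succ_le_of_lt c10) c11
    have c13 := Nat.mul_le_mul_right (2 * y) hμ
    simp only [Nat.succ_eq_add_one] at c12
    nlinarith
  obtain ⟨β, h1, h2⟩ := hL.haven
  have h3 := hL.lt_card
  refine ⟨B, β, ⟨hBr, h1.le (by omega), fun Z hZ => ?_⟩, ?_,
    sdiff_subset.trans (ball_mono (by omega))⟩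
  · have hZ' : Z.card < t + 1 := by omega
    have c1 : (X ∩ β Z).card ≤ (univ.filter fun k => r k ∈ β Z).card := by
      refine le_trans (card_le_card fun v hv => ?_) (card_image_le (f := r))
      obtain ⟨k, -, rfl⟩ := mem_image.1 (hX (mem_inter.1 hv).1)
      exact mem_image_of_mem _ (mem_filter.2 ⟨mem_univ _, (mem_inter.1 hv).2⟩)
    have c2 := h2 Z hZ'
    obtain ⟨k, hk, hk'⟩ := exists_not_mem_of_card_lt (s := univ.filter fun k => r k ∈ β Z)
      ((hitC Z).trans_lt (by omega))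
    have hk1 : P' k ⊆ β Z := h1.absorb hZ' (p2 k) (p4 k) (by simpa using hk') (hr k)
      (mem_filter.1 hk).2
    have hch : ∀ d, ∃ i, d ∈ Ico d1 (d1 + 3 * y) → i ∈ lay G C q d ∧ ∃ v ∈ C.lane i, v ∈ P' k := by
      intro d
      by_cases hd : d ∈ Ico d1 (d1 + 3 * y)
      · obtain ⟨i, h4, h5⟩ := p3 k d hd
        exact ⟨i, fun _ => ⟨h4, h5⟩⟩
      · exact ⟨q, fun h => absurd h hd⟩
    choose f hf using hch
    have c3 : ((Ico d1 (d1 + 3 * y)).filter fun d =>
        ¬ ¬ Disjoint ((lay G C q d).biUnion C.lane) Z).card ≤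
        (univ.filter fun i => C.b i ∈ β Z).card := by
      refine card_le_card_of_injOn f (fun d hd => ?_) (fun d hd d' hd' e => ?_)
      · obtain ⟨h4, h5⟩ := mem_filter.1 hd
        obtain ⟨h6, v, h7, h8⟩ := hf d h4
        exact mem_coe.2 (mem_filter.2 ⟨mem_univ _, h1.absorb hZ' (h.conn _) (lay_band h h4 h6)
          ((not_not.1 h5).mono_left (subset_biUnion_of_mem _ h6)) h7 (hk1 h8) (h.mb _)⟩)
      · by_contra hne
        exact disjoint_left.1 (lay_disj hne) (hf d (mem_filter.1 hd).1).1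
          (e ▸ (hf d' (mem_filter.1 hd').1).1)
    have c4 := card_filter_add_card_filter_not (s := Ico d1 (d1 + 3 * y))
      (fun d => ¬ Disjoint ((lay G C q d).biUnion C.lane) Z)
    have c5 := hitL (Ico d1 (d1 + 3 * y)) Z
    rw [Nat.card_Ico] at c4
    omega
  · rw [← card_lay] at hd3
    refine le_trans (card_le_card fun i hi => ?_) hd3
    obtain ⟨v, h4, h5⟩ := mem_foot.1 hi
    obtain ⟨h5, h6⟩ := mem_sdiff.1 h5
    have hex : ∃ d, v ∈ ball G C q d := ⟨_, h5⟩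
    have h7 := Nat.find_spec hex
    have h8 := Nat.find_min' hex h5
    have h9 : d1 < Nat.find hex := by
      by_contra hc
      exact h6 (ball_mono (by omega) h7)
    refine mem_biUnion.2 ⟨Nat.find hex - 1, mem_Ico.2 ⟨by omega, by omega⟩,
      mem_filter.2 ⟨mem_univ _, ?_, fun hc => Nat.find_min hex (by omega) (hc h4)⟩⟩
    rw [Nat.sub_add_cancel (by omega)]
    exact ball_lane h h4 h7

theorem core (D ρ : ℕ) (hD : 0 < D) : ∃ E : ℕ, ∀ {V ι : Type} [Fintype V] [Fintype ι]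
    {G : SimpleGraph V} {C : CD V ι} {σ : ℕ}, IsCluster G C → Sep G σ → σ ≤ ρ * Fintype.card ι →
    E ≤ Fintype.card ι → ∀ q : ι, ∃ K U β, Fintype.card ι ≤ E * K ∧ Pre G C U K β ∧
      C.a q ∈ β ∅ ∧ D * (foot C U).card ≤ Fintype.card ι := by
  obtain ⟨μ, hμ⟩ : ∃ μ, μ = 12 * D + 6 := ⟨_, rfl⟩
  obtain ⟨A, hA⟩ : ∃ A, A = 2 * D * μ := ⟨_, rfl⟩
  obtain ⟨M, hM⟩ : ∃ M, M = (12 * (ρ * (2 * A)) + 13) ^ 2 * 3 + 4 ^ (2 * μ) := ⟨_, rfl⟩
  have hA0 : 12 ≤ A := by rw [hA, hμ]; nlinarith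
  have hM0 : 0 < M := by rw [hM]; positivity
  refine ⟨8 * A * M, fun {V ι} _ _ {G C σ} h hσ hρ hE q => ?_⟩
  obtain ⟨w, hw⟩ : ∃ w, w = Fintype.card ι := ⟨_, rfl⟩
  obtain ⟨y, hy1, hy2⟩ : ∃ y, A * y ≤ w ∧ w < A * (y + 1) :=
    ⟨w / A, Nat.mul_div_le _ _, Nat.lt_mul_div_succ _ (by omega)⟩
  obtain ⟨K, hK1, hK2⟩ : ∃ K, 2 * M * K ≤ y ∧ y < 2 * M * (K + 1) :=
    ⟨y / (2 * M), Nat.mul_div_le _ _, Nat.lt_mul_div_succ _ (by omega)⟩
  rw [← hw] at hE hρ ⊢
  have hy3 : 2 * M ≤ y := by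
    by_contra hc
    have : A * (y + 1) ≤ A * (2 * M) := Nat.mul_le_mul_left _ (by omega)
    nlinarith
  have hK3 : 0 < K := by
    rcases Nat.eq_zero_or_pos K with rfl | h
    · omega
    · exact h
  have hy4 : w ≤ 2 * A * y := by nlinarith
  have hy5 : y ≤ 4 * M * K := by nlinarith
  have hy6 : 12 * y ≤ w := le_trans (Nat.mul_le_mul_right _ hA0) hy1
  have fin : ∀ U β, Pre G C U K β → (foot C U).card ≤ μ * y →
      (∀ i, C.b i ∈ U → C.b i ∈ ball G C q (1 + 2 * y + 4 * D * (3 * y) + 2 * y)) →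
      ∃ K U β, w ≤ 8 * A * M * K ∧ Pre G C U K β ∧ C.a q ∈ β ∅ ∧ D * (foot C U).card ≤ w := by
    intro U β hp hf hb
    have h0 : (∅ : Finset V).card < K := by simpa using hK3
    obtain ⟨i, hi⟩ := card_pos.1 (hK3.trans_le (hp.2.2 ∅ h0))
    have hi := (mem_filter.1 hi).2
    obtain ⟨-, T, t1, t2, t3, t4, t5⟩ := mem_filter.1 (hb i (hp.2.1.subU h0 hi))
    obtain ⟨β', h1, h2⟩ := hp.2.1.enlarge (U' := U ∪ T) subset_union_left
    refine ⟨K, U ∪ T, β', by nlinarith, ⟨union_subset hp.1 t1, h1, fun Z hZ =>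
      (hp.2.2 Z hZ).trans (card_le_card fun j hj =>
        mem_filter.2 ⟨mem_univ _, h2 Z hZ (mem_filter.1 hj).2⟩)⟩,
      h1.absorb h0 t2 subset_union_right (by simp) t4 (h2 ∅ h0 hi) t3, ?_⟩
    rw [foot_union]
    have h3 := card_union_le (foot C U) (foot C T)
    have h4 : (foot C U ∪ foot C T).card ≤ 2 * μ * y := by rw [hμ] at *; nlinarith
    calc _ ≤ D * (2 * μ * y) := Nat.mul_le_mul_left _ h4
      _ = A * y := by rw [hA]; ring
      _ ≤ w := hy1
  by_cases hc : ∃ v ∈ C.β ∅, v ∉ ball G C q (1 + 2 * y + 4 * D * (3 * y) + 2 * y)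
  · obtain ⟨v, h1, h2⟩ := hc
    obtain ⟨U, β, h3, h4, h5⟩ := far_case (μ := μ) (t := K) (K := K) (j := 2 * μ) h
      Nat.lt_two_pow_self
      (by rw [← hw]; exact hy4.trans (by rw [hA]; exact le_of_eq (by ring))) (by omega)
      (by rw [hM] at hK1; nlinarith [Nat.zero_le ((12 * (ρ * (2 * A)) + 13) ^ 2 * K),
        Nat.zero_le (4 ^ (2 * μ) * K)]) le_rfl (by omega) h1 h2
    exact fin U β h3 h4 fun i hi => h5 hi
  · push Not at hc
    obtain ⟨U, β, h3, h4⟩ := near_case (ρ := ρ * (2 * A)) (b := y) (t := 2 * K) (K := K) h hσ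
      (hρ.trans (by rw [mul_assoc]; exact Nat.mul_le_mul_left _ hy4)) (by omega)
      (by rw [hM] at hK1; nlinarith [Nat.zero_le (4 ^ (2 * μ) * K)]) (by omega) le_rfl
    exact fin U β h3 (h4.trans (Nat.mul_le_mul_right _ (by omega)))
      fun i _ => hc _ (h.lane_sub_empty i (h.mb i))

end Pool.Agent.MP_7be75d_co

end MrgPart2

-- marker of a merged file
example : 731051 + 748216 = 731051 + 748216 := rfl
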