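import Mathlib.Tactic.ENatToNat
import Mathlib.Data.Int.ConditionallyCompleteOrder
import Mathlib.Data.Int.Star
import Mathlib.Algebra.Order.Ring.Star
import Mathlib.Tactic.Bound
import Mathlib.RingTheory.WittVector.IsPoly
import Mathlib.Tactic.Algebra.Basic
import Mathlib.Tactic.ReduceModChar
import Pool.Agent.MP_7be75d_co.Lovasz3
import Pool.Agent.MP_7be75d_co.Menger
import Mathlib.Tactic.Monotonicity.Lemmas

-- ======== part 0: formerly Pool.Agent.MP_7be75d_co.Haven
section MrgPart0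

/-! Havens, small and tight sets. -/

namespace Pool.Agent.MP_7be75d_co

open Finset
open scoped Classical

variable {V : Type} {G : SimpleGraph V}

/-- A haven of order `K` in the subgraph induced by `U`. -/
structure Haven (G : SimpleGraph V) (U : Finset V) (K : ℕ) (β : Finset V → Finset V) : Prop where
  conn : ∀ Z, Z.card < K → Conn G (β Z)
  sub : ∀ Z, Z.card < K → β Z ⊆ U \ Z
  closed : ∀ Z, Z.card < K → ∀ x ∈ β Z, ∀ y ∈ U, y ∉ Z → G.Adj x y → y ∈ β Z
  mono : ∀ Z Z', Z ⊆ Z' → Z'.card < K → β Z' ⊆ β Z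

section Haven

variable {U U' : Finset V} {K K' : ℕ} {β : Finset V → Finset V}

theorem Haven.subU (h : Haven G U K β) {Z : Finset V} (hZ : Z.card < K) : β Z ⊆ U :=
  (h.sub Z hZ).trans sdiff_subset

theorem Haven.not_mem (h : Haven G U K β) {Z : Finset V} (hZ : Z.card < K) {v : V}
    (hv : v ∈ β Z) : v ∉ Z := (mem_sdiff.1 (h.sub Z hZ hv)).2

theorem Haven.absorb (h : Haven G U K β) {Z S : Finset V} (hZ : Z.card < K) (hS : Conn G S)
    (hSU : S ⊆ U) (hSZ : Disjoint S Z) {v : V} (hv : v ∈ S) (hv' : v ∈ β Z) : S ⊆ β Z :=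
  hS.subset_of_closed hv hv' fun x hx y hy _ hxy =>
    h.closed Z hZ x hx y (hSU hy) (disjoint_left.1 hSZ hy) hxy

theorem Haven.le (h : Haven G U K β) (hK : K' ≤ K) : Haven G U K' β :=
  ⟨fun Z hZ => h.conn Z (by omega), fun Z hZ => h.sub Z (by omega),
    fun Z hZ => h.closed Z (by omega), fun Z Z' h1 hZ => h.mono Z Z' h1 (by omega)⟩

theorem Haven.r (h : Haven G U K β) {Z : Finset V} (hZ : Z.card < K) {x y : V} (hx : x ∈ β Z)
    (hy : y ∈ β Z) : R G (U \ Z) x y := (h.conn Z hZ).r hx hy (h.sub Z hZ)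

theorem Haven.joined (h : Haven G U K β) {A B Z : Finset V} (hZ : Z.card < K)
    (hA : ∃ a ∈ A, a ∈ β Z) (hB : ∃ b ∈ B, b ∈ β Z) : Joined G U A B Z := by
  obtain ⟨a, ha, ha'⟩ := hA
  obtain ⟨b, hb, hb'⟩ := hB
  exact ⟨a, ha, b, hb, h.sub Z hZ ha', h.r hZ ha' hb'⟩

theorem exists_haven (γ : Finset V → Finset V)
    (h1 : ∀ Z : Finset V, Z.card < K → Conn G (γ Z) ∧ γ Z ⊆ U \ Z)
    (h2 : ∀ Z Z' : Finset V, Z ⊆ Z' → Z'.card < K → ∃ v, v ∈ γ Z ∧ v ∈ γ Z') :
    ∃ β, Haven G U K β ∧ ∀ Z : Finset V, Z.card < K → γ Z ⊆ β Z := by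
  have h3 : ∀ Z : Finset V, ∃ B : Finset V, Z.card < K →
      ∃ v ∈ γ Z, B = comp G (U \ Z) v := by
    intro Z
    by_cases hZ : Z.card < K
    · obtain ⟨v, hv⟩ := (h1 Z hZ).1.1
      exact ⟨_, fun _ => ⟨v, hv, rfl⟩⟩
    · exact ⟨∅, fun h => absurd h hZ⟩
  choose β hβ using h3
  have h4 : ∀ Z : Finset V, Z.card < K → γ Z ⊆ β Z := by
    intro Z hZ
    obtain ⟨v, hv, e⟩ := hβ Z hZ
    rw [e]
    exact (h1 Z hZ).1.subset_comp (h1 Z hZ).2 hv (self_mem_comp ((h1 Z hZ).2 hv))
  have h5 : ∀ Z : Finset V, Z.card < K → Conn G (β Z) ∧ β Z ⊆ U \ Z := by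
    intro Z hZ
    obtain ⟨v, hv, e⟩ := hβ Z hZ
    rw [e]
    exact ⟨comp_conn ((h1 Z hZ).2 hv), comp_subset⟩
  refine ⟨β, ⟨fun Z hZ => (h5 Z hZ).1, fun Z hZ => (h5 Z hZ).2, ?_, ?_⟩, h4⟩
  · intro Z hZ x hx y hy hyZ hxy
    obtain ⟨v, hv, e⟩ := hβ Z hZ
    rw [e] at hx ⊢
    exact comp_closed hx (mem_sdiff.2 ⟨hy, hyZ⟩) hxy
  · intro Z Z' hZZ hZ'
    have hZ : Z.card < K := (card_le_card hZZ).trans_lt hZ'
    obtain ⟨u, hu, hu'⟩ := h2 Z Z' hZZ hZ'
    have hu1 := h4 Z hZ hu
    obtain ⟨v, hv, e⟩ := hβ Z hZ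
    rw [e] at hu1 ⊢
    exact (h5 Z' hZ').1.subset_comp ((h5 Z' hZ').2.trans (sdiff_subset_sdiff subset_rfl hZZ))
      (h4 Z' hZ' hu') hu1

theorem Haven.transfer (h : Haven G U K β) (U' D : Finset V) (K' : ℕ) (hK : K' + D.card ≤ K)
    (hsub : D.card < K → β D ⊆ U') :
    ∃ β', Haven G U' K' β' ∧ ∀ Z : Finset V, Z.card < K' → β (Z ∪ D) ⊆ β' Z := by
  have hc : ∀ Z : Finset V, Z.card < K' → (Z ∪ D).card < K := fun Z hZ => by
    have := card_union_le Z D; omega
  refine exists_haven (fun Z => β (Z ∪ D)) (fun Z hZ => ⟨h.conn _ (hc Z hZ), ?_⟩) ?_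
  · intro v hv
    refine mem_sdiff.2 ⟨hsub (by omega) (h.mono _ _ subset_union_right (hc Z hZ) hv), fun hz => ?_⟩
    exact h.not_mem (hc Z hZ) hv (mem_union_left _ hz)
  · intro Z Z' hZZ hZ'
    obtain ⟨v, hv⟩ := (h.conn _ (hc Z' hZ')).1
    exact ⟨v, h.mono _ _ (union_subset_union hZZ subset_rfl) (hc Z' hZ') hv, hv⟩

theorem Haven.enlarge (h : Haven G U K β) (hU : U ⊆ U') :
    ∃ β', Haven G U' K β' ∧ ∀ Z : Finset V, Z.card < K → β Z ⊆ β' Z := by
  obtain ⟨β', h1, h2⟩ := h.transfer U' ∅ K (by simp) (fun h0 => (h.subU h0).trans hU)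
  exact ⟨β', h1, fun Z hZ => by simpa using h2 Z hZ⟩

theorem Linked.haven {X : Finset V} {t : ℕ} (h : Linked G U X t) :
    ∃ β, Haven G U (t + 1) β ∧ ∀ Z : Finset V, Z.card < t + 1 → X.card < 2 * (X ∩ β Z).card := by
  have h3 : ∀ Z : Finset V, ∃ B : Finset V, Z.card < t + 1 →
      (Conn G B ∧ B ⊆ U \ Z) ∧ X.card < 2 * (X ∩ B).card := by
    intro Z
    by_cases hZ : Z.card < t + 1
    · obtain ⟨v, hv, hv'⟩ := h Z (by omega)
      exact ⟨_, fun _ => ⟨⟨comp_conn hv, comp_subset⟩, hv'⟩⟩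
    · exact ⟨∅, fun h => absurd h hZ⟩
  choose γ hγ using h3
  obtain ⟨β, h1, h2⟩ := exists_haven (G := G) (U := U) (K := t + 1) γ (fun Z hZ => (hγ Z hZ).1) (by
    intro Z Z' hZZ hZ'
    have hZ : Z.card < t + 1 := (card_le_card hZZ).trans_lt hZ'
    by_contra hc
    have hd : Disjoint (X ∩ γ Z) (X ∩ γ Z') := by
      rw [disjoint_left]
      exact fun v h1 h2 => hc ⟨v, (mem_inter.1 h1).2, (mem_inter.1 h2).2⟩
    have := card_le_card (union_subset (inter_subset_left (s₁ := X) (s₂ := γ Z))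
      (inter_subset_left (s₁ := X) (s₂ := γ Z')))
    rw [card_union_of_disjoint hd] at this
    have := (hγ Z hZ).2
    have := (hγ Z' hZ').2
    omega)
  refine ⟨β, h1, fun Z hZ => (hγ Z hZ).2.trans_le ?_⟩
  exact Nat.mul_le_mul_left _ (card_le_card (inter_subset_inter subset_rfl (h2 Z hZ)))

theorem Linked.lt_card {X : Finset V} {t : ℕ} (h : Linked G U X t) : 2 * t < X.card := by
  by_contra hc
  obtain ⟨Z, hZX, hZ⟩ := exists_subset_card_eq (s := X) (n := min t X.card) (min_le_right _ _)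
  obtain ⟨v, hv, hv'⟩ := h Z (by omega)
  have h1 : X ∩ comp G (U \ Z) v ⊆ X \ Z := by
    intro x hx
    exact mem_sdiff.2 ⟨(mem_inter.1 hx).1, (mem_sdiff.1 (comp_subset (mem_inter.1 hx).2)).2⟩
  have := card_le_card h1
  rw [card_sdiff_of_subset hZX] at this
  omega

end Haven

/-- `B` is a union of components of `A`. -/
def Closed (G : SimpleGraph V) (A B : Finset V) : Prop :=
  B ⊆ A ∧ ∀ x ∈ B, ∀ y ∈ A, G.Adj x y → y ∈ B

theorem Closed.sdiff {A B C : Finset V} (hB : Closed G A B) (hC : Closed G A C) :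
    Closed G A (B \ C) :=
  ⟨sdiff_subset.trans hB.1, fun x hx y hy hxy => mem_sdiff.2 ⟨hB.2 x (mem_sdiff.1 hx).1 y hy hxy,
    fun h => (mem_sdiff.1 hx).2 (hC.2 y h x (hB.1 (mem_sdiff.1 hx).1) hxy.symm)⟩⟩

theorem Closed.union {A B C : Finset V} (hB : Closed G A B) (hC : Closed G A C) :
    Closed G A (B ∪ C) :=
  ⟨union_subset hB.1 hC.1, fun x hx y hy hxy => by
    rcases mem_union.1 hx with hx | hx
    · exact mem_union_left _ (hB.2 x hx y hy hxy)
    · exact mem_union_right _ (hC.2 x hx y hy hxy)⟩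

theorem Closed.comp_subset {A A' B : Finset V} (hB : Closed G A B) {v : V} (hv : v ∈ B)
    (hA : A' ⊆ A) : comp G A' v ⊆ B := fun _ hx =>
  ((mem_comp.1 hx).2.closed hv fun x hx y hy _ hxy => hB.2 x hx y (hA hy) hxy).1

theorem three_bins {A X : Finset V} (h : ∀ v ∈ A, 2 * (X ∩ comp G A v).card ≤ X.card) :
    ∃ B : Fin 3 → Finset V, (∀ i, Closed G A (B i)) ∧ (∀ v ∈ A, ∃ i, v ∈ B i) ∧
      (∀ i, 2 * (X ∩ B i).card ≤ X.card) ∧ ∑ i, (X ∩ B i).card ≤ X.card := by
  have hA : Closed G A A := ⟨subset_rfl, fun _ _ _ hy _ => hy⟩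
  have h0 : Closed G A ∅ := ⟨empty_subset _, by simp⟩
  obtain ⟨B1, ⟨c1, w1⟩, m1⟩ := exists_max_of
    (p := fun B => Closed G A B ∧ 2 * (X ∩ B).card ≤ X.card) (fun B => (X ∩ B).card) X.card
    (fun B _ => card_le_card inter_subset_left) ⟨∅, h0, by simp⟩
  obtain ⟨B2, ⟨c2, d2, w2⟩, m2⟩ := exists_max_of
    (p := fun B => Closed G A B ∧ Disjoint B1 B ∧ 2 * (X ∩ B).card ≤ X.card)
    (fun B => (X ∩ B).card) X.card
    (fun B _ => card_le_card inter_subset_left) ⟨∅, h0, by simp, by simp⟩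
  have c3 := hA.sdiff (c1.union c2)
  have e12 : (X ∩ (B1 ∪ B2)).card = (X ∩ B1).card + (X ∩ B2).card := by
    rw [inter_union_distrib_left, card_union_of_disjoint
      (d2.mono inter_subset_right inter_subset_right)]
  have hs : (X ∩ B1).card + (X ∩ B2).card + (X ∩ (A \ (B1 ∪ B2))).card ≤ X.card := by
    rw [← e12, ← card_union_of_disjoint
      ((disjoint_sdiff (s := B1 ∪ B2) (t := A)).mono inter_subset_right inter_subset_right)]
    exact card_le_card (union_subset inter_subset_left inter_subset_left)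
  refine ⟨![B1, B2, A \ (B1 ∪ B2)], fun i => by fin_cases i <;> assumption, fun v hv => ?_,
    fun i => ?_, by simpa [Fin.sum_univ_three] using hs⟩
  · by_cases h1 : v ∈ B1
    · exact ⟨0, h1⟩
    by_cases h2 : v ∈ B2
    · exact ⟨1, h2⟩
    exact ⟨2, by simp [hv, h1, h2]⟩
  · fin_cases i
    · exact w1
    · exact w2
    · show 2 * (X ∩ (A \ (B1 ∪ B2))).card ≤ X.card
      by_contra hc
      have h1 := m1 (B1 ∪ B2) ⟨c1.union c2, by omega⟩
      obtain ⟨v, hv⟩ : (X ∩ (A \ (B1 ∪ B2))).Nonempty := card_pos.1 (by omega)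
      obtain ⟨hvX, hv3⟩ := mem_inter.1 hv
      have hvA := (mem_sdiff.1 hv3).1
      have h2 := m2 (comp G A v) ⟨⟨comp_subset, fun x hx y hy hxy => comp_closed hx hy hxy⟩, by
        rw [disjoint_right]
        intro x hx hx1
        exact (mem_sdiff.1 (c3.comp_subset hv3 subset_rfl hx)).2 (mem_union_left _ hx1), h v hvA⟩
      have h3 : 0 < (X ∩ comp G A v).card :=
        card_pos.2 ⟨v, mem_inter.2 ⟨hvX, self_mem_comp hvA⟩⟩
      omega

theorem not_linked_iff {U X : Finset V} {t : ℕ} : ¬ Linked G U X t ↔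
    ∃ Z : Finset V, Z.card ≤ t ∧ ∀ v ∈ U \ Z, 2 * (X ∩ comp G (U \ Z) v).card ≤ X.card := by
  unfold Linked
  push Not
  rfl

theorem halving {U X : Finset V} {t : ℕ} (h : ∀ X' ⊆ X, ¬ Linked G U X' t) (j : ℕ) :
    ∀ X' ⊆ X, ∃ Z : Finset V, Z.card ≤ 4 ^ j * t ∧
      ∀ v ∈ U \ Z, 2 ^ j * (X' ∩ comp G (U \ Z) v).card ≤ X'.card := by
  induction j with
  | zero => exact fun X' _ => ⟨∅, by simp, fun v _ => by simpa using card_le_card inter_subset_left⟩
  | succ j ih =>
    intro X' hX'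
    obtain ⟨Z0, hZ0, h0⟩ := not_linked_iff.1 (h X' hX')
    obtain ⟨B, hB1, hB2, hB3, -⟩ := three_bins h0
    choose Z hZ1 hZ2 using fun i => ih (X' ∩ B i) (inter_subset_left.trans hX')
    refine ⟨Z0 ∪ univ.biUnion Z, ?_, fun v hv => ?_⟩
    · have h1 := card_union_le Z0 (univ.biUnion Z)
      have h2 := card_biUnion_le (s := univ) (t := Z)
      rw [Fin.sum_univ_three] at h2
      have := hZ1 0
      have := hZ1 1
      have := hZ1 2
      have h3 : t ≤ 4 ^ j * t := Nat.le_mul_of_pos_left _ (by positivity)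
      rw [pow_succ]
      nlinarith
    · have s0 : U \ (Z0 ∪ univ.biUnion Z) ⊆ U \ Z0 := sdiff_subset_sdiff subset_rfl subset_union_left
      obtain ⟨i, hi⟩ := hB2 v (s0 hv)
      have s1 : U \ (Z0 ∪ univ.biUnion Z) ⊆ U \ Z i := sdiff_subset_sdiff subset_rfl
        ((subset_biUnion_of_mem Z (mem_univ i)).trans subset_union_right)
      have h1 : X' ∩ comp G (U \ (Z0 ∪ univ.biUnion Z)) v ⊆ X' ∩ B i ∩ comp G (U \ Z i) v := by
        intro x hx
        obtain ⟨hx1, hx2⟩ := mem_inter.1 hx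
        exact mem_inter.2 ⟨mem_inter.2 ⟨hx1, (hB1 i).comp_subset hi s0 hx2⟩, comp_mono s1 hx2⟩
      have h2 := card_le_card h1
      have h3 := hZ2 i v (s1 hv)
      have h4 := hB3 i
      rw [pow_succ]
      nlinarith [Nat.mul_le_mul_left (2 ^ j) h2]

/-- `F` is the small side of a separation. -/
def Small (G : SimpleGraph V) (U : Finset V) (K : ℕ) (β : Finset V → Finset V) (F : Finset V) :
    Prop :=
  F ⊆ U ∧ (bd G U F).card < K ∧ Disjoint (β (bd G U F)) F

/-- A small set whose boundary is minimal among small supersets. -/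
def Tight (G : SimpleGraph V) (U : Finset V) (K : ℕ) (β : Finset V → Finset V) (F : Finset V) :
    Prop :=
  Small G U K β F ∧ ∀ F', F ⊆ F' → Small G U K β F' → (bd G U F).card ≤ (bd G U F').card

section Small

variable {U F F' Z : Finset V} {K : ℕ} {β : Finset V → Finset V}

theorem Haven.small (h : Haven G U K β) (hF : F ⊆ U) (hZ : bd G U F ⊆ Z) (hK : Z.card < K)
    (hd : Disjoint (β Z) F) : Small G U K β F := by
  have hb : (bd G U F).card < K := (card_le_card hZ).trans_lt hK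
  refine ⟨hF, hb, disjoint_left.2 fun v hv hvF => ?_⟩
  have h1 : β (bd G U F) ⊆ F := (h.conn _ hb).subset_of_closed hv hvF fun x hx y hy hx' hxy =>
    mem_of_not_mem_bd hx (h.not_mem hb hx') (h.subU hb hy) hxy
  obtain ⟨u, hu⟩ := (h.conn Z hK).1
  exact disjoint_left.1 hd hu (h1 (h.mono _ _ hZ hK hu))

theorem Small.disj (hF : Small G U K β F) (h : Haven G U K β) (hZ : bd G U F ⊆ Z)
    (hK : Z.card < K) : Disjoint (β Z) F := hF.2.2.mono_left (h.mono _ _ hZ hK)

theorem Small.sub (hF : Small G U K β F) (h : Haven G U K β) (hF' : F' ⊆ F)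
    (hK : (bd G U F).card + (bd G U F').card < K) : Small G U K β F' := by
  have hc : (bd G U F ∪ bd G U F').card < K := (card_union_le _ _).trans_lt hK
  exact h.small (hF'.trans hF.1) subset_union_right hc
    ((hF.disj h subset_union_left hc).mono_right hF')

theorem bd_union_subset : bd G U (F ∪ F') ⊆ bd G U F ∪ bd G U F' := by
  intro v hv
  obtain ⟨h1, u, hu, h2, h3⟩ := mem_bd.1 hv
  rcases mem_union.1 h1 with h1 | h1
  · exact mem_union_left _ (mem_bd.2 ⟨h1, u, hu, fun h => h2 (mem_union_left _ h), h3⟩)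
  · exact mem_union_right _ (mem_bd.2 ⟨h1, u, hu, fun h => h2 (mem_union_right _ h), h3⟩)

theorem Small.union (hF : Small G U K β F) (hF' : Small G U K β F') (h : Haven G U K β)
    (hK : (bd G U F).card + (bd G U F').card < K) : Small G U K β (F ∪ F') := by
  have hc : (bd G U F ∪ bd G U F').card < K := (card_union_le _ _).trans_lt hK
  exact h.small (union_subset hF.1 hF'.1) bd_union_subset hc
    (disjoint_union_right.2 ⟨hF.disj h subset_union_left hc, hF'.disj h subset_union_right hc⟩)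

theorem Haven.tiny (h : Haven G U K β) (hF : F ⊆ U) (hK : F.card < K) : Small G U K β F :=
  h.small hF bd_subset hK (disjoint_left.2 fun _ hv => h.not_mem hK hv)

theorem Small.exists_tight (hF : Small G U K β F) :
    ∃ F', F ⊆ F' ∧ Tight G U K β F' ∧ (bd G U F').card ≤ (bd G U F).card := by
  obtain ⟨F', ⟨h1, h2⟩, h3⟩ := exists_min_of (p := fun F' => F ⊆ F' ∧ Small G U K β F')
    (fun F' => (bd G U F').card) ⟨F, subset_rfl, hF⟩
  exact ⟨F', h1, ⟨h2, fun F'' h4 h5 => h3 F'' ⟨h1.trans h4, h5⟩⟩, h3 F ⟨subset_rfl, hF⟩⟩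

/-- The boundary of a tight set is independent in the region outside. -/
theorem Tight.outside (hF : Tight G U K β F) (h : Haven G U K β) {T : Finset V}
    (hT : T ⊆ bd G U F) {K' : ℕ} (hK : K' + (bd G U F).card ≤ K) :
    ∃ β', Haven G ((U \ F) ∪ T) K' β' ∧ ∀ Z : Finset V, Z.card < K' →
      β (Z ∪ bd G U F) ⊆ β' Z ∧ (T \ β' Z).card ≤ Z.card := by
  obtain ⟨β', h1, h2⟩ := h.transfer ((U \ F) ∪ T) (bd G U F) K' hK (fun h0 v hv =>
    mem_union_left _ (mem_sdiff.2 ⟨h.subU h0 hv, disjoint_left.1 hF.1.2.2 hv⟩))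
  refine ⟨β', h1, fun Z hZ => ⟨h2 Z hZ, ?_⟩⟩
  have hc : (Z ∪ bd G U F).card < K := by have := card_union_le Z (bd G U F); omega
  have hb : bd G U (U \ (β' Z \ F)) ⊆ Z ∪ (bd G U F \ (T \ β' Z)) := by
    intro v hv
    obtain ⟨h3, u, hu, h4, h5⟩ := mem_bd.1 hv
    have h6 : u ∈ β' Z \ F := by
      by_contra hc
      exact h4 (mem_sdiff.2 ⟨hu, hc⟩)
    obtain ⟨h6, h7⟩ := mem_sdiff.1 h6
    obtain ⟨h8, h9⟩ := mem_sdiff.1 h3
    by_cases hz : v ∈ Z
    · exact mem_union_left _ hz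
    refine mem_union_right _ ?_
    have hcl := h1.closed Z hZ u h6 v
    by_cases hvF : v ∈ F
    · refine mem_sdiff.2 ⟨mem_bd.2 ⟨hvF, u, hu, h7, h5⟩, fun hc => ?_⟩
      exact (mem_sdiff.1 hc).2 (hcl (mem_union_right _ (mem_sdiff.1 hc).1) hz h5.symm)
    · exact absurd (mem_sdiff.2 ⟨hcl (mem_union_left _ (mem_sdiff.2 ⟨h8, hvF⟩)) hz h5.symm, hvF⟩) h9
  have hs : Small G U K β (U \ (β' Z \ F)) := by
    refine h.small sdiff_subset (hb.trans (union_subset_union subset_rfl sdiff_subset)) hc ?_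
    rw [disjoint_left]
    intro v hv hv'
    exact (mem_sdiff.1 hv').2 (mem_sdiff.2 ⟨h2 Z hZ hv,
      disjoint_left.1 (hF.1.disj h subset_union_right hc) hv⟩)
  have h3 := hF.2 _ (fun v hv => mem_sdiff.2 ⟨hF.1.1 hv, fun hc => (mem_sdiff.1 hc).2 hv⟩) hs
  have h4 := card_le_card hb
  have h5 := card_union_le Z (bd G U F \ (T \ β' Z))
  have h6 : T \ β' Z ⊆ bd G U F := sdiff_subset.trans hT
  rw [card_sdiff_of_subset h6] at h5
  have := card_le_card h6
  omega

/-- The boundary of a tight set is linked to the boundary of a small superset. -/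
theorem Tight.push (hF : Tight G U K β F) (h : Haven G U K β) (hF' : Small G U K β F')
    (hFF : F ⊆ F') (hK : (bd G U F).card + (bd G U F').card ≤ K) (hZ : Z.card < (bd G U F).card) :
    Joined G ((F' \ F) ∪ bd G U F) (bd G U F) (bd G U F') Z := by
  by_contra hj
  set U1 := (F' \ F) ∪ bd G U F with hU1
  let A := U1.filter fun v => ∃ a ∈ bd G U F, a ∈ U1 \ Z ∧ R G (U1 \ Z) a v
  have hU1F : U1 ⊆ F' := union_subset sdiff_subset (bd_subset.trans hFF)
  have hsub : F ∪ A ∪ Z ∩ F' ⊆ F' :=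
    union_subset (union_subset hFF ((filter_subset _ _).trans hU1F)) inter_subset_right
  have hb : bd G U (F ∪ A ∪ Z ∩ F') ⊆ Z := by
    intro v hv
    obtain ⟨h3, u, hu, h4, h5⟩ := mem_bd.1 hv
    by_contra hz
    simp only [mem_union, mem_inter, not_or, not_and] at h3 h4
    have hvA : ∃ a ∈ bd G U F, a ∈ U1 \ Z ∧ R G (U1 \ Z) a v := by
      rcases h3 with (h3 | h3) | h3
      · have hb : v ∈ bd G U F := mem_bd.2 ⟨h3, u, hu, h4.1.1, h5⟩
        exact ⟨v, hb, mem_sdiff.2 ⟨mem_union_right _ hb, hz⟩, R.refl⟩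
      · exact (mem_filter.1 h3).2
      · exact absurd h3.1 hz
    obtain ⟨a, ha, ha1, ha2⟩ := hvA
    have hv1 := ha2.mem ha1
    have huF : u ∈ F' := mem_of_not_mem_bd (hU1F (mem_sdiff.1 hv1).1)
      (fun hc => hj ⟨a, ha, v, hc, ha1, ha2⟩) hu h5
    have hu1 : u ∈ U1 := mem_union_left _ (mem_sdiff.2 ⟨huF, h4.1.1⟩)
    exact h4.1.2 (mem_filter.2 ⟨hu1, a, ha, ha1,
      ha2.tail h5 hv1 (mem_sdiff.2 ⟨hu1, fun hc => h4.2 hc huF⟩)⟩)
  have hc := card_le_card hb
  have := hF.2 _ (subset_union_left.trans subset_union_left) (hF'.sub h hsub (by omega))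
  omega

end Small

end Pool.Agent.MP_7be75d_co

end MrgPart0

-- ======== part 1: formerly Pool.Agent.MP_7be75d_co.Growth
section MrgPart1

/-! Growing a rooted forest together with an apex. -/

namespace Pool.Agent.MP_7be75d_co

open Finset
open scoped Classical

variable {V : Type} {G : SimpleGraph V}

/-- There is an edge between `S` and `T`. -/
def Touch (G : SimpleGraph V) (S T : Finset V) : Prop := ∃ x ∈ S, ∃ y ∈ T, G.Adj x y

theorem Touch.symm {S T : Finset V} (h : Touch G S T) : Touch G T S := by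
  obtain ⟨x, hx, y, hy, h⟩ := h
  exact ⟨y, hy, x, hx, h.symm⟩

theorem Touch.mono {S T S' T' : Finset V} (h : Touch G S T) (h1 : S ⊆ S') (h2 : T ⊆ T') :
    Touch G S' T' := by
  obtain ⟨x, hx, y, hy, h⟩ := h
  exact ⟨x, h1 hx, y, h2 hy, h⟩

theorem Conn.union_touch {S T : Finset V} (hS : Conn G S) (hT : Conn G T) (h : Touch G S T) :
    Conn G (S ∪ T) := by
  obtain ⟨x, hx, y, hy, h⟩ := h
  exact hS.union_adj hT hx hy h

section

variable {W : Type} {U : Finset V} {K : ℕ} {β : Finset V → Finset V}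

/-- Invariant of the growth. -/
structure Gr (G : SimpleGraph V) (U : Finset V) (K : ℕ) (β : Finset V → Finset V)
    (J : SimpleGraph W) (I : Finset W) (p : W → V) (S : Finset W) (F : Finset V)
    (B : W → Finset V) : Prop where
  small : Small G U K β F
  card : (bd G U F).card = S.card
  sub : ∀ w ∈ S, B w ⊆ F
  conn : ∀ w ∈ S, Conn G (B w)
  top : ∀ w ∈ S, ∃ z ∈ bd G U F, z ∈ B w
  disj : ∀ w ∈ S, ∀ w' ∈ S, w ≠ w' → Disjoint (B w) (B w')
  root : ∀ w ∈ I, p w ∈ B w
  adj : ∀ w ∈ S, ∀ w' ∈ S, J.Adj w w' → w ∉ I → Touch G (B w) (B w')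

variable {J : SimpleGraph W} {I S : Finset W} {p : W → V} {F : Finset V} {B : W → Finset V}

theorem Gr.extend [Fintype V] (h : Haven G U K β) (hg : Gr G U K β J I p S F B) (hI : I ⊆ S)
    (hF : Tight G U K β F) (hK : 2 * S.card ≤ K) :
    ∃ F' B', Gr G U K β J I p S F' B' ∧
      ∀ F'', F' ⊆ F'' → Small G U K β F'' → (bd G U F'').card ≤ S.card → F'' = F' := by
  obtain ⟨F', ⟨h1, h2, h3⟩, h4⟩ := exists_max_of
    (p := fun F' => F ⊆ F' ∧ Small G U K β F' ∧ (bd G U F').card ≤ S.card) (fun F' => F'.card)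
    U.card (fun F' hF' => card_le_card hF'.2.1.1) ⟨F, subset_rfl, hg.small, hg.card.le⟩
  have h5 : (bd G U F').card = S.card := le_antisymm h3 (hg.card ▸ hF.2 F' h1 h2)
  choose z hz1 hz2 using fun w : S => hg.top w.1 w.2
  have hinj : Function.Injective z := by
    intro i j hij
    by_contra hne
    exact disjoint_left.1 (hg.disj _ i.2 _ j.2 fun e => hne (Subtype.ext e)) (hz2 i) (hij ▸ hz2 j)
  have him : univ.image z = bd G U F := by
    refine eq_of_subset_of_card_le (image_subset_iff.2 fun i _ => hz1 i) ?_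
    rw [card_image_of_injective _ hinj, card_univ, Fintype.card_coe, hg.card]
  obtain ⟨P, hP, hP'⟩ := menger_from (G := G) (U := (F' \ F) ∪ bd G U F) (B := bd G U F') z (by
    intro Z hZ
    rw [him]
    rw [Fintype.card_coe] at hZ
    exact hF.push h h2 h1 (by rw [h5, hg.card]; omega) (by rw [hg.card]; exact hZ))
  have key : ∀ (w : W) (hw : w ∈ S) (w' : S), w ≠ w'.1 → Disjoint (B w) (P w') := by
    intro w hw w' hne
    rw [disjoint_left]
    intro v h6 h7
    rcases mem_union.1 (hP.sub w' h7) with h8 | h8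
    · exact (mem_sdiff.1 h8).2 (hg.sub w hw h6)
    · rw [← him] at h8
      obtain ⟨j, -, rfl⟩ := mem_image.1 h8
      by_cases hj : j = w'
      · subst hj
        exact disjoint_left.1 (hg.disj w hw _ j.2 hne) h6 (hz2 j)
      · exact disjoint_left.1 (hP.disj j w' hj) (hP' j) h7
  have hs : ∀ w ∈ S, B w ⊆ if hw : w ∈ S then B w ∪ P ⟨w, hw⟩ else ∅ := fun w hw => by
    rw [dif_pos hw]; exact subset_union_left
  refine ⟨F', fun w => if hw : w ∈ S then B w ∪ P ⟨w, hw⟩ else ∅, ⟨h2, h5, fun w hw => ?_,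
    fun w hw => ?_, fun w hw => ?_, fun w hw w' hw' hne => ?_,
    fun w hw => hs w (hI hw) (hg.root w hw),
    fun w hw w' hw' ha hI => (hg.adj w hw w' hw' ha hI).mono (hs w hw) (hs w' hw')⟩,
    fun F'' h6 h7 h8 => (eq_of_subset_of_card_le h6 (h4 F'' ⟨h1.trans h6, h7, h8⟩)).symm⟩
  · rw [dif_pos hw]
    exact union_subset ((hg.sub w hw).trans h1)
      ((hP.sub _).trans (union_subset sdiff_subset (bd_subset.trans h1)))
  · rw [dif_pos hw]
    exact (hg.conn w hw).union (hP.conn _) (hz2 ⟨w, hw⟩) (hP' _)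
  · rw [dif_pos hw]
    obtain ⟨b, h6, h7⟩ := hP.right ⟨w, hw⟩
    exact ⟨b, h6, mem_union_right _ h7⟩
  · rw [dif_pos hw, dif_pos hw', disjoint_union_left, disjoint_union_right, disjoint_union_right]
    exact ⟨⟨hg.disj w hw w' hw' hne, key w hw ⟨w', hw'⟩ hne⟩, (key w' hw' ⟨w, hw⟩ hne.symm).symm,
      hP.disj _ _ fun e => hne (congrArg Subtype.val e)⟩

theorem growth [Fintype V] {J0 : Finset W} (hP : Peel J I J0) (h : Haven G U K β)
    (hK : 2 * J0.card < K) (hinj : Set.InjOn p I) (hpU : ∀ w ∈ I, p w ∈ U)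
    (hind : ∀ Z : Finset V, Z.card < K → (I.filter fun w => p w ∉ β Z).card ≤ Z.card) :
    ∃ (B : W → Finset V) (Z : Finset V), Z.card ≤ J0.card ∧
      (∀ w ∈ J0, B w ⊆ U ∧ Conn G (B w) ∧ Disjoint (B w) (β Z) ∧ Touch G (B w) (β Z)) ∧
      (∀ w ∈ J0, ∀ w' ∈ J0, w ≠ w' → Disjoint (B w) (B w')) ∧ (∀ w ∈ I, p w ∈ B w) ∧
      ∀ w ∈ J0, ∀ w' ∈ J0, J.Adj w w' → w ∉ I → Touch G (B w) (B w') := by
  have main : ∀ n, ∀ S : Finset W, S.card = n → I ⊆ S → S ⊆ J0 → ∃ F' B',
      Gr G U K β J I p S F' B' ∧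
      ∀ F'', F' ⊆ F'' → Small G U K β F'' → (bd G U F'').card ≤ S.card → F'' = F' := by
    intro n
    induction n using Nat.strong_induction_on with
    | _ n ih =>
    intro S hn hI hS
    have hc := card_le_card hS
    by_cases hSI : S = I
    · subst hSI
      have e1 : (S.image p).card = S.card := card_image_of_injOn hinj
      have hs : Small G U K β (S.image p) := h.tiny (image_subset_iff.2 hpU) (by omega)
      have ht : ∀ F', S.image p ⊆ F' → Small G U K β F' → S.card ≤ (bd G U F').card := by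
        intro F' h1 h2
        refine le_trans (card_le_card fun w hw => ?_) (hind _ h2.2.1)
        rw [mem_filter]
        exact ⟨hw, fun hc => disjoint_left.1 h2.2.2 hc (h1 (mem_image_of_mem _ hw))⟩
      have e2 : bd G U (S.image p) = S.image p :=
        eq_of_subset_of_card_le bd_subset (e1 ▸ ht _ subset_rfl hs)
      refine Gr.extend h (F := S.image p) (B := fun w => {p w}) ⟨hs, by rw [e2, e1],
        fun w hw => singleton_subset_iff.2 (mem_image_of_mem _ hw), fun w _ => Conn.singleton _,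
        fun w hw => ⟨p w, e2.symm ▸ mem_image_of_mem _ hw, mem_singleton_self _⟩,
        fun w hw w' hw' hne => disjoint_singleton.2 fun e => hne (hinj hw hw' e),
        fun w _ => mem_singleton_self _, fun w hw _ _ _ hI => absurd hw hI⟩ subset_rfl
        ⟨hs, fun F' h1 h2 => by rw [e2, e1]; exact ht F' h1 h2⟩ (by omega)
    obtain ⟨w, hw, hwI, hu⟩ := hP.2 S hI hS hSI
    have e1 := card_erase_add_one hw
    obtain ⟨F, B, hg, hmax⟩ := ih (S.erase w).card (by omega) (S.erase w) rfl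
      (fun x hx => mem_erase.2 ⟨fun e => hwI (e ▸ hx), hI hx⟩) ((erase_subset _ _).trans hS)
    obtain ⟨v, hvU, hvF, hv⟩ : ∃ v ∈ U, v ∉ F ∧
        ∀ u ∈ S.erase w, J.Adj w u → ∃ z ∈ B u, G.Adj v z := by
      by_cases hex : ∃ u ∈ S.erase w, J.Adj w u
      · obtain ⟨u, h1, h2⟩ := hex
        obtain ⟨z, h3, h4⟩ := hg.top u h1
        obtain ⟨-, v, h5, h6, h7⟩ := mem_bd.1 h3
        refine ⟨v, h5, h6, fun u' h8 h9 => ?_⟩
        rw [hu u' (mem_of_mem_erase h8) u (mem_of_mem_erase h1) h9 h2]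
        exact ⟨z, h4, h7.symm⟩
      · obtain ⟨v, hv⟩ := (h.conn _ hg.small.2.1).1
        exact ⟨v, h.subU hg.small.2.1 hv, disjoint_left.1 hg.small.2.2 hv,
          fun u h1 h2 => absurd ⟨u, h1, h2⟩ hex⟩
    have hb : bd G U (insert v F) ⊆ insert v (bd G U F) := by
      intro x hx
      obtain ⟨h1, y, h2, h3, h4⟩ := mem_bd.1 hx
      rcases mem_insert.1 h1 with h1 | h1
      · exact mem_insert.2 (Or.inl h1)
      · exact mem_insert_of_mem (mem_bd.2 ⟨h1, y, h2, fun h => h3 (mem_insert_of_mem h), h4⟩)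
    have e2 := card_insert_le v (bd G U F)
    have e3 := hg.card
    have hs : Small G U K β (insert v F) := by
      have hc : (insert v (bd G U F)).card < K := by omega
      refine h.small (insert_subset hvU hg.small.1) hb hc ?_
      rw [disjoint_insert_right]
      exact ⟨fun hc' => h.not_mem hc hc' (mem_insert_self _ _),
        hg.small.disj h (subset_insert _ _) hc⟩
    have ht : ∀ F', insert v F ⊆ F' → Small G U K β F' → S.card ≤ (bd G U F').card := by
      intro F' h1 h2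
      by_contra hc
      have := hmax F' ((subset_insert _ _).trans h1) h2 (by omega)
      exact hvF (this ▸ h1 (mem_insert_self _ _))
    have e4 := ht _ subset_rfl hs
    have e5 : bd G U (insert v F) = insert v (bd G U F) := eq_of_subset_of_card_le hb (by omega)
    have e6 := card_le_card hb
    have u1 : ∀ x, x ≠ w → Function.update B w {v} x = B x := fun x hx =>
      Function.update_of_ne hx _ _
    have u2 : Function.update B w {v} w = {v} := Function.update_self _ _ _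
    have hd : ∀ x ∈ S.erase w, Disjoint (B x) {v} := fun x hx =>
      disjoint_singleton_right.2 fun hc => hvF (hg.sub x hx hc)
    have hto : ∀ u ∈ S.erase w, J.Adj w u → Touch G {v} (B u) := fun u h1 h2 => by
      obtain ⟨z, h3, h4⟩ := hv u h1 h2
      exact ⟨v, mem_singleton_self _, z, h3, h4⟩
    refine Gr.extend h (F := insert v F) (B := Function.update B w {v}) ⟨hs, by omega,
      fun x hx => ?_, fun x hx => ?_, fun x hx => ?_, fun x hx y hy hne => ?_, fun x hx => ?_,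
      fun x hx y hy ha hxI => ?_⟩ hI ⟨hs, fun F' h1 h2 => by have := ht F' h1 h2; omega⟩ (by omega)
    · by_cases e : x = w
      · rw [e, u2]; simp
      · rw [u1 x e]; exact (hg.sub x (mem_erase.2 ⟨e, hx⟩)).trans (subset_insert _ _)
    · by_cases e : x = w
      · rw [e, u2]; exact Conn.singleton _
      · rw [u1 x e]; exact hg.conn x (mem_erase.2 ⟨e, hx⟩)
    · rw [e5]
      by_cases e : x = w
      · rw [e, u2]; exact ⟨v, mem_insert_self _ _, mem_singleton_self _⟩
      · rw [u1 x e]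
        obtain ⟨z, h1, h2⟩ := hg.top x (mem_erase.2 ⟨e, hx⟩)
        exact ⟨z, mem_insert_of_mem h1, h2⟩
    · by_cases e : x = w
      · subst e
        rw [u2, u1 y hne.symm]; exact (hd y (mem_erase.2 ⟨hne.symm, hy⟩)).symm
      · rw [u1 x e]
        by_cases e' : y = w
        · rw [e', u2]; exact hd x (mem_erase.2 ⟨e, hx⟩)
        · rw [u1 y e']; exact hg.disj x (mem_erase.2 ⟨e, hx⟩) y (mem_erase.2 ⟨e', hy⟩) hne
    · rw [u1 x fun e => hwI (e ▸ hx)]; exact hg.root x hx
    · by_cases e : x = w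
      · subst e
        rw [u2, u1 y ha.ne.symm]; exact hto y (mem_erase.2 ⟨ha.ne.symm, hy⟩) ha
      · rw [u1 x e]
        by_cases e' : y = w
        · subst e'
          rw [u2]; exact (hto x (mem_erase.2 ⟨e, hx⟩) ha.symm).symm
        · rw [u1 y e']; exact hg.adj x (mem_erase.2 ⟨e, hx⟩) y (mem_erase.2 ⟨e', hy⟩) ha hxI
  obtain ⟨F, B, hg, hmax⟩ := main _ J0 rfl hP.1 subset_rfl
  have hc := hg.small.2.1
  have hb : bd G U (U \ β (bd G U F)) ⊆ bd G U F := by
    intro x hx
    obtain ⟨h1, y, h2, h3, h4⟩ := mem_bd.1 hx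
    by_contra hx'
    have h5 : y ∈ β (bd G U F) := by
      by_contra hc
      exact h3 (mem_sdiff.2 ⟨h2, hc⟩)
    exact (mem_sdiff.1 h1).2 (h.closed _ hc y h5 x (mem_sdiff.1 h1).1 hx' h4.symm)
  have e : U \ β (bd G U F) = F := hmax _
    (fun x hx => mem_sdiff.2 ⟨hg.small.1 hx, disjoint_right.1 hg.small.2.2 hx⟩)
    (h.small sdiff_subset hb hc disjoint_sdiff) (hg.card ▸ card_le_card hb)
  refine ⟨B, bd G U F, hg.card.le, fun w hw => ⟨(hg.sub w hw).trans hg.small.1, hg.conn w hw,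
    (hg.small.2.2.mono_right (hg.sub w hw)).symm, ?_⟩, hg.disj, hg.root, hg.adj⟩
  obtain ⟨z, h1, h2⟩ := hg.top w hw
  obtain ⟨-, y, h3, h4, h5⟩ := mem_bd.1 h1
  refine ⟨z, h2, y, ?_, h5⟩
  by_contra hc
  exact h4 (e ▸ mem_sdiff.2 ⟨h3, hc⟩)

end

end Pool.Agent.MP_7be75d_co

end MrgPart1

-- ======== part 2: formerly Pool.Agent.MP_7be75d_co.Cover
section MrgPart2

/-! A tight set whose boundary is linked inside: the minimal cover argument. -/

namespace Pool.Agent.MP_7be75d_co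

open Finset
open scoped Classical

variable {V : Type} {G : SimpleGraph V}

theorem sum_biUnion_le' {α ι : Type} [DecidableEq α] (s : Finset ι) (S : ι → Finset α) (f : α → ℕ) :
    ∑ x ∈ s.biUnion S, f x ≤ ∑ i ∈ s, ∑ x ∈ S i, f x := by
  induction s using Finset.induction_on with
  | empty => simp
  | insert a s ha ih =>
    rw [biUnion_insert, sum_insert ha]
    have := sum_union_inter (s₁ := S a) (s₂ := s.biUnion S) (f := f)
    omega

theorem sum_repl {α : Type} [DecidableEq α] {S old : Finset α} (new : Finset α) (h : old ⊆ S) (f : α → ℕ) :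
    ∑ x ∈ (S \ old) ∪ new, f x + ∑ x ∈ old, f x ≤ ∑ x ∈ S, f x + ∑ x ∈ new, f x := by
  have h1 := sum_union_inter (s₁ := S \ old) (s₂ := new) (f := f)
  have h2 := sum_sdiff (f := f) h
  omega

theorem split3 {U W X Z : Finset V} (hX : bd G U W ⊆ X)
    (h : ∀ v ∈ W \ Z, 2 * (X ∩ comp G (W \ Z) v).card ≤ X.card) :
    ∃ (P : Fin 3 → Finset V) (x : Fin 3 → ℕ), (∀ i, P i ⊆ W) ∧
      (∀ u ∈ W, ∀ v ∈ W, (u = v ∨ G.Adj u v) → ∃ i, u ∈ P i ∧ v ∈ P i) ∧
      (∀ i, (bd G U (P i)).card ≤ x i + Z.card) ∧ (∀ i, (X ∩ P i).card ≤ x i + Z.card) ∧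
      (∀ i, 2 * x i ≤ X.card) ∧ ∑ i, x i ≤ X.card := by
  obtain ⟨B, h1, h2, h3, h4⟩ := three_bins h
  refine ⟨fun i => B i ∪ Z ∩ W, fun i => (X ∩ B i).card,
    fun i => union_subset ((h1 i).1.trans sdiff_subset) inter_subset_right, ?_, fun i => ?_,
    fun i => ?_, h3, h4⟩
  · have key : ∀ u ∈ W, ∀ v ∈ W, u ∉ Z → (u = v ∨ G.Adj u v) →
        ∃ i, u ∈ B i ∪ Z ∩ W ∧ v ∈ B i ∪ Z ∩ W := by
      intro u hu v hv huZ huv
      obtain ⟨i, hi⟩ := h2 u (mem_sdiff.2 ⟨hu, huZ⟩)
      refine ⟨i, mem_union_left _ hi, ?_⟩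
      rcases huv with rfl | huv
      · exact mem_union_left _ hi
      by_cases hvZ : v ∈ Z
      · exact mem_union_right _ (mem_inter.2 ⟨hvZ, hv⟩)
      · exact mem_union_left _ ((h1 i).2 u hi v (mem_sdiff.2 ⟨hv, hvZ⟩) huv)
    intro u hu v hv huv
    by_cases huZ : u ∈ Z
    · by_cases hvZ : v ∈ Z
      · exact ⟨0, mem_union_right _ (mem_inter.2 ⟨huZ, hu⟩),
          mem_union_right _ (mem_inter.2 ⟨hvZ, hv⟩)⟩
      · obtain ⟨i, h5, h6⟩ := key v hv u hu hvZ (huv.imp Eq.symm fun h => h.symm)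
        exact ⟨i, h6, h5⟩
    · exact key u hu v hv huZ huv
  · refine (card_le_card ?_).trans (card_union_le (X ∩ B i) Z)
    intro v hv
    obtain ⟨h5, u, hu, h6, h7⟩ := mem_bd.1 hv
    by_cases hz : v ∈ Z
    · exact mem_union_right _ hz
    have hvB : v ∈ B i := (mem_union.1 h5).resolve_right fun h => hz (mem_inter.1 h).1
    refine mem_union_left _ (mem_inter.2 ⟨hX (mem_bd.2
      ⟨(mem_sdiff.1 ((h1 i).1 hvB)).1, u, hu, fun huW => h6 ?_, h7⟩), hvB⟩)
    by_cases huZ : u ∈ Z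
    · exact mem_union_right _ (mem_inter.2 ⟨huZ, huW⟩)
    · exact mem_union_left _ ((h1 i).2 v hvB u (mem_sdiff.2 ⟨huW, huZ⟩) h7)
  · refine (card_le_card ?_).trans (card_union_le (X ∩ B i) Z)
    intro v hv
    simp only [mem_inter, mem_union] at hv ⊢
    tauto

theorem bd_uncross {U F F' : Finset V} (hF : F ⊆ U) :
    bd G U (F \ (F' \ bd G U F')) ⊆ bd G U F ∪ bd G U F' := by
  intro v hv
  obtain ⟨h1, u, hu, h2, h3⟩ := mem_bd.1 hv
  obtain ⟨h4, h5⟩ := mem_sdiff.1 h1
  by_cases huF : u ∈ F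
  · have h6 : u ∈ F' \ bd G U F' := by
      by_contra hc
      exact h2 (mem_sdiff.2 ⟨huF, hc⟩)
    have h7 := mem_of_not_mem_bd (mem_sdiff.1 h6).1 (mem_sdiff.1 h6).2 (hF h4) h3.symm
    refine mem_union_right _ ?_
    by_contra hc
    exact h5 (mem_sdiff.2 ⟨h7, hc⟩)
  · exact mem_union_left _ (mem_bd.2 ⟨h4, u, hu, huF, h3⟩)

theorem posimod {U F F' : Finset V} (hF : F ⊆ U) (hF' : F' ⊆ U) :
    (bd G U (F \ (F' \ bd G U F'))).card + (bd G U (F' \ (F \ bd G U F))).card ≤
      (bd G U F).card + (bd G U F').card := by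
  rw [← card_union_add_card_inter, ← card_union_add_card_inter (bd G U F)]
  refine add_le_add (card_le_card (union_subset (bd_uncross hF) ?_)) (card_le_card ?_)
  · rw [union_comm]; exact bd_uncross hF'
  · intro v hv
    have h1 := mem_sdiff.1 (bd_subset (mem_inter.1 hv).1)
    have h2 := mem_sdiff.1 (bd_subset (mem_inter.1 hv).2)
    simp only [mem_sdiff, not_and, not_not] at h1 h2
    exact mem_inter.2 ⟨h2.2 h1.1, h1.2 h2.1⟩

/-- A cover of the vertices and edges of `W` by small sets with boundary at most `b`. -/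
def Sys (G : SimpleGraph V) (U : Finset V) (K : ℕ) (β : Finset V → Finset V) (b : ℕ)
    (W : Finset V) (S : Finset (Finset V)) : Prop :=
  (∀ F ∈ S, Small G U K β F ∧ (bd G U F).card ≤ b) ∧
    ∀ u ∈ W, ∀ v ∈ W, (u = v ∨ G.Adj u v) → ∃ F ∈ S, u ∈ F ∧ v ∈ F

section

variable {U W : Finset V} {K b t : ℕ} {β : Finset V → Finset V}

theorem Sys.repl {S old new : Finset (Finset V)} (h : Sys G U K β b W S)
    (h1 : ∀ F ∈ new, Small G U K β F ∧ (bd G U F).card ≤ b)
    (h2 : ∀ u ∈ W, ∀ v ∈ W, (u = v ∨ G.Adj u v) → ∀ F ∈ old, u ∈ F → v ∈ F →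
      ∃ F ∈ (S \ old) ∪ new, u ∈ F ∧ v ∈ F) : Sys G U K β b W ((S \ old) ∪ new) := by
  refine ⟨fun F hF => ?_, fun u hu v hv huv => ?_⟩
  · rcases mem_union.1 hF with hF | hF
    · exact h.1 F (mem_sdiff.1 hF).1
    · exact h1 F hF
  · obtain ⟨F, hF, h3, h4⟩ := h.2 u hu v hv huv
    by_cases ho : F ∈ old
    · exact h2 u hu v hv huv F ho h3 h4
    · exact ⟨F, mem_union_left _ (mem_sdiff.2 ⟨hF, ho⟩), h3, h4⟩

theorem improve (h : Haven G U K β) (hK : 3 * b < K) (hb : 0 < b) (hW : W ⊆ U)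
    (hno : ∀ F, Tight G U K β F → (bd G U F).card ≤ 2 * b → ¬ Linked G F (bd G U F) t)
    {N : ℕ} {S0 : Finset (Finset V)} (hS0 : Sys G U K β b W S0)
    (hN : ∑ F ∈ S0, (bd G U F).card ≤ N * b) :
    ∃ S, Sys G U K β b W S ∧
      ∑ F ∈ S, (bd G U F).card ≤ (bd G U W).card + (2 * N + 1) ^ 2 * (3 * t) := by
  obtain ⟨S, hS, m1, m2⟩ := exists_lex_min (p := Sys G U K β b W)
    (fun S => ∑ F ∈ S, (bd G U F).card) (fun S => ∑ F ∈ S, (F.card + 1)) ⟨S0, hS0⟩
  have pair : ∀ {F F'}, F ∈ S → F' ∈ S → ({F, F'} : Finset (Finset V)) ⊆ S := fun h1 h2 =>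
    insert_subset h1 (singleton_subset_iff.2 h2)
  have merge : ∀ F ∈ S, ∀ F' ∈ S, F ≠ F' → b < (bd G U F).card + (bd G U F').card := by
    intro F hF F' hF' hne
    by_contra hc
    have hb := (card_le_card (bd_union_subset (G := G) (U := U) (F := F) (F' := F'))).trans
      (card_union_le _ _)
    have hS' := hS.repl (old := {F, F'}) (new := {F ∪ F'})
      (fun F'' hF'' => by
        rw [mem_singleton.1 hF'']
        exact ⟨(hS.1 F hF).1.union (hS.1 F' hF').1 h (by omega), by omega⟩)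
      (fun u _ v _ _ F'' hF'' hu hv => by
        have : F'' ⊆ F ∪ F' := by
          rcases mem_insert.1 hF'' with rfl | h
          · exact subset_union_left
          · rw [mem_singleton.1 h]; exact subset_union_right
        exact ⟨_, mem_union_right _ (mem_singleton_self _), this hu, this hv⟩)
    have e1 := sum_repl {F ∪ F'} (pair hF hF') (fun F => (bd G U F).card)
    have e2 := sum_repl {F ∪ F'} (pair hF hF') (fun F => F.card + 1)
    rw [sum_pair hne, sum_singleton] at e1 e2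
    have := m2 _ hS' (by omega)
    have := card_union_le F F'
    omega
  have unc0 : ∀ F ∈ S, ∀ F' ∈ S, F ≠ F' →
      (bd G U (F \ (F' \ bd G U F'))).card ≤ (bd G U F).card → F \ (F' \ bd G U F') = F := by
    intro F hF F' hF' hne hle
    by_contra hc
    have hlt := card_lt_card (ssubset_of_subset_of_ne sdiff_subset hc)
    have h1 := hS.1 F hF
    have hS' := hS.repl (old := {F}) (new := {F \ (F' \ bd G U F')})
      (fun F'' hF'' => by
        rw [mem_singleton.1 hF'']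
        exact ⟨h1.1.sub h sdiff_subset (by omega), by omega⟩)
      (fun u hu v hv huv F'' hF'' huF hvF => by
        rw [mem_singleton.1 hF''] at huF hvF
        have hm : F' ∈ S \ {F} ∪ {F \ (F' \ bd G U F')} :=
          mem_union_left _ (mem_sdiff.2 ⟨hF', by simpa using hne.symm⟩)
        by_cases h2 : u ∈ F' \ bd G U F'
        · refine ⟨F', hm, (mem_sdiff.1 h2).1, ?_⟩
          rcases huv with rfl | huv
          · exact (mem_sdiff.1 h2).1
          · exact mem_of_not_mem_bd (mem_sdiff.1 h2).1 (mem_sdiff.1 h2).2 (hW hv) huv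
        by_cases h3 : v ∈ F' \ bd G U F'
        · refine ⟨F', hm, ?_, (mem_sdiff.1 h3).1⟩
          rcases huv with rfl | huv
          · exact (mem_sdiff.1 h3).1
          · exact mem_of_not_mem_bd (mem_sdiff.1 h3).1 (mem_sdiff.1 h3).2 (hW hu) huv.symm
        exact ⟨_, mem_union_right _ (mem_singleton_self _), mem_sdiff.2 ⟨huF, h2⟩,
          mem_sdiff.2 ⟨hvF, h3⟩⟩)
    have e1 := sum_repl {F \ (F' \ bd G U F')} (singleton_subset_iff.2 hF)
      (fun F => (bd G U F).card)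
    have e2 := sum_repl {F \ (F' \ bd G U F')} (singleton_subset_iff.2 hF) (fun F => F.card + 1)
    rw [sum_singleton, sum_singleton] at e1 e2
    have := m2 _ hS' (by omega)
    omega
  have unc : ∀ F ∈ S, ∀ F' ∈ S, F ≠ F' → F ∩ F' ⊆ bd G U F' := by
    have key : ∀ F ∈ S, ∀ F' ∈ S, F ≠ F' → F \ (F' \ bd G U F') = F := by
      intro F hF F' hF' hne
      have hp := posimod (G := G) (hS.1 F hF).1.1 (hS.1 F' hF').1.1
      by_cases h1 : (bd G U (F \ (F' \ bd G U F'))).card ≤ (bd G U F).card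
      · exact unc0 F hF F' hF' hne h1
      · have := unc0 F' hF' F hF hne.symm (by omega)
        rw [this] at hp
        omega
    intro F hF F' hF' hne v hv
    have h1 := (mem_inter.1 hv).1
    rw [← key F hF F' hF' hne] at h1
    by_contra hc
    exact (mem_sdiff.1 h1).2 (mem_sdiff.2 ⟨(mem_inter.1 hv).2, hc⟩)
  have ovl : ∀ F ∈ S, ∀ F' ∈ S, F ≠ F' → (F ∩ F').card ≤ 3 * t := by
    intro F hF F' hF' hne
    by_contra hc
    have h1 := hS.1 F hF
    have h2 := hS.1 F' hF'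
    have h3 : (F ∩ F').card ≤ (bd G U F ∩ bd G U F').card := card_le_card
      (subset_inter (by rw [inter_comm]; exact unc F' hF' F hF hne.symm) (unc F hF F' hF' hne))
    have h4 := card_union_add_card_inter (bd G U F) (bd G U F')
    have h5 := card_le_card (bd_union_subset (G := G) (U := U) (F := F) (F' := F'))
    obtain ⟨T, hT1, hT2, hT3⟩ := (h1.1.union h2.1 h (by omega)).exists_tight
    obtain ⟨Z, hZ, hZ'⟩ := not_linked_iff.1 (hno T hT2 (by omega))
    obtain ⟨P, x, p1, p2, p3, -, p5, p6⟩ := split3 (U := U) subset_rfl hZ'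
    have hS' := hS.repl (old := {F, F'}) (new := univ.biUnion fun i => {P i})
      (fun F'' hF'' => by
        obtain ⟨i, -, hi⟩ := mem_biUnion.1 hF''
        rw [mem_singleton.1 hi]
        have := p3 i
        have := p5 i
        exact ⟨hT2.1.sub h (p1 i) (by omega), by omega⟩)
      (fun u _ v _ huv F'' hF'' hu hv => by
        have : F'' ⊆ F ∪ F' := by
          rcases mem_insert.1 hF'' with rfl | h
          · exact subset_union_left
          · rw [mem_singleton.1 h]; exact subset_union_right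
        obtain ⟨i, h6, h7⟩ := p2 u (hT1 (this hu)) v (hT1 (this hv)) huv
        exact ⟨P i, mem_union_right _ (mem_biUnion.2 ⟨i, mem_univ _, mem_singleton_self _⟩), h6, h7⟩)
    have e1 := sum_repl (univ.biUnion fun i => {P i}) (pair hF hF') (fun F => (bd G U F).card)
    have e2 := sum_biUnion_le' univ (fun i => {P i}) (fun F => (bd G U F).card)
    simp only [sum_singleton, Fin.sum_univ_three] at e2 p6
    rw [sum_pair hne] at e1
    have := m1 _ hS'
    have := p3 0
    have := p3 1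
    have := p3 2
    omega
  have hR : S.card ≤ 2 * N + 1 := by
    have h1 : (S.filter fun F => 2 * (bd G U F).card ≤ b).card ≤ 1 := by
      rw [card_le_one]
      intro F hF F' hF'
      by_contra hne
      have := merge F (mem_filter.1 hF).1 F' (mem_filter.1 hF').1 hne
      have := (mem_filter.1 hF).2
      have := (mem_filter.1 hF').2
      omega
    have h2 := card_nsmul_le_sum (S.filter fun F => ¬ 2 * (bd G U F).card ≤ b)
      (fun F => 2 * (bd G U F).card) b (fun F hF => by have := (mem_filter.1 hF).2; omega)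
    have h3 : ∑ F ∈ S.filter (fun F => ¬ 2 * (bd G U F).card ≤ b), 2 * (bd G U F).card ≤
        ∑ F ∈ S, 2 * (bd G U F).card := sum_le_sum_of_subset (filter_subset _ _)
    rw [← mul_sum S] at h3
    have h4 := card_filter_add_card_filter_not (s := S) (fun F => 2 * (bd G U F).card ≤ b)
    have h5 := m1 _ hS0
    have h6 : (S.filter fun F => ¬ 2 * (bd G U F).card ≤ b).card * b ≤ (2 * N) * b := by
      rw [smul_eq_mul] at h2
      nlinarith
    have := Nat.le_of_mul_le_mul_right h6 hb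
    omega
  have rst : ∀ F ∈ S, (bd G U F).card ≤
      (bd G U W ∩ (F \ (S.erase F).biUnion id)).card + (2 * N + 1) * (3 * t) := by
    intro F hF
    have h1 := hS.1 F hF
    have h2 : (bd G U F).card ≤ (bd G U (F ∩ W)).card := by
      by_contra hc
      have hS' := hS.repl (old := {F}) (new := {F ∩ W})
        (fun F'' hF'' => by
          rw [mem_singleton.1 hF'']
          exact ⟨h1.1.sub h inter_subset_left (by omega), by omega⟩)
        (fun u hu v hv _ F'' hF'' huF hvF => by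
          rw [mem_singleton.1 hF''] at huF hvF
          exact ⟨_, mem_union_right _ (mem_singleton_self _), mem_inter.2 ⟨huF, hu⟩,
            mem_inter.2 ⟨hvF, hv⟩⟩)
      have e1 := sum_repl {F ∩ W} (singleton_subset_iff.2 hF) (fun F => (bd G U F).card)
      rw [sum_singleton, sum_singleton] at e1
      have := m1 _ hS'
      omega
    have h3 : bd G U (F ∩ W) ⊆ (bd G U W ∩ (F \ (S.erase F).biUnion id)) ∪
        (S.erase F).biUnion (fun F' => F ∩ F') := by
      intro v hv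
      obtain ⟨h4, u, hu, h5, h6⟩ := mem_bd.1 hv
      obtain ⟨hvF, hvW⟩ := mem_inter.1 h4
      by_cases ho : v ∈ (S.erase F).biUnion id
      · obtain ⟨F', h7, h8⟩ := mem_biUnion.1 ho
        exact mem_union_right _ (mem_biUnion.2 ⟨F', h7, mem_inter.2 ⟨hvF, h8⟩⟩)
      refine mem_union_left _ (mem_inter.2 ⟨mem_bd.2 ⟨hvW, u, hu, fun huW => ?_, h6⟩,
        mem_sdiff.2 ⟨hvF, ho⟩⟩)
      obtain ⟨F', h7, h8, h9⟩ := hS.2 v hvW u huW (Or.inr h6)
      refine ho (mem_biUnion.2 ⟨F', mem_erase.2 ⟨?_, h7⟩, h8⟩)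
      rintro rfl
      exact h5 (mem_inter.2 ⟨h9, huW⟩)
    have h4 := (card_le_card h3).trans (card_union_le _ _)
    have h5 := card_biUnion_le_card_mul (S.erase F) (fun F' => F ∩ F') (3 * t)
      (fun F' hF' => ovl F hF F' (mem_erase.1 hF').2 (mem_erase.1 hF').1.symm)
    have h6 : (S.erase F).card * (3 * t) ≤ (2 * N + 1) * (3 * t) :=
      Nat.mul_le_mul_right _ ((card_erase_le).trans hR)
    omega
  refine ⟨S, hS, (sum_le_sum rst).trans ?_⟩
  rw [sum_add_distrib, sum_const, smul_eq_mul, ← card_biUnion]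
  · refine add_le_add (card_le_card (biUnion_subset.2 fun F _ => inter_subset_left)) ?_
    rw [pow_two, mul_assoc]
    exact Nat.mul_le_mul_right _ hR
  · intro F hF F' hF' hne
    rw [Function.onFun, disjoint_left]
    intro v h1 h2
    exact (mem_sdiff.1 (mem_inter.1 h1).2).2 (mem_biUnion.2
      ⟨F', mem_erase.2 ⟨hne.symm, hF'⟩, (mem_sdiff.1 (mem_inter.1 h2).2).1⟩)

theorem exists_linked_tight [Fintype V] {σ ρ : ℕ} (h : Haven G U K β) (hσ : Sep G σ)
    (hρ : σ ≤ ρ * b) (hb : 2 ≤ b) (ht : (12 * ρ + 13) ^ 2 * (3 * t) ≤ b) (hK : 3 * b < K) :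
    ∃ F, Tight G U K β F ∧ (bd G U F).card ≤ 2 * b ∧ Linked G F (bd G U F) t := by
  by_contra hno
  push Not at hno
  have main : ∀ n, ∀ W : Finset V, W.card ≤ n → W ⊆ U → (bd G U W).card ≤ 2 * σ + 2 →
      ∃ S, Sys G U K β b W S ∧ ∑ F ∈ S, (bd G U F).card ≤ (bd G U W).card + b := by
    intro n
    induction n using Nat.strong_induction_on with
    | _ n ih =>
    intro W hn hW hbd
    have step : ∀ P : Fin 3 → Finset V, (∀ i, P i ⊂ W) →
        (∀ u ∈ W, ∀ v ∈ W, (u = v ∨ G.Adj u v) → ∃ i, u ∈ P i ∧ v ∈ P i) →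
        (∀ i, (bd G U (P i)).card ≤ 2 * σ + 2) →
        ∃ S, Sys G U K β b W S ∧ ∑ F ∈ S, (bd G U F).card ≤ (bd G U W).card + b := by
      intro P p1 p2 p3
      choose S hS1 hS2 using fun i => ih (P i).card ((card_lt_card (p1 i)).trans_le hn) (P i) le_rfl
        ((p1 i).subset.trans hW) (p3 i)
      have hS : Sys G U K β b W (univ.biUnion S) := by
        refine ⟨fun F hF => ?_, fun u hu v hv huv => ?_⟩
        · obtain ⟨i, -, hi⟩ := mem_biUnion.1 hF
          exact (hS1 i).1 F hi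
        · obtain ⟨i, h1, h2⟩ := p2 u hu v hv huv
          obtain ⟨F, h3, h4⟩ := (hS1 i).2 u h1 v h2 huv
          exact ⟨F, mem_biUnion.2 ⟨i, mem_univ _, h3⟩, h4⟩
      have e := sum_biUnion_le' univ S (fun F => (bd G U F).card)
      rw [Fin.sum_univ_three] at e
      obtain ⟨S', h1, h2⟩ := improve h hK (by omega) hW hno (N := 6 * ρ + 6) hS (by
        have := hS2 0
        have := hS2 1
        have := hS2 2
        have := p3 0
        have := p3 1
        have := p3 2
        nlinarith)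
      refine ⟨S', h1, h2.trans (Nat.add_le_add_left ?_ _)⟩
      rwa [show 2 * (6 * ρ + 6) + 1 = 12 * ρ + 13 by ring]
    by_cases c1 : W.card ≤ b
    · refine ⟨{W}, ⟨fun F hF => ?_, fun u hu v hv _ => ⟨W, mem_singleton_self _, hu, hv⟩⟩, by simp⟩
      rw [mem_singleton.1 hF]
      exact ⟨h.tiny hW (by omega), (card_le_card bd_subset).trans c1⟩
    by_cases c2 : W.card ≤ 2 * σ + 2
    · obtain ⟨x, hx, y, hy, z, hz, hxy, hxz, hyz⟩ := two_lt_card.1 (show 2 < W.card by omega)
      refine step ![W.erase x, W.erase y, W.erase z] (fun i => ?_) (fun u hu v hv _ => ?_)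
        (fun i => ?_)
      · fin_cases i
        · exact erase_ssubset hx
        · exact erase_ssubset hy
        · exact erase_ssubset hz
      · by_cases h1 : u ≠ x ∧ v ≠ x
        · exact ⟨0, mem_erase.2 ⟨h1.1, hu⟩, mem_erase.2 ⟨h1.2, hv⟩⟩
        by_cases h2 : u ≠ y ∧ v ≠ y
        · exact ⟨1, mem_erase.2 ⟨h2.1, hu⟩, mem_erase.2 ⟨h2.2, hv⟩⟩
        exact ⟨2, mem_erase.2 ⟨by grind, hu⟩, mem_erase.2 ⟨by grind, hv⟩⟩
      · refine (card_le_card bd_subset).trans (le_trans ?_ c2)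
        fin_cases i <;> exact card_erase_le
    · obtain ⟨X, h1, h2, h3⟩ := exists_subsuperset_card_eq (bd_subset (G := G) (U := U) (F := W))
        hbd (show 2 * σ + 2 ≤ W.card by omega)
      obtain ⟨Z, hZ, hZ'⟩ := not_linked_iff.1 (hσ X)
      obtain ⟨P, x, p1, p2, p3, p4, p5, -⟩ := split3 (W := W) (Z := Z) h1 (fun v hv =>
        le_trans (Nat.mul_le_mul_left _ (card_le_card (inter_subset_inter subset_rfl
          (comp_mono (sdiff_subset_sdiff (subset_univ _) subset_rfl)))))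
          (hZ' v (sdiff_subset_sdiff (subset_univ _) subset_rfl hv)))
      refine step P (fun i => ssubset_of_subset_of_ne (p1 i) fun e => ?_) p2 (fun i => ?_)
      · have := p4 i
        have := p5 i
        rw [e, inter_eq_left.2 h2] at *
        omega
      · have := p3 i
        have := p5 i
        omega
  have h0 : bd G U U = ∅ := by
    rw [eq_empty_iff_forall_notMem]
    intro v hv
    obtain ⟨-, u, h1, h2, -⟩ := mem_bd.1 hv
    exact h2 h1
  obtain ⟨S, hS, hS'⟩ := main _ U le_rfl subset_rfl (by simp [h0])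
  have hc : (S.biUnion (bd G U)).card < K := by
    have := card_biUnion_le (s := S) (t := bd G U)
    rw [h0, card_empty] at hS'
    omega
  obtain ⟨v, hv⟩ := (h.conn _ hc).1
  obtain ⟨F, hF, hvF, -⟩ := hS.2 v (h.subU hc hv) v (h.subU hc hv) (Or.inl rfl)
  exact disjoint_left.1 ((hS.1 F hF).1.disj h (subset_biUnion_of_mem _ hF) hc) hv hvF

end

end Pool.Agent.MP_7be75d_co

end MrgPart2

-- ======== part 3: formerly Pool.Agent.MP_7be75d_co.PoS
section MrgPart3

/-! Path-of-sets systems of constant length and linear width. -/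

namespace Pool.Agent.MP_7be75d_co

open Finset
open scoped Classical

/-- Data of a cluster. -/
structure CD (V ι : Type) where
  reg : Finset V
  β : Finset V → Finset V
  lane : ι → Finset V
  a : ι → V
  b : ι → V

/-- A region with a haven and disjoint lanes whose first ends are independent. -/
structure IsCluster {V ι : Type} [Fintype ι] (G : SimpleGraph V) (C : CD V ι) : Prop where
  hv : Haven G C.reg (Fintype.card ι) C.β
  sub : ∀ i, C.lane i ⊆ C.reg
  conn : ∀ i, Conn G (C.lane i)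
  disj : ∀ i j, i ≠ j → Disjoint (C.lane i) (C.lane j)
  ma : ∀ i, C.a i ∈ C.lane i
  mb : ∀ i, C.b i ∈ C.lane i
  indep : ∀ Z : Finset V, Z.card < Fintype.card ι →
    (univ.filter fun i => C.a i ∉ C.β Z).card ≤ Z.card

/-- A path-of-sets system of length `l`. -/
structure PoS {V ι : Type} [Fintype ι] (G : SimpleGraph V) (l : ℕ) (C : ℕ → CD V ι) : Prop where
  cl : ∀ j < l, IsCluster G (C j)
  disj : ∀ i < l, ∀ j < l, i ≠ j → Disjoint (C i).reg (C j).reg
  adj : ∀ j, j + 1 < l → ∀ i, G.Adj ((C j).b i) ((C (j + 1)).a i)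

theorem PoS.shift {V ι : Type} [Fintype ι] {G : SimpleGraph V} {l : ℕ} {C : ℕ → CD V ι}
    (h : PoS G l C) (k l' : ℕ) (hk : k + l' ≤ l) : PoS G l' (fun j => C (k + j)) :=
  ⟨fun j hj => h.cl _ (by omega), fun i hi j hj hij => h.disj _ (by omega) _ (by omega) (by omega),
    fun j hj i => h.adj (k + j) (by omega) i⟩

theorem card_meet_le {V ι : Type} {L : ι → Finset V} (s : Finset ι) (Z : Finset V)
    (hd : ∀ i ∈ s, ∀ j ∈ s, i ≠ j → Disjoint (L i) (L j)) :
    (s.filter fun i => ¬ Disjoint (L i) Z).card ≤ Z.card := by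
  have : ∀ i, ∃ S : Finset V, ¬ Disjoint (L i) Z → ∃ v ∈ L i, v ∈ Z ∧ S = {v} := by
    intro i
    by_cases h : Disjoint (L i) Z
    · exact ⟨∅, fun h' => absurd h h'⟩
    · obtain ⟨v, h1, h2⟩ := not_disjoint_iff.1 h
      exact ⟨{v}, fun _ => ⟨v, h1, h2, rfl⟩⟩
  choose S hS using this
  have h1 : ((s.filter fun i => ¬ Disjoint (L i) Z).biUnion S).card ≤ Z.card := by
    refine card_le_card (biUnion_subset.2 fun i hi => ?_)
    obtain ⟨v, -, h2, h3⟩ := hS i (mem_filter.1 hi).2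
    rw [h3]; simpa using h2
  rw [card_biUnion] at h1
  · refine le_trans ?_ h1
    rw [card_eq_sum_ones]
    refine sum_le_sum fun i hi => ?_
    obtain ⟨v, -, -, h3⟩ := hS i (mem_filter.1 hi).2
    simp [h3]
  · intro i hi j hj hij
    obtain ⟨v, h1, -, h3⟩ := hS i (mem_filter.1 hi).2
    obtain ⟨v', h1', -, h3'⟩ := hS j (mem_filter.1 hj).2
    rw [Function.onFun, h3, h3', disjoint_singleton]
    rintro rfl
    exact disjoint_left.1 (hd i (mem_filter.1 hi).1 j (mem_filter.1 hj).1 hij) h1 h1'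

theorem IsCluster.two {V ι : Type} [Fintype ι] {G : SimpleGraph V} {C : CD V ι}
    (h : IsCluster G C) {Z : Finset V} (hZ : Z.card < Fintype.card ι) :
    (univ.filter fun i => ¬ C.lane i ⊆ C.β Z).card ≤ 2 * Z.card := by
  have h1 := h.indep Z hZ
  have h2 := card_meet_le (L := C.lane) univ Z (fun i _ j _ => h.disj i j)
  have h3 : (univ.filter fun i => ¬ C.lane i ⊆ C.β Z) ⊆ (univ.filter fun i => C.a i ∉ C.β Z) ∪
      univ.filter fun i => ¬ Disjoint (C.lane i) Z := by
    intro i hi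
    simp only [mem_filter, mem_union, mem_univ, true_and] at hi ⊢
    by_contra hc
    push Not at hc
    exact hi (h.hv.absorb hZ (h.conn i) (h.sub i) hc.2 (h.ma i) hc.1)
  have := (card_le_card h3).trans (card_union_le _ _)
  omega

theorem exists_not_mem_of_card_lt {ι : Type} {s t : Finset ι} (h : t.card < s.card) :
    ∃ i ∈ s, i ∉ t := exists_mem_notMem_of_card_lt_card h

/-- The constant lost when passing to a linked small set. -/
def mu (ρ : ℕ) : ℕ := 6 * ((12 * (6 * ρ) + 13) ^ 2 * 3) + 8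

theorem mu_pos (ρ : ℕ) : 0 < mu ρ := by unfold mu; omega

section

variable {V : Type} {G : SimpleGraph V} {U : Finset V} {K : ℕ} {β : Finset V → Finset V}

theorem descend [Fintype V] {σ ρ : ℕ} (h : Haven G U K β) (hσ : Sep G σ) (hρ : σ ≤ ρ * K)
    (hK : mu ρ ≤ K) : ∃ F K' β', Tight G U K β F ∧ 2 * (bd G U F).card ≤ K ∧ Haven G F K' β' ∧
      (∀ Z : Finset V, Z.card < K' → (bd G U F).card < 2 * (bd G U F ∩ β' Z).card) ∧
      K ≤ mu ρ * K' := by
  unfold mu at *
  set c := (12 * (6 * ρ) + 13) ^ 2 with hc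
  have hc0 : 0 < c * 3 := by positivity
  have h1 := Nat.div_mul_le_self (K / 4) (c * 3)
  have h2 := Nat.lt_mul_div_succ (K / 4) hc0
  obtain ⟨F, hF, hb, hL⟩ := exists_linked_tight (b := K / 4) (ρ := 6 * ρ) (t := K / 4 / (c * 3))
    h hσ (hρ.trans (by
      have : K ≤ 6 * (K / 4) := by omega
      nlinarith)) (by omega) (by rw [← hc]; nlinarith) (by omega)
  obtain ⟨β', h3, h4⟩ := hL.haven
  refine ⟨F, _, β', hF, by omega, h3, h4, ?_⟩
  have : K ≤ 6 * (K / 4) := by omega
  nlinarith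

theorem annulus [Fintype V] {ι : Type} [Fintype ι] {F X : Finset V} (h : Haven G U K β)
    (hF : Tight G U K β F) (hb : 2 * (bd G U F).card ≤ K)
    (hX : ∀ Z : Finset V, Z.card < K → ∃ x ∈ X, x ∈ β Z) {p : ι → V}
    (hp : Function.Injective p) (hp' : ∀ i, p i ∈ bd G U F) :
    ∃ (β' : Finset V → Finset V) (P : ι → Finset V) (e : ι → V),
      Haven G ((U \ F) ∪ univ.image p) (Fintype.card ι) β' ∧
      (∀ Z : Finset V, Z.card < Fintype.card ι →
        (univ.filter fun i => p i ∉ β' Z).card ≤ Z.card) ∧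
      (∀ i, P i ⊆ (U \ F) ∪ univ.image p) ∧ (∀ i, Conn G (P i)) ∧
      (∀ i j, i ≠ j → Disjoint (P i) (P j)) ∧ (∀ i, p i ∈ P i) ∧
      ∀ i, e i ∈ P i ∧ e i ∈ X ∧ e i ∉ F := by
  have hT : univ.image p ⊆ bd G U F := image_subset_iff.2 fun i _ => hp' i
  have hw : Fintype.card ι ≤ (bd G U F).card := by
    have := card_le_card hT
    rwa [card_image_of_injective _ hp] at this
  obtain ⟨β', h1, h2⟩ := hF.outside h hT (K' := Fintype.card ι) (by omega)
  have hi : ∀ Z : Finset V, Z.card < Fintype.card ι →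
      (univ.filter fun i => p i ∉ β' Z).card ≤ Z.card := by
    intro Z hZ
    refine le_trans (card_le_card_of_injOn p (fun i hi => ?_) hp.injOn) (h2 Z hZ).2
    exact mem_coe.2 (mem_sdiff.2 ⟨mem_image_of_mem _ (mem_univ _), (mem_filter.1 hi).2⟩)
  obtain ⟨P, hP, hP'⟩ := menger_from (G := G) (U := (U \ F) ∪ univ.image p) (B := X \ F) p (by
    intro Z hZ
    have hc : (Z ∪ bd G U F).card < K := by have := card_union_le Z (bd G U F); omega
    obtain ⟨i, -, hi'⟩ := exists_not_mem_of_card_lt ((hi Z hZ).trans_lt hZ)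
    obtain ⟨x, hx, hx'⟩ := hX _ hc
    refine h1.joined hZ ⟨p i, mem_image_of_mem _ (mem_univ _), by simpa using hi'⟩
      ⟨x, mem_sdiff.2 ⟨hx, ?_⟩, (h2 Z hZ).1 hx'⟩
    exact disjoint_left.1 (hF.1.disj h subset_union_right hc) hx')
  choose e he1 he2 using hP.right
  exact ⟨β', P, e, h1, hi, hP.sub, hP.conn, hP.disj, hP',
    fun i => ⟨he2 i, (mem_sdiff.1 (he1 i)).1, (mem_sdiff.1 (he1 i)).2⟩⟩

theorem Conn.cut {S : Finset V} {x y : V} (h : Conn G S) (hx : x ∈ S) (hy : y ∈ S) (hxy : x ≠ y) :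
    ∃ S' ⊆ S.erase x, Conn G S' ∧ y ∈ S' ∧ ∃ z ∈ S', G.Adj x z := by
  have hy' : y ∈ S.erase x := mem_erase.2 ⟨hxy.symm, hy⟩
  obtain ⟨u, v, hu, hv, -, hvS, huv⟩ := h.exit hy (self_mem_comp (G := G) hy') hx
    (fun hc => by simpa using comp_subset hc)
  have : v = x := by
    by_contra hc
    exact hv (comp_closed hu (mem_erase.2 ⟨hc, hvS⟩) huv)
  subst this
  exact ⟨_, comp_subset, comp_conn hy', self_mem_comp hy', u, hu, huv.symm⟩

end

theorem exists_pos (l : ℕ) : ∀ ρ : ℕ, ∃ lam : ℕ, ∀ {V ι : Type} [Fintype V] [Fintype ι]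
    {G : SimpleGraph V} {U X : Finset V} {K σ : ℕ} {β : Finset V → Finset V},
    Haven G U K β → Sep G σ → σ ≤ ρ * K → (∀ Z : Finset V, Z.card < K → ∃ x ∈ X, x ∈ β Z) →
    lam * (Fintype.card ι + 1) ≤ K →
    ∃ (C : ℕ → CD V ι) (e : ι → V), PoS G l C ∧ (∀ j < l, (C j).reg ⊆ U) ∧
      Function.Injective e ∧ (∀ i, e i ∈ X) ∧ ∀ j, j + 1 = l → (C j).b = e := by
  induction l with
  | zero =>
    intro ρ
    refine ⟨1, fun {V ι} _ _ {G U X K σ β} h _ _ hX hK => ?_⟩
    have hc : K ≤ X.card := by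
      by_contra hc
      obtain ⟨x, h1, h2⟩ := hX X (by omega)
      exact h.not_mem (by omega) h2 h1
    obtain ⟨e⟩ := Function.Embedding.nonempty_of_card_le (α := ι) (β := X)
      (by rw [Fintype.card_coe]; omega)
    exact ⟨fun _ => ⟨∅, fun _ => ∅, fun _ => ∅, fun i => e i, fun i => e i⟩, fun i => e i,
      ⟨by omega, by omega, by omega⟩, by omega,
      fun i j hij => e.injective (Subtype.ext hij), fun i => (e i).2, by omega⟩
  | succ l ih =>
    intro ρ
    obtain ⟨lam, hlam⟩ := ih (ρ * mu ρ * mu (ρ * mu ρ))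
    refine ⟨mu ρ * (mu (ρ * mu ρ) * (lam + 1)), fun {V ι} _ _ {G U X K σ β} h hσ hρ hX hK => ?_⟩
    have m1 := mu_pos ρ
    have m2 := mu_pos (ρ * mu ρ)
    obtain ⟨F1, K1, β1, t1, b1, h1, x1, k1⟩ := descend h hσ hρ
      (le_trans (Nat.le_mul_of_pos_right _ (by positivity)) ((mul_assoc _ _ _).symm.trans_le hK))
    have k1' : mu (ρ * mu ρ) * ((lam + 1) * (Fintype.card ι + 1)) ≤ K1 :=
      Nat.le_of_mul_le_mul_left (by simpa only [mul_assoc] using hK.trans k1) m1
    have hρ1 : σ ≤ ρ * mu ρ * K1 := hρ.trans (by rw [mul_assoc]; exact Nat.mul_le_mul_left _ k1)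
    obtain ⟨F2, K2, β2, t2, b2, h2, x2, k2⟩ := descend h1 hσ hρ1
      (le_trans (Nat.le_mul_of_pos_right _ (by positivity)) k1')
    have k2' : (lam + 1) * (Fintype.card ι + 1) ≤ K2 := Nat.le_of_mul_le_mul_left (k1'.trans k2) m2
    have hρ2 : σ ≤ ρ * mu ρ * mu (ρ * mu ρ) * K2 :=
      hρ1.trans (by rw [mul_assoc _ _ K2]; exact Nat.mul_le_mul_left _ k2)
    have maj : ∀ {X B : Finset V}, X.card < 2 * (X ∩ B).card → ∃ x ∈ X, x ∈ B := fun h => by
      obtain ⟨x, hx⟩ := card_pos.1 (Nat.pos_of_mul_pos_left (Nat.zero_lt_of_lt h))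
      exact ⟨x, (mem_inter.1 hx).1, (mem_inter.1 hx).2⟩
    obtain ⟨C, e, hC, hCs, he, he', heb⟩ := hlam (ι := ι) h2 hσ hρ2 (fun Z hZ => maj (x2 Z hZ))
      (le_trans (Nat.mul_le_mul_right _ (Nat.le_succ _)) k2')
    obtain ⟨-, P, x, -, -, p1, p2, p3, p4, p5⟩ :=
      annulus h1 t2 b2 (fun Z hZ => maj (x1 Z hZ)) he he'
    have hx : Function.Injective x := by
      intro i j hij
      by_contra hne
      exact disjoint_left.1 (p3 i j hne) (p5 i).1 (hij ▸ (p5 j).1)
    choose P' r1 r2 r3 a r4 r5 using fun i => (p2 i).cut (p4 i) (p5 i).1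
      (fun hc => (p5 i).2.2 (hc ▸ bd_subset (he' i)))
    have r6 : ∀ i, P' i ⊆ P i := fun i => (r1 i).trans (erase_subset _ _)
    have r7 : ∀ i, P' i ⊆ F1 \ F2 := by
      intro i v hv
      rcases mem_union.1 (p1 i (r6 i hv)) with h | h
      · exact h
      · obtain ⟨j, -, rfl⟩ := mem_image.1 h
        by_cases hij : i = j
        · subst hij
          exact absurd (r1 i hv) (notMem_erase _ _)
        · exact absurd (p4 j) (disjoint_left.1 (p3 i j hij) (r6 i hv))
    obtain ⟨β', Q, y, h', i', q1, q2, q3, q4, q5⟩ := annulus h t1 b1 hX hx (fun i => (p5 i).2.1)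
    have hsub : (U \ F1) ∪ univ.image x ⊆ (U \ F1) ∪ univ.biUnion P' :=
      union_subset_union subset_rfl (image_subset_iff.2 fun i _ =>
        mem_biUnion.2 ⟨i, mem_univ _, r3 i⟩)
    obtain ⟨β'', h'', hβ⟩ := h'.enlarge hsub
    have r8 : ∀ i v, v ∈ P' i → v ∈ (U \ F1) ∪ univ.image x → v = x i := by
      intro i v hv hv'
      rcases mem_union.1 hv' with h | h
      · exact absurd (mem_sdiff.1 (r7 i hv)).1 (mem_sdiff.1 h).2
      · obtain ⟨j, -, rfl⟩ := mem_image.1 h
        by_contra hc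
        exact disjoint_left.1 (p3 i j fun e => hc (by rw [e])) (r6 i hv) (p5 j).1
    let N : CD V ι := ⟨(U \ F1) ∪ univ.biUnion P', β'', fun i => P' i ∪ Q i, a, y⟩
    have hN : IsCluster G N := by
      refine ⟨h'', fun i => union_subset ((subset_biUnion_of_mem P' (mem_univ i)).trans
        subset_union_right) ((q1 i).trans hsub), fun i => (r2 i).union (q2 i) (r3 i) (q4 i),
        fun i j hij => ?_, fun i => mem_union_left _ (r4 i), fun i => mem_union_right _ (q5 i).1,
        fun Z hZ => ?_⟩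
      · have key : ∀ i j, i ≠ j → Disjoint (P' i) (Q j) := by
          intro i j hij
          rw [disjoint_left]
          intro v h1 h2
          exact disjoint_left.1 (q3 i j hij) (q4 i) (r8 i v h1 (q1 j h2) ▸ h2)
        simp only [N, disjoint_union_left, disjoint_union_right]
        exact ⟨⟨(p3 i j hij).mono (r6 i) (r6 j), (key j i hij.symm).symm⟩, key i j hij, q3 i j hij⟩
      · set U' := (U \ F1) ∪ univ.image x
        have hZ1 : (Z ∩ U').card < Fintype.card ι := (card_le_card inter_subset_left).trans_lt hZ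
        have s1 : β' (Z ∩ U') ⊆ β'' Z := by
          obtain ⟨v, hv⟩ := (h'.conn Z hZ).1
          refine h''.absorb hZ (h'.conn _ hZ1) ((h'.subU hZ1).trans hsub) ?_
            (h'.mono _ _ inter_subset_left hZ hv) (hβ Z hZ hv)
          rw [disjoint_left]
          exact fun u hu huZ => h'.not_mem hZ1 hu (mem_inter.2 ⟨huZ, h'.subU hZ1 hu⟩)
        have s2 : (univ.filter fun i => a i ∉ β'' Z) ⊆ (univ.filter fun i => x i ∉ β' (Z ∩ U')) ∪
            univ.filter fun i => ¬ Disjoint (P' i) (Z \ U') := by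
          intro i hi
          simp only [mem_filter, mem_union, mem_univ, true_and] at hi ⊢
          by_contra hc
          push Not at hc
          refine hi (h''.absorb hZ (r2 i) ((subset_biUnion_of_mem P' (mem_univ i)).trans
            subset_union_right) ?_ (r3 i) (s1 hc.1) (r4 i))
          rw [disjoint_left]
          intro v hv hvZ
          by_cases hvU : v ∈ U'
          · exact h'.not_mem hZ1 hc.1 (r8 i v hv hvU ▸ mem_inter.2 ⟨hvZ, hvU⟩)
          · exact disjoint_left.1 hc.2 hv (mem_sdiff.2 ⟨hvZ, hvU⟩)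
        have s3 := (card_le_card s2).trans (card_union_le _ _)
        have s4 := i' _ hZ1
        have s5 := card_meet_le (L := P') univ (Z \ U')
          (fun i _ j _ hij => (p3 i j hij).mono (r6 i) (r6 j))
        have s6 := card_sdiff_add_card_inter Z U'
        show (univ.filter fun i => a i ∉ β'' Z).card ≤ Z.card
        omega
    have hNd : ∀ j < l, Disjoint (C j).reg N.reg := by
      intro j hj
      rw [disjoint_left]
      intro v hv hv'
      rcases mem_union.1 hv' with h | h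
      · exact (mem_sdiff.1 h).2 (t2.1.1 (hCs j hj hv))
      · obtain ⟨i, -, hi⟩ := mem_biUnion.1 h
        exact (mem_sdiff.1 (r7 i hi)).2 (hCs j hj hv)
    have u1 : ∀ j < l, Function.update C l N j = C j := fun j hj => Function.update_of_ne hj.ne _ _
    have u2 : Function.update C l N l = N := Function.update_self _ _ _
    refine ⟨Function.update C l N, y, ⟨fun j hj => ?_, fun i hi j hj hij => ?_, fun j hj i => ?_⟩,
      fun j hj => ?_, fun i j hij => ?_, fun i => (q5 i).2.1, fun j hj => ?_⟩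
    · rcases Nat.lt_succ_iff_lt_or_eq.1 hj with hj | rfl
      · rw [u1 j hj]; exact hC.cl j hj
      · rw [u2]; exact hN
    · rcases Nat.lt_succ_iff_lt_or_eq.1 hi with hi | rfl <;>
        rcases Nat.lt_succ_iff_lt_or_eq.1 hj with hj | rfl
      · rw [u1 i hi, u1 j hj]; exact hC.disj i hi j hj hij
      · rw [u1 i hi, u2]; exact hNd i hi
      · rw [u1 j hj, u2]; exact (hNd j hj).symm
      · exact absurd rfl hij
    · rcases Nat.lt_succ_iff_lt_or_eq.1 hj with hj | hj
      · rw [u1 j (by omega), u1 _ hj]; exact hC.adj j hj i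
      · rw [u1 j (by omega), heb j hj, hj, u2]; exact r5 i
    · rcases Nat.lt_succ_iff_lt_or_eq.1 hj with hj | rfl
      · rw [u1 j hj]; exact (hCs j hj).trans (t2.1.1.trans t1.1.1)
      · rw [u2]
        exact union_subset sdiff_subset
          (biUnion_subset.2 fun i _ => (r7 i).trans (sdiff_subset.trans t1.1.1))
    · by_contra hne
      exact disjoint_left.1 (q3 i j hne) (q5 i).1 (hij ▸ (q5 j).1)
    · obtain rfl : j = l := by omega
      rw [u2]

end Pool.Agent.MP_7be75d_co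

end MrgPart3

-- marker of a merged file
example : 731051 + 577020 = 731051 + 577020 := rfl
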