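import Mathlib
import Pool.Agent.MP_7be75d_co.Main

namespace Pool.Agent.Results.MP_7be75d_co.Split

open Pool.Agent.MP_7be75d_co

/-- For every `r` there is `g` such that every finite graph of tree-width at least `g k` has `r`
pairwise disjoint vertex sets, each inducing a subgraph of tree-width at least `k`. -/
theorem result (r : ℕ) : ∃ g : ℕ, ∀ (V : Type) [Fintype V] (G : SimpleGraph V) (k : ℕ),
    g * k ≤ treewidth G → ∃ U : Fin r → Set V, (∀ i j, i ≠ j → Disjoint (U i) (U j)) ∧
      ∀ i, k ≤ treewidth (G.induce (U i)) := by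
  obtain ⟨g, hg⟩ := split r
  refine ⟨g, fun V _ G k h => ?_⟩
  rcases Nat.eq_zero_or_pos k with rfl | hk
  · exact ⟨fun _ => ∅, fun _ _ _ => disjoint_bot_left, fun _ => Nat.zero_le _⟩
  · exact hg V G k hk h

end Pool.Agent.Results.MP_7be75d_co.Split
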